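import Pool.Agent.H82.TQ.Defs

/-!
# TQ A0: arithmetic of the level thresholds (write `j = 4 k + i`)
-/

set_option autoImplicit false

open Finset Classical

namespace H82.TQ

private theorem A0_tau_form (k i : ℕ) (hi : i < 4) : tau (4 * k + i) = 2 ^ k * (4 + i) := by
  unfold tau
  have h1 : (4 * k + i) / 4 = k := by omega
  have h2 : (4 * k + i) % 4 = i := by omega
  rw [h1, h2]

/-- the values near `j = 4 k + i` -/
private theorem A0_cases (j : ℕ) : ∃ m : ℕ, 1 ≤ m ∧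
    ((tau j = 4 * m ∧ tau (j + 1) = 5 * m ∧ tau (j + 2) = 6 * m) ∨
     (tau j = 5 * m ∧ tau (j + 1) = 6 * m ∧ tau (j + 2) = 7 * m) ∨
     (tau j = 6 * m ∧ tau (j + 1) = 7 * m ∧ tau (j + 2) = 8 * m) ∨
     (tau j = 7 * m ∧ tau (j + 1) = 8 * m ∧ tau (j + 2) = 10 * m)) := by
  obtain ⟨k, i, hi, rfl⟩ : ∃ k i, i < 4 ∧ j = 4 * k + i :=
    ⟨j / 4, j % 4, by omega, by omega⟩
  refine ⟨2 ^ k, Nat.one_le_two_pow, ?_⟩
  interval_cases i
  · left
    refine ⟨?_, ?_, ?_⟩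
    · rw [A0_tau_form k 0 (by omega)]; ring
    · rw [show 4 * k + 0 + 1 = 4 * k + 1 by ring, A0_tau_form k 1 (by omega)]; ring
    · rw [show 4 * k + 0 + 2 = 4 * k + 2 by ring, A0_tau_form k 2 (by omega)]; ring
  · right; left
    refine ⟨?_, ?_, ?_⟩
    · rw [A0_tau_form k 1 (by omega)]; ring
    · rw [show 4 * k + 1 + 1 = 4 * k + 2 by ring, A0_tau_form k 2 (by omega)]; ring
    · rw [show 4 * k + 1 + 2 = 4 * k + 3 by ring, A0_tau_form k 3 (by omega)]; ring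
  · right; right; left
    refine ⟨?_, ?_, ?_⟩
    · rw [A0_tau_form k 2 (by omega)]; ring
    · rw [show 4 * k + 2 + 1 = 4 * k + 3 by ring, A0_tau_form k 3 (by omega)]; ring
    · rw [show 4 * k + 2 + 2 = 4 * (k + 1) + 0 by ring, A0_tau_form (k + 1) 0 (by omega), pow_succ]
      ring
  · right; right; right
    refine ⟨?_, ?_, ?_⟩
    · rw [A0_tau_form k 3 (by omega)]; ring
    · rw [show 4 * k + 3 + 1 = 4 * (k + 1) + 0 by ring, A0_tau_form (k + 1) 0 (by omega), pow_succ]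
      ring
    · rw [show 4 * k + 3 + 2 = 4 * (k + 1) + 1 by ring, A0_tau_form (k + 1) 1 (by omega), pow_succ]
      ring

theorem tau_pos (j : ℕ) : 4 ≤ tau j := by
  obtain ⟨m, hm, h⟩ := A0_cases j
  omega

theorem tau_lt (j : ℕ) : tau j < tau (j + 1) := by
  obtain ⟨m, hm, h⟩ := A0_cases j
  omega

theorem tau_strictMono : StrictMono tau := strictMono_nat_of_lt_succ tau_lt

theorem tau_two_step (j : ℕ) : 2 * tau (j + 2) ≤ 3 * tau j := by
  obtain ⟨m, hm, h⟩ := A0_cases j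
  omega

theorem tau_ratio (j : ℕ) : 2 * tau (j + 2) ≤ 21 * (tau (j + 1) - tau j) := by
  obtain ⟨m, hm, h⟩ := A0_cases j
  omega

/-- at most two `j ≥ 1` with `τ(j-1) < ω ≤ τ(j+1)` -/
theorem tau_two (ω : ℕ) (A : Finset ℕ)
    (hA : ∀ j ∈ A, 1 ≤ j ∧ tau (j - 1) < ω ∧ ω ≤ tau (j + 1)) : A.card ≤ 2 := by
  rcases A.eq_empty_or_nonempty with rfl | hne
  · simp
  have hsub : A ⊆ {A.min' hne, A.min' hne + 1} := by
    intro j hj
    have h1 := hA _ (A.min'_mem hne)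
    have h2 := hA j hj
    have h3 := A.min'_le j hj
    rw [mem_insert, mem_singleton]
    by_contra hcon
    push Not at hcon
    have h4 : tau (A.min' hne + 1) ≤ tau (j - 1) :=
      tau_strictMono.monotone (by omega)
    omega
  exact (card_le_card hsub).trans card_le_two

private theorem A0_unbounded (R : ℕ) : ∃ J, 1 ≤ J ∧ R ≤ tau (J + 1) :=
  ⟨R + 1, by omega, (by omega : R ≤ R + 1 + 1).trans (tau_strictMono.le_apply)⟩

/-- every number larger than `τ 1 = 5` is in a unique interval `(τ j, τ(j+1)]`, `j ≥ 1` -/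
theorem tau_exists (ω : ℕ) (h : tau 1 < ω) : ∃ j, 1 ≤ j ∧ tau j < ω ∧ ω ≤ tau (j + 1) := by
  have hex : ∃ J, ω ≤ tau (J + 1) := by
    obtain ⟨J, _, hJ⟩ := A0_unbounded ω
    exact ⟨J, hJ⟩
  have hspec := Nat.find_spec hex
  have hne : Nat.find hex ≠ 0 := by
    intro h0
    rw [h0] at hspec
    exact absurd hspec (not_le.2 h)
  obtain ⟨m, hm⟩ := Nat.exists_eq_succ_of_ne_zero hne
  refine ⟨Nat.find hex, by omega, ?_, hspec⟩
  have hmin := Nat.find_min hex (m := m) (by omega)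
  rw [hm]
  exact not_le.1 hmin

/-- the thresholds are unbounded -/
theorem tau_unbounded (R : ℕ) : ∃ J, 1 ≤ J ∧ R ≤ tau (J + 1) := A0_unbounded R

end H82.TQ
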