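import Pool.Agent.H82.TQ.Defs

/-!
# TQ A1: existence of a rooted minimum spanning tree with the cut property

Proof sketch. Induction on the number of vertices, with the statement: for every (nonempty) finite set
`U` of vertices [or finite type], every symmetric `d` and every `r ∈ U` there is such a tree on `U` with root `r`.
Let `b ≠ r` minimise `d r b`. Remove `b`, with `d' r x = min (d r x) (d b x)` (and symmetric), `d' = d` elsewhere.
Take the tree `T'` for `d'` with root `r`. Put `par b = r`, and for `x ≠ r, b`: `par x = par' x` if `par' x ≠ r`;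
if `par' x = r` then `par x = r` if `d r x ≤ d b x` and `par x = b` otherwise (so `d x (par x) = d' x (par' x)`).
The descendants of `x ≠ b, r` are the same as in `T'`. Cut property for `x ≠ b`: map `b` to `r`, `d' ≤ d`.
Cut property for `b`: let `u` be a descendant of `b`, `v` not. If `v = r` then `d u r ≥ d r b` by the choice of `b`.
Otherwise `v` is a descendant of a child `x' ≠ b` of `r`, `u` is not, so `d u v ≥ d x' r ≥ d r b`.
(Rank: new rank of `b` = 1, rank of the other vertices = old rank + 1 (root 0), say.)
Any other proof (Prim, Kruskal, minimum weight spanning tree and exchange) is fine.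
-/

set_option autoImplicit false

open Finset Classical

namespace H82.TQ

private theorem reach_root {V : Type} (U : Finset V) (r : V) (par : V → V) (rank : V → ℕ)
    (h : ∀ x ∈ U, x ≠ r → par x ∈ U ∧ rank (par x) < rank x) :
    ∀ x ∈ U, ∃ k, par^[k] x = r := by
  intro x
  obtain ⟨n, hn⟩ : ∃ n, rank x = n := ⟨_, rfl⟩
  induction n using Nat.strong_induction_on generalizing x with
  | _ n ih =>
    intro hx
    by_cases hxr : x = r
    · exact ⟨0, hxr⟩
    · obtain ⟨h1, h2⟩ := h x hx hxr
      obtain ⟨k, hk⟩ := ih (rank (par x)) (by omega) (par x) rfl h1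
      exact ⟨k + 1, by rw [Function.iterate_succ_apply]; exact hk⟩

private theorem iter_mem {V : Type} (U : Finset V) (par : V → V) (h : ∀ x ∈ U, par x ∈ U) :
    ∀ k, ∀ x ∈ U, par^[k] x ∈ U := by
  intro k
  induction k with
  | zero => exact fun x hx => hx
  | succ k ih =>
    intro x hx
    rw [Function.iterate_succ_apply]
    exact ih _ (h x hx)

private theorem iter_fix {V : Type} (par : V → V) (r : V) (h : par r = r) :
    ∀ k, par^[k] r = r := fun k => Function.iterate_fixed h k

private theorem mtree_aux {V : Type} : ∀ (n : ℕ) (U : Finset V) (d : V → V → ℕ)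
    (_ : ∀ u v, d u v = d v u) (r : V) (_ : r ∈ U) (_ : U.card = n + 1),
    ∃ (par : V → V) (rank : V → ℕ), par r = r ∧
      (∀ x ∈ U, x ≠ r → par x ∈ U ∧ rank (par x) < rank x) ∧
      (∀ x ∈ U, x ≠ r → ∀ u ∈ U, ∀ v ∈ U, (∃ k, par^[k] u = x) → (¬ ∃ k, par^[k] v = x) →
        d x (par x) ≤ d u v) := by
  intro n
  induction n with
  | zero =>
    intro U d hs r hr hU
    obtain ⟨a, ha⟩ := Finset.card_eq_one.1 hU
    rw [ha, Finset.mem_singleton] at hr
    refine ⟨fun _ => r, fun _ => 0, rfl, ?_, ?_⟩
    · intro x hx hxr
      rw [ha, Finset.mem_singleton] at hx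
      exact absurd (hx.trans hr.symm) hxr
    · intro x hx hxr
      rw [ha, Finset.mem_singleton] at hx
      exact absurd (hx.trans hr.symm) hxr
  | succ n ih =>
    intro U d hs r hr hU
    have hne : (U.erase r).Nonempty := by
      rw [← Finset.card_pos, Finset.card_erase_of_mem hr]
      omega
    obtain ⟨b, hb, hbmin⟩ := Finset.exists_min_image (U.erase r) (fun x => d r x) hne
    obtain ⟨hbr, hbU⟩ := Finset.mem_erase.1 hb
    have hmin : ∀ x ∈ U, x ≠ r → d r b ≤ d r x := fun x hx hxr =>
      hbmin x (Finset.mem_erase.2 ⟨hxr, hx⟩)
    -- the contracted matrix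
    set d' : V → V → ℕ := fun x y =>
      if x = r ∧ y ≠ r then min (d r y) (d b y)
      else if y = r ∧ x ≠ r then min (d x r) (d x b) else d x y with hd'
    have hs' : ∀ u v, d' u v = d' v u := by
      intro u v
      simp only [hd']
      by_cases hu : u = r <;> by_cases hv : v = r
      · simp [hu, hv]
      · simp [hu, hv, hs r v, hs b v]
      · simp [hu, hv, hs r u, hs b u]
      · simp [hu, hv, hs u v]
    have hd1 : ∀ x, x ≠ r → d' x r = min (d x r) (d x b) := by
      intro x hx
      simp [hd', hx]
    have hd2 : ∀ x y, x ≠ r → y ≠ r → d' x y = d x y := by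
      intro x y hx hy
      simp [hd', hx, hy]
    have hrU' : r ∈ U.erase b := Finset.mem_erase.2 ⟨fun h => hbr h.symm, hr⟩
    obtain ⟨par', rank', hpr, hpar, hcut⟩ := ih (U.erase b) d' hs' r hrU' (by
      rw [Finset.card_erase_of_mem hbU]
      omega)
    set par : V → V := fun x => if x = b then r else if x = r then r else
      if par' x = r then (if d x r ≤ d x b then r else b) else par' x with hparDef
    set c : V → V := fun x => if x = b then r else x with hc
    have hcb : c b = r := by simp [hc]
    have hcx : ∀ x, x ≠ b → c x = x := fun x hx => by simp [hc, hx]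
    have hcr : c r = r := hcx r (fun h => hbr h.symm)
    have hcU : ∀ x ∈ U, c x ∈ U.erase b := by
      intro x hx
      by_cases h : x = b
      · rw [h, hcb]
        exact hrU'
      · rw [hcx x h]
        exact Finset.mem_erase.2 ⟨h, hx⟩
    have hp_b : par b = r := by simp [hparDef]
    have hp_r : par r = r := by
      simp [hparDef]
    have hp_1 : ∀ x, x ≠ b → x ≠ r → par' x ≠ r → par x = par' x := by
      intro x h1 h2 h3
      simp [hparDef, h1, h2, h3]
    have hp_2 : ∀ x, x ≠ b → x ≠ r → par' x = r → d x r ≤ d x b → par x = r := by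
      intro x h1 h2 h3 h4
      simp [hparDef, h1, h2, h3, h4]
    have hp_3 : ∀ x, x ≠ b → x ≠ r → par' x = r → ¬ d x r ≤ d x b → par x = b := by
      intro x h1 h2 h3 h4
      simp only [hparDef, if_neg h1, if_neg h2, if_pos h3, if_neg h4]
    -- semiconjugacy
    have hsemi : ∀ x ∈ U, c (par x) = par' (c x) := by
      intro x hx
      by_cases h1 : x = b
      · rw [h1, hp_b, hcr, hcb, hpr]
      · by_cases h2 : x = r
        · rw [h2, hp_r, hcr, hpr]
        · have hx' : x ∈ U.erase b := Finset.mem_erase.2 ⟨h1, hx⟩
          rw [hcx x h1]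
          by_cases h3 : par' x = r
          · by_cases h4 : d x r ≤ d x b
            · rw [hp_2 x h1 h2 h3 h4, hcr, h3]
            · rw [hp_3 x h1 h2 h3 h4, hcb, h3]
          · rw [hp_1 x h1 h2 h3]
            exact hcx _ (Finset.mem_erase.1 (hpar x hx' h2).1).1
    have hparU : ∀ x ∈ U, par x ∈ U := by
      intro x hx
      by_cases h1 : x = b
      · rw [h1, hp_b]
        exact hr
      · by_cases h2 : x = r
        · rw [h2, hp_r]
          exact hr
        · have hx' : x ∈ U.erase b := Finset.mem_erase.2 ⟨h1, hx⟩
          by_cases h3 : par' x = r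
          · by_cases h4 : d x r ≤ d x b
            · rw [hp_2 x h1 h2 h3 h4]
              exact hr
            · rw [hp_3 x h1 h2 h3 h4]
              exact hbU
          · rw [hp_1 x h1 h2 h3]
            exact (Finset.mem_erase.1 (hpar x hx' h2).1).2
    have hiter : ∀ k, ∀ x ∈ U, c (par^[k] x) = par'^[k] (c x) := by
      intro k
      induction k with
      | zero => exact fun x _ => rfl
      | succ k ihk =>
        intro x hx
        rw [Function.iterate_succ_apply, Function.iterate_succ_apply, ihk _ (hparU x hx),
          hsemi x hx]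
    have hdesc : ∀ x, x ≠ b → x ≠ r → ∀ u ∈ U, ((∃ k, par^[k] u = x) ↔
        ∃ k, par'^[k] (c u) = x) := by
      intro x h1 h2 u hu
      constructor
      · rintro ⟨k, hk⟩
        refine ⟨k, ?_⟩
        rw [← hiter k u hu, hk, hcx x h1]
      · rintro ⟨k, hk⟩
        refine ⟨k, ?_⟩
        rw [← hiter k u hu] at hk
        by_cases h3 : par^[k] u = b
        · rw [h3, hcb] at hk
          exact absurd hk.symm h2
        · rwa [hcx _ h3] at hk
    have hw : ∀ x ∈ U, x ≠ b → x ≠ r → d x (par x) = d' x (par' x) := by
      intro x hx h1 h2
      by_cases h3 : par' x = r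
      · rw [h3, hd1 x h2]
        by_cases h4 : d x r ≤ d x b
        · rw [hp_2 x h1 h2 h3 h4, min_eq_left h4]
        · rw [hp_3 x h1 h2 h3 h4, min_eq_right (le_of_lt (not_le.1 h4))]
      · rw [hp_1 x h1 h2 h3, hd2 x _ h2 h3]
    -- cut property for the vertices different from `b`
    have hcut1 : ∀ x ∈ U, x ≠ b → x ≠ r → ∀ u ∈ U, ∀ v ∈ U, (∃ k, par^[k] u = x) →
        (¬ ∃ k, par^[k] v = x) → d x (par x) ≤ d u v := by
      intro x hx h1 h2 u hu v hv hdu hdv
      rw [hdesc x h1 h2 u hu] at hdu
      rw [hdesc x h1 h2 v hv] at hdv
      rw [hw x hx h1 h2]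
      have hcut' := hcut x (Finset.mem_erase.2 ⟨h1, hx⟩) h2 (c u) (hcU u hu) (c v) (hcU v hv)
        hdu hdv
      refine hcut'.trans ?_
      have hcu : c u ≠ r := by
        intro h
        obtain ⟨k, hk⟩ := hdu
        rw [h, iter_fix par' r hpr k] at hk
        exact h2 hk.symm
      have hub : u ≠ b := fun h => hcu (by rw [h, hcb])
      rw [hcx u hub] at hcu ⊢
      by_cases hvb : v = b
      · rw [hvb, hcb, hd1 u hcu]
        exact min_le_right _ _
      · rw [hcx v hvb]
        by_cases hvr : v = r
        · rw [hvr, hd1 u hcu]
          exact min_le_left _ _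
        · rw [hd2 u v hcu hvr]
    refine ⟨par, fun x => if x = r then 0 else if x = b then 1 else rank' x + 2, hp_r, ?_, ?_⟩
    · intro x hx hxr
      refine ⟨hparU x hx, ?_⟩
      simp only [if_neg hxr]
      by_cases h1 : x = b
      · rw [h1, hp_b]
        simp
      · rw [if_neg h1]
        have hx' : x ∈ U.erase b := Finset.mem_erase.2 ⟨h1, hx⟩
        by_cases h3 : par' x = r
        · by_cases h4 : d x r ≤ d x b
          · rw [hp_2 x h1 hxr h3 h4]
            simp
          · rw [hp_3 x h1 hxr h3 h4, if_neg hbr, if_pos rfl]
            omega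
        · rw [hp_1 x h1 hxr h3, if_neg h3,
            if_neg (Finset.mem_erase.1 (hpar x hx' hxr).1).1]
          have := (hpar x hx' hxr).2
          omega
    · intro x hx hxr u hu v hv hdu hdv
      by_cases hxb : x = b
      · rw [hxb] at hdu hdv ⊢
        rw [hp_b]
        have hur : u ≠ r := by
          intro h
          obtain ⟨k, hk⟩ := hdu
          rw [h, iter_fix par r hp_r k] at hk
          exact hbr hk.symm
        by_cases hvr : v = r
        · rw [hvr, hs u r, hs b r]
          exact hmin u hu hur
        · have hvb : v ≠ b := fun h => hdv ⟨0, h⟩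
          have hv' : v ∈ U.erase b := Finset.mem_erase.2 ⟨hvb, hv⟩
          -- the child of the root above `v`
          obtain ⟨x', k, hk, hx'r, hx'p⟩ : ∃ x' k, par'^[k] v = x' ∧ x' ≠ r ∧ par' x' = r := by
            have hreach := reach_root (U.erase b) r par' rank' hpar v hv'
            have h0 : Nat.find hreach ≠ 0 := by
              intro h
              have := Nat.find_spec hreach
              rw [h] at this
              exact hvr this
            obtain ⟨m, hm⟩ := Nat.exists_eq_succ_of_ne_zero h0
            refine ⟨par'^[m] v, m, rfl, ?_, ?_⟩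
            · exact Nat.find_min hreach (by omega)
            · have := Nat.find_spec hreach
              rw [hm, Function.iterate_succ_apply'] at this
              exact this
          have hparU' : ∀ x ∈ U.erase b, par' x ∈ U.erase b := by
            intro y hy
            by_cases hyr : y = r
            · rw [hyr, hpr]
              exact hrU'
            · exact (hpar y hy hyr).1
          have hx'U : x' ∈ U.erase b := by
            rw [← hk]
            exact iter_mem (U.erase b) par' hparU' k v hv'
          obtain ⟨hx'b, hx'U2⟩ := Finset.mem_erase.1 hx'U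
          have hdv' : ∃ k, par^[k] v = x' := by
            rw [hdesc x' hx'b hx'r v hv, hcx v hvb]
            exact ⟨k, hk⟩
          -- the parent of `x'` is `r`
          have hpx' : par x' = r := by
            by_cases h4 : d x' r ≤ d x' b
            · exact hp_2 x' hx'b hx'r hx'p h4
            · exfalso
              apply hdv
              obtain ⟨j, hj⟩ := hdv'
              refine ⟨j + 1, ?_⟩
              rw [Function.iterate_succ_apply', hj]
              exact hp_3 x' hx'b hx'r hx'p h4
          have hdu' : ¬ ∃ k, par^[k] u = x' := by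
            rintro ⟨j, hj⟩
            obtain ⟨m, hm⟩ := hdu
            rcases Nat.lt_trichotomy m j with h | h | h
            · obtain ⟨i, hi⟩ := Nat.exists_eq_add_of_lt h
              have : par^[j] u = r := by
                rw [hi, show m + i + 1 = i + (1 + m) by ring, Function.iterate_add_apply,
                  Function.iterate_add_apply, hm, Function.iterate_one, hp_b,
                  iter_fix par r hp_r]
              rw [hj] at this
              exact hx'r this
            · rw [h, hj] at hm
              exact hx'b hm
            · obtain ⟨i, hi⟩ := Nat.exists_eq_add_of_lt h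
              have : par^[m] u = r := by
                rw [hi, show j + i + 1 = i + (1 + j) by ring, Function.iterate_add_apply,
                  Function.iterate_add_apply, hj, Function.iterate_one, hpx',
                  iter_fix par r hp_r]
              rw [hm] at this
              exact hbr this
          have h5 := hcut1 x' hx'U2 hx'b hx'r v hv u hu hdv' hdu'
          rw [hpx', hs x' r, hs v u] at h5
          rw [hs b r]
          exact (hmin x' hx'U2 hx'r).trans h5
      · exact hcut1 x hx hxb hxr u hu v hv hdu hdv

theorem exists_mtree {V : Type} [Fintype V] [Nonempty V] (d : V → V → ℕ)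
    (hs : ∀ u v, d u v = d v u) : Nonempty (MTree d) := by
  obtain ⟨r⟩ := (inferInstance : Nonempty V)
  have hcard : (univ : Finset V).card = ((univ : Finset V).card - 1) + 1 := by
    have : 0 < (univ : Finset V).card := Finset.card_pos.2 ⟨r, mem_univ r⟩
    omega
  obtain ⟨par, rank, h1, h2, h3⟩ := mtree_aux _ univ d hs r (mem_univ r) hcard
  refine ⟨⟨r, par, rank, h1, fun x hx => (h2 x (mem_univ x) hx).2, ?_⟩⟩
  intro x u v hu hv
  by_cases hx : x = r
  · exfalso
    apply hv
    rw [hx]
    exact reach_root univ r par rank h2 v (mem_univ v)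
  · exact h3 x (mem_univ x) hx u (mem_univ u) v (mem_univ v) hu hv

end H82.TQ
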