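import Pool.Agent.H82.TQ.Defs

/-!
# TQ A2: facts on trees and threshold components

`anc u = {x | desc x u}` is a chain; for `u ≠ root`: `anc u = {u} ∪ anc (par u)`.
`rch_iff`: (⇒) induction on the path: if a step `a b` with `d a b ≤ t` is separated by `x`, then `wt x ≤ t` by the
cut property (use symmetry of `d`). (⇐) strong induction on `rank u + rank v`: if `u ≠ v`, let `u` be the one of
larger or equal rank (then `u ≠ root` and `v` is not a descendant of `u`), so `u` separates `u, v`, `wt u ≤ t`, and
for the pair `par u, v` the set of separating `x` is that of `u, v` without `u`.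
`card_classes`: every class contains exactly one `x` with `x = root ∨ t < wt x` (its vertex of least rank).
-/

set_option autoImplicit false

open Finset Classical

namespace H82.TQ

variable {V : Type} {d : V → V → ℕ}

namespace MTree

variable (T : MTree d)

theorem desc_refl (x : V) : T.desc x x := by
  exact ⟨0, rfl⟩

theorem desc_root (u : V) : T.desc T.root u := by
  have key : ∀ n : ℕ, ∀ u : V, T.rank u = n → T.desc T.root u := by
    intro n
    induction n using Nat.strong_induction_on with
    | _ n ih =>
      intro u hu
      by_cases hr : u = T.root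
      · subst hr
        exact T.desc_refl _
      · have h1 := T.rank_lt u hr
        obtain ⟨k, hk⟩ := ih (T.rank (T.par u)) (by omega) (T.par u) rfl
        exact ⟨k + 1, by rw [Function.iterate_succ_apply]; exact hk⟩
  exact key _ u rfl

theorem desc_trans {x y u : V} (h : T.desc x y) (h' : T.desc y u) : T.desc x u := by
  obtain ⟨k, hk⟩ := h
  obtain ⟨l, hl⟩ := h'
  exact ⟨k + l, by rw [Function.iterate_add_apply, hl, hk]⟩

/-- for `u ≠ root` the ancestors of `u` are `u` and those of `par u` -/
theorem desc_iff {x u : V} (hu : u ≠ T.root) : T.desc x u ↔ x = u ∨ T.desc x (T.par u) := by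
  have _ := hu
  constructor
  · rintro ⟨k, hk⟩
    cases k with
    | zero => exact Or.inl hk.symm
    | succ k =>
      rw [Function.iterate_succ_apply] at hk
      exact Or.inr ⟨k, hk⟩
  · rintro (h | ⟨k, hk⟩)
    · rw [h]
      exact T.desc_refl u
    · exact ⟨k + 1, by rw [Function.iterate_succ_apply]; exact hk⟩

theorem desc_root_iff {x : V} : T.desc x T.root ↔ x = T.root := by
  constructor
  · rintro ⟨k, hk⟩
    rw [Function.iterate_fixed T.par_root k] at hk
    exact hk.symm
  · intro h
    rw [h]
    exact T.desc_refl _

/-- a proper descendant has larger rank -/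
theorem rank_of_desc {x u : V} (h : T.desc x u) : x = u ∨ T.rank x < T.rank u := by
  obtain ⟨k, hk⟩ := h
  induction k generalizing u with
  | zero => exact Or.inl hk.symm
  | succ k ih =>
    rw [Function.iterate_succ_apply] at hk
    have h1 := ih hk
    by_cases hu : u = T.root
    · rw [hu, T.par_root] at h1
      rw [hu]
      exact h1
    · have h2 := T.rank_lt u hu
      right
      rcases h1 with h1 | h1
      · rw [h1]
        exact h2
      · exact lt_trans h1 h2

theorem desc_antisymm {x u : V} (h : T.desc x u) (h' : T.desc u x) : x = u := by
  rcases T.rank_of_desc h with h1 | h1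
  · exact h1
  · rcases T.rank_of_desc h' with h2 | h2
    · exact h2.symm
    · omega

/-- the ancestors of a vertex form a chain -/
theorem desc_chain {x y u : V} (h : T.desc x u) (h' : T.desc y u) : T.desc x y ∨ T.desc y x := by
  obtain ⟨k, hk⟩ := h
  obtain ⟨l, hl⟩ := h'
  rcases le_total k l with h1 | h1
  · right
    refine ⟨l - k, ?_⟩
    rw [← hk, ← Function.iterate_add_apply, Nat.sub_add_cancel h1, hl]
  · left
    refine ⟨k - l, ?_⟩
    rw [← hl, ← Function.iterate_add_apply, Nat.sub_add_cancel h1, hk]

theorem descSet_ssubset [Fintype V] {x y : V} (h : T.desc x y) (hne : x ≠ y) :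
    T.descSet y ⊂ T.descSet x := by
  rw [Finset.ssubset_iff_of_subset]
  · refine ⟨x, ?_, ?_⟩
    · exact mem_filter.2 ⟨mem_univ _, T.desc_refl x⟩
    · intro h1
      exact hne (T.desc_antisymm h (mem_filter.1 h1).2)
  · intro u hu
    exact mem_filter.2 ⟨mem_univ _, T.desc_trans h (mem_filter.1 hu).2⟩

theorem wt_root (hd : NMet d) : T.wt T.root = 0 := by
  unfold wt
  rw [T.par_root, hd.self]

/-- the root does not separate anything -/
theorem not_sep_root (u v : V) : ¬ T.sep T.root u v := by
  unfold sep
  intro h
  exact h ⟨fun _ => T.desc_root v, fun _ => T.desc_root u⟩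

theorem cut' (hd : NMet d) {x u v : V} (h : T.sep x u v) : T.wt x ≤ d u v := by
  unfold sep at h
  by_cases h1 : T.desc x u
  · have h2 : ¬ T.desc x v := fun h2 => h ⟨fun _ => h2, fun _ => h1⟩
    exact T.cut x u v h1 h2
  · have h2 : T.desc x v := by
      by_contra h2
      exact h ⟨fun h3 => absurd h3 h1, fun h3 => absurd h3 h2⟩
    rw [hd.symm u v]
    exact T.cut x v u h2 h1

end MTree

theorem rch_symm (hd : NMet d) {t : ℕ} {u v : V} (h : Rch d t u v) : Rch d t v u := by
  unfold Rch at h ⊢
  induction h with
  | refl => exact Relation.ReflTransGen.refl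
  | tail _ hbc ih =>
    exact Relation.ReflTransGen.head (by rw [hd.symm]; exact hbc) ih

theorem rch_mono {s t : ℕ} (hst : s ≤ t) {u v : V} (h : Rch d s u v) : Rch d t u v := by
  unfold Rch at h ⊢
  induction h with
  | refl => exact Relation.ReflTransGen.refl
  | tail _ hbc ih => exact Relation.ReflTransGen.tail ih (le_trans hbc hst)

theorem rch_iff (hd : NMet d) (T : MTree d) (t : ℕ) (u v : V) :
    Rch d t u v ↔ ∀ x, T.wt x ≤ t ∨ (T.desc x u ↔ T.desc x v) := by
  constructor
  · intro h x
    unfold Rch at h
    induction h with
    | refl => exact Or.inr Iff.rfl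
    | @tail b c _ hbc ih =>
      rcases ih with ih | ih
      · exact Or.inl ih
      · by_cases hs : T.sep x b c
        · exact Or.inl (le_trans (T.cut' hd hs) hbc)
        · right
          unfold MTree.sep at hs
          exact ih.trans (not_not.1 hs)
  · have key : ∀ n : ℕ, ∀ u v : V, T.rank u + T.rank v = n →
        (∀ x, T.wt x ≤ t ∨ (T.desc x u ↔ T.desc x v)) → Rch d t u v := by
      intro n
      induction n using Nat.strong_induction_on with
      | _ n ih =>
        have main : ∀ u v : V, T.rank u + T.rank v = n → T.rank v ≤ T.rank u → u ≠ v →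
            (∀ x, T.wt x ≤ t ∨ (T.desc x u ↔ T.desc x v)) → Rch d t u v := by
          intro u v hn hle hne h
          have hur : u ≠ T.root := by
            intro e
            rcases T.rank_of_desc (T.desc_root v) with h1 | h1
            · exact hne (e.trans h1)
            · rw [e] at hle
              omega
          have hnd : ¬ T.desc u v := by
            intro h1
            rcases T.rank_of_desc h1 with h2 | h2
            · exact hne h2
            · omega
          have hwt : T.wt u ≤ t := by
            rcases h u with h1 | h1
            · exact h1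
            · exact absurd (h1.1 (T.desc_refl u)) hnd
          have hr := T.rank_lt u hur
          have h2 := ih (T.rank (T.par u) + T.rank v) (by omega) (T.par u) v rfl (by
            intro x
            rcases h x with h1 | h1
            · exact Or.inl h1
            · by_cases hx : x = u
              · left
                rw [hx]
                exact hwt
              · right
                rw [← h1, T.desc_iff hur]
                constructor
                · exact fun h3 => Or.inr h3
                · rintro (h3 | h3)
                  · exact absurd h3 hx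
                  · exact h3)
          exact Relation.ReflTransGen.head hwt h2
        intro u v hn h
        by_cases hne : u = v
        · rw [hne]
          exact Relation.ReflTransGen.refl
        · rcases le_total (T.rank v) (T.rank u) with h1 | h1
          · exact main u v hn h1 hne h
          · exact rch_symm hd (main v u (by omega) h1 (fun e => hne e.symm)
              (fun x => (h x).imp_right Iff.symm))
    exact key _ u v rfl

/-- a class has at most one vertex whose parent edge is longer than the level; all its vertices are descendants of it -/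
theorem desc_of_rch (hd : NMet d) (T : MTree d) {s : ℕ} {x u : V} (hx : s < T.wt x)
    (h : Rch d s x u) : T.desc x u := by
  rcases (rch_iff hd T s x u).1 h x with h1 | h1
  · omega
  · exact h1.1 (T.desc_refl x)

theorem top_unique (hd : NMet d) (T : MTree d) {s : ℕ} {x x' : V} (hx : s < T.wt x)
    (hx' : s < T.wt x') (h : Rch d s x x') : x = x' := by
  exact T.desc_antisymm (desc_of_rch hd T hx h) (desc_of_rch hd T hx' (rch_symm hd h))

theorem card_classes [Fintype V] (hd : NMet d) (T : MTree d) (t : ℕ) :
    ((univ : Finset V).image (cmp d t)).card = (univ.filter (fun x => t < T.wt x)).card + 1 := by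
  have hroot : T.root ∉ univ.filter (fun x => t < T.wt x) := by
    intro h
    have := (mem_filter.1 h).2
    rw [T.wt_root hd] at this
    omega
  have hcmp : ∀ u v : V, Rch d t u v → cmp d t u = cmp d t v := by
    intro u v huv
    ext w
    unfold cmp
    simp only [mem_filter, mem_univ, true_and]
    exact ⟨fun h => Relation.ReflTransGen.trans (rch_symm hd huv) h,
      fun h => Relation.ReflTransGen.trans huv h⟩
  have hcmp' : ∀ u v : V, cmp d t u = cmp d t v → Rch d t u v := by
    intro u v huv
    have h1 : v ∈ cmp d t v := mem_filter.2 ⟨mem_univ _, Relation.ReflTransGen.refl⟩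
    rw [← huv] at h1
    exact (mem_filter.1 h1).2
  have htop : ∀ n : ℕ, ∀ u : V, T.rank u = n →
      ∃ x ∈ insert T.root (univ.filter (fun x => t < T.wt x)), Rch d t x u := by
    intro n
    induction n using Nat.strong_induction_on with
    | _ n ih =>
      intro u hu
      by_cases hur : u = T.root
      · exact ⟨T.root, mem_insert_self _ _, by rw [hur]; exact Relation.ReflTransGen.refl⟩
      · by_cases hw : t < T.wt u
        · exact ⟨u, mem_insert_of_mem (mem_filter.2 ⟨mem_univ _, hw⟩),
            Relation.ReflTransGen.refl⟩
        · have hr := T.rank_lt u hur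
          obtain ⟨x, hx, hx'⟩ := ih (T.rank (T.par u)) (by omega) (T.par u) rfl
          refine ⟨x, hx, Relation.ReflTransGen.tail hx' ?_⟩
          rw [hd.symm]
          exact not_lt.1 hw
  have himg : (univ : Finset V).image (cmp d t) =
      (insert T.root (univ.filter (fun x => t < T.wt x))).image (cmp d t) := by
    ext X
    simp only [mem_image]
    constructor
    · rintro ⟨u, _, hu⟩
      obtain ⟨x, hx, hx'⟩ := htop _ u rfl
      exact ⟨x, hx, by rw [← hu]; exact hcmp x u hx'⟩
    · rintro ⟨x, _, hx⟩
      exact ⟨x, mem_univ _, hx⟩
  rw [himg, card_image_of_injOn, card_insert_of_notMem hroot]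
  intro x hx y hy hxy
  have hr := hcmp' x y hxy
  rcases mem_insert.1 (mem_coe.1 hx) with h1 | h1
  · rcases mem_insert.1 (mem_coe.1 hy) with h2 | h2
    · rw [h1, h2]
    · have h3 := desc_of_rch hd T (mem_filter.1 h2).2 (rch_symm hd hr)
      rw [h1, T.desc_root_iff] at h3
      rw [h1, h3]
  · rcases mem_insert.1 (mem_coe.1 hy) with h2 | h2
    · have h3 := desc_of_rch hd T (mem_filter.1 h1).2 hr
      rw [h2, T.desc_root_iff] at h3
      rw [h2, h3]
    · exact top_unique hd T (mem_filter.1 h1).2 (mem_filter.1 h2).2 hr

end H82.TQ
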