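import Pool.Agent.H82.TQ.Defs

/-!
# TQ B2: closed walks and cyclic permutations

`list_to_perm`: remove repetitions (triangle inequality: deleting an entry of the list does not increase `cyc`), then
take the cyclic permutation of the duplicate free list (`List.formPerm`).
`perm_to_list`: enumerate the tour, delete the vertices outside `U`.
-/

set_option autoImplicit false

open Finset Classical

namespace H82.TQ

variable {V : Type} [Fintype V] {d : V → V → ℕ}

omit [Fintype V] in
private theorem B2_wlen_cons (hd : NMet d) (x a z : V) (l : List V) :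
    wlen d (x :: z :: l) ≤ d x a + wlen d (a :: z :: l) := by
  simp only [wlen]
  have := hd.tri x a z
  omega

omit [Fintype V] in
private theorem B2_wlen_last (hd : NMet d) (x a b : V) (m : List V) :
    wlen d (x :: (m ++ [b])) ≤ wlen d (x :: (m ++ [a])) + d a b := by
  induction m generalizing x with
  | nil =>
    simp only [List.nil_append, wlen, add_zero]
    exact hd.tri x a b
  | cons z m ih =>
    simp only [List.cons_append, wlen]
    have := ih z
    omega

omit [Fintype V] in
private theorem B2_wlen_sublist (hd : NMet d) {m' m : List V} (h : m'.Sublist m) (x y : V) :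
    wlen d (x :: (m' ++ [y])) ≤ wlen d (x :: (m ++ [y])) := by
  induction h generalizing x with
  | slnil => exact le_rfl
  | @cons l₁ l₂ a _ ih =>
    have h1 := ih a
    have h2 : wlen d (x :: (l₁ ++ [y])) ≤ d x a + wlen d (a :: (l₁ ++ [y])) := by
      cases l₁ with
      | nil => exact B2_wlen_cons hd x a y []
      | cons z l => exact B2_wlen_cons hd x a z (l ++ [y])
    simp only [List.cons_append, wlen]
    omega
  | @cons_cons l₁ l₂ a _ ih =>
    have h1 := ih a
    simp only [List.cons_append, wlen]
    omega

omit [Fintype V] in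
private theorem B2_cyc_cons (hd : NMet d) (a : V) (l : List V) : cyc d l ≤ cyc d (a :: l) := by
  cases l with
  | nil => exact Nat.zero_le _
  | cons b m =>
    simp only [cyc, List.cons_append, wlen]
    have := B2_wlen_last hd b a b m
    omega

omit [Fintype V] in
private theorem B2_cyc_sublist (hd : NMet d) {l' l : List V} (h : l'.Sublist l) :
    cyc d l' ≤ cyc d l := by
  induction h with
  | slnil => exact le_rfl
  | @cons l₁ l₂ a _ ih => exact ih.trans (B2_cyc_cons hd a l₂)
  | @cons_cons l₁ l₂ a h _ =>
    simp only [cyc]
    exact B2_wlen_sublist hd h a a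

omit [Fintype V] in
private theorem B2_wlen_zip (a : V) (l : List V) :
    wlen d (a :: l) = (List.zipWith d (a :: l) l).sum := by
  induction l generalizing a with
  | nil => rfl
  | cons b l ih =>
    simp only [wlen, List.zipWith_cons_cons, List.sum_cons]
    rw [ih b]

omit [Fintype V] in
private theorem B2_cyc_zip (l : List V) : cyc d l = (List.zipWith d l (l.rotate 1)).sum := by
  cases l with
  | nil => rfl
  | cons a l =>
    simp only [cyc, List.rotate_cons_succ, List.rotate_zero]
    rw [B2_wlen_zip]
    congr 1
    have h : a :: (l ++ [a]) = (a :: l) ++ [a] := rfl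
    rw [h, ← List.append_nil (l ++ [a]), List.zipWith_append (by simp)]
    simp

omit [Fintype V] in
private theorem B2_map_formPerm (l : List V) (hl : l.Nodup) :
    l.map (l.formPerm) = l.rotate 1 := by
  apply List.ext_getElem
  · simp
  · intro i h1 h2
    rw [List.getElem_map, List.getElem_rotate]
    rw [List.length_map] at h1
    exact List.formPerm_apply_getElem l hl i h1

private theorem B2_tcost (l : List V) (hl : l.Nodup) (hall : ∀ v, v ∈ l) :
    tcost d l.formPerm = cyc d l := by
  have h1 : l.toFinset = univ := by
    ext v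
    simp [hall v]
  unfold tcost
  rw [B2_cyc_zip, ← B2_map_formPerm l hl, ← h1, List.sum_toFinset _ hl]
  congr 1
  rw [List.zipWith_map_right, List.zipWith_self]

private theorem B2_tour (l : List V) (hl : l.Nodup) (hall : ∀ v, v ∈ l) : TourP l.formPerm := by
  intro X hX hne
  by_contra hcon
  push Not at hcon
  obtain ⟨v, hv⟩ := hX
  apply hne
  obtain ⟨i, hi, hiv⟩ := List.getElem_of_mem (hall v)
  have hlen : 0 < l.length := by omega
  have key : ∀ k, l[(i + k) % l.length]'(Nat.mod_lt _ hlen) ∈ X := by
    intro k
    induction k with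
    | zero =>
      simp only [add_zero, Nat.mod_eq_of_lt hi]
      rw [hiv]
      exact hv
    | succ k ih =>
      have h := hcon _ ih
      rw [List.formPerm_apply_getElem l hl _ (Nat.mod_lt _ hlen)] at h
      have e : ((i + k) % l.length + 1) % l.length = (i + (k + 1)) % l.length := by
        rw [Nat.mod_add_mod, add_assoc]
      simpa only [e] using h
  ext w
  simp only [mem_univ, iff_true]
  obtain ⟨j, hj, hjw⟩ := List.getElem_of_mem (hall w)
  have h := key (l.length - i + j)
  have e : (i + (l.length - i + j)) % l.length = j := by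
    have : i + (l.length - i + j) = j + l.length := by omega
    rw [this, Nat.add_mod_right, Nat.mod_eq_of_lt hj]
  simp only [e] at h
  rwa [hjw] at h

theorem list_to_perm (hd : NMet d) (l : List V) (hl : ∀ v, v ∈ l) :
    ∃ nx : Equiv.Perm V, TourP nx ∧ tcost d nx ≤ cyc d l := by
  refine ⟨l.dedup.formPerm, B2_tour _ (List.nodup_dedup l) fun v => List.mem_dedup.2 (hl v), ?_⟩
  rw [B2_tcost _ (List.nodup_dedup l) fun v => List.mem_dedup.2 (hl v)]
  exact B2_cyc_sublist hd (List.dedup_sublist l)

theorem perm_to_list (hd : NMet d) (nx : Equiv.Perm V) (hnx : TourP nx) (U : Finset V) :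
    ∃ l : List V, l.Nodup ∧ (∀ v ∈ l, v ∈ U) ∧ (∀ v ∈ U, v ∈ l) ∧ cyc d l ≤ tcost d nx := by
  -- a list of all vertices
  suffices h : ∃ l : List V, l.Nodup ∧ (∀ v, v ∈ l) ∧ cyc d l ≤ tcost d nx by
    obtain ⟨l, h1, h2, h3⟩ := h
    refine ⟨l.filter (fun v => decide (v ∈ U)), h1.filter _, fun v hv => ?_, fun v hv => ?_,
      (B2_cyc_sublist hd List.filter_sublist).trans h3⟩
    · simpa using (List.mem_filter.1 hv).2
    · exact List.mem_filter.2 ⟨h2 v, by simpa using hv⟩
  cases isEmpty_or_nonempty V with
  | inl h => exact ⟨[], List.nodup_nil, fun v => h.elim v, Nat.zero_le _⟩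
  | inr h =>
    obtain ⟨v₀⟩ := h
    by_cases hfix : nx v₀ = v₀
    · have huniv : ({v₀} : Finset V) = univ := by
        by_contra hne
        obtain ⟨v, hv, hv'⟩ := hnx {v₀} (singleton_nonempty v₀) hne
        rw [mem_singleton] at hv hv'
        subst hv
        exact hv' hfix
      refine ⟨[v₀], List.nodup_singleton v₀, fun v => ?_, ?_⟩
      · have := mem_univ v
        rw [← huniv, mem_singleton] at this
        simp [this]
      · simp only [cyc, List.nil_append, wlen, hd.self, add_zero]
        exact Nat.zero_le _
    · have hsame : ∀ v, nx.SameCycle v₀ v := by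
        have h1 : (univ.filter (fun v => nx.SameCycle v₀ v)) = univ := by
          by_contra hne
          obtain ⟨v, hv, hv'⟩ := hnx (univ.filter (fun v => nx.SameCycle v₀ v))
            ⟨v₀, mem_filter.2 ⟨mem_univ _, Equiv.Perm.SameCycle.refl nx v₀⟩⟩ hne
          rw [mem_filter] at hv hv'
          exact hv' ⟨mem_univ _, Equiv.Perm.sameCycle_apply_right.2 hv.2⟩
        intro v
        have := mem_univ v
        rw [← h1, mem_filter] at this
        exact this.2
      have hmem : ∀ v, v ∈ nx.toList v₀ := fun v =>
        Equiv.Perm.mem_toList_iff.2 ⟨hsame v, Equiv.Perm.mem_support.2 hfix⟩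
      have hform : (nx.toList v₀).formPerm = nx := by
        rw [Equiv.Perm.formPerm_toList]
        ext v
        rw [Equiv.Perm.SameCycle.cycleOf_apply (hsame v)]
      refine ⟨nx.toList v₀, Equiv.Perm.nodup_toList nx v₀, hmem, ?_⟩
      rw [← B2_tcost _ (Equiv.Perm.nodup_toList nx v₀) hmem, hform]

end H82.TQ
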