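import Pool.Agent.H82.TQ.A2
import Pool.Agent.H82.TQ.B2

/-!
# TQ A3: tours and threshold components

For a tour `nx` and a level `t` let `N t` be the number of steps `(v, nx v)` longer than `t`.
`tour_cross`: the number of steps between different classes of level `t` is at least the number of classes if
there are at least two classes (every class `Y ≠ univ` is left and entered, so it has at least two ends of such steps;
sum over the classes).
-/

set_option autoImplicit false

open Finset Classical

namespace H82.TQ

variable {V : Type} [Fintype V] {d : V → V → ℕ}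

private theorem A3_mem_cmp {t : ℕ} {u v : V} : v ∈ cmp d t u ↔ Rch d t u v := by
  unfold cmp
  rw [mem_filter]
  exact ⟨fun h => h.2, fun h => ⟨mem_univ _, h⟩⟩

private theorem A3_cmp_eq (hd : NMet d) {t : ℕ} {u v : V} (h : Rch d t u v) :
    cmp d t v = cmp d t u := by
  ext w
  rw [A3_mem_cmp, A3_mem_cmp]
  exact ⟨fun h' => Relation.ReflTransGen.trans h h',
    fun h' => Relation.ReflTransGen.trans (rch_symm hd h) h'⟩

/-- number of steps of the tour between different classes is at least the number of classes, if this is not `1` -/
theorem tour_cross (hd : NMet d) (T : MTree d) (nx : Equiv.Perm V) (hnx : TourP nx) (t : ℕ)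
    (h : (univ.filter (fun x => t < T.wt x)).Nonempty) :
    (univ.filter (fun x => t < T.wt x)).card + 1 ≤
      (univ.filter (fun v => ¬ Rch d t v (nx v))).card := by
  rw [← card_classes hd T t]
  have h2 : 1 < ((univ : Finset V).image (cmp d t)).card := by
    rw [card_classes hd T t]
    have := card_pos.2 h
    omega
  have hsub : (univ : Finset V).image (cmp d t) ⊆
      (univ.filter (fun v => ¬ Rch d t v (nx v))).image (cmp d t) := by
    intro Y hY
    rw [mem_image] at hY ⊢
    obtain ⟨u, -, rfl⟩ := hY
    have hne : (cmp d t u).Nonempty := ⟨u, A3_mem_cmp.2 Relation.ReflTransGen.refl⟩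
    have hnu : cmp d t u ≠ univ := by
      intro hu
      have h3 : (univ : Finset V).image (cmp d t) ⊆ {univ} := by
        intro Z hZ
        rw [mem_image] at hZ
        obtain ⟨v, -, rfl⟩ := hZ
        rw [mem_singleton, ← hu]
        refine A3_cmp_eq hd (A3_mem_cmp.1 ?_)
        rw [hu]
        exact mem_univ _
      have := card_le_card h3
      rw [card_singleton] at this
      omega
    obtain ⟨v, hv, hv'⟩ := hnx _ hne hnu
    rw [A3_mem_cmp] at hv hv'
    refine ⟨v, ?_, A3_cmp_eq hd hv⟩
    rw [mem_filter]
    exact ⟨mem_univ _, fun h' => hv' (Relation.ReflTransGen.trans hv h')⟩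
  exact (card_le_card hsub).trans card_image_le

theorem tour_count (hd : NMet d) (T : MTree d) (nx : Equiv.Perm V) (hnx : TourP nx) (t : ℕ) :
    (univ.filter (fun x => t < T.wt x)).card ≤ (univ.filter (fun v => t < d v (nx v))).card := by
  rcases (univ.filter (fun x => t < T.wt x)).eq_empty_or_nonempty with h | h
  · rw [h]
    simp
  · have h1 := tour_cross hd T nx hnx t h
    have h2 : (univ.filter (fun v => ¬ Rch d t v (nx v))).card ≤
        (univ.filter (fun v => t < d v (nx v))).card := by
      refine card_le_card fun v hv => ?_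
      rw [mem_filter] at hv ⊢
      refine ⟨hv.1, ?_⟩
      by_contra hlt
      exact hv.2 (Relation.ReflTransGen.single (not_lt.1 hlt))
    omega

/-- a sum of natural numbers is the sum over levels of the number of larger ones -/
theorem sum_eq_levels {ι : Type} (A : Finset ι) (g : ι → ℕ) (B : ℕ) (hB : ∀ i ∈ A, g i ≤ B) :
    ∑ i ∈ A, g i = ∑ t ∈ range B, (A.filter (fun i => t < g i)).card := by
  simp only [card_filter]
  rw [sum_comm]
  refine sum_congr rfl fun i hi => ?_
  rw [← card_filter]
  have : (range B).filter (fun t => t < g i) = range (g i) := by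
    ext t
    rw [mem_filter, mem_range, mem_range]
    have := hB i hi
    omega
  rw [this, card_range]

theorem w_le_tcost (hd : NMet d) (T : MTree d) (nx : Equiv.Perm V) (hnx : TourP nx) :
    T.w ≤ tcost d nx := by
  unfold MTree.w tcost
  obtain ⟨B, hB1, hB2⟩ : ∃ B : ℕ, (∀ i ∈ (univ : Finset V), T.wt i ≤ B) ∧
      ∀ i ∈ (univ : Finset V), d i (nx i) ≤ B := by
    refine ⟨∑ x, T.wt x + ∑ v, d v (nx v), fun i hi => ?_, fun i hi => ?_⟩
    · exact (single_le_sum (f := T.wt) (fun _ _ => Nat.zero_le _) hi).trans (Nat.le_add_right _ _)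
    · exact (single_le_sum (f := fun v => d v (nx v)) (fun _ _ => Nat.zero_le _) hi).trans
        (Nat.le_add_left _ _)
  rw [sum_eq_levels univ T.wt B hB1, sum_eq_levels univ (fun v => d v (nx v)) B hB2]
  exact sum_le_sum fun t _ => tour_count hd T nx hnx t

end H82.TQ
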