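import Pool.Agent.H82.TQ.Defs

/-!
# TQ B1: closed walk from a tree and a list of pairs (parity lemma)

The steps of a walk are recorded as a multiset of unordered pairs. We start from the closed walk
consisting of all the loops root, v, root along the tree, add for every pair `(u, v)` of `R` the
loop root, u, v, root, and finally remove pairs of parallel tree steps as long as a tree edge is
used at least three times: two of these steps have the same direction `x → y`, and the walk
`… x → y … x → y …` is replaced by reversing the part between the two steps.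
-/

set_option autoImplicit false

open Finset Classical

namespace H82.TQ

section walks

variable {V : Type}

/-- steps of a walk -/
def wst : List V → Multiset (Sym2 V)
  | [] => 0
  | [_] => 0
  | a :: b :: l => s(a, b) ::ₘ wst (b :: l)

/-- directed steps of a walk -/
def dst : List V → List (V × V)
  | [] => []
  | [_] => []
  | a :: b :: l => (a, b) :: dst (b :: l)

theorem wst_append (A : List V) (b : V) (B : List V) :
    wst (A ++ b :: B) = wst (A ++ [b]) + wst (b :: B) := by
  induction A with
  | nil => simp [wst]
  | cons a A ih =>
    cases A with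
    | nil => simp [wst]
    | cons a' A =>
      simp only [List.cons_append, wst] at ih ⊢
      rw [ih, Multiset.cons_add]

theorem wst_reverse (l : List V) : wst l.reverse = wst l := by
  induction l with
  | nil => simp [wst]
  | cons a l ih =>
    cases l with
    | nil => simp [wst]
    | cons b l =>
      have h1 : (a :: b :: l).reverse = l.reverse ++ b :: [a] := by simp
      rw [h1, wst_append]
      have h2 : l.reverse ++ [b] = (b :: l).reverse := by simp
      rw [h2, ih]
      simp only [wst]
      rw [← Multiset.singleton_add, add_comm, Sym2.eq_swap]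
      rfl

/-- `w` is a walk from `a` to `b` -/
def IsWk (a b : V) (w : List V) : Prop := w.head? = some a ∧ w.getLast? = some b

theorem IsWk.append {a b c : V} {w w' : List V} (h : IsWk a b w) (h' : IsWk b c w') :
    ∃ w'', IsWk a c w'' ∧ wst w'' = wst w + wst w' ∧ ∀ v, v ∈ w'' ↔ v ∈ w ∨ v ∈ w' := by
  obtain ⟨h1, h2⟩ := h
  obtain ⟨h3, h4⟩ := h'
  obtain ⟨A, rfl⟩ : ∃ A, w = A ++ [b] := by
    rw [List.getLast?_eq_some_iff] at h2
    exact h2
  cases w' with
  | nil => simp at h3
  | cons b' B =>
    simp only [List.head?_cons, Option.some.injEq] at h3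
    subst h3
    refine ⟨A ++ b' :: B, ⟨?_, ?_⟩, wst_append A b' B, ?_⟩
    · cases A with
      | nil => simpa using h1
      | cons x A => simpa using h1
    · rw [List.getLast?_append_of_ne_nil _ (by simp)]
      exact h4
    · intro v
      simp only [List.mem_append, List.mem_cons, List.not_mem_nil, or_false]
      tauto

theorem count_le (x y : V) (w : List V) :
    (wst w).count s(x, y) ≤ (dst w).count (x, y) + (dst w).count (y, x) := by
  induction w with
  | nil => simp [wst, dst]
  | cons a l ih =>
    cases l with
    | nil => simp [wst, dst]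
    | cons b l =>
      simp only [wst, dst, Multiset.count_cons, List.count_cons]
      by_cases h : s(x, y) = s(a, b)
      · rw [if_pos h]
        rw [Sym2.eq_iff] at h
        rcases h with ⟨rfl, rfl⟩ | ⟨rfl, rfl⟩
        · have : ((x, y) == (x, y)) = true := by simp
          rw [this]
          simp only [if_true]
          omega
        · have : ((y, x) == (y, x)) = true := by simp
          rw [this]
          simp only [if_true]
          omega
      · rw [if_neg h]
        omega

theorem ex_split (x y : V) (w : List V) (h : 1 ≤ (dst w).count (x, y)) :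
    ∃ A C, w = A ++ x :: y :: C ∧ (dst w).count (x, y) = (dst (y :: C)).count (x, y) + 1 := by
  induction w with
  | nil => simp [dst] at h
  | cons a l ih =>
    cases l with
    | nil => simp [dst] at h
    | cons b l =>
      by_cases hab : (a, b) = (x, y)
      · simp only [Prod.mk.injEq] at hab
        obtain ⟨rfl, rfl⟩ := hab
        refine ⟨[], l, rfl, ?_⟩
        simp only [dst, List.count_cons_self]
      · have h1 : (dst (a :: b :: l)).count (x, y) = (dst (b :: l)).count (x, y) := by
          simp only [dst]
          exact List.count_cons_of_ne hab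
        rw [h1] at h ⊢
        obtain ⟨A, C, h2, h3⟩ := ih h
        exact ⟨a :: A, C, by rw [h2]; rfl, h3⟩

theorem reduce_dir {a b : V} (x y : V) (w : List V) (hw : IsWk a b w)
    (h : 2 ≤ (dst w).count (x, y)) :
    ∃ w', IsWk a b w' ∧ (∀ v, v ∈ w' ↔ v ∈ w) ∧ wst w = wst w' + {s(x, y)} + {s(x, y)} := by
  obtain ⟨A, C, h1, h2⟩ := ex_split x y w (by omega)
  obtain ⟨B, C', h3, -⟩ := ex_split x y (y :: C) (by omega)
  -- the part between the two steps
  obtain ⟨D, hD⟩ : ∃ D, B ++ [x] = y :: D := by
    cases B with
    | nil =>
      simp only [List.nil_append, List.cons.injEq] at h3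
      exact ⟨[], by rw [h3.1]; rfl⟩
    | cons b' B =>
      simp only [List.cons_append, List.cons.injEq] at h3
      exact ⟨B ++ [x], by rw [h3.1]; rfl⟩
  have hDr : x :: B.reverse = D.reverse ++ [y] := by
    have := congrArg List.reverse hD
    simpa using this
  have e1 : x :: (B.reverse ++ C') = D.reverse ++ y :: C' := by
    rw [← List.cons_append, hDr]; simp
  have hyC : wst (y :: C) = wst (B ++ [x]) + (s(x, y) ::ₘ wst (y :: C')) := by
    rw [h3, wst_append]; rfl
  refine ⟨A ++ x :: (B.reverse ++ C'), ⟨?_, ?_⟩, ?_, ?_⟩
  · have := hw.1
    rw [h1] at this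
    cases A with
    | nil => simpa using this
    | cons z A => simpa using this
  · have h4 := hw.2
    rw [h1, List.getLast?_append_of_ne_nil _ (by simp)] at h4
    have h5 : (x :: y :: C).getLast? = (y :: C).getLast? := by simp
    rw [h5, h3, List.getLast?_append_of_ne_nil _ (by simp)] at h4
    rw [List.getLast?_append_of_ne_nil _ (by simp), e1,
      List.getLast?_append_of_ne_nil _ (by simp), ← h4]
    simp
  · intro v
    rw [h1]
    have hm : v ∈ y :: C ↔ v ∈ B ++ x :: y :: C' := by rw [h3]
    have hm2 : v ∈ B ++ [x] ↔ v ∈ y :: D := by rw [hD]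
    simp only [List.mem_append, List.mem_cons, List.mem_reverse, List.not_mem_nil,
      or_false] at hm hm2 ⊢
    constructor
    · rintro (h | h | h | h)
      · exact Or.inl h
      · exact Or.inr (Or.inl h)
      · exact Or.inr (Or.inr (hm.2 (Or.inl h)))
      · exact Or.inr (Or.inr (hm.2 (Or.inr (Or.inr (Or.inr h)))))
    · rintro (h | h | h)
      · exact Or.inl h
      · exact Or.inr (Or.inl h)
      · rcases hm.1 h with h | h | h | h
        · exact Or.inr (Or.inr (Or.inl h))
        · exact Or.inr (Or.inl h)
        · rcases hm2.2 (Or.inl h) with h' | h'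
          · exact Or.inr (Or.inr (Or.inl h'))
          · exact Or.inr (Or.inl h')
        · exact Or.inr (Or.inr (Or.inr h))
  · rw [h1, wst_append A x (y :: C), wst_append A x (B.reverse ++ C'), e1,
      wst_append D.reverse y C', ← hDr]
    have h6 : x :: B.reverse = (B ++ [x]).reverse := by simp
    rw [h6, wst_reverse]
    have h7 : wst (x :: y :: C) = s(x, y) ::ₘ wst (y :: C) := rfl
    rw [h7, hyC]
    simp only [← Multiset.singleton_add]
    abel

theorem reduce_step {a b : V} (x y : V) (w : List V) (hw : IsWk a b w)
    (h : 3 ≤ (wst w).count s(x, y)) :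
    ∃ w', IsWk a b w' ∧ (∀ v, v ∈ w' ↔ v ∈ w) ∧ wst w = wst w' + {s(x, y)} + {s(x, y)} := by
  have := count_le x y w
  rcases le_or_gt 2 ((dst w).count (x, y)) with h1 | h1
  · exact reduce_dir x y w hw h1
  · obtain ⟨w', h2, h3, h4⟩ := reduce_dir y x w hw (by omega)
    refine ⟨w', h2, h3, ?_⟩
    rw [h4, Sym2.eq_swap]

/-- length of a walk in terms of the steps -/
theorem wlen_eq {d : V → V → ℕ} (hd : NMet d) (w : List V) :
    wlen d w = ((wst w).map (Sym2.lift ⟨d, hd.symm⟩)).sum := by
  induction w with
  | nil => simp [wlen, wst]
  | cons a l ih =>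
    cases l with
    | nil => simp [wlen, wst]
    | cons b l =>
      simp only [wlen, wst, Multiset.map_cons, Multiset.sum_cons, Sym2.lift_mk]
      rw [ih]

end walks

section tree

variable {V : Type} [Fintype V] {d : V → V → ℕ} (T : MTree d)

omit [Fintype V] in
theorem b1_iter_root (k : ℕ) : T.par^[k] T.root = T.root := by
  induction k with
  | zero => rfl
  | succ k ih => rw [Function.iterate_succ_apply, T.par_root, ih]

omit [Fintype V] in
theorem b1_desc_root_iff (x : V) : T.desc x T.root ↔ x = T.root := by
  constructor
  · rintro ⟨k, hk⟩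
    rw [b1_iter_root] at hk
    exact hk.symm
  · rintro rfl
    exact ⟨0, rfl⟩

omit [Fintype V] in
theorem b1_desc_iff (x u : V) (hu : u ≠ T.root) :
    T.desc x u ↔ x = u ∨ T.desc x (T.par u) := by
  constructor
  · rintro ⟨k, hk⟩
    cases k with
    | zero => exact Or.inl hk.symm
    | succ k => exact Or.inr ⟨k, by rw [← Function.iterate_succ_apply]; exact hk⟩
  · rintro (rfl | ⟨k, hk⟩)
    · exact ⟨0, rfl⟩
    · exact ⟨k + 1, by rw [Function.iterate_succ_apply]; exact hk⟩

omit [Fintype V] in
theorem b1_rank_le {x u : V} (h : T.desc x u) : T.rank x ≤ T.rank u := by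
  obtain ⟨k, hk⟩ := h
  induction k generalizing u with
  | zero => rw [← hk]; rfl
  | succ k ih =>
    rw [Function.iterate_succ_apply] at hk
    have h1 := ih hk
    by_cases hu : u = T.root
    · rw [hu, T.par_root] at h1
      rw [hu]; exact h1
    · exact h1.trans (T.rank_lt u hu).le

/-- the tree step of `x` -/
def tst (x : V) : Sym2 V := s(x, T.par x)

/-- multiset of tree steps with multiplicities -/
noncomputable def tms (m : V → ℕ) : Multiset (Sym2 V) := ∑ x, m x • {tst T x}

theorem tms_add (m m' : V → ℕ) : tms T (fun x => m x + m' x) = tms T m + tms T m' := by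
  unfold tms
  rw [← Finset.sum_add_distrib]
  exact Finset.sum_congr rfl fun x _ => add_smul _ _ _

/-- indicator of the ancestors of `u` -/
noncomputable def anc (u x : V) : ℕ := if T.desc x u then 1 else 0

/-- the walk from `u` to the root -/
theorem up_exists (u : V) : ∃ w, IsWk u T.root w ∧ u ∈ w ∧ wst w = tms T (anc T u) := by
  induction h : T.rank u using Nat.strong_induction_on generalizing u with
  | _ r ih =>
    by_cases hu : u = T.root
    · refine ⟨[T.root, T.root], ⟨by simp [hu], by simp⟩, by simp [hu], ?_⟩
      unfold tms
      rw [Finset.sum_eq_single T.root]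
      · have : anc T u T.root = 1 := by
          unfold anc
          rw [if_pos]
          rw [hu]; exact ⟨0, rfl⟩
        rw [this, one_smul]
        unfold tst
        rw [T.par_root]
        simp [wst]
      · intro x _ hx
        have : anc T u x = 0 := by
          unfold anc
          rw [if_neg]
          rw [hu, b1_desc_root_iff]
          exact hx
        rw [this, zero_smul]
      · intro h'; exact absurd (Finset.mem_univ _) h'
    · obtain ⟨w, h1, -, h3⟩ := ih (T.rank (T.par u)) (by rw [← h]; exact T.rank_lt u hu) (T.par u) rfl
      cases w with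
      | nil => simp [IsWk] at h1
      | cons p w =>
        have hp : p = T.par u := by simpa using h1.1
        subst hp
        refine ⟨u :: T.par u :: w, ⟨by simp, ?_⟩, by simp, ?_⟩
        · have := h1.2
          simpa using this
        · have e1 : wst (u :: T.par u :: w) = s(u, T.par u) ::ₘ wst (T.par u :: w) := rfl
          rw [e1, h3]
          have e2 : (anc T u) = fun x => (if x = u then 1 else 0) + anc T (T.par u) x := by
            funext x
            unfold anc
            by_cases hx : x = u
            · subst hx
              have hn : ¬ T.desc x (T.par x) := fun hd =>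
                absurd (b1_rank_le T hd) (not_le.2 (T.rank_lt x hu))
              rw [if_pos ⟨0, rfl⟩, if_pos rfl, if_neg hn]
            · have := b1_desc_iff T x u hu
              rw [if_neg hx, zero_add]
              by_cases hd : T.desc x u
              · rw [if_pos hd, if_pos ((this.1 hd).resolve_left hx)]
              · rw [if_neg hd, if_neg (fun h' => hd (this.2 (Or.inr h')))]
          rw [e2, tms_add]
          have e3 : tms T (fun x => if x = u then 1 else 0) = {s(u, T.par u)} := by
            unfold tms
            rw [Finset.sum_eq_single u]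
            · beta_reduce; rw [if_pos rfl, one_smul]; rfl
            · intro x _ hx; beta_reduce; rw [if_neg hx, zero_smul]
            · intro h'; exact absurd (Finset.mem_univ _) h'
          rw [e3, Multiset.singleton_add]

omit [Fintype V] in
theorem IsWk.reverse {a b : V} {w : List V} (h : IsWk a b w) : IsWk b a w.reverse := by
  refine ⟨?_, ?_⟩
  · rw [List.head?_reverse]; exact h.2
  · rw [List.getLast?_reverse]; exact h.1

/-- the loop root, u, v, root -/
theorem loop_exists (u v : V) : ∃ w, IsWk T.root T.root w ∧ u ∈ w ∧ v ∈ w ∧
    wst w = tms T (fun x => anc T u x + anc T v x) + {s(u, v)} := by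
  obtain ⟨w1, h1, h2, h3⟩ := up_exists T u
  obtain ⟨w2, h4, h5, h6⟩ := up_exists T v
  have hs : IsWk u v [u, v] := ⟨by simp, by simp⟩
  obtain ⟨w3, h7, h8, h9⟩ := h1.reverse.append hs
  obtain ⟨w4, h10, h11, h12⟩ := h7.append h4
  refine ⟨w4, h10, ?_, ?_, ?_⟩
  · rw [h12, h9]; simp
  · rw [h12, h9]; simp
  · rw [h11, h8, wst_reverse, h3, h6, tms_add]
    have : wst [u, v] = {s(u, v)} := by simp [wst]
    rw [this]
    abel

/-- walks with loops to all vertices of a list -/
theorem base_exists (L : List V) : ∃ w, ∃ m : V → ℕ, IsWk T.root T.root w ∧ (∀ v ∈ L, v ∈ w) ∧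
    wst w = tms T (fun x => 2 * m x) ∧ ∀ v ∈ L, 1 ≤ m v := by
  induction L with
  | nil =>
    refine ⟨[T.root], fun _ => 0, ⟨by simp, by simp⟩, by simp, ?_, by simp⟩
    unfold tms
    simp [wst]
  | cons a L ih =>
    obtain ⟨w, m, h1, h2, h3, h4⟩ := ih
    obtain ⟨w1, h5, h6, h7⟩ := up_exists T a
    obtain ⟨w2, h8, h9, h10⟩ := h5.reverse.append h5
    obtain ⟨w3, h11, h12, h13⟩ := h1.append h8
    refine ⟨w3, fun x => m x + anc T a x, h11, ?_, ?_, ?_⟩
    · intro v hv
      rw [h13, h10]
      rcases List.mem_cons.1 hv with rfl | hv
      · exact Or.inr (Or.inr h6)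
      · exact Or.inl (h2 v hv)
    · rw [h12, h9, wst_reverse, h7, h3, ← tms_add, ← tms_add]
      congr 1
      funext x
      ring
    · intro v hv
      rcases List.mem_cons.1 hv with rfl | hv
      · have : anc T v v = 1 := if_pos ⟨0, rfl⟩
        beta_reduce
        omega
      · have := h4 v hv
        beta_reduce
        omega

/-- walks with the pairs of `R` -/
theorem pairs_exists (R : List (V × V)) : ∃ w, ∃ m : V → ℕ, IsWk T.root T.root w ∧ (∀ v, v ∈ w) ∧
    wst w = tms T m + ((R.map (fun p => s(p.1, p.2)) : List (Sym2 V)) : Multiset (Sym2 V)) ∧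
    (∀ v, 1 ≤ m v) ∧
    ∀ x, (Odd (m x) ↔ Odd (R.countP (fun p => decide (T.sep x p.1 p.2)))) := by
  induction R with
  | nil =>
    obtain ⟨w, m, h1, h2, h3, h4⟩ := base_exists T (Finset.univ : Finset V).toList
    refine ⟨w, fun x => 2 * m x, h1, fun v => h2 v (by simp), ?_, ?_, ?_⟩
    · rw [h3]; simp
    · intro v
      have := h4 v (by simp)
      beta_reduce
      omega
    · intro x
      simp
  | cons p R ih =>
    obtain ⟨w, m, h1, h2, h3, h4, h5⟩ := ih
    obtain ⟨w1, h6, -, -, h7⟩ := loop_exists T p.1 p.2
    obtain ⟨w2, h8, h9, h10⟩ := h1.append h6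
    refine ⟨w2, fun x => m x + (anc T p.1 x + anc T p.2 x), h8, ?_, ?_, ?_, ?_⟩
    · intro v; rw [h10]; exact Or.inl (h2 v)
    · rw [h9, h3, h7, tms_add T m (fun x => anc T p.1 x + anc T p.2 x)]
      simp only [List.map_cons, ← Multiset.cons_coe, ← Multiset.singleton_add]
      abel
    · intro v
      have := h4 v
      beta_reduce
      omega
    · intro x
      rw [List.countP_cons, Nat.odd_add, h5 x]
      by_cases hs : T.sep x p.1 p.2
      · have e : anc T p.1 x + anc T p.2 x = 1 := by
          unfold anc
          unfold MTree.sep at hs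
          by_cases h1 : T.desc x p.1 <;> by_cases h2 : T.desc x p.2
          · exact absurd (iff_of_true h1 h2) hs
          · rw [if_pos h1, if_neg h2]
          · rw [if_neg h1, if_pos h2]
          · exact absurd (iff_of_false h1 h2) hs
        rw [e]
        simp only [hs, decide_true, if_true]
        rw [Nat.odd_add_one]
        simp
      · have e : Even (anc T p.1 x + anc T p.2 x) := by
          unfold anc
          unfold MTree.sep at hs
          rw [not_not] at hs
          by_cases h1 : T.desc x p.1
          · rw [if_pos h1, if_pos (hs.1 h1)]; exact ⟨1, rfl⟩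
          · rw [if_neg h1, if_neg (fun h => h1 (hs.2 h))]; exact ⟨0, rfl⟩
        simp only [hs, decide_false, Bool.false_eq_true, if_false, add_zero]
        exact ⟨fun h => h.2 e, fun h => ⟨fun _ => e, fun _ => h⟩⟩

theorem reduce_all (N : ℕ) : ∀ (m : V → ℕ) (w : List V) (E : Multiset (Sym2 V)), ∑ x, m x = N →
    IsWk T.root T.root w → (∀ v, v ∈ w) → wst w = tms T m + E → (∀ v, 1 ≤ m v) →
    ∃ w', IsWk T.root T.root w' ∧ (∀ v, v ∈ w') ∧
      wst w' = tms T (fun x => if Odd (m x) then 1 else 2) + E := by
  induction N using Nat.strong_induction_on with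
  | _ N ih =>
    intro m w E hN hw hv hst hm
    by_cases hx : ∃ x, 3 ≤ m x
    · obtain ⟨x, hx⟩ := hx
      have hcount : 3 ≤ (wst w).count s(x, T.par x) := by
        rw [hst, Multiset.count_add]
        have h1 : m x ≤ (tms T m).count s(x, T.par x) := by
          unfold tms
          rw [Multiset.count_sum']
          have h2 : m x = (m x • ({tst T x} : Multiset (Sym2 V))).count s(x, T.par x) := by
            rw [Multiset.count_nsmul]
            unfold tst
            rw [Multiset.count_singleton_self, mul_one]
          calc m x = (m x • ({tst T x} : Multiset (Sym2 V))).count s(x, T.par x) := h2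
            _ ≤ _ := Finset.single_le_sum
              (f := fun y => (m y • ({tst T y} : Multiset (Sym2 V))).count s(x, T.par x))
              (fun y _ => Nat.zero_le _) (Finset.mem_univ x)
        omega
      obtain ⟨w', h1, h2, h3⟩ := reduce_step x (T.par x) w hw hcount
      set m' : V → ℕ := fun y => if y = x then m x - 2 else m y with hm'
      have hmm : m = fun y => m' y + (if y = x then 2 else 0) := by
        funext y
        simp only [hm']
        by_cases hy : y = x
        · subst hy
          rw [if_pos rfl, if_pos rfl]; omega
        · rw [if_neg hy, if_neg hy]; rfl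
      have h4 : tms T m = tms T m' + {s(x, T.par x)} + {s(x, T.par x)} := by
        conv_lhs => rw [hmm]
        rw [tms_add, add_assoc]
        congr 1
        unfold tms
        rw [Finset.sum_eq_single x]
        · beta_reduce; rw [if_pos rfl, two_smul]; rfl
        · intro y _ hy; beta_reduce; rw [if_neg hy, zero_smul]
        · intro h'; exact absurd (Finset.mem_univ _) h'
      have h5 : wst w' = tms T m' + E := by
        have : wst w' + {s(x, T.par x)} + {s(x, T.par x)}
            = tms T m' + E + {s(x, T.par x)} + {s(x, T.par x)} := by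
          rw [← h3, hst, h4]; abel
        exact add_right_cancel (add_right_cancel this)
      have h6 : ∑ y, m y = ∑ y, m' y + 2 := by
        conv_lhs => rw [hmm]
        rw [Finset.sum_add_distrib]
        simp
      have h7 : ∀ v, 1 ≤ m' v := by
        intro v
        simp only [hm']
        by_cases hy : v = x
        · rw [if_pos hy]; omega
        · rw [if_neg hy]; exact hm v
      obtain ⟨w'', h8, h9, h10⟩ := ih (∑ y, m' y) (by omega) m' w' E rfl h1
        (fun v => (h2 v).2 (hv v)) h5 h7
      refine ⟨w'', h8, h9, ?_⟩
      rw [h10]
      congr 2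
      funext y
      have : Odd (m y) ↔ Odd (m' y) := by
        simp only [hm']
        by_cases hy : y = x
        · subst hy
          rw [if_pos rfl, Nat.odd_sub (by omega)]
          simp
        · rw [if_neg hy]
      by_cases ho : Odd (m y)
      · rw [if_pos ho, if_pos (this.1 ho)]
      · rw [if_neg ho, if_neg (fun h => ho (this.2 h))]
    · push Not at hx
      refine ⟨w, hw, hv, ?_⟩
      rw [hst]
      congr 2
      funext x
      have h1 := hx x
      have h2 := hm x
      interval_cases h3 : m x
      · simp
      · rw [if_neg (by decide)]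

end tree

theorem euler_tree {V : Type} [Fintype V] {d : V → V → ℕ} (hd : NMet d) (T : MTree d)
    (R : List (V × V)) :
    ∃ l : List V, (∀ v, v ∈ l) ∧
      cyc d l ≤ ∑ x, T.wt x * (if Odd (R.countP (fun p => decide (T.sep x p.1 p.2))) then 1 else 2) +
        (R.map (fun p => d p.1 p.2)).sum := by
  obtain ⟨w, m, h1, h2, h3, h4, h5⟩ := pairs_exists T R
  obtain ⟨w', h6, h7, h8⟩ := reduce_all T _ m w _ rfl h1 h2 h3 h4
  have hlen : wlen d w' = ∑ x, T.wt x *
      (if Odd (R.countP (fun p => decide (T.sep x p.1 p.2))) then 1 else 2) +
        (R.map (fun p => d p.1 p.2)).sum := by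
    rw [wlen_eq hd, h8, Multiset.map_add, Multiset.sum_add]
    congr 1
    · unfold tms
      have key : ∀ (k : V → ℕ) (S : Finset V), (Multiset.map (Sym2.lift ⟨d, hd.symm⟩)
          (∑ x ∈ S, k x • ({tst T x} : Multiset (Sym2 V)))).sum = ∑ x ∈ S, T.wt x * k x := by
        intro k S
        induction S using Finset.induction_on with
        | empty => simp
        | insert x S hx ih =>
          rw [Finset.sum_insert hx, Finset.sum_insert hx, Multiset.map_add, Multiset.sum_add, ih,
            Multiset.map_nsmul, Multiset.sum_nsmul]
          congr 1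
          rw [Multiset.map_singleton, Multiset.sum_singleton, smul_eq_mul, mul_comm]
          rfl
      rw [key]
      refine Finset.sum_congr rfl fun x _ => ?_
      congr 1
      by_cases ho : Odd (m x)
      · rw [if_pos ho, if_pos ((h5 x).1 ho)]
      · rw [if_neg ho, if_neg (fun h => ho ((h5 x).2 h))]
    · rw [Multiset.map_coe, Multiset.sum_coe, List.map_map]
      rfl
  cases w' with
  | nil => simp [IsWk] at h6
  | cons a l =>
    have ha : a = T.root := by simpa using h6.1
    subst ha
    rcases List.eq_nil_or_concat l with rfl | ⟨l', b, hl⟩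
    · refine ⟨[T.root], h7, ?_⟩
      have : cyc d [T.root] = 0 := by
        simp [cyc, wlen, hd.self]
      rw [this]
      exact Nat.zero_le _
    · rw [List.concat_eq_append] at hl
      subst hl
      have hb : b = T.root := by
        have := h6.2
        rw [← List.cons_append, List.getLast?_append_of_ne_nil _ (by simp)] at this
        simpa using this
      subst hb
      refine ⟨T.root :: l', ?_, ?_⟩
      · intro v
        have := h7 v
        simp only [List.mem_cons, List.mem_append, List.not_mem_nil, or_false] at this ⊢
        tauto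
      · rw [← hlen]
        exact le_refl _

end H82.TQ
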