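import Pool.Agent.H82.TQ.Defs

/-!
# TQ B3: the tours of the frozen statement and cyclic permutations

For `σ : Perm (Fin n)` the permutation `nx = σ ∘ finRotate n ∘ σ⁻¹` is a tour and
`∑ i, d (σ i) (σ (finRotate n i)) = ∑ v, d v (nx v)`. Conversely every tour is of this form: if `n ≥ 1`, put
`σ i = nx^i v₀` (bijective since the orbit of `v₀` is everything by `TourP`).
-/

set_option autoImplicit false

open Finset Classical

namespace H82.TQ

private theorem B3_rot (n : ℕ) (k : ℕ) (i : Fin (n + 1)) :
    (((finRotate (n + 1))^[k] i : Fin (n + 1)) : ℕ) = ((i : ℕ) + k) % (n + 1) := by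
  induction k with
  | zero => simp [Nat.mod_eq_of_lt i.2]
  | succ k ih =>
    have h1 : ((1 : Fin (n + 1)) : ℕ) = 1 % (n + 1) := rfl
    rw [Function.iterate_succ_apply', finRotate_apply, Fin.val_add, ih, h1, ← Nat.add_mod]
    rfl

theorem tour_of_sigma {n : ℕ} (σ : Equiv.Perm (Fin n)) :
    ∃ nx : Equiv.Perm (Fin n), TourP nx ∧
      ∀ d : Fin n → Fin n → ℝ, ∑ i : Fin n, d (σ i) (σ (finRotate n i)) = ∑ v, d v (nx v) := by
  refine ⟨(σ.symm.trans (finRotate n)).trans σ, ?_, ?_⟩
  · intro X hX hXu
    by_contra hcon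
    push Not at hcon
    apply hXu
    obtain ⟨v, hv⟩ := hX
    rcases n with _ | n
    · exact absurd v.2 (by omega)
    · have hk : ∀ k : ℕ, σ ((finRotate (n + 1))^[k] (σ.symm v)) ∈ X := by
        intro k
        induction k with
        | zero => simpa using hv
        | succ k ih =>
          rw [Function.iterate_succ_apply']
          have := hcon _ ih
          simpa using this
      ext w
      refine ⟨fun _ => mem_univ w, fun _ => ?_⟩
      have h1 := hk ((σ.symm w : ℕ) + (n + 1) - (σ.symm v : ℕ))
      have h2 : (finRotate (n + 1))^[(σ.symm w : ℕ) + (n + 1) - (σ.symm v : ℕ)] (σ.symm v) =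
          σ.symm w := by
        apply Fin.ext
        rw [B3_rot]
        have h3 := (σ.symm v).2
        have h4 := (σ.symm w).2
        rw [show (σ.symm v : ℕ) + ((σ.symm w : ℕ) + (n + 1) - (σ.symm v : ℕ)) =
          (σ.symm w : ℕ) + (n + 1) by omega, Nat.add_mod_right, Nat.mod_eq_of_lt h4]
      rw [h2, Equiv.apply_symm_apply] at h1
      exact h1
  · intro d
    rw [← Equiv.sum_comp σ (fun v => d v (((σ.symm.trans (finRotate n)).trans σ) v))]
    simp

theorem sigma_of_tour {n : ℕ} (nx : Equiv.Perm (Fin n)) (hnx : TourP nx) :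
    ∃ σ : Equiv.Perm (Fin n),
      ∀ d : Fin n → Fin n → ℝ, ∑ i : Fin n, d (σ i) (σ (finRotate n i)) = ∑ v, d v (nx v) := by
  rcases n with _ | n
  · exact ⟨1, fun d => by simp⟩
  · set v0 : Fin (n + 1) := 0 with hv0
    have horb : ∀ w, ∃ k : ℕ, nx^[k] v0 = w := by
      by_contra hcon
      push Not at hcon
      obtain ⟨w, hw⟩ := hcon
      obtain ⟨v, hv, hv2⟩ := hnx (univ.filter fun w => ∃ k : ℕ, nx^[k] v0 = w)
        ⟨v0, by simp only [mem_filter, mem_univ, true_and]; exact ⟨0, rfl⟩⟩
        (by
          intro h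
          have : w ∈ (univ : Finset (Fin (n + 1))) := mem_univ w
          rw [← h] at this
          simp only [mem_filter, mem_univ, true_and] at this
          obtain ⟨k, hk⟩ := this
          exact hw k hk)
      simp only [mem_filter, mem_univ, true_and] at hv hv2
      obtain ⟨k, hk⟩ := hv
      apply hv2
      exact ⟨k + 1, by rw [Function.iterate_succ_apply', hk]⟩
    have hper : v0 ∈ Function.periodicPts nx :=
      Function.Injective.mem_periodicPts nx.injective v0
    set p := Function.minimalPeriod nx v0 with hp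
    have hppos : 0 < p := Function.minimalPeriod_pos_of_mem_periodicPts hper
    have hpn : p ≤ n + 1 := by
      have hinj : Set.InjOn (fun k : ℕ => nx^[k] v0) (Finset.range p : Set ℕ) := by
        intro a ha b hb hab
        simp only [Finset.coe_range, Set.mem_Iio] at ha hb
        exact Function.iterate_injOn_Iio_minimalPeriod ha hb hab
      have := Finset.card_le_card_of_injOn (s := Finset.range p)
        (t := (univ : Finset (Fin (n + 1)))) (fun k : ℕ => nx^[k] v0)
        (fun a _ => by simp) hinj
      simpa using this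
    have hsurj : Function.Surjective (fun i : Fin (n + 1) => nx^[(i : ℕ)] v0) := by
      intro w
      obtain ⟨k, hk⟩ := horb w
      refine ⟨⟨k % p, lt_of_lt_of_le (Nat.mod_lt _ hppos) hpn⟩, ?_⟩
      simp only
      rw [Function.iterate_mod_minimalPeriod_eq, hk]
    have hbij : Function.Bijective (fun i : Fin (n + 1) => nx^[(i : ℕ)] v0) :=
      Finite.surjective_iff_bijective.1 hsurj
    have hpe : p = n + 1 := by
      by_contra hne
      have hlt : p < n + 1 := lt_of_le_of_ne hpn hne
      have h1 : (fun i : Fin (n + 1) => nx^[(i : ℕ)] v0) ⟨p, hlt⟩ =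
          (fun i : Fin (n + 1) => nx^[(i : ℕ)] v0) 0 := by
        simp only [Fin.val_zero, Function.iterate_zero, id_eq]
        exact Function.iterate_minimalPeriod
      have h2 := hbij.1 h1
      have h3 := congrArg Fin.val h2
      simp at h3
      omega
    refine ⟨Equiv.ofBijective _ hbij, ?_⟩
    intro d
    rw [← Equiv.sum_comp (Equiv.ofBijective _ hbij) (fun v => d v (nx v))]
    apply Finset.sum_congr rfl
    intro i _
    simp only [Equiv.ofBijective_apply]
    congr 1
    rw [← Function.iterate_succ_apply' nx, finRotate_apply]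
    by_cases hi : i = Fin.last n
    · rw [hi, Fin.last_add_one, Fin.val_last, Fin.val_zero, Nat.succ_eq_add_one]
      have h5 : nx^[p] v0 = v0 := Function.iterate_minimalPeriod
      have h6 : nx^[n + 1] v0 = nx^[p] v0 := by
        congr 2
        exact hpe.symm
      rw [h6, h5]
      rfl
    · rw [Fin.val_add_one_of_lt (Fin.lt_last_iff_ne_last.2 hi)]

/-- the optimum is a lower bound for all tours and is attained -/
theorem opt_le {n : ℕ} (d : Fin n → Fin n → ℝ) (nx : Equiv.Perm (Fin n)) (hnx : TourP nx) :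
    opt d ≤ ∑ v, d v (nx v) := by
  obtain ⟨σ, hσ⟩ := sigma_of_tour nx hnx
  rw [← hσ d]
  exact ciInf_le (Set.finite_range _).bddBelow σ

theorem opt_attained {n : ℕ} (d : Fin n → Fin n → ℝ) :
    ∃ nx : Equiv.Perm (Fin n), TourP nx ∧ opt d = ∑ v, d v (nx v) := by
  obtain ⟨σ, hσ⟩ := exists_eq_ciInf_of_finite
    (f := fun σ : Equiv.Perm (Fin n) => ∑ i : Fin n, d (σ i) (σ (finRotate n i)))
  obtain ⟨nx, hnx, h⟩ := tour_of_sigma σ
  refine ⟨nx, hnx, ?_⟩
  rw [← h d]
  exact hσ.symm

end H82.TQ
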