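import Pool.Agent.H82.TQ.A2
import Pool.Agent.H82.TQ.B1
import Pool.Agent.H82.TQ.B2

/-!
# TQ B4: the averaged parity bound and the master inequality

`psi_bound`: for a subset `A` of `ι` apply `euler_tree` to the list of the pairs `p i`, `i ∈ A`, and `list_to_perm`:
`B ≤ ∑ wt x (3/2 + 1/2 (-1)^{#{i ∈ A : x separates p i}}) + ∑_{i∈A} d(p i)`. Average over `A` with weights
`∏_{i∈A} q i ∏_{i∉A} (1 - q i)`.
`master`: replace `z` by `min z 2` (this does not change `min 2 (sum of z over the separated pairs)` and does not increase the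
cost). Apply `psi_bound` with `ι = V × V`, `q = θ z ≤ 1/2` and `B = (2-c) w`. With `a = ∑_{separated} z`:
`∏(1-2θz) ≤ exp(-2θa)` and `1 - exp(-2θ a) ≥ 2θ m - 2θ²m²`, `m = min 2 a`; so
`(2-c) w ≤ 2w - ∑ wt x (θ m - θ² m²) + θ z(d)`, and `m² ≤ 4`.
`kappa`: `z` = number of occurrences of `(u,v)` as a step of the closed walk of `l`; if `x` separates two elements of `l`
then the closed walk crosses at least twice.
-/

set_option autoImplicit false

open Finset Classical

namespace H82.TQ

section avg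

variable {ι : Type} [Fintype ι]

/-- the weight of a subset -/
noncomputable def b4w (q : ι → ℝ) (A : Finset ι) : ℝ := (∏ i ∈ A, q i) * ∏ i ∈ univ \ A, (1 - q i)

theorem b4w_nonneg (q : ι → ℝ) (h0 : ∀ i, 0 ≤ q i) (h1 : ∀ i, q i ≤ 1) (A : Finset ι) :
    0 ≤ b4w q A :=
  mul_nonneg (Finset.prod_nonneg fun i _ => h0 i)
    (Finset.prod_nonneg fun i _ => by linarith [h1 i])

theorem b4w_prod (q c : ι → ℝ) :
    ∑ A ∈ (univ : Finset ι).powerset, b4w q A * ∏ i ∈ A, c i = ∏ i, (q i * c i + (1 - q i)) := by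
  rw [Finset.prod_add]
  refine Finset.sum_congr rfl fun A _ => ?_
  rw [Finset.prod_mul_distrib]
  unfold b4w
  ring

theorem b4w_one (q : ι → ℝ) : ∑ A ∈ (univ : Finset ι).powerset, b4w q A = 1 := by
  have := b4w_prod q (fun _ => 1)
  simpa using this

theorem b4w_mem (q : ι → ℝ) (i : ι) :
    ∑ A ∈ (univ : Finset ι).powerset, b4w q A * (if i ∈ A then 1 else 0) = q i := by
  have h := b4w_prod q (fun j => if j = i then 0 else 1)
  have h1 : ∏ j, (q j * (if j = i then 0 else 1) + (1 - q j)) = 1 - q i := by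
    rw [Finset.prod_eq_single i]
    · simp
    · intro j _ hj
      rw [if_neg hj]; ring
    · intro h'; exact absurd (Finset.mem_univ _) h'
  have h2 : ∀ A : Finset ι, ∏ j ∈ A, (if j = i then (0 : ℝ) else 1) = 1 - (if i ∈ A then 1 else 0) := by
    intro A
    by_cases hi : i ∈ A
    · rw [if_pos hi, Finset.prod_eq_zero hi (by rw [if_pos rfl])]; ring
    · rw [if_neg hi, Finset.prod_eq_one]
      · ring
      · intro j hj
        rw [if_neg]
        rintro rfl
        exact hi hj
  rw [h1] at h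
  have h3 : ∑ A ∈ (univ : Finset ι).powerset, b4w q A * ∏ j ∈ A, (if j = i then (0 : ℝ) else 1)
      = ∑ A ∈ (univ : Finset ι).powerset, b4w q A
        - ∑ A ∈ (univ : Finset ι).powerset, b4w q A * (if i ∈ A then 1 else 0) := by
    rw [← Finset.sum_sub_distrib]
    refine Finset.sum_congr rfl fun A _ => ?_
    rw [h2]; ring
  rw [h3, b4w_one] at h
  linarith

theorem b4w_sum (q D : ι → ℝ) :
    ∑ A ∈ (univ : Finset ι).powerset, b4w q A * ∑ i ∈ A, D i = ∑ i, q i * D i := by
  have h : ∀ A : Finset ι, b4w q A * ∑ i ∈ A, D i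
      = ∑ i, D i * (b4w q A * (if i ∈ A then 1 else 0)) := by
    intro A
    rw [Finset.mul_sum, ← Finset.sum_subset (Finset.subset_univ A)]
    · refine Finset.sum_congr rfl fun i hi => ?_
      rw [if_pos hi]; ring
    · intro i _ hi
      rw [if_neg hi]; ring
  rw [Finset.sum_congr rfl fun A _ => h A, Finset.sum_comm]
  refine Finset.sum_congr rfl fun i _ => ?_
  rw [← Finset.mul_sum, b4w_mem, mul_comm]

end avg

variable {V : Type} [Fintype V] {d : V → V → ℕ}

theorem psi_bound (hd : NMet d) (T : MTree d) {ι : Type} [Fintype ι] (p : ι → V × V) (q : ι → ℝ)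
    (h0 : ∀ i, 0 ≤ q i) (h1 : ∀ i, q i ≤ 1) (B : ℝ)
    (hB : ∀ nx : Equiv.Perm V, TourP nx → B ≤ tcost d nx) :
    B ≤ ∑ x, (T.wt x : ℝ) *
        (3 / 2 + 1 / 2 * ∏ i ∈ univ.filter (fun i => T.sep x (p i).1 (p i).2), (1 - 2 * q i)) +
      ∑ i, q i * d (p i).1 (p i).2 := by
  -- the bound for one subset
  have hA : ∀ A : Finset ι, B ≤ ∑ x, (T.wt x : ℝ) *
      (3 / 2 + 1 / 2 * ∏ i ∈ A, (if T.sep x (p i).1 (p i).2 then (-1 : ℝ) else 1)) +
      ∑ i ∈ A, (d (p i).1 (p i).2 : ℝ) := by
    intro A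
    obtain ⟨l, hl1, hl2⟩ := euler_tree hd T (A.toList.map p)
    obtain ⟨nx, hn1, hn2⟩ := list_to_perm hd l hl1
    have h2 : (tcost d nx : ℝ) ≤ ∑ x, (T.wt x : ℝ) *
        (if Odd ((A.toList.map p).countP (fun p => decide (T.sep x p.1 p.2))) then 1 else 2) +
        (((A.toList.map p).map (fun p => d p.1 p.2)).sum : ℝ) := by
      have := hn2.trans hl2
      have h' : ((tcost d nx : ℕ) : ℝ) ≤ _ := Nat.cast_le.2 this
      refine h'.trans (le_of_eq ?_)
      push_cast
      rfl
    have h3 : (((A.toList.map p).map (fun p => d p.1 p.2)).sum : ℝ)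
        = ∑ i ∈ A, (d (p i).1 (p i).2 : ℝ) := by
      rw [List.map_map, ← Nat.cast_sum]
      congr 1
      rw [← Finset.sum_map_toList]
      rfl
    have h4 : ∀ x, (if Odd ((A.toList.map p).countP (fun p => decide (T.sep x p.1 p.2))) then (1 : ℝ)
        else 2)
        = 3 / 2 + 1 / 2 * ∏ i ∈ A, (if T.sep x (p i).1 (p i).2 then (-1 : ℝ) else 1) := by
      intro x
      have e1 : (A.toList.map p).countP (fun p => decide (T.sep x p.1 p.2))
          = (A.filter (fun i => T.sep x (p i).1 (p i).2)).card := by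
        rw [List.countP_map, Finset.card_filter, ← Finset.sum_map_toList]
        generalize A.toList = L
        induction L with
        | nil => simp
        | cons a L ih =>
          rw [List.countP_cons, ih, List.map_cons, List.sum_cons]
          simp only [Function.comp_apply, decide_eq_true_eq]
          exact add_comm _ _
      rw [e1, Finset.prod_ite, Finset.prod_const, Finset.prod_const_one, mul_one]
      rcases Nat.even_or_odd (A.filter (fun i => T.sep x (p i).1 (p i).2)).card with he | ho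
      · rw [if_neg (Nat.not_odd_iff_even.2 he), he.neg_one_pow]; norm_num
      · rw [if_pos ho, ho.neg_one_pow]; norm_num
    calc B ≤ (tcost d nx : ℝ) := hB nx hn1
      _ ≤ _ := h2
      _ = _ := by
        rw [h3]
        congr 1
        exact Finset.sum_congr rfl fun x _ => by rw [h4 x]
  -- averaging
  have hav : B ≤ ∑ A ∈ (univ : Finset ι).powerset, b4w q A * (∑ x, (T.wt x : ℝ) *
      (3 / 2 + 1 / 2 * ∏ i ∈ A, (if T.sep x (p i).1 (p i).2 then (-1 : ℝ) else 1)) +
      ∑ i ∈ A, (d (p i).1 (p i).2 : ℝ)) := by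
    calc B = ∑ A ∈ (univ : Finset ι).powerset, b4w q A * B := by
          rw [← Finset.sum_mul, b4w_one, one_mul]
      _ ≤ _ := Finset.sum_le_sum fun A _ => mul_le_mul_of_nonneg_left (hA A) (b4w_nonneg q h0 h1 A)
  refine hav.trans (le_of_eq ?_)
  have e1 : ∀ A : Finset ι, b4w q A * (∑ x, (T.wt x : ℝ) *
      (3 / 2 + 1 / 2 * ∏ i ∈ A, (if T.sep x (p i).1 (p i).2 then (-1 : ℝ) else 1)) +
      ∑ i ∈ A, (d (p i).1 (p i).2 : ℝ))
      = ∑ x, ((T.wt x : ℝ) * (3 / 2) * b4w q A + (T.wt x : ℝ) * (1 / 2) *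
          (b4w q A * ∏ i ∈ A, (if T.sep x (p i).1 (p i).2 then (-1 : ℝ) else 1)))
        + b4w q A * ∑ i ∈ A, (d (p i).1 (p i).2 : ℝ) := by
    intro A
    rw [mul_add, Finset.mul_sum]
    congr 1
    exact Finset.sum_congr rfl fun x _ => by ring
  rw [Finset.sum_congr rfl fun A _ => e1 A, Finset.sum_add_distrib, Finset.sum_comm,
    b4w_sum q (fun i => (d (p i).1 (p i).2 : ℝ))]
  congr 1
  refine Finset.sum_congr rfl fun x _ => ?_
  rw [Finset.sum_add_distrib, ← Finset.mul_sum, ← Finset.mul_sum, b4w_one, b4w_prod]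
  have e2 : ∏ i, (q i * (if T.sep x (p i).1 (p i).2 then (-1 : ℝ) else 1) + (1 - q i))
      = ∏ i ∈ univ.filter (fun i => T.sep x (p i).1 (p i).2), (1 - 2 * q i) := by
    rw [Finset.prod_filter]
    refine Finset.prod_congr rfl fun i _ => ?_
    by_cases h : T.sep x (p i).1 (p i).2
    · rw [if_pos h, if_pos h]; ring
    · rw [if_neg h, if_neg h]; ring
  rw [e2]
  ring

theorem b4_exp_le {t : ℝ} (ht : 0 ≤ t) : Real.exp (-t) ≤ 1 - t + t ^ 2 / 2 := by
  have h := Real.quadratic_le_exp_of_nonneg ht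
  have hpos : 0 < Real.exp t := Real.exp_pos t
  rw [Real.exp_neg, inv_le_comm₀ hpos (by nlinarith [sq_nonneg (t - 1)])]
  refine le_trans ?_ h
  rw [inv_le_iff_one_le_mul₀ (by nlinarith [sq_nonneg (t - 1)])]
  nlinarith [sq_nonneg t, sq_nonneg (t ^ 2)]

theorem master (hd : NMet d) (T : MTree d) (θ c : ℝ) (hθ : 0 < θ) (hθ' : θ ≤ 1 / 4) (hc : 0 ≤ c)
    (hno : ∀ nx : Equiv.Perm V, TourP nx → (2 - c) * T.w ≤ tcost d nx)
    (z : V → V → ℝ) (hz : ∀ u v, 0 ≤ z u v) :
    ∑ x, (T.wt x : ℝ) * min 2 (∑ u, ∑ v, if T.sep x u v then z u v else 0) ≤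
      ∑ u, ∑ v, z u v * d u v + (4 * θ + c / θ) * T.w := by
  set y : V → V → ℝ := fun u v => min (z u v) 2 with hy
  have hy0 : ∀ u v, 0 ≤ y u v := fun u v => le_min (hz u v) (by norm_num)
  have hy2 : ∀ u v, y u v ≤ 2 := fun u v => min_le_right _ _
  have hyz : ∀ u v, y u v ≤ z u v := fun u v => min_le_left _ _
  have hpsi := psi_bound hd T (ι := V × V) (fun e => e) (fun e => θ * y e.1 e.2)
    (fun e => mul_nonneg hθ.le (hy0 _ _)) (fun e => by nlinarith [hy0 e.1 e.2, hy2 e.1 e.2])
    ((2 - c) * T.w) hno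
  -- the truncated cut value
  set m : V → ℝ := fun x => min 2 (∑ u, ∑ v, if T.sep x u v then z u v else 0) with hm
  have hm0 : ∀ x, 0 ≤ m x := fun x => le_min (by norm_num)
    (Finset.sum_nonneg fun u _ => Finset.sum_nonneg fun v _ => by
      split_ifs
      · exact hz u v
      · exact le_refl _)
  have hm2 : ∀ x, m x ≤ 2 := fun x => min_le_left _ _
  have hma : ∀ x, m x ≤ ∑ e ∈ univ.filter (fun e : V × V => T.sep x e.1 e.2), y e.1 e.2 := by
    intro x
    by_cases hall : ∀ e ∈ univ.filter (fun e : V × V => T.sep x e.1 e.2), z e.1 e.2 ≤ 2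
    · refine (min_le_right _ _).trans (le_of_eq ?_)
      have e1 : ∀ u v, (if T.sep x u v then z u v else 0) = if T.sep x u v then y u v else 0 := by
        intro u v
        by_cases h : T.sep x u v
        · rw [if_pos h, if_pos h]
          exact (min_eq_left (hall (u, v) (Finset.mem_filter.2 ⟨Finset.mem_univ _, h⟩))).symm
        · rw [if_neg h, if_neg h]
      rw [Finset.sum_filter, ← Finset.univ_product_univ, Finset.sum_product]
      exact Finset.sum_congr rfl fun u _ => Finset.sum_congr rfl fun v _ => e1 u v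
    · push Not at hall
      obtain ⟨e, he, he2⟩ := hall
      refine (hm2 x).trans ?_
      calc (2 : ℝ) = y e.1 e.2 := (min_eq_right he2.le).symm
        _ ≤ _ := Finset.single_le_sum (f := fun e : V × V => y e.1 e.2) (fun e _ => hy0 _ _) he
  have hprod : ∀ x, ∏ e ∈ univ.filter (fun e : V × V => T.sep x e.1 e.2), (1 - 2 * (θ * y e.1 e.2))
      ≤ 1 - 2 * θ * m x + 2 * θ ^ 2 * m x ^ 2 := by
    intro x
    have h1 : ∏ e ∈ univ.filter (fun e : V × V => T.sep x e.1 e.2), (1 - 2 * (θ * y e.1 e.2))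
        ≤ ∏ e ∈ univ.filter (fun e : V × V => T.sep x e.1 e.2),
            Real.exp (-(2 * (θ * y e.1 e.2))) := by
      refine Finset.prod_le_prod (fun e _ => by nlinarith [hy0 e.1 e.2, hy2 e.1 e.2]) fun e _ => ?_
      have := Real.add_one_le_exp (-(2 * (θ * y e.1 e.2)))
      linarith
    rw [← Real.exp_sum] at h1
    have h2 : ∑ e ∈ univ.filter (fun e : V × V => T.sep x e.1 e.2), -(2 * (θ * y e.1 e.2))
        = -(2 * θ * ∑ e ∈ univ.filter (fun e : V × V => T.sep x e.1 e.2), y e.1 e.2) := by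
      rw [Finset.sum_neg_distrib, Finset.mul_sum]
      congr 1
      exact Finset.sum_congr rfl fun e _ => by ring
    rw [h2] at h1
    have h3 : Real.exp (-(2 * θ * ∑ e ∈ univ.filter (fun e : V × V => T.sep x e.1 e.2), y e.1 e.2))
        ≤ Real.exp (-(2 * θ * m x)) := by
      apply Real.exp_le_exp.2
      have := mul_le_mul_of_nonneg_left (hma x) (by linarith : 0 ≤ 2 * θ)
      linarith
    have h4 := b4_exp_le (t := 2 * θ * m x) (mul_nonneg (by linarith) (hm0 x))
    refine h1.trans (h3.trans (h4.trans (le_of_eq ?_)))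
    ring
  have hsum : ∑ x, (T.wt x : ℝ) *
        (3 / 2 + 1 / 2 * ∏ e ∈ univ.filter (fun e : V × V => T.sep x e.1 e.2),
          (1 - 2 * (θ * y e.1 e.2)))
      ≤ 2 * T.w - θ * ∑ x, (T.wt x : ℝ) * m x + 4 * θ ^ 2 * T.w := by
    have hw : (T.w : ℝ) = ∑ x, (T.wt x : ℝ) := by unfold MTree.w; push_cast; rfl
    rw [hw, Finset.mul_sum, Finset.mul_sum, Finset.mul_sum, ← Finset.sum_sub_distrib,
      ← Finset.sum_add_distrib]
    refine Finset.sum_le_sum fun x _ => ?_
    have hwt : (0 : ℝ) ≤ T.wt x := Nat.cast_nonneg _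
    have h1 := hprod x
    have h2 : m x ^ 2 ≤ 4 := by nlinarith [hm0 x, hm2 x]
    have h3 : 3 / 2 + 1 / 2 * ∏ e ∈ univ.filter (fun e : V × V => T.sep x e.1 e.2),
          (1 - 2 * (θ * y e.1 e.2)) ≤ 2 - θ * m x + 4 * θ ^ 2 := by
      nlinarith [sq_nonneg θ]
    calc (T.wt x : ℝ) * _ ≤ (T.wt x : ℝ) * (2 - θ * m x + 4 * θ ^ 2) :=
          mul_le_mul_of_nonneg_left h3 hwt
      _ = _ := by ring
  have hcost : ∑ e : V × V, θ * y e.1 e.2 * d e.1 e.2 ≤ θ * ∑ u, ∑ v, z u v * d u v := by
    rw [← Finset.univ_product_univ, Finset.sum_product, Finset.mul_sum]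
    refine Finset.sum_le_sum fun u _ => ?_
    rw [Finset.mul_sum]
    refine Finset.sum_le_sum fun v _ => ?_
    have h1 : (0 : ℝ) ≤ d u v := Nat.cast_nonneg _
    have h2 := mul_le_mul_of_nonneg_right (hyz u v) h1
    have := mul_le_mul_of_nonneg_left h2 hθ.le
    calc θ * y u v * d u v = θ * (y u v * d u v) := by ring
      _ ≤ _ := this
  have hfin : θ * ∑ x, (T.wt x : ℝ) * m x
      ≤ θ * ∑ u, ∑ v, z u v * d u v + (4 * θ ^ 2 + c) * T.w := by
    have h1 := hpsi.trans (add_le_add hsum hcost)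
    nlinarith [h1]
  have hfin2 : θ * ∑ x, (T.wt x : ℝ) * m x
      ≤ θ * (∑ u, ∑ v, z u v * d u v + (4 * θ + c / θ) * T.w) := by
    refine hfin.trans (le_of_eq ?_)
    field_simp
  exact le_of_mul_le_mul_left hfin2 hθ

theorem b4_count_sum (L : List (V × V)) (g : V → V → ℝ) :
    ∑ u, ∑ v, (L.count (u, v) : ℝ) * g u v = (L.map (fun e => g e.1 e.2)).sum := by
  induction L with
  | nil => simp
  | cons e L ih =>
    obtain ⟨a, b⟩ := e
    rw [List.map_cons, List.sum_cons, ← ih]
    have h : ∀ u v, (((a, b) :: L).count (u, v) : ℝ) * g u v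
        = (if u = a then (if v = b then g a b else 0) else 0) + (L.count (u, v) : ℝ) * g u v := by
      intro u v
      rw [List.count_cons]
      by_cases hu : u = a
      · by_cases hv : v = b
        · subst hu; subst hv
          simp
          ring
        · have : ((a, b) == (u, v)) = false := by
            simp [Ne.symm hv]
          rw [this, if_pos hu, if_neg hv]
          simp
      · have : ((a, b) == (u, v)) = false := by
          simp [Ne.symm hu]
        rw [this, if_neg hu]
        simp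
    rw [Finset.sum_congr rfl fun u _ => Finset.sum_congr rfl fun v _ => h u v]
    rw [Finset.sum_congr rfl fun u _ => Finset.sum_add_distrib, Finset.sum_add_distrib]
    congr 1
    rw [Finset.sum_eq_single a]
    · rw [Finset.sum_eq_single b]
      · rw [if_pos rfl, if_pos rfl]
      · intro v _ hv; rw [if_pos rfl, if_neg hv]
      · intro h'; exact absurd (Finset.mem_univ _) h'
    · intro u _ hu
      exact Finset.sum_eq_zero fun v _ => if_neg hu
    · intro h'; exact absurd (Finset.mem_univ _) h'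

omit [Fintype V] in
theorem b4_wlen (w : List V) :
    (wlen d w : ℝ) = ((dst w).map (fun e => (d e.1 e.2 : ℝ))).sum := by
  induction w with
  | nil => simp [wlen, dst]
  | cons a l ih =>
    cases l with
    | nil => simp [wlen, dst]
    | cons b l =>
      simp only [wlen, dst, List.map_cons, List.sum_cons]
      rw [← ih]
      push_cast
      rfl

/-- number of crossing steps -/
noncomputable def b4_cr (P : V → Prop) (w : List V) : ℕ :=
  (dst w).countP (fun e => decide (¬ (P e.1 ↔ P e.2)))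

omit [Fintype V] in
theorem b4_cr_cons (P : V → Prop) (a b : V) (l : List V) :
    b4_cr P (a :: b :: l) = b4_cr P (b :: l) + (if ¬ (P a ↔ P b) then 1 else 0) := by
  unfold b4_cr
  simp only [dst, List.countP_cons, decide_eq_true_eq]

omit [Fintype V] in
theorem b4_cr_even (P : V → Prop) (l : List V) (a b : V) :
    Even (b4_cr P (a :: (l ++ [b]))) ↔ (P a ↔ P b) := by
  induction l generalizing a with
  | nil =>
    rw [List.nil_append, b4_cr_cons]
    have : b4_cr P [b] = 0 := by simp [b4_cr, dst]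
    rw [this, zero_add]
    by_cases h : P a ↔ P b
    · rw [if_neg (not_not.2 h)]
      exact iff_of_true (by decide) h
    · rw [if_pos h]
      exact iff_of_false (by decide) h
  | cons c l ih =>
    rw [List.cons_append, b4_cr_cons, Nat.even_add, ih c]
    by_cases h : P a ↔ P c
    · rw [if_neg (not_not.2 h)]
      have : Even 0 := by decide
      tauto
    · rw [if_pos h]
      have : ¬ Even 1 := by decide
      tauto

omit [Fintype V] in
theorem b4_cr_pos (P : V → Prop) (l : List V) (a v : V) (hv : v ∈ a :: l) (h : ¬ (P a ↔ P v)) :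
    1 ≤ b4_cr P (a :: l) := by
  induction l generalizing a with
  | nil =>
    simp only [List.mem_cons, List.not_mem_nil, or_false] at hv
    subst hv
    exact absurd Iff.rfl h
  | cons c l ih =>
    rw [b4_cr_cons]
    by_cases h1 : P a ↔ P c
    · rcases List.mem_cons.1 hv with rfl | hv
      · exact absurd Iff.rfl h
      · have := ih c hv (fun h2 => h (h1.trans h2))
        omega
    · rw [if_pos h1]
      omega

theorem kappa (hd : NMet d) (T : MTree d) (θ c : ℝ) (hθ : 0 < θ) (hθ' : θ ≤ 1 / 4) (hc : 0 ≤ c)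
    (hno : ∀ nx : Equiv.Perm V, TourP nx → (2 - c) * T.w ≤ tcost d nx) (l : List V) :
    2 * ∑ x ∈ univ.filter (fun x => ∃ a ∈ l, ∃ b ∈ l, T.desc x a ∧ ¬ T.desc x b), (T.wt x : ℝ) ≤
      cyc d l + (4 * θ + c / θ) * T.w := by
  cases l with
  | nil =>
    have h1 : (0 : ℝ) ≤ (4 * θ + c / θ) * T.w := by positivity
    simpa [cyc] using h1
  | cons a l =>
    set w : List V := a :: (l ++ [a]) with hw
    have h := master hd T θ c hθ hθ' hc hno (fun u v => ((dst w).count (u, v) : ℝ))
      (fun u v => Nat.cast_nonneg _)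
    have h1 : ∑ u, ∑ v, ((dst w).count (u, v) : ℝ) * d u v = cyc d (a :: l) := by
      rw [b4_count_sum (dst w) (fun u v => (d u v : ℝ)), ← b4_wlen]
      rfl
    rw [h1] at h
    refine le_trans ?_ h
    rw [Finset.mul_sum, Finset.sum_filter]
    refine Finset.sum_le_sum fun x _ => ?_
    have hwt : (0 : ℝ) ≤ T.wt x := Nat.cast_nonneg _
    have h2 : ∑ u, ∑ v, (if T.sep x u v then ((dst w).count (u, v) : ℝ) else 0)
        = (b4_cr (T.desc x) w : ℝ) := by
      have e1 : ∀ u v, (if T.sep x u v then ((dst w).count (u, v) : ℝ) else 0)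
          = ((dst w).count (u, v) : ℝ) * (if T.sep x u v then 1 else 0) := by
        intro u v
        split_ifs <;> ring
      rw [Finset.sum_congr rfl fun u _ => Finset.sum_congr rfl fun v _ => e1 u v,
        b4_count_sum (dst w) (fun u v => if T.sep x u v then 1 else 0)]
      unfold b4_cr
      generalize dst w = L
      induction L with
      | nil => simp
      | cons e L ih =>
        rw [List.map_cons, List.sum_cons, ih, List.countP_cons]
        simp only [decide_eq_true_eq]
        have : (if T.sep x e.1 e.2 then (1 : ℝ) else 0)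
            = ((if ¬ (T.desc x e.1 ↔ T.desc x e.2) then 1 else 0 : ℕ) : ℝ) := by
          unfold MTree.sep
          split_ifs <;> simp
        rw [this]
        push_cast
        ring
    by_cases hx : ∃ p ∈ a :: l, ∃ q ∈ a :: l, T.desc x p ∧ ¬ T.desc x q
    · rw [if_pos hx, h2]
      obtain ⟨p, hp, q, hq, h3, h4⟩ := hx
      have h5 : 2 ≤ b4_cr (T.desc x) w := by
        have he : Even (b4_cr (T.desc x) w) := (b4_cr_even (T.desc x) l a a).2 Iff.rfl
        have hsub : ∀ v ∈ a :: l, v ∈ w := by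
          intro v hv
          rw [hw]
          simp only [List.mem_cons, List.mem_append, List.not_mem_nil, or_false] at hv ⊢
          tauto
        have hp1 : 1 ≤ b4_cr (T.desc x) w := by
          by_cases ha : T.desc x a
          · exact b4_cr_pos (T.desc x) (l ++ [a]) a q (hsub q hq) (fun h => h4 (h.1 ha))
          · exact b4_cr_pos (T.desc x) (l ++ [a]) a p (hsub p hp) (fun h => ha (h.2 h3))
        obtain ⟨r, hr⟩ := he
        omega
      have h6 : (2 : ℝ) ≤ (b4_cr (T.desc x) w : ℝ) := by exact_mod_cast h5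
      rw [min_eq_left h6]
      linarith
    · rw [if_neg hx]
      refine mul_nonneg hwt (le_min (by norm_num) ?_)
      rw [h2]
      exact Nat.cast_nonneg _

/-- every tree gives a tour of length at most `2 w` -/
theorem exists_tour_two (hd : NMet d) (T : MTree d) :
    ∃ nx : Equiv.Perm V, TourP nx ∧ tcost d nx ≤ 2 * T.w := by
  obtain ⟨l, hl1, hl2⟩ := euler_tree hd T []
  obtain ⟨nx, hn1, hn2⟩ := list_to_perm hd l hl1
  refine ⟨nx, hn1, hn2.trans (hl2.trans (le_of_eq ?_))⟩
  unfold MTree.w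
  rw [Finset.mul_sum]
  simp [mul_comm]

end H82.TQ
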