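import Pool.Agent.H82.TQ.A0
import Pool.Agent.H82.TQ.B4

/-!
# TQ B6: in instances without savings the pairs of near components (not joined by tree edges) have small covers

`hub_bound`: `P` is a list of triples `(j,u,v)`: `u, v` are in different classes of level `τ(j-1)`, the classes are not
joined by a tree edge, `d u v ≤ τ(j+1)`, and at each level the classes used by different entries are different.
Let `s = τ(j-1)`, `t = τ(j+1)`; `2 t ≤ 3 s`. Say that `x` is claimed by the entry `(j,u,v)` if `x` separates `u,v`,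
`s < wt x` and (`x` or `par x` is in the class of `u` or of `v` at level `s`). Every entry claims at least two `x`:
let `A`, `B` be the vertices of least rank of the classes of `u`, `v` (tops).
If neither is an ancestor of the other claim `A` and `B`. If `A` is an ancestor of `B`, claim `B` and the child edge
`C` of the class of `u` towards `v` (the ancestor `C` of `v` with `s < wt C` and `par C` in the class of `u`); `C ≠ B`
since the classes are not joined by a tree edge. By the cut property every claimed `x` has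
`wt x ≤ d u v ≤ t`. So every `x` is claimed by at most `4` entries: there are at most two `j` with
`τ(j-1) < wt x ≤ τ(j+1)`, and for each `j` at most two entries (one using the class of `x`, one using that of `par x`).
Apply `psi_bound` with `ι = Fin P.length` and `q = θ = 1/100`, `B = (2-c) w`: if `x` is claimed by `m ≤ 4` entries then
`1/2 (1 - ∏ (1-2θ)) ≥ 1/2 (1 - (1-2θ)^m) ≥ θ m - θ² m² ≥ θ m (1 - 4θ)`. So
`(2-c) w ≤ 2w - θ(1-4θ) ∑_entries 2 s + θ ∑ t`, whence `θ (2(1-4θ) - 3/2) ∑ s ≤ c w`, `0.0042 ∑ s ≤ c w`.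
`hub_cover`: take a list `P` of maximal length satisfying the conditions, with classes given by least vertices
(`j ≤ J`), and let `HB j` consist of the least vertices of all classes used at level `j`.
-/

set_option autoImplicit false

open Finset Classical

namespace H82.TQ

/-- entry conditions -/
def EntryOK {V : Type} {d : V → V → ℕ} (T : MTree d) (p : ℕ × V × V) : Prop :=
  1 ≤ p.1 ∧ d p.2.1 p.2.2 ≤ tau (p.1 + 1) ∧ ¬ Rch d (tau (p.1 - 1)) p.2.1 p.2.2 ∧
    ¬ Tadj T (tau (p.1 - 1)) p.2.1 p.2.2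

/-- two entries of the same level use different classes -/
def EntryDisj {V : Type} (d : V → V → ℕ) (p p' : ℕ × V × V) : Prop :=
  p.1 = p'.1 → ¬ Rch d (tau (p.1 - 1)) p.2.1 p'.2.1 ∧ ¬ Rch d (tau (p.1 - 1)) p.2.1 p'.2.2 ∧
    ¬ Rch d (tau (p.1 - 1)) p.2.2 p'.2.1 ∧ ¬ Rch d (tau (p.1 - 1)) p.2.2 p'.2.2

section B6aux

variable {V : Type} {d : V → V → ℕ}

/-- the top of the class of `v` -/
private lemma B6_top [Fintype V] (hd : NMet d) (T : MTree d) {s : ℕ} {v : V}
    (h : ∃ x, s < T.wt x ∧ T.desc x v) :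
    ∃ B, s < T.wt B ∧ T.desc B v ∧ Rch d s B v ∧
      ∀ x, s < T.wt x → T.desc x v → T.desc x B := by
  obtain ⟨B, hB, hmax⟩ := exists_max_image (univ.filter (fun x => s < T.wt x ∧ T.desc x v))
    T.rank (by obtain ⟨x, hx⟩ := h; exact ⟨x, by simpa using hx⟩)
  simp only [mem_filter, mem_univ, true_and] at hB hmax
  have key : ∀ x, s < T.wt x → T.desc x v → T.desc x B := by
    intro x hx hxv
    rcases T.desc_chain hxv hB.2 with h1 | h1
    · exact h1
    · rcases T.rank_of_desc h1 with h2 | h2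
      · rw [h2]; exact T.desc_refl _
      · exact absurd (hmax x ⟨hx, hxv⟩) (by omega)
  refine ⟨B, hB.1, hB.2, ?_, key⟩
  rw [rch_iff hd T]
  intro x
  by_cases hx : T.wt x ≤ s
  · exact Or.inl hx
  · right
    push Not at hx
    exact ⟨fun h1 => T.desc_trans h1 hB.2, fun h1 => key x hx h1⟩

private lemma B6_sep_left {T : MTree d} {x u v : V} (h1 : T.desc x u) (h2 : ¬ T.desc x v) :
    T.sep x u v := by
  unfold MTree.sep
  tauto

private lemma B6_sep_right {T : MTree d} {x u v : V} (h1 : T.desc x v) (h2 : ¬ T.desc x u) :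
    T.sep x u v := by
  unfold MTree.sep
  tauto

/-- if all long separating edges are above `v` there are two edges at the ends -/
private lemma B6_one [Fintype V] (hd : NMet d) (T : MTree d) {s : ℕ} {u v x₀ : V}
    (h0 : s < T.wt x₀) (h1 : T.desc x₀ v) (h2 : ¬ T.desc x₀ u)
    (h3 : ∀ x, s < T.wt x → T.desc x u → T.desc x v)
    (hadj : ∀ x, s < T.wt x → Rch d s x v → ¬ Rch d s (T.par x) u) :
    ∃ B C, B ≠ C ∧ (s < T.wt B ∧ T.sep B u v ∧ Rch d s B v) ∧
      (s < T.wt C ∧ T.sep C u v ∧ Rch d s (T.par C) u) := by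
  obtain ⟨B, hB1, hB2, hB3, hB4⟩ := B6_top hd T ⟨x₀, h0, h1⟩
  have hBu : ¬ T.desc B u := fun h => h2 (T.desc_trans (hB4 x₀ h0 h1) h)
  obtain ⟨C, hC, hmin⟩ := exists_min_image
    (univ.filter (fun x => s < T.wt x ∧ T.desc x v ∧ ¬ T.desc x u)) T.rank
    ⟨x₀, by simp only [mem_filter, mem_univ, true_and]; exact ⟨h0, h1, h2⟩⟩
  simp only [mem_filter, mem_univ, true_and] at hC hmin
  obtain ⟨hC1, hC2, hC3⟩ := hC
  have hCr : C ≠ T.root := by
    intro h
    rw [h, T.wt_root hd] at hC1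
    omega
  have hpC : Rch d s (T.par C) u := by
    rw [rch_iff hd T]
    intro x
    by_cases hx : T.wt x ≤ s
    · exact Or.inl hx
    · right
      push Not at hx
      constructor
      · intro h
        by_contra hxu
        have e1 : T.desc x C := (T.desc_iff hCr).2 (Or.inr h)
        have e2 : T.desc x v := T.desc_trans e1 hC2
        have e3 := hmin x ⟨hx, e2, hxu⟩
        have e4 : T.rank x ≤ T.rank (T.par C) := by
          rcases T.rank_of_desc h with h5 | h5
          · rw [h5]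
          · exact h5.le
        have e5 := T.rank_lt C hCr
        omega
      · intro h
        have e1 : T.desc x v := h3 x hx h
        rcases T.desc_chain e1 hC2 with h5 | h5
        · rcases (T.desc_iff hCr).1 h5 with h6 | h6
          · exact absurd (h6 ▸ h) hC3
          · exact h6
        · exact absurd (T.desc_trans h5 h) hC3
  refine ⟨B, C, ?_, ⟨hB1, B6_sep_right hB2 hBu, hB3⟩, ⟨hC1, B6_sep_right hC2 hC3, hpC⟩⟩
  rintro rfl
  exact hadj B hB1 hB3 hpC

/-- the tree edges claimed by an entry -/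
private noncomputable def B6_Cl [Fintype V] (T : MTree d) (p : ℕ × V × V) : Finset V :=
  univ.filter (fun x => T.sep x p.2.1 p.2.2 ∧ tau (p.1 - 1) < T.wt x ∧
    ((Rch d (tau (p.1 - 1)) x p.2.1 ∨ Rch d (tau (p.1 - 1)) x p.2.2) ∨
      (Rch d (tau (p.1 - 1)) (T.par x) p.2.1 ∨ Rch d (tau (p.1 - 1)) (T.par x) p.2.2)))

private lemma B6_sep_comm {T : MTree d} {x u v : V} (h : T.sep x u v) : T.sep x v u := by
  unfold MTree.sep at *
  tauto

private lemma B6_two [Fintype V] (hd : NMet d) (T : MTree d) (p : ℕ × V × V)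
    (hp : EntryOK T p) : 2 ≤ (B6_Cl T p).card := by
  obtain ⟨h1, h2, h3, h4⟩ := hp
  have mem : ∀ x, x ∈ B6_Cl T p ↔ (T.sep x p.2.1 p.2.2 ∧ tau (p.1 - 1) < T.wt x ∧
    ((Rch d (tau (p.1 - 1)) x p.2.1 ∨ Rch d (tau (p.1 - 1)) x p.2.2) ∨
      (Rch d (tau (p.1 - 1)) (T.par x) p.2.1 ∨ Rch d (tau (p.1 - 1)) (T.par x) p.2.2))) := by
    intro x
    unfold B6_Cl
    simp only [mem_filter, mem_univ, true_and]
  obtain ⟨s, hs⟩ : ∃ s, s = tau (p.1 - 1) := ⟨_, rfl⟩
  obtain ⟨u, hu⟩ : ∃ u, u = p.2.1 := ⟨_, rfl⟩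
  obtain ⟨v, hv⟩ : ∃ v, v = p.2.2 := ⟨_, rfl⟩
  rw [← hs, ← hu, ← hv] at h3 h4 mem
  by_cases hA : ∃ x, s < T.wt x ∧ T.desc x u ∧ ¬ T.desc x v
  · by_cases hB : ∃ x, s < T.wt x ∧ T.desc x v ∧ ¬ T.desc x u
    · obtain ⟨x, hx1, hx2, hx3⟩ := hA
      obtain ⟨y, hy1, hy2, hy3⟩ := hB
      obtain ⟨A, hA1, hA2, hA3, hA4⟩ := B6_top hd T ⟨x, hx1, hx2⟩
      obtain ⟨B, hB1, hB2, hB3, hB4⟩ := B6_top hd T ⟨y, hy1, hy2⟩
      have hAv : ¬ T.desc A v := fun h => hx3 (T.desc_trans (hA4 x hx1 hx2) h)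
      have hBu : ¬ T.desc B u := fun h => hy3 (T.desc_trans (hB4 y hy1 hy2) h)
      refine one_lt_card.2 ⟨A, ?_, B, ?_, ?_⟩
      · rw [mem]
        exact ⟨B6_sep_left hA2 hAv, hA1, Or.inl (Or.inl hA3)⟩
      · rw [mem]
        exact ⟨B6_sep_right hB2 hBu, hB1, Or.inl (Or.inr hB3)⟩
      · rintro rfl
        exact hAv hB2
    · push Not at hB
      obtain ⟨x, hx1, hx2, hx3⟩ := hA
      obtain ⟨B, C, hne, ⟨hB1, hB2, hB3⟩, ⟨hC1, hC2, hC3⟩⟩ := B6_one hd T (u := v) (v := u)
        hx1 hx2 hx3 hB (by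
          intro x hx e1 e2
          exact h4 ⟨x, hx, Or.inl ⟨e1, e2⟩⟩)
      refine one_lt_card.2 ⟨B, ?_, C, ?_, hne⟩
      · rw [mem]
        exact ⟨B6_sep_comm hB2, hB1, Or.inl (Or.inl hB3)⟩
      · rw [mem]
        exact ⟨B6_sep_comm hC2, hC1, Or.inr (Or.inr hC3)⟩
  · push Not at hA
    by_cases hB : ∃ x, s < T.wt x ∧ T.desc x v ∧ ¬ T.desc x u
    · obtain ⟨x, hx1, hx2, hx3⟩ := hB
      obtain ⟨B, C, hne, ⟨hB1, hB2, hB3⟩, ⟨hC1, hC2, hC3⟩⟩ := B6_one hd T
        hx1 hx2 hx3 hA (by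
          intro x hx e1 e2
          exact h4 ⟨x, hx, Or.inr ⟨e1, e2⟩⟩)
      refine one_lt_card.2 ⟨B, ?_, C, ?_, hne⟩
      · rw [mem]
        exact ⟨hB2, hB1, Or.inl (Or.inr hB3)⟩
      · rw [mem]
        exact ⟨hC2, hC1, Or.inr (Or.inl hC3)⟩
    · push Not at hB
      refine absurd ?_ h3
      rw [rch_iff hd T]
      intro x
      by_cases hx : T.wt x ≤ s
      · exact Or.inl hx
      · push Not at hx
        exact Or.inr ⟨hA x hx, hB x hx⟩

private lemma B6_rch_trans {s : ℕ} {a b c : V} (h : Rch d s a b) (h' : Rch d s b c) :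
    Rch d s a c := Relation.ReflTransGen.trans h h'

private lemma B6_meet (hd : NMet d) {s : ℕ} {x u v u' v' : V}
    (h : Rch d s x u ∨ Rch d s x v) (h' : Rch d s x u' ∨ Rch d s x v')
    (g : ¬ Rch d s u u' ∧ ¬ Rch d s u v' ∧ ¬ Rch d s v u' ∧ ¬ Rch d s v v') : False := by
  obtain ⟨g1, g2, g3, g4⟩ := g
  rcases h with h | h <;> rcases h' with h' | h'
  · exact g1 (B6_rch_trans (rch_symm hd h) h')
  · exact g2 (B6_rch_trans (rch_symm hd h) h')
  · exact g3 (B6_rch_trans (rch_symm hd h) h')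
  · exact g4 (B6_rch_trans (rch_symm hd h) h')

/-- every tree edge is claimed by at most four entries -/
private lemma B6_four [Fintype V] (hd : NMet d) (T : MTree d) (P : List (ℕ × V × V))
    (h1 : ∀ p ∈ P, EntryOK T p) (h2 : P.Pairwise (EntryDisj d)) (x : V) :
    (univ.filter (fun i : Fin P.length => x ∈ B6_Cl T P[i])).card ≤ 4 := by
  have mem : ∀ p : ℕ × V × V, x ∈ B6_Cl T p ↔ (T.sep x p.2.1 p.2.2 ∧ tau (p.1 - 1) < T.wt x ∧
    ((Rch d (tau (p.1 - 1)) x p.2.1 ∨ Rch d (tau (p.1 - 1)) x p.2.2) ∨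
      (Rch d (tau (p.1 - 1)) (T.par x) p.2.1 ∨ Rch d (tau (p.1 - 1)) (T.par x) p.2.2))) := by
    intro p
    unfold B6_Cl
    simp only [mem_filter, mem_univ, true_and]
  have hOK : ∀ i : Fin P.length, EntryOK T P[i] := fun i => h1 _ (List.getElem_mem _)
  have hlt : ∀ i j : Fin P.length, i < j → EntryDisj d P[i] P[j] := by
    intro i j hij
    exact List.pairwise_iff_getElem.1 h2 i j i.2 j.2 hij
  -- the levels
  obtain ⟨A, hA⟩ : ∃ A : Finset ℕ, A =
    (univ.filter (fun i : Fin P.length => x ∈ B6_Cl T P[i])).image (fun i => P[i].1) := ⟨_, rfl⟩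
  have hA2 : A.card ≤ 2 := by
    refine tau_two (T.wt x) A ?_
    intro j hj
    rw [hA, mem_image] at hj
    obtain ⟨i, hi, rfl⟩ := hj
    simp only [mem_filter, mem_univ, true_and] at hi
    rw [mem] at hi
    obtain ⟨k1, k2, k3, k4⟩ := hOK i
    exact ⟨k1, hi.2.1, (T.cut' hd hi.1).trans k2⟩
  have key : (univ.filter (fun i : Fin P.length => x ∈ B6_Cl T P[i])).card ≤
      (A ×ˢ (univ : Finset Bool)).card := by
    refine card_le_card_of_injOn (fun i : Fin P.length => (P[i].1,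
      decide (Rch d (tau (P[i].1 - 1)) x P[i].2.1 ∨ Rch d (tau (P[i].1 - 1)) x P[i].2.2))) ?_ ?_
    · intro i hi
      rw [mem_coe] at hi
      rw [mem_coe, mem_product]
      refine ⟨?_, mem_univ _⟩
      rw [hA, mem_image]
      exact ⟨i, hi, rfl⟩
    · have aux : ∀ i j : Fin P.length, i < j → x ∈ B6_Cl T P[i] → x ∈ B6_Cl T P[j] →
          P[i].1 = P[j].1 →
          ((Rch d (tau (P[i].1 - 1)) x P[i].2.1 ∨ Rch d (tau (P[i].1 - 1)) x P[i].2.2) ↔
          (Rch d (tau (P[j].1 - 1)) x P[j].2.1 ∨ Rch d (tau (P[j].1 - 1)) x P[j].2.2)) → False := by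
        intro i j hij hi hj e1 e2
        rw [mem] at hi hj
        have g := hlt i j hij e1
        rw [← e1] at e2 hj
        rcases hi.2.2 with a1 | a1
        · exact B6_meet hd a1 (e2.1 a1) g
        · rcases hj.2.2 with a2 | a2
          · exact B6_meet hd (e2.2 a2) a2 g
          · exact B6_meet hd a1 a2 g
      intro i hi j hj hij
      simp only [coe_filter, mem_univ, true_and, Set.mem_ofPred_eq] at hi hj
      simp only [Prod.mk.injEq, decide_eq_decide] at hij
      rcases lt_trichotomy i j with h | h | h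
      · exact (aux i j h hi hj hij.1 hij.2).elim
      · exact h
      · exact (aux j i h hj hi hij.1.symm hij.2.symm).elim
  refine key.trans ?_
  rw [card_product]
  simp only [card_univ, Fintype.card_bool]
  omega

end B6aux

theorem hub_bound {V : Type} [Fintype V] {d : V → V → ℕ} (hd : NMet d) (T : MTree d) (c : ℝ)
    (hc : 0 ≤ c) (hno : ∀ nx : Equiv.Perm V, TourP nx → (2 - c) * T.w ≤ tcost d nx)
    (P : List (ℕ × V × V)) (h1 : ∀ p ∈ P, EntryOK T p) (h2 : P.Pairwise (EntryDisj d)) :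
    ((P.map (fun p => (tau (p.1 - 1) : ℝ))).sum) ≤ 240 * c * T.w := by
  have hOK : ∀ i : Fin P.length, EntryOK T P[i] := fun i => h1 _ (List.getElem_mem _)
  have hfour := B6_four hd T P h1 h2
  have hpsi := psi_bound hd T (fun i : Fin P.length => (P[i].2.1, P[i].2.2))
    (fun _ => (1 / 100 : ℝ)) (fun _ => by norm_num) (fun _ => by norm_num) ((2 - c) * T.w) hno
  -- bound of the product
  have hprod : ∀ x : V, (3 / 2 + 1 / 2 * ∏ i ∈ univ.filter
      (fun i : Fin P.length => T.sep x P[i].2.1 P[i].2.2), (1 - 2 * (1 / 100 : ℝ))) ≤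
      2 - 0.0096 * ((univ.filter (fun i : Fin P.length => x ∈ B6_Cl T P[i])).card : ℝ) := by
    intro x
    rw [prod_const]
    have hsub : (univ.filter (fun i : Fin P.length => x ∈ B6_Cl T P[i])).card ≤
        (univ.filter (fun i : Fin P.length => T.sep x P[i].2.1 P[i].2.2)).card := by
      refine card_le_card ?_
      intro i hi
      simp only [mem_filter, mem_univ, true_and] at hi ⊢
      unfold B6_Cl at hi
      simp only [mem_filter, mem_univ, true_and] at hi
      exact hi.1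
    have h4 := hfour x
    obtain ⟨m, hm⟩ : ∃ m, m = (univ.filter (fun i : Fin P.length => x ∈ B6_Cl T P[i])).card :=
      ⟨_, rfl⟩
    rw [← hm] at hsub h4 ⊢
    have hpow : (1 - 2 * (1 / 100 : ℝ)) ^
        (univ.filter (fun i : Fin P.length => T.sep x P[i].2.1 P[i].2.2)).card ≤
        (1 - 2 * (1 / 100 : ℝ)) ^ m :=
      pow_le_pow_of_le_one (by norm_num) (by norm_num) hsub
    have hm4 : (1 - 2 * (1 / 100 : ℝ)) ^ m ≤ 1 - 0.0192 * (m : ℝ) := by
      interval_cases m <;> norm_num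
    linarith
  have hsum1 : ∑ x, (T.wt x : ℝ) * (3 / 2 + 1 / 2 * ∏ i ∈ univ.filter
      (fun i : Fin P.length => T.sep x P[i].2.1 P[i].2.2), (1 - 2 * (1 / 100 : ℝ))) ≤
      ∑ x, (T.wt x : ℝ) *
        (2 - 0.0096 * ((univ.filter (fun i : Fin P.length => x ∈ B6_Cl T P[i])).card : ℝ)) := by
    refine sum_le_sum fun x _ => ?_
    exact mul_le_mul_of_nonneg_left (hprod x) (Nat.cast_nonneg _)
  have hw : (T.w : ℝ) = ∑ x, (T.wt x : ℝ) := by
    unfold MTree.w
    push_cast
    rfl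
  have hsum2 : ∑ x, (T.wt x : ℝ) *
        (2 - 0.0096 * ((univ.filter (fun i : Fin P.length => x ∈ B6_Cl T P[i])).card : ℝ)) =
      2 * T.w - 0.0096 * ∑ i : Fin P.length, ∑ x ∈ B6_Cl T P[i], (T.wt x : ℝ) := by
    have e1 : ∑ i : Fin P.length, ∑ x ∈ B6_Cl T P[i], (T.wt x : ℝ) =
        ∑ x, (T.wt x : ℝ) *
          ((univ.filter (fun i : Fin P.length => x ∈ B6_Cl T P[i])).card : ℝ) := by
      have e2 : ∀ i : Fin P.length, ∑ x ∈ B6_Cl T P[i], (T.wt x : ℝ) =
          ∑ x, if x ∈ B6_Cl T P[i] then (T.wt x : ℝ) else 0 := by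
        intro i
        rw [← sum_filter]
        congr 1
        ext x
        simp
      rw [sum_congr rfl (fun i _ => e2 i), sum_comm]
      refine sum_congr rfl fun x _ => ?_
      rw [← sum_filter, sum_const, nsmul_eq_mul, mul_comm]
    rw [e1, hw, mul_sum, mul_sum, ← sum_sub_distrib]
    refine sum_congr rfl fun x _ => ?_
    ring
  have hsum3 : ∀ i : Fin P.length, 2 * (tau (P[i].1 - 1) : ℝ) ≤
      ∑ x ∈ B6_Cl T P[i], (T.wt x : ℝ) := by
    intro i
    have k1 := B6_two hd T P[i] (hOK i)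
    calc 2 * (tau (P[i].1 - 1) : ℝ) ≤ ((B6_Cl T P[i]).card : ℝ) * (tau (P[i].1 - 1) : ℝ) := by
          have : (2 : ℝ) ≤ ((B6_Cl T P[i]).card : ℝ) := by exact_mod_cast k1
          gcongr
      _ = ∑ x ∈ B6_Cl T P[i], (tau (P[i].1 - 1) : ℝ) := by
          rw [sum_const, nsmul_eq_mul]
      _ ≤ ∑ x ∈ B6_Cl T P[i], (T.wt x : ℝ) := by
          refine sum_le_sum fun x hx => ?_
          unfold B6_Cl at hx
          simp only [mem_filter, mem_univ, true_and] at hx
          exact_mod_cast hx.2.1.le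
  have hsum4 : ∑ i : Fin P.length, (1 / 100 : ℝ) * (d P[i].2.1 P[i].2.2 : ℝ) ≤
      0.015 * ∑ i : Fin P.length, (tau (P[i].1 - 1) : ℝ) := by
    rw [mul_sum]
    refine sum_le_sum fun i _ => ?_
    obtain ⟨k1, k2, k3, k4⟩ := hOK i
    have k5 := tau_two_step (P[i].1 - 1)
    have k6 : P[i].1 - 1 + 2 = P[i].1 + 1 := by omega
    rw [k6] at k5
    have k7 : (2 : ℝ) * (d P[i].2.1 P[i].2.2 : ℝ) ≤ 3 * (tau (P[i].1 - 1) : ℝ) := by
      have : 2 * d P[i].2.1 P[i].2.2 ≤ 3 * tau (P[i].1 - 1) := by omega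
      exact_mod_cast this
    linarith
  have hsum5 : ∑ i : Fin P.length, 2 * (tau (P[i].1 - 1) : ℝ) ≤
      ∑ i : Fin P.length, ∑ x ∈ B6_Cl T P[i], (T.wt x : ℝ) :=
    sum_le_sum fun i _ => hsum3 i
  have hlist : (P.map (fun p => (tau (p.1 - 1) : ℝ))).sum =
      ∑ i : Fin P.length, (tau (P[i].1 - 1) : ℝ) := by
    rw [← Fin.sum_univ_fun_getElem P (fun p => (tau (p.1 - 1) : ℝ))]
    rfl
  rw [hlist]
  have hS0 : 0 ≤ ∑ i : Fin P.length, (tau (P[i].1 - 1) : ℝ) := sum_nonneg fun i _ => by positivity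
  rw [← mul_sum] at hsum5
  have hcw : 0 ≤ c * (T.w : ℝ) := by positivity
  simp only at hpsi
  have final : (2 - c) * (T.w : ℝ) ≤ 2 * T.w - 0.0096 * (2 * ∑ i : Fin P.length,
      (tau (P[i].1 - 1) : ℝ)) + 0.015 * ∑ i : Fin P.length, (tau (P[i].1 - 1) : ℝ) := by
    rw [hsum2] at hsum1
    linarith
  nlinarith

theorem hub_cover {n : ℕ} {d : Fin n → Fin n → ℕ} (hd : NMet d) (T : MTree d) (c : ℝ)
    (hc : 0 ≤ c) (hno : ∀ nx : Equiv.Perm (Fin n), TourP nx → (2 - c) * T.w ≤ tcost d nx) (J : ℕ) :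
    ∃ HB : ℕ → Finset (Fin n),
      (∀ j, 1 ≤ j → j ≤ J → ∀ a b : Fin n, (∀ x ∈ cmp d (tau (j - 1)) a, a ≤ x) →
        (∀ x ∈ cmp d (tau (j - 1)) b, b ≤ x) → a ≠ b → adjU d (tau (j - 1)) (tau (j + 1)) a b →
        ¬ Tadj T (tau (j - 1)) a b → a ∈ HB j ∨ b ∈ HB j) ∧
      ∑ j ∈ Icc 1 J, (tau (j - 1) : ℝ) * (HB j).card ≤ 480 * c * T.w := by
  -- a maximal list
  obtain ⟨Q, hQ⟩ : ∃ Q : List (ℕ × Fin n × Fin n) → Prop, Q = fun P =>
    (∀ p ∈ P, EntryOK T p ∧ p.1 ≤ J) ∧ P.Pairwise (EntryDisj d) := ⟨_, rfl⟩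
  have hbound : ∀ P, Q P → P.length ≤ ⌊60 * c * T.w⌋₊ := by
    intro P hP
    rw [hQ] at hP
    have h1 := hub_bound hd T c hc hno P (fun p hp => (hP.1 p hp).1) hP.2
    have h2 : (4 : ℝ) * P.length ≤ (P.map (fun p => (tau (p.1 - 1) : ℝ))).sum := by
      have : ∀ L : List (ℕ × Fin n × Fin n),
          (4 : ℝ) * L.length ≤ (L.map (fun p => (tau (p.1 - 1) : ℝ))).sum := by
        intro L
        induction L with
        | nil => simp
        | cons a L ih =>
          rw [List.length_cons, List.map_cons, List.sum_cons]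
          push_cast
          have : (4 : ℝ) ≤ (tau (a.1 - 1) : ℝ) := by exact_mod_cast tau_pos _
          linarith
      exact this P
    exact Nat.le_floor (by linarith)
  obtain ⟨P, hP, hmax⟩ : ∃ P, Q P ∧ ∀ P', Q P' → P'.length ≤ P.length := by
    have hne : {m | ∃ P, Q P ∧ P.length = m}.Nonempty :=
      ⟨0, [], by rw [hQ]; simp, rfl⟩
    have hbd : BddAbove {m | ∃ P, Q P ∧ P.length = m} := by
      refine ⟨⌊60 * c * T.w⌋₊, ?_⟩
      rintro m ⟨P, hP, rfl⟩
      exact hbound P hP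
    obtain ⟨P, hP, hPm⟩ := Nat.sSup_mem hne hbd
    refine ⟨P, hP, fun P' hP' => ?_⟩
    rw [hPm]
    exact le_csSup hbd ⟨P', hP', rfl⟩
  rw [hQ] at hP hmax
  simp only at hP hmax
  -- least vertices
  have hself : ∀ s v, v ∈ cmp d s v := by
    intro s v
    unfold cmp
    simp only [mem_filter, mem_univ, true_and]
    exact Relation.ReflTransGen.refl
  obtain ⟨lv, hlv⟩ : ∃ lv : ℕ → Fin n → Fin n, ∀ s v,
      lv s v ∈ cmp d s v ∧ ∀ x ∈ cmp d s v, lv s v ≤ x :=
    ⟨fun s v => (cmp d s v).min' ⟨v, hself s v⟩, fun s v =>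
      ⟨min'_mem _ _, fun x hx => min'_le _ _ hx⟩⟩
  have hmem : ∀ s u v, v ∈ cmp d s u ↔ Rch d s u v := by
    intro s u v
    unfold cmp
    simp only [mem_filter, mem_univ, true_and]
  have hleast : ∀ s a v, (∀ x ∈ cmp d s a, a ≤ x) → Rch d s a v → a = lv s v := by
    intro s a v ha hav
    obtain ⟨g1, g2⟩ := hlv s v
    rw [hmem] at g1
    refine le_antisymm (ha _ ?_) (g2 a ?_)
    · rw [hmem]
      exact B6_rch_trans hav g1
    · rw [hmem]
      exact rch_symm hd hav
  refine ⟨fun j => (univ.filter (fun i : Fin P.length => P[i].1 = j)).biUnion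
    (fun i => {lv (tau (j - 1)) P[i].2.1, lv (tau (j - 1)) P[i].2.2}), ?_, ?_⟩
  · intro j hj1 hjJ a b ha hb hab hadj hT
    by_contra hcon
    rw [not_or] at hcon
    obtain ⟨hca, hcb⟩ := hcon
    obtain ⟨x, hx, y, hy, hxy⟩ := hadj
    rw [hmem] at hx hy
    -- classes of `a` and `b` are not used
    have used : ∀ e, (∀ x ∈ cmp d (tau (j - 1)) e, e ≤ x) →
        e ∉ (univ.filter (fun i : Fin P.length => P[i].1 = j)).biUnion
          (fun i => {lv (tau (j - 1)) P[i].2.1, lv (tau (j - 1)) P[i].2.2}) →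
        ∀ p ∈ P, p.1 = j → ¬ Rch d (tau (j - 1)) e p.2.1 ∧ ¬ Rch d (tau (j - 1)) e p.2.2 := by
      intro e he hne p hp hpj
      obtain ⟨i, hi, rfl⟩ := List.getElem_of_mem hp
      constructor
      · intro hr
        refine hne ?_
        rw [mem_biUnion]
        refine ⟨⟨i, hi⟩, ?_, ?_⟩
        · simp only [mem_filter, mem_univ, true_and]
          exact hpj
        · rw [mem_insert]
          exact Or.inl (hleast _ _ _ he hr)
      · intro hr
        refine hne ?_
        rw [mem_biUnion]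
        refine ⟨⟨i, hi⟩, ?_, ?_⟩
        · simp only [mem_filter, mem_univ, true_and]
          exact hpj
        · rw [mem_insert, mem_singleton]
          exact Or.inr (hleast _ _ _ he hr)
    have ua := used a ha hca
    have ub := used b hb hcb
    have hnew := hmax ((j, x, y) :: P) ⟨?_, ?_⟩
    · rw [List.length_cons] at hnew
      omega
    · intro p hp
      rw [List.mem_cons] at hp
      rcases hp with rfl | hp
      · refine ⟨⟨hj1, hxy, ?_, ?_⟩, hjJ⟩
        · intro hr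
          have hr' : Rch d (tau (j - 1)) x y := hr
          refine hab (le_antisymm (ha b ?_) (hb a ?_))
          · rw [hmem]
            exact B6_rch_trans hx (B6_rch_trans hr' (rch_symm hd hy))
          · rw [hmem]
            exact B6_rch_trans hy (B6_rch_trans (rch_symm hd hr') (rch_symm hd hx))
        · rintro ⟨z, hz, h⟩
          refine hT ⟨z, hz, ?_⟩
          rcases h with ⟨e1, e2⟩ | ⟨e1, e2⟩
          · exact Or.inl ⟨B6_rch_trans e1 (rch_symm hd hx), B6_rch_trans e2 (rch_symm hd hy)⟩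
          · exact Or.inr ⟨B6_rch_trans e1 (rch_symm hd hy), B6_rch_trans e2 (rch_symm hd hx)⟩
      · exact hP.1 p hp
    · rw [List.pairwise_cons]
      refine ⟨?_, hP.2⟩
      intro p hp hj
      have hj' : p.1 = j := hj.symm
      have e1 := ua p hp hj'
      have e2 := ub p hp hj'
      exact ⟨fun h => e1.1 (B6_rch_trans hx h), fun h => e1.2 (B6_rch_trans hx h),
        fun h => e2.1 (B6_rch_trans hy h), fun h => e2.2 (B6_rch_trans hy h)⟩
  · have h1 := hub_bound hd T c hc hno P (fun p hp => (hP.1 p hp).1) hP.2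
    have hlist : (P.map (fun p => (tau (p.1 - 1) : ℝ))).sum =
        ∑ i : Fin P.length, (tau (P[i].1 - 1) : ℝ) := by
      rw [← Fin.sum_univ_fun_getElem P (fun p => (tau (p.1 - 1) : ℝ))]
      rfl
    rw [hlist] at h1
    have h2 : ∑ i : Fin P.length, (tau (P[i].1 - 1) : ℝ) =
        ∑ j ∈ Icc 1 J, ∑ i ∈ univ.filter (fun i : Fin P.length => P[i].1 = j),
          (tau (P[i].1 - 1) : ℝ) := by
      rw [sum_fiberwise_of_maps_to]
      intro i _
      have k := hP.1 P[i] (List.getElem_mem _)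
      rw [mem_Icc]
      exact ⟨k.1.1, k.2⟩
    calc ∑ j ∈ Icc 1 J, (tau (j - 1) : ℝ) *
          ((univ.filter (fun i : Fin P.length => P[i].1 = j)).biUnion
            (fun i => {lv (tau (j - 1)) P[i].2.1, lv (tau (j - 1)) P[i].2.2})).card
        ≤ ∑ j ∈ Icc 1 J, 2 * ∑ i ∈ univ.filter (fun i : Fin P.length => P[i].1 = j),
          (tau (P[i].1 - 1) : ℝ) := by
          refine sum_le_sum fun j _ => ?_
          have e1 : ((univ.filter (fun i : Fin P.length => P[i].1 = j)).biUnion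
            (fun i => {lv (tau (j - 1)) P[i].2.1, lv (tau (j - 1)) P[i].2.2})).card ≤
            (univ.filter (fun i : Fin P.length => P[i].1 = j)).card * 2 :=
            card_biUnion_le_card_mul _ _ _ (fun i _ => card_le_two)
          have e2 : ∑ i ∈ univ.filter (fun i : Fin P.length => P[i].1 = j),
              (tau (P[i].1 - 1) : ℝ) =
              ((univ.filter (fun i : Fin P.length => P[i].1 = j)).card : ℝ) *
                (tau (j - 1) : ℝ) := by
            rw [← nsmul_eq_mul, ← sum_const]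
            refine sum_congr rfl fun i hi => ?_
            simp only [mem_filter, mem_univ, true_and] at hi
            rw [hi]
          rw [e2]
          have e3 : (((univ.filter (fun i : Fin P.length => P[i].1 = j)).biUnion
            (fun i => {lv (tau (j - 1)) P[i].2.1, lv (tau (j - 1)) P[i].2.2})).card : ℝ) ≤
            ((univ.filter (fun i : Fin P.length => P[i].1 = j)).card : ℝ) * 2 := by
            exact_mod_cast e1
          have e4 : (0 : ℝ) ≤ (tau (j - 1) : ℝ) := Nat.cast_nonneg _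
          nlinarith
      _ = 2 * ∑ i : Fin P.length, (tau (P[i].1 - 1) : ℝ) := by
          rw [h2, mul_sum]
      _ ≤ 480 * c * T.w := by linarith

end H82.TQ
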