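import Pool.Agent.H82.TQ.A2

/-!
# TQ C1: counting lemma on trees

`E0` is a set of tree edges (given by lower ends, not the root). The nodes of `T \ E0` are the sets
`Y x = {u : the nearest ancestor-or-self of u in E0 ∪ {root} is x}` for `x ∈ E0 ∪ {root}`; they partition `V`.
The indicator of `Y x` is that of `desc x` minus those of `desc x'`, `x'` the children edges of the node
(`x' ∈ E0`, `par x' ∈ Y x`). So a pair with exactly one end in `Y x` is separated by `x` (only if `x ≠ root`) or by a child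
edge, and `hsub` gives `cut (Y x) ≤ [x ≠ root] a x + ∑_{children} a x'`. Every `x' ∈ E0` occurs in exactly two nodes.
Call a node small if `card ≤ L` and disjoint from `W`; the number `Nb` of the other nodes is at most
`card V / (L+1) + card W`. Sum over the nodes: `2 ∑_{E0} a ≥ ∑_{small} cut ≥ 2 N_s - ∑_{small} max 0 (2 - cut)`
and `N_s + Nb = |E0| + 1`. So `2 ∑_{E0} (1 - a) ≤ 2 Nb - 2 + ∑_{small} max 0 (2 - cut)`.
The family `YY` is the family of the small nodes.
-/

set_option autoImplicit false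

open Finset Classical

namespace H82.TQ

theorem node_count {V : Type} [Fintype V] {d : V → V → ℕ} (T : MTree d) (E0 : Finset V)
    (hroot : T.root ∉ E0) (a : V → ℝ) (ha : ∀ x, 0 ≤ a x) (cut : Finset V → ℝ)
    (hcut : ∀ Y, 0 ≤ cut Y)
    (hsub : ∀ Y E : Finset V, (∀ u v, u ∈ Y → v ∉ Y → ∃ x ∈ E, T.sep x u v) → cut Y ≤ ∑ x ∈ E, a x)
    (L : ℕ) (W : Finset V) :
    ∃ YY : Finset (Finset V),
      (∀ Y ∈ YY, Y.Nonempty ∧ Y.card ≤ L ∧ Disjoint Y W) ∧
      (∀ Y ∈ YY, ∀ Y' ∈ YY, Y ≠ Y' → Disjoint Y Y') ∧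
      ∑ x ∈ E0, (1 - a x) ≤ (Fintype.card V : ℝ) / (L + 1) + W.card +
        1 / 2 * ∑ Y ∈ YY, max 0 (2 - cut Y) := by
  obtain ⟨R, hR⟩ : ∃ R : Finset V, R = insert T.root E0 := ⟨_, rfl⟩
  have hrootR : T.root ∈ R := by rw [hR]; exact mem_insert_self _ _
  have hE0R : ∀ x ∈ E0, x ∈ R := fun x hx => by rw [hR]; exact mem_insert_of_mem hx
  have hRE0 : ∀ x ∈ R, x ≠ T.root → x ∈ E0 := fun x hx hne => by
    rw [hR] at hx
    exact (mem_insert.1 hx).resolve_left hne
  have htop : ∀ u : V, ∃ x ∈ R, T.desc x u ∧ ∀ y ∈ R, T.desc y u → T.desc y x := by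
    intro u
    obtain ⟨x, hx, hmax⟩ := exists_max_image (R.filter fun x => T.desc x u) T.rank
      ⟨T.root, mem_filter.2 ⟨hrootR, T.desc_root u⟩⟩
    rw [mem_filter] at hx
    refine ⟨x, hx.1, hx.2, fun y hy hyu => ?_⟩
    rcases T.desc_chain hyu hx.2 with h | h
    · exact h
    · rcases T.rank_of_desc h with h1 | h1
      · rw [h1]
        exact T.desc_refl _
      · exact absurd h1 (not_lt.2 (hmax y (mem_filter.2 ⟨hy, hyu⟩)))
  choose top htopR htopd htopm using htop
  have htop_self : ∀ x ∈ R, top x = x := fun x hx =>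
    T.desc_antisymm (htopd x) (htopm x x hx (T.desc_refl x))
  obtain ⟨Y, hY⟩ : ∃ Y : V → Finset V, Y = fun x => univ.filter fun u => top u = x := ⟨_, rfl⟩
  have hmemY : ∀ x u, u ∈ Y x ↔ top u = x := fun x u => by rw [hY]; simp
  have hYself : ∀ x ∈ R, x ∈ Y x := fun x hx => (hmemY x x).2 (htop_self x hx)
  obtain ⟨Ch, hCh⟩ : ∃ Ch : V → Finset V, Ch = fun x => E0.filter fun y => top (T.par y) = x :=
    ⟨_, rfl⟩
  obtain ⟨Eb, hEb⟩ : ∃ Eb : V → Finset V, Eb = fun x => (E0.filter fun y => y = x) ∪ Ch x :=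
    ⟨_, rfl⟩
  -- the edges which separate a node
  have hsep : ∀ x ∈ R, ∀ u v, u ∈ Y x → v ∉ Y x → ∃ y ∈ Eb x, T.sep y u v := by
    intro x hx u v hu hv
    rw [hmemY] at hu hv
    have hxu : T.desc x u := hu ▸ htopd u
    by_cases hxv : T.desc x v
    · -- a child edge
      have hz := htopm v x hx hxv
      have hzne : top v ≠ T.root := by
        intro h
        rw [h, T.desc_root_iff] at hz
        exact hv (h.trans hz.symm)
      obtain ⟨y, hy, hmin⟩ := exists_min_image
        (E0.filter fun y => T.desc y v ∧ T.desc x y ∧ y ≠ x) T.rank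
        ⟨top v, mem_filter.2 ⟨hRE0 _ (htopR v) hzne, htopd v, hz, hv⟩⟩
      rw [mem_filter] at hy
      obtain ⟨hyE, hyv, hxy, hyx⟩ := hy
      have hyroot : y ≠ T.root := fun h => hroot (h ▸ hyE)
      have hxp : T.desc x (T.par y) := ((T.desc_iff hyroot).1 hxy).resolve_left (Ne.symm hyx)
      have hxt : T.desc x (top (T.par y)) := htopm _ x hx hxp
      have htp : top (T.par y) = x := by
        by_contra hne
        have h1 : top (T.par y) ≠ T.root := by
          intro h
          rw [h, T.desc_root_iff] at hxt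
          exact hne (h.trans hxt.symm)
        have h2 : T.desc (top (T.par y)) y := (T.desc_iff hyroot).2 (Or.inr (htopd _))
        have h3 := hmin (top (T.par y)) (mem_filter.2 ⟨hRE0 _ (htopR _) h1,
          T.desc_trans h2 hyv, hxt, hne⟩)
        have h4 := T.rank_lt y hyroot
        rcases T.rank_of_desc (htopd (T.par y)) with h5 | h5
        · rw [h5] at h3
          omega
        · omega
      refine ⟨y, ?_, ?_⟩
      · rw [hEb, hCh]
        exact mem_union_right _ (mem_filter.2 ⟨hyE, htp⟩)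
      · intro hiff
        have hyu : T.desc y u := hiff.2 hyv
        have h6 : T.desc y x := hu ▸ htopm u y (hE0R y hyE) hyu
        exact hyx (T.desc_antisymm h6 hxy)
    · -- the edge of `x`
      have hxroot : x ≠ T.root := fun h => hxv (h ▸ T.desc_root v)
      refine ⟨x, ?_, fun hiff => hxv (hiff.1 hxu)⟩
      rw [hEb]
      exact mem_union_left _ (mem_filter.2 ⟨hRE0 x hx hxroot, rfl⟩)
  have hcutle : ∀ x ∈ R, cut (Y x) ≤ ∑ y ∈ E0.filter (fun y => y = x), a y + ∑ y ∈ Ch x, a y := by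
    intro x hx
    refine (hsub (Y x) (Eb x) (hsep x hx)).trans ?_
    rw [hEb]
    have h1 := sum_union_inter (s₁ := E0.filter fun y => y = x) (s₂ := Ch x) (f := a)
    have h2 : 0 ≤ ∑ y ∈ (E0.filter fun y => y = x) ∩ Ch x, a y := sum_nonneg fun y _ => ha y
    linarith
  have hsum : ∑ x ∈ R, cut (Y x) ≤ 2 * ∑ x ∈ E0, a x := by
    calc ∑ x ∈ R, cut (Y x) ≤ ∑ x ∈ R, (∑ y ∈ E0.filter (fun y => y = x), a y +
          ∑ y ∈ Ch x, a y) := sum_le_sum hcutle
      _ = ∑ x ∈ R, ∑ y ∈ E0.filter (fun y => y = x), a y + ∑ x ∈ R, ∑ y ∈ Ch x, a y :=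
          sum_add_distrib
      _ = ∑ x ∈ E0, a x + ∑ x ∈ E0, a x := by
          rw [hCh, sum_fiberwise_of_maps_to (g := fun y => y) hE0R,
            sum_fiberwise_of_maps_to (g := fun y => top (T.par y)) fun y _ => htopR _]
      _ = _ := by ring
  -- small nodes
  obtain ⟨Sm, hSm⟩ : ∃ Sm : Finset V,
    Sm = R.filter fun x => (Y x).card ≤ L ∧ Disjoint (Y x) W := ⟨_, rfl⟩
  have hSmR : Sm ⊆ R := by rw [hSm]; exact filter_subset _ _
  have hinj : Set.InjOn Y Sm := by
    intro x hx x' hx' hxx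
    have h1 := hYself x (hSmR hx)
    rw [hxx, hmemY] at h1
    rw [← h1, htop_self x (hSmR hx)]
  have hYdisj : ∀ x x', x ≠ x' → Disjoint (Y x) (Y x') := by
    intro x x' hne
    rw [disjoint_left]
    intro u hu hu'
    rw [hmemY] at hu hu'
    exact hne (hu.symm.trans hu')
  refine ⟨Sm.image Y, ?_, ?_, ?_⟩
  · intro Z hZ
    obtain ⟨x, hx, rfl⟩ := mem_image.1 hZ
    have hx' := hx
    rw [hSm, mem_filter] at hx'
    exact ⟨⟨x, hYself x hx'.1⟩, hx'.2⟩
  · intro Z hZ Z' hZ' hne
    obtain ⟨x, hx, rfl⟩ := mem_image.1 hZ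
    obtain ⟨x', hx', rfl⟩ := mem_image.1 hZ'
    exact hYdisj x x' fun h => hne (h ▸ rfl)
  · rw [sum_image hinj]
    -- the number of the other nodes
    have hbig : ((R \ Sm).card : ℝ) ≤ (Fintype.card V : ℝ) / (L + 1) + W.card := by
      obtain ⟨B1, hB1⟩ : ∃ B1 : Finset V, B1 = R.filter fun x => L < (Y x).card := ⟨_, rfl⟩
      obtain ⟨B2, hB2⟩ : ∃ B2 : Finset V, B2 = R.filter fun x => ¬ Disjoint (Y x) W := ⟨_, rfl⟩
      have h1 : (R \ Sm) ⊆ B1 ∪ B2 := by
        intro x hx
        rw [hSm, mem_sdiff, mem_filter] at hx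
        rw [hB1, hB2, mem_union, mem_filter, mem_filter]
        by_cases h : L < (Y x).card
        · exact Or.inl ⟨hx.1, h⟩
        · exact Or.inr ⟨hx.1, fun h' => hx.2 ⟨hx.1, not_lt.1 h, h'⟩⟩
      have h2 : (L + 1) * B1.card ≤ Fintype.card V := by
        have h3 : (B1.biUnion Y).card = ∑ x ∈ B1, (Y x).card :=
          card_biUnion fun x _ x' _ hne => hYdisj x x' hne
        have h4 : (L + 1) * B1.card ≤ ∑ x ∈ B1, (Y x).card := by
          rw [mul_comm, ← smul_eq_mul]
          apply card_nsmul_le_sum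
          intro x hx
          rw [hB1, mem_filter] at hx
          exact hx.2
        rw [← h3] at h4
        exact h4.trans (card_le_univ _)
      have h5 : B2.card ≤ W.card := by
        have h6 : ∀ x ∈ B2, ∃ w ∈ W, top w = x := by
          intro x hx
          rw [hB2, mem_filter, not_disjoint_iff] at hx
          obtain ⟨-, w, hw, hwW⟩ := hx
          exact ⟨w, hwW, (hmemY x w).1 hw⟩
        have h7 : B2 ⊆ W.image top := by
          intro x hx
          obtain ⟨w, hw, hwx⟩ := h6 x hx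
          exact mem_image.2 ⟨w, hw, hwx⟩
        exact (card_le_card h7).trans card_image_le
      have h8 : (R \ Sm).card ≤ B1.card + B2.card := (card_le_card h1).trans (card_union_le _ _)
      have h9 : (B1.card : ℝ) ≤ (Fintype.card V : ℝ) / (L + 1) := by
        rw [le_div_iff₀ (by positivity)]
        have : (((L + 1) * B1.card : ℕ) : ℝ) ≤ (Fintype.card V : ℝ) := by exact_mod_cast h2
        push_cast at this
        linarith
      have h10 : (B2.card : ℝ) ≤ W.card := by exact_mod_cast h5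
      have h11 : ((R \ Sm).card : ℝ) ≤ B1.card + B2.card := by exact_mod_cast h8
      linarith
    have hcard : (R.card : ℝ) = E0.card + 1 := by
      rw [hR, card_insert_of_notMem hroot]
      push_cast
      ring
    have hcard2 : (R.card : ℝ) = (R \ Sm).card + Sm.card := by
      have := card_sdiff_add_card_eq_card hSmR
      exact_mod_cast this.symm
    have hs1 : ∑ x ∈ Sm, cut (Y x) ≤ ∑ x ∈ R, cut (Y x) :=
      sum_le_sum_of_subset_of_nonneg hSmR fun x _ _ => hcut _
    have hs2 : 2 * (Sm.card : ℝ) - ∑ x ∈ Sm, max 0 (2 - cut (Y x)) ≤ ∑ x ∈ Sm, cut (Y x) := by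
      have h1 : ∑ x ∈ Sm, ((2 : ℝ) - max 0 (2 - cut (Y x))) ≤ ∑ x ∈ Sm, cut (Y x) := by
        apply sum_le_sum
        intro x _
        have := le_max_right (0 : ℝ) (2 - cut (Y x))
        linarith
      rw [sum_sub_distrib, sum_const, nsmul_eq_mul] at h1
      linarith
    rw [sum_sub_distrib, sum_const, nsmul_eq_mul, mul_one]
    linarith

end H82.TQ
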