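import Pool.Agent.H82.TQ.B4
import Pool.Agent.H82.TQ.C1

/-!
# TQ C2: lower bound for the local linear program in instances without savings

Let `ν u ∈ S ∪ N'` with `d u (ν u) ≤ f u`, `z u v = x u v + (if v = ν u then y u else 0)`,
`a e = ∑_{(u,v) separated by e} z u v` (for `e : V`), and for a set `Y` let
`cut Y = ∑_{(u,v), exactly one in Y} z u v`.
* cost: `∑ z d ≤ ∑ x d + ∑ y f`. Master inequality: `∑ wt e * min 2 (a e) ≤ ∑ z d + (4θ + c/θ) w`.
* if `Y` is disjoint from `S ∪ N'` then `cutv x y Y ≤ cut Y`; in particular `a e ≥ cutv x y (desc e)`.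
* pieces: for a set `Y` disjoint from `S`, `Y.card ≤ L4` and `b ∈ Y` let `Z` be the set of vertices reachable
  from `b` inside `Y` along `nbr`. Then `Z ∈ Fam nbr S L4` (a connected set with `≤ L4` vertices is in the ball of radius
  `L4` around each of its vertices) and `cutv x y Z ≤ cutv x y Y` (there are no allowed pairs between `Z` and `Y \ Z`), so
  `max 0 (2 - cutv Y) ≤ max 0 (2 - cutv Z)`.
* twigs: for `e ∈ A1` with no vertex of `S ∪ N'` among its descendants, with the piece `Z_e ∋ e` of `desc e`: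
  `a e ≥ 2 - pen Z_e`. At most `L4` twigs have the same piece `Z` (they are elements of `Z`), so
  `∑_e wt e * pen Z_e ≤ ℓ L4 ∑_{X ∈ Fam} pen X`.
* `node_count` with `E0 = {e : wt e ≤ ℓ, e ≠ root, a e < 1}`, `L = L4`, `W = S ∪ N'`: the small nodes are disjoint, so
  their pieces (at any vertex) are different elements of `Fam`:
  `∑_{E0} (1 - a e) ≤ card V/(L4+1) + |S| + |N'| + 1/2 ∑_{X ∈ Fam} pen X`.
* for all `e` with `wt e ≤ ℓ`: `min 2 (a e) ≥ 1 - (1 - a e)_+`, and for the twigs above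
  `min 2 (a e) ≥ 1 - (1 - a e)_+ + 1 - pen Z_e`. Sum up: 
  `∑ wt e min 2 (a e) ≥ wle ℓ + ∑_{twigs} wt - ℓ ∑_{E0} (1 - a e) - ℓ L4 ∑ pen`.
-/

set_option autoImplicit false

open Finset Classical

namespace H82.TQ

/-! ### Pieces -/

/-- steps inside `Y` along `nbr` -/
private def c2R {V : Type} (nbr : V → Finset V) (Y : Finset V) (p q : V) : Prop :=
  p ∈ Y ∧ q ∈ Y ∧ q ∈ nbr p

/-- the piece of `b` in `Y` -/
private noncomputable def c2Z {V : Type} [Fintype V] (nbr : V → Finset V) (Y : Finset V) (b : V) :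
    Finset V :=
  univ.filter (fun v => Relation.ReflTransGen (c2R nbr Y) b v)

private theorem c2_mem_Z {V : Type} [Fintype V] {nbr : V → Finset V} {Y : Finset V} {b v : V} :
    v ∈ c2Z nbr Y b ↔ Relation.ReflTransGen (c2R nbr Y) b v := by
  simp [c2Z]

private theorem c2_self_mem {V : Type} [Fintype V] (nbr : V → Finset V) (Y : Finset V) (b : V) :
    b ∈ c2Z nbr Y b := c2_mem_Z.2 Relation.ReflTransGen.refl

private theorem c2_Z_sub {V : Type} [Fintype V] {nbr : V → Finset V} {Y : Finset V} {b : V}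
    (hb : b ∈ Y) : c2Z nbr Y b ⊆ Y := by
  intro v hv
  rw [c2_mem_Z] at hv
  rcases Relation.ReflTransGen.cases_tail hv with h | ⟨c, _, h⟩
  · rw [h]; exact hb
  · exact h.2.1

private theorem c2_Z_closed {V : Type} [Fintype V] {nbr : V → Finset V} {Y : Finset V} {b u v : V}
    (hb : b ∈ Y) (hu : u ∈ c2Z nbr Y b) (hv : v ∈ Y) (huv : v ∈ nbr u) : v ∈ c2Z nbr Y b := by
  have huY := c2_Z_sub hb hu
  rw [c2_mem_Z] at hu ⊢
  exact hu.tail ⟨huY, hv, huv⟩

private theorem c2_R_symm {V : Type} {nbr : V → Finset V} (hsym : ∀ u v, v ∈ nbr u → u ∈ nbr v)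
    {Y : Finset V} {p q : V} (h : c2R nbr Y p q) : c2R nbr Y q p :=
  ⟨h.2.1, h.1, hsym _ _ h.2.2⟩

/-- a set closed under steps inside `Y` contained ... : exits of a proper subset -/
private theorem c2_exit {V : Type} [Fintype V] {nbr : V → Finset V}
    {Y B : Finset V} {a v : V} (hav : Relation.ReflTransGen (c2R nbr Y) a v)
    (ha : a ∈ B) (hv : v ∉ B) :
    ∃ p q, Relation.ReflTransGen (c2R nbr Y) a p ∧ p ∈ B ∧ q ∉ B ∧ c2R nbr Y p q := by
  induction hav with
  | refl => exact absurd ha hv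
  | @tail p q hap hpq ih =>
    by_cases hp : p ∈ B
    · exact ⟨p, q, hap, hp, hv, hpq⟩
    · exact ih hp

private theorem c2_ball {V : Type} [Fintype V] {nbr : V → Finset V}
    (hsym : ∀ u v, v ∈ nbr u → u ∈ nbr v) {Y : Finset V} {b a : V} 
    (ha : a ∈ c2Z nbr Y b) (k : ℕ) :
    c2Z nbr Y b ⊆ ball nbr k a ∨ k + 1 ≤ (c2Z nbr Y b ∩ ball nbr k a).card := by
  have hself : ∀ k, a ∈ ball nbr k a := by
    intro k
    induction k with
    | zero => simp [ball]
    | succ k ih => rw [ball]; exact mem_union_left _ ih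
  have hmono : ∀ k, ball nbr k a ⊆ ball nbr (k + 1) a := by
    intro k
    rw [ball]
    exact subset_union_left
  induction k with
  | zero =>
    right
    have : a ∈ c2Z nbr Y b ∩ ball nbr 0 a := mem_inter.2 ⟨ha, hself 0⟩
    exact Finset.card_pos.2 ⟨a, this⟩
  | succ k ih =>
    rcases ih with h | h
    · left
      exact h.trans (hmono k)
    · by_cases hsub : c2Z nbr Y b ⊆ ball nbr k a
      · left
        exact hsub.trans (hmono k)
      · right
        rw [Finset.not_subset] at hsub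
        obtain ⟨v, hvZ, hvB⟩ := hsub
        have hab : Relation.ReflTransGen (c2R nbr Y) a b := by
          have h1 := c2_mem_Z.1 ha
          clear * - h1 hsym
          induction h1 with
          | refl => exact Relation.ReflTransGen.refl
          | tail _ hpq ih => exact Relation.ReflTransGen.head (c2_R_symm hsym hpq) ih
        have hav : Relation.ReflTransGen (c2R nbr Y) a v := hab.trans (c2_mem_Z.1 hvZ)
        obtain ⟨p, q, hap, hpB, hqB, hpq⟩ := c2_exit hav (hself k) hvB
        have hbp : Relation.ReflTransGen (c2R nbr Y) b p := (c2_mem_Z.1 ha).trans hap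
        have hqZ : q ∈ c2Z nbr Y b := c2_mem_Z.2 (hbp.tail hpq)
        have hqB' : q ∈ ball nbr (k + 1) a := by
          rw [ball]
          exact mem_union_right _ (mem_biUnion.2 ⟨p, hpB, hpq.2.2⟩)
        have hss : insert q (c2Z nbr Y b ∩ ball nbr k a) ⊆ c2Z nbr Y b ∩ ball nbr (k + 1) a := by
          intro w hw
          rw [mem_insert] at hw
          rcases hw with rfl | hw
          · exact mem_inter.2 ⟨hqZ, hqB'⟩
          · exact mem_inter.2 ⟨(mem_inter.1 hw).1, hmono k (mem_inter.1 hw).2⟩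
        have hnot : q ∉ c2Z nbr Y b ∩ ball nbr k a := fun hq => hqB (mem_inter.1 hq).2
        have := Finset.card_le_card hss
        rw [Finset.card_insert_of_notMem hnot] at this
        omega

private theorem c2_Z_Fam {V : Type} [Fintype V] {nbr : V → Finset V}
    (hsym : ∀ u v, v ∈ nbr u → u ∈ nbr v) {S Y : Finset V} {b : V} {L : ℕ}
    (hb : b ∈ Y) (hY : Y.card ≤ L) (hYS : Disjoint Y S) :
    c2Z nbr Y b ∈ Fam nbr S L := by
  have hcard : (c2Z nbr Y b).card ≤ L := (Finset.card_le_card (c2_Z_sub hb)).trans hY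
  rw [Fam, mem_filter]
  refine ⟨mem_univ _, ⟨b, c2_self_mem nbr Y b⟩, hcard,
    Finset.disjoint_of_subset_left (c2_Z_sub hb) hYS, ?_⟩
  intro a ha
  rcases c2_ball hsym ha L with h | h
  · exact h
  · exfalso
    have := Finset.card_le_card (Finset.inter_subset_left (s₁ := c2Z nbr Y b) (s₂ := ball nbr L a))
    omega

private theorem c2_cutv_Z {V : Type} [Fintype V] {nbr : V → Finset V}
    (hsym : ∀ u v, v ∈ nbr u → u ∈ nbr v) {Y : Finset V} {b : V} (hb : b ∈ Y)
    (x : V → V → ℝ) (y : V → ℝ) (hx : ∀ u v, 0 ≤ x u v) (hy : ∀ u, 0 ≤ y u)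
    (hsup : ∀ u v, x u v ≠ 0 → v ∈ nbr u) :
    cutv x y (c2Z nbr Y b) ≤ cutv x y Y := by
  unfold cutv
  calc ∑ u ∈ c2Z nbr Y b, (y u + ∑ v ∈ univ.filter (fun v => v ∉ c2Z nbr Y b), (x u v + x v u))
      ≤ ∑ u ∈ c2Z nbr Y b, (y u + ∑ v ∈ univ.filter (fun v => v ∉ Y), (x u v + x v u)) := by
        apply Finset.sum_le_sum
        intro u hu
        have hle : ∑ v ∈ univ.filter (fun v => v ∉ c2Z nbr Y b), (x u v + x v u) ≤
            ∑ v ∈ univ.filter (fun v => v ∉ Y), (x u v + x v u) := by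
          rw [Finset.sum_filter, Finset.sum_filter]
          apply Finset.sum_le_sum
          intro v _
          by_cases hvZ : v ∈ c2Z nbr Y b
          · rw [if_neg (not_not.2 hvZ)]
            by_cases hvY : v ∉ Y
            · rw [if_pos hvY]
              exact add_nonneg (hx _ _) (hx _ _)
            · rw [if_neg hvY]
          · rw [if_pos hvZ]
            by_cases hvY : v ∈ Y
            · rw [if_neg (not_not.2 hvY)]
              have h1 : x u v = 0 := by
                by_contra h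
                exact hvZ (c2_Z_closed hb hu hvY (hsup u v h))
              have h2 : x v u = 0 := by
                by_contra h
                exact hvZ (c2_Z_closed hb hu hvY (hsym _ _ (hsup v u h)))
              rw [h1, h2]; norm_num
            · rw [if_pos hvY]
        linarith
    _ ≤ ∑ u ∈ Y, (y u + ∑ v ∈ univ.filter (fun v => v ∉ Y), (x u v + x v u)) := by
        apply Finset.sum_le_sum_of_subset_of_nonneg (c2_Z_sub hb)
        intro u _ _
        exact add_nonneg (hy u) (Finset.sum_nonneg (fun v _ => add_nonneg (hx _ _) (hx _ _)))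

/-! ### Cuts of the weighting `z` -/

private noncomputable def c2cut {V : Type} [Fintype V] (z : V → V → ℝ) (Y : Finset V) : ℝ :=
  ∑ u, ∑ v, if ¬ (u ∈ Y ↔ v ∈ Y) then z u v else 0

private theorem c2_cut_nonneg {V : Type} [Fintype V] (z : V → V → ℝ) (hz : ∀ u v, 0 ≤ z u v)
    (Y : Finset V) : 0 ≤ c2cut z Y := by
  unfold c2cut
  refine Finset.sum_nonneg (fun u _ => Finset.sum_nonneg (fun v _ => ?_))
  by_cases h : ¬ (u ∈ Y ↔ v ∈ Y)
  · rw [if_pos h]
    exact hz u v
  · rw [if_neg h]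

private theorem c2_sub {V : Type} [Fintype V] {d : V → V → ℕ} (T : MTree d)
    (z : V → V → ℝ) (hz : ∀ u v, 0 ≤ z u v) (Y E : Finset V)
    (h : ∀ u v, u ∈ Y → v ∉ Y → ∃ x ∈ E, T.sep x u v) :
    c2cut z Y ≤ ∑ e ∈ E, ∑ u, ∑ v, if T.sep e u v then z u v else 0 := by
  have hsepsymm : ∀ e u v, T.sep e u v → T.sep e v u := by
    intro e u v hs hs'
    exact hs hs'.symm
  rw [Finset.sum_comm]
  unfold c2cut
  apply Finset.sum_le_sum
  intro u _
  rw [Finset.sum_comm]
  apply Finset.sum_le_sum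
  intro v _
  have hnn : ∀ e ∈ E, 0 ≤ (if T.sep e u v then z u v else 0) := by
    intro e _
    split_ifs
    · exact hz u v
    · exact le_refl _
  by_cases hY : ¬ (u ∈ Y ↔ v ∈ Y)
  · rw [if_pos hY]
    have hex : ∃ e ∈ E, T.sep e u v := by
      by_cases hu : u ∈ Y
      · have hv : v ∉ Y := fun hv => hY ⟨fun _ => hv, fun _ => hu⟩
        exact h u v hu hv
      · have hv : v ∈ Y := by
          by_contra hv
          exact hY ⟨fun h => absurd h hu, fun h => absurd h hv⟩
        obtain ⟨e, he, hs⟩ := h v u hv hu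
        exact ⟨e, he, hsepsymm _ _ _ hs⟩
    obtain ⟨e, he, hs⟩ := hex
    have := Finset.single_le_sum hnn he
    rw [if_pos hs] at this
    exact this
  · rw [if_neg hY]
    exact Finset.sum_nonneg hnn

private theorem c2_cutv_le {V : Type} [Fintype V] (x : V → V → ℝ) (y : V → ℝ)
    (ν : V → V) (Y : Finset V) (hν : ∀ u, ν u ∉ Y) :
    cutv x y Y = c2cut (fun u v => x u v + (if v = ν u then y u else 0)) Y := by
  have e1 : c2cut (fun u v => x u v + (if v = ν u then y u else 0)) Y =
      (∑ u, ∑ v, if ¬ (u ∈ Y ↔ v ∈ Y) then x u v else 0) +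
      ∑ u, ∑ v, if ¬ (u ∈ Y ↔ v ∈ Y) then (if v = ν u then y u else 0) else 0 := by
    unfold c2cut
    rw [← Finset.sum_add_distrib]
    apply Finset.sum_congr rfl
    intro u _
    rw [← Finset.sum_add_distrib]
    apply Finset.sum_congr rfl
    intro v _
    by_cases h : ¬ (u ∈ Y ↔ v ∈ Y)
    · rw [if_pos h, if_pos h, if_pos h]
    · rw [if_neg h, if_neg h, if_neg h, add_zero]
  have e2 : ∑ u, ∑ v, (if ¬ (u ∈ Y ↔ v ∈ Y) then (if v = ν u then y u else 0) else 0) =
      ∑ u ∈ Y, y u := by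
    have : ∀ u : V, ∑ v, (if ¬ (u ∈ Y ↔ v ∈ Y) then (if v = ν u then y u else 0) else 0) =
        if u ∈ Y then y u else 0 := by
      intro u
      rw [Finset.sum_eq_single (ν u)]
      · have := hν u
        by_cases hu : u ∈ Y
        · simp [hu, this]
        · simp [hu, this]
      · intro v _ hv
        simp [hv]
      · intro h
        exact absurd (mem_univ _) h
    rw [Finset.sum_congr rfl (fun u _ => this u)]
    rw [Finset.sum_ite_mem, Finset.univ_inter]
  have e3 : (∑ u, ∑ v, if ¬ (u ∈ Y ↔ v ∈ Y) then x u v else 0) =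
      (∑ u ∈ Y, ∑ v ∈ univ.filter (fun v => v ∉ Y), x u v) +
      ∑ u ∈ Y, ∑ v ∈ univ.filter (fun v => v ∉ Y), x v u := by
    have h1 : ∀ u v : V, (if ¬ (u ∈ Y ↔ v ∈ Y) then x u v else 0) =
        (if u ∈ Y then (if v ∉ Y then x u v else 0) else 0) +
        (if v ∈ Y then (if u ∉ Y then x u v else 0) else 0) := by
      intro u v
      by_cases hu : u ∈ Y <;> by_cases hv : v ∈ Y <;> simp [hu, hv]
    have h2 : (∑ u, ∑ v, if ¬ (u ∈ Y ↔ v ∈ Y) then x u v else 0) =
        (∑ u, ∑ v, (if u ∈ Y then (if v ∉ Y then x u v else 0) else 0)) +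
        ∑ u, ∑ v, (if v ∈ Y then (if u ∉ Y then x u v else 0) else 0) := by
      rw [← Finset.sum_add_distrib]
      apply Finset.sum_congr rfl
      intro u _
      rw [← Finset.sum_add_distrib]
      apply Finset.sum_congr rfl
      intro v _
      exact h1 u v
    rw [h2]
    congr 1
    · have : ∀ u : V, (∑ v, (if u ∈ Y then (if v ∉ Y then x u v else 0) else 0)) =
          if u ∈ Y then ∑ v ∈ univ.filter (fun v => v ∉ Y), x u v else 0 := by
        intro u
        by_cases hu : u ∈ Y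
        · simp only [if_pos hu]
          rw [Finset.sum_filter]
        · simp only [if_neg hu]
          exact Finset.sum_const_zero
      rw [Finset.sum_congr rfl (fun u _ => this u)]
      rw [Finset.sum_ite_mem, Finset.univ_inter]
    · rw [Finset.sum_comm]
      have : ∀ u : V, (∑ v, (if u ∈ Y then (if v ∉ Y then x v u else 0) else 0)) =
          if u ∈ Y then ∑ v ∈ univ.filter (fun v => v ∉ Y), x v u else 0 := by
        intro u
        by_cases hu : u ∈ Y
        · simp only [if_pos hu]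
          rw [Finset.sum_filter]
        · simp only [if_neg hu]
          exact Finset.sum_const_zero
      rw [Finset.sum_congr rfl (fun u _ => this u)]
      rw [Finset.sum_ite_mem, Finset.univ_inter]
  rw [e1, e2, e3]
  unfold cutv
  rw [Finset.sum_add_distrib]
  have e4 : ∑ u ∈ Y, ∑ v ∈ univ.filter (fun v => v ∉ Y), (x u v + x v u) =
      (∑ u ∈ Y, ∑ v ∈ univ.filter (fun v => v ∉ Y), x u v) +
      ∑ u ∈ Y, ∑ v ∈ univ.filter (fun v => v ∉ Y), x v u := by
    rw [← Finset.sum_add_distrib]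
    apply Finset.sum_congr rfl
    intro u _
    rw [Finset.sum_add_distrib]
  rw [e4]
  ring

theorem lp_lower {V : Type} [Fintype V] {d : V → V → ℕ} (hd : NMet d) (T : MTree d) (θ c : ℝ)
    (hθ : 0 < θ) (hθ' : θ ≤ 1 / 4) (hc : 0 ≤ c)
    (hno : ∀ nx : Equiv.Perm V, TourP nx → (2 - c) * T.w ≤ tcost d nx)
    (f : V → ℕ) (S N' : Finset V) (hf : ∀ u, ∃ v ∈ S ∪ N', d u v ≤ f u)
    (nbr : V → Finset V) (hsym : ∀ u v, v ∈ nbr u → u ∈ nbr v) (hS : ∀ u ∈ S, nbr u = ∅)
    (x : V → V → ℝ) (y : V → ℝ) (hx : ∀ u v, 0 ≤ x u v) (hy : ∀ u, 0 ≤ y u)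
    (hsup : ∀ u v, x u v ≠ 0 → v ∈ nbr u)
    (ℓ L3 L4 : ℕ) (hL : L3 ≤ L4) (hL4 : 1 ≤ L4) (hn : L4 < Fintype.card V)
    (A1 : Finset V) (hA1 : ∀ e ∈ A1, T.wt e ≤ ℓ ∧ (T.descSet e).card ≤ L3)
    (C0 : ℝ) (hC0 : (ℓ : ℝ) * (L4 + 1) ≤ C0) :
    (T.wle ℓ : ℝ) + ∑ e ∈ A1, (T.wt e : ℝ) ≤
      Phi d f C0 (Fam nbr S L4) x y + (4 * θ + c / θ) * T.w +
        ∑ e ∈ A1.filter (fun e => ∃ u ∈ S ∪ N', T.desc e u), (T.wt e : ℝ) +
        ℓ * ((Fintype.card V : ℝ) / L4 + S.card + N'.card) := by
  choose ν hνm hνd using hf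
  set z : V → V → ℝ := fun u v => x u v + (if v = ν u then y u else 0) with hzdef
  have hz : ∀ u v, 0 ≤ z u v := by
    intro u v
    simp only [hzdef]
    refine add_nonneg (hx u v) ?_
    split_ifs
    · exact hy u
    · exact le_refl _
  set a : V → ℝ := fun e => ∑ u, ∑ v, if T.sep e u v then z u v else 0 with hadef
  have ha : ∀ e, 0 ≤ a e := by
    intro e
    simp only [hadef]
    refine Finset.sum_nonneg (fun u _ => Finset.sum_nonneg (fun v _ => ?_))
    split_ifs
    · exact hz u v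
    · exact le_refl _
  -- cost
  have hcost : ∑ u, ∑ v, z u v * d u v ≤ ∑ u, ∑ v, x u v * d u v + ∑ u, y u * f u := by
    rw [← Finset.sum_add_distrib]
    apply Finset.sum_le_sum
    intro u _
    have : ∑ v, z u v * (d u v : ℝ) = ∑ v, x u v * (d u v : ℝ) + y u * d u (ν u) := by
      have h1 : ∀ v, z u v * (d u v : ℝ) =
          x u v * (d u v : ℝ) + (if v = ν u then y u * d u v else 0) := by
        intro v
        simp only [hzdef]
        split_ifs <;> ring
      rw [Finset.sum_congr rfl (fun v _ => h1 v), Finset.sum_add_distrib]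
      congr 1
      rw [Finset.sum_ite_eq' univ (ν u)]
      simp
    rw [this]
    have h2 : y u * (d u (ν u) : ℝ) ≤ y u * f u :=
      mul_le_mul_of_nonneg_left (by exact_mod_cast hνd u) (hy u)
    linarith
  have hmaster := master hd T θ c hθ hθ' hc hno z hz
  -- cutv
  have hcutv : ∀ Y : Finset V, Disjoint Y (S ∪ N') → cutv x y Y = c2cut z Y := by
    intro Y hY
    exact c2_cutv_le x y ν Y (fun u hu => (Finset.disjoint_left.1 hY) hu (hνm u))
  have hacut : ∀ e, a e = c2cut z (T.descSet e) := by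
    intro e
    simp only [hadef, c2cut]
    refine Finset.sum_congr rfl (fun u _ => Finset.sum_congr rfl (fun v _ => ?_))
    have h1 : T.sep e u v ↔ ¬ (u ∈ T.descSet e ↔ v ∈ T.descSet e) := by
      simp [MTree.sep, MTree.descSet]
    by_cases h : T.sep e u v
    · rw [if_pos h, if_pos (h1.1 h)]
    · rw [if_neg h, if_neg (fun h' => h (h1.2 h'))]
  set pen : Finset V → ℝ := fun X => max 0 (2 - cutv x y X) with hpen
  have hpen0 : ∀ X, 0 ≤ pen X := fun X => le_max_left _ _
  have hpenZ : ∀ Y : Finset V, ∀ b ∈ Y, Disjoint Y (S ∪ N') → 2 - c2cut z Y ≤ pen (c2Z nbr Y b) := by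
    intro Y b hb hY
    have h1 := hcutv Y hY
    have h2 := c2_cutv_Z hsym hb x y hx hy hsup
    have h3 : 2 - cutv x y (c2Z nbr Y b) ≤ pen (c2Z nbr Y b) := le_max_right _ _
    linarith
  set P : ℝ := ∑ X ∈ Fam nbr S L4, pen X with hP
  have hP0 : 0 ≤ P := Finset.sum_nonneg (fun X _ => hpen0 X)
  have hdisjS : ∀ Y : Finset V, Disjoint Y (S ∪ N') → Disjoint Y S := by
    intro Y hY
    exact Finset.disjoint_of_subset_right Finset.subset_union_left hY
  -- node count
  set E0 : Finset V := univ.filter (fun e => T.wt e ≤ ℓ ∧ e ≠ T.root ∧ a e < 1) with hE0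
  have hrootE0 : T.root ∉ E0 := by
    rw [hE0, mem_filter]
    rintro ⟨_, _, h, _⟩
    exact h rfl
  obtain ⟨YY, hYY1, hYY2, hYY3⟩ := node_count T E0 hrootE0 a ha (c2cut z) (c2_cut_nonneg z hz)
    (fun Y E h => c2_sub T z hz Y E h) L4 (S ∪ N')
  have hYYsum : ∑ Y ∈ YY, max 0 (2 - c2cut z Y) ≤ P := by
    have hch : ∀ Y : Finset V, ∃ b, Y ∈ YY → b ∈ Y := by
      intro Y
      by_cases hY : Y ∈ YY
      · obtain ⟨b, hb⟩ := (hYY1 Y hY).1
        exact ⟨b, fun _ => hb⟩
      · exact ⟨T.root, fun h => absurd h hY⟩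
    choose bb hbb using hch
    calc ∑ Y ∈ YY, max 0 (2 - c2cut z Y) ≤ ∑ Y ∈ YY, pen (c2Z nbr Y (bb Y)) := by
          apply Finset.sum_le_sum
          intro Y hY
          exact max_le (hpen0 _) (hpenZ Y (bb Y) (hbb Y hY) (hYY1 Y hY).2.2)
      _ = ∑ X ∈ YY.image (fun Y => c2Z nbr Y (bb Y)), pen X := by
          rw [Finset.sum_image]
          intro Y hY Y' hY' heq
          by_contra hne
          have hd1 := hYY2 Y hY Y' hY' hne
          have h1 : bb Y ∈ Y := hbb Y hY
          have h2 : bb Y ∈ c2Z nbr Y (bb Y) := c2_self_mem _ _ _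
          simp only at heq
          rw [heq] at h2
          exact Finset.disjoint_left.1 hd1 h1 (c2_Z_sub (hbb Y' hY') h2)
      _ ≤ P := by
          rw [hP]
          apply Finset.sum_le_sum_of_subset_of_nonneg
          · intro X hX
            rw [mem_image] at hX
            obtain ⟨Y, hY, rfl⟩ := hX
            exact c2_Z_Fam hsym (hbb Y hY) (hYY1 Y hY).2.1 (hdisjS Y (hYY1 Y hY).2.2)
          · intro X _ _
            exact hpen0 X
  -- twigs
  set Tw : Finset V := A1.filter (fun e => ¬ ∃ u ∈ S ∪ N', T.desc e u) with hTw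
  have hsplit : ∑ e ∈ A1, (T.wt e : ℝ) =
      ∑ e ∈ A1.filter (fun e => ∃ u ∈ S ∪ N', T.desc e u), (T.wt e : ℝ) +
      ∑ e ∈ Tw, (T.wt e : ℝ) := by
    rw [hTw]
    exact (Finset.sum_filter_add_sum_filter_not A1 _ _).symm
  set Ze : V → Finset V := fun e => c2Z nbr (T.descSet e) e with hZe
  have hself : ∀ e, e ∈ T.descSet e := by
    intro e
    simp [MTree.descSet, MTree.desc_refl]
  have hTwd : ∀ e ∈ Tw, Disjoint (T.descSet e) (S ∪ N') := by
    intro e he
    rw [hTw, mem_filter] at he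
    rw [Finset.disjoint_left]
    intro u hu hu'
    apply he.2
    refine ⟨u, hu', ?_⟩
    simpa [MTree.descSet] using hu
  have hTwF : ∀ e ∈ Tw, Ze e ∈ Fam nbr S L4 := by
    intro e he
    have he1 : e ∈ A1 := (mem_filter.1 he).1
    exact c2_Z_Fam hsym (hself e) ((hA1 e he1).2.trans hL) (hdisjS _ (hTwd e he))
  have hTwa : ∀ e ∈ Tw, 2 - a e ≤ pen (Ze e) := by
    intro e he
    rw [hacut e]
    exact hpenZ _ e (hself e) (hTwd e he)
  have hTwl : ∀ e ∈ Tw, T.wt e ≤ ℓ := fun e he => (hA1 e (mem_filter.1 he).1).1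
  have hTwsum : ∑ e ∈ Tw, (T.wt e : ℝ) * pen (Ze e) ≤ ℓ * (L4 * P) := by
    have h1 : ∑ e ∈ Tw, (T.wt e : ℝ) * pen (Ze e) ≤ ∑ e ∈ Tw, (ℓ : ℝ) * pen (Ze e) := by
      apply Finset.sum_le_sum
      intro e he
      exact mul_le_mul_of_nonneg_right (by exact_mod_cast hTwl e he) (hpen0 _)
    have h2 : ∑ e ∈ Tw, pen (Ze e) ≤ L4 * P := by
      rw [← Finset.sum_fiberwise_of_maps_to (s := Tw) (t := Fam nbr S L4) (g := Ze) hTwF]
      rw [hP, Finset.mul_sum]
      apply Finset.sum_le_sum
      intro X hX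
      have h3 : ∑ e ∈ Tw.filter (fun e => Ze e = X), pen (Ze e) =
          ((Tw.filter (fun e => Ze e = X)).card : ℝ) * pen X := by
        rw [Finset.sum_congr rfl (fun e he => by rw [(mem_filter.1 he).2]), Finset.sum_const,
          nsmul_eq_mul]
      rw [h3]
      apply mul_le_mul_of_nonneg_right _ (hpen0 X)
      have h4 : Tw.filter (fun e => Ze e = X) ⊆ X := by
        intro e he
        have h5 := (mem_filter.1 he).2
        rw [← h5]
        exact c2_self_mem _ _ _
      have h6 := Finset.card_le_card h4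
      have h7 : X.card ≤ L4 := by
        rw [Fam, mem_filter] at hX
        exact hX.2.2.1
      exact_mod_cast h6.trans h7
    calc ∑ e ∈ Tw, (T.wt e : ℝ) * pen (Ze e) ≤ ∑ e ∈ Tw, (ℓ : ℝ) * pen (Ze e) := h1
      _ = ℓ * ∑ e ∈ Tw, pen (Ze e) := by rw [Finset.mul_sum]
      _ ≤ ℓ * (L4 * P) := mul_le_mul_of_nonneg_left h2 (Nat.cast_nonneg _)
  -- pointwise inequality
  have hTwsub : Tw ⊆ univ.filter (fun e => T.wt e ≤ ℓ) := by
    intro e he
    exact mem_filter.2 ⟨mem_univ _, hTwl e he⟩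
  have hwroot : T.wt T.root = 0 := T.wt_root hd
  have hpt : ∀ e, (if T.wt e ≤ ℓ then (T.wt e : ℝ) else 0) +
      (if e ∈ Tw then (T.wt e : ℝ) else 0) ≤
      (T.wt e : ℝ) * min 2 (a e) + (if e ∈ E0 then (ℓ : ℝ) * (1 - a e) else 0) +
      (if e ∈ Tw then (T.wt e : ℝ) * pen (Ze e) else 0) := by
    intro e
    have hw0 : (0 : ℝ) ≤ (T.wt e : ℝ) := Nat.cast_nonneg _
    have hmin0 : 0 ≤ min 2 (a e) := le_min (by norm_num) (ha e)
    by_cases hle : T.wt e ≤ ℓ
    · rw [if_pos hle]
      have hwl : (T.wt e : ℝ) ≤ ℓ := by exact_mod_cast hle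
      -- wt e * (1 - min 2 a) ≤ [E0] ℓ (1 - a)
      have key1 : (T.wt e : ℝ) ≤ (T.wt e : ℝ) * min 2 (a e) +
          (if e ∈ E0 then (ℓ : ℝ) * (1 - a e) else 0) := by
        by_cases h1 : 1 ≤ a e
        · have h2 : e ∉ E0 := by
            rw [hE0, mem_filter]
            rintro ⟨_, _, _, h⟩
            linarith
          rw [if_neg h2]
          have h3 : 1 ≤ min 2 (a e) := le_min (by norm_num) h1
          nlinarith
        · rw [not_le] at h1
          by_cases hr : e = T.root
          · have : (T.wt e : ℝ) = 0 := by rw [hr, hwroot]; norm_num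
            have h2 : e ∉ E0 := by rw [hr]; exact hrootE0
            rw [if_neg h2, this]
            norm_num
          · have h2 : e ∈ E0 := by
              rw [hE0, mem_filter]
              exact ⟨mem_univ _, hle, hr, h1⟩
            rw [if_pos h2]
            have h3 : min 2 (a e) = a e := min_eq_right (by linarith)
            rw [h3]
            nlinarith
      by_cases ht : e ∈ Tw
      · rw [if_pos ht, if_pos ht]
        have hp := hTwa e ht
        by_cases h1 : 1 ≤ a e
        · have h2 : e ∉ E0 := by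
            rw [hE0, mem_filter]
            rintro ⟨_, _, _, h⟩
            linarith
          rw [if_neg h2]
          have h3 : 2 - pen (Ze e) ≤ min 2 (a e) := by
            apply le_min
            · have := hpen0 (Ze e); linarith
            · linarith
          nlinarith
        · rw [not_le] at h1
          have h4 : 1 ≤ pen (Ze e) := by linarith
          have h5 : (T.wt e : ℝ) ≤ (T.wt e : ℝ) * pen (Ze e) := by nlinarith
          linarith
      · rw [if_neg ht, if_neg ht]
        linarith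
    · have h1 : e ∉ Tw := fun h => hle (hTwl e h)
      have h2 : e ∉ E0 := by
        rw [hE0, mem_filter]
        rintro ⟨_, h, _⟩
        exact hle h
      rw [if_neg hle, if_neg h1, if_neg h2, if_neg h1]
      have := mul_nonneg hw0 hmin0
      linarith
  have hsum := Finset.sum_le_sum (fun e (_ : e ∈ (univ : Finset V)) => hpt e)
  rw [Finset.sum_add_distrib, Finset.sum_add_distrib, Finset.sum_add_distrib] at hsum
  rw [Finset.sum_ite_mem, Finset.sum_ite_mem, Finset.sum_ite_mem, Finset.univ_inter,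
    Finset.univ_inter] at hsum
  have hwle : (T.wle ℓ : ℝ) = ∑ e, (if T.wt e ≤ ℓ then (T.wt e : ℝ) else 0) := by
    rw [MTree.wle]
    push_cast
    rw [Finset.sum_filter]
  have hE0sum : ∑ e ∈ E0, (ℓ : ℝ) * (1 - a e) ≤
      ℓ * ((Fintype.card V : ℝ) / L4 + S.card + N'.card + 1 / 2 * P) := by
    rw [← Finset.mul_sum]
    apply mul_le_mul_of_nonneg_left _ (Nat.cast_nonneg _)
    have hLpos : (0 : ℝ) < L4 := by exact_mod_cast hL4
    have h1 : (Fintype.card V : ℝ) / (L4 + 1) ≤ (Fintype.card V : ℝ) / L4 := by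
      apply div_le_div_of_nonneg_left (Nat.cast_nonneg _) hLpos
      linarith
    have h2 : ((S ∪ N').card : ℝ) ≤ S.card + N'.card := by
      exact_mod_cast Finset.card_union_le S N'
    linarith
  rw [hsplit, hwle]
  have hPhi : Phi d f C0 (Fam nbr S L4) x y =
      ∑ u, ∑ v, x u v * d u v + ∑ u, y u * f u + C0 * P := rfl
  rw [hPhi]
  have hCP : (ℓ : ℝ) * (L4 + 1) * P ≤ C0 * P := mul_le_mul_of_nonneg_right hC0 hP0
  have hℓ0 : (0 : ℝ) ≤ ℓ := Nat.cast_nonneg _
  have hm2 : ∑ e, (T.wt e : ℝ) * min 2 (a e) ≤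
      ∑ u, ∑ v, x u v * d u v + ∑ u, y u * f u + (4 * θ + c / θ) * T.w := by
    calc ∑ e, (T.wt e : ℝ) * min 2 (a e) ≤ ∑ u, ∑ v, z u v * d u v + (4 * θ + c / θ) * T.w := hmaster
      _ ≤ _ := by linarith
  have hhalf : (ℓ : ℝ) * (1 / 2 * P) ≤ ℓ * P := by
    apply mul_le_mul_of_nonneg_left _ hℓ0
    linarith
  nlinarith
  
end H82.TQ
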