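import Pool.Agent.H82.TQ.A0
import Pool.Agent.H82.TQ.A3

/-!
# TQ C3: inequalities for short tours

For a tour `nx` let `N t = #{v : t < d v (nx v)}`, `c t - 1 = #{x : t < wt x}`. `w(tour) - w = ∑_t (N t - (c t - 1))`
with all terms `≥ 0` (`sum_eq_levels`, `tour_count`).
`defect_bound`: `N t - (c t - 1) ≥ h t = #{v : t < d v (nx v), v and nx v in the same class of level t}`
(by `tour_cross`, or trivially if there is one class). A step `v` with `τ j < d v (nx v)` and `Rch (τ(j-1)) v (nx v)`
is counted in `h t` for all `τ(j-1) ≤ t < τ j`, and these intervals are disjoint.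
`excess_bound`: let `τ(j-1) ≤ t < τ j`, and for a class `X` of level `τ(j-1)` let `k X` be the number of steps
longer than `τ j` with exactly one end in `X`. For a class `Y` of level `t` let `l Y` be the number of ends in `Y` of
steps longer than `t`; `∑_Y l Y = 2 N t`, `l Y ≥ 2` if `Y ≠ univ`, `l Y ≥ ∑_{X ⊆ Y} k X`. Hence
`2 (N t - (c t - 1)) ≥ ∑_X (k X - 2)` (truncated subtraction).
-/

set_option autoImplicit false

open Finset Classical

namespace H82.TQ

variable {V : Type} [Fintype V] {d : V → V → ℕ}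

/-- number of steps of the tour longer than `t` with exactly one end in `X` -/
noncomputable def crossN (d : V → V → ℕ) (nx : Equiv.Perm V) (t : ℕ) (X : Finset V) : ℕ :=
  (univ.filter (fun v => t < d v (nx v) ∧ ¬ (v ∈ X ↔ nx v ∈ X))).card

private theorem c3_levels (g : ℕ → ℕ) (J : ℕ) :
    ∑ j ∈ Icc 1 J, ∑ t ∈ Ico (tau (j - 1)) (tau j), g t = ∑ t ∈ Ico (tau 0) (tau J), g t := by
  induction J with
  | zero => simp
  | succ J ih =>
    rw [Finset.sum_Icc_succ_top (by omega), ih, Nat.add_sub_cancel,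
      Finset.sum_Ico_consecutive _ (tau_strictMono.monotone (Nat.zero_le J))
        (tau_strictMono.monotone (Nat.le_succ J))]

private theorem c3_levels_le (g f : ℕ → ℕ) (J B : ℕ) (hB : tau J ≤ B)
    (hf : ∀ j, 1 ≤ j → ∀ t, tau (j - 1) ≤ t → t < tau j → f j ≤ g t) :
    ∑ j ∈ Icc 1 J, (tau j - tau (j - 1)) * f j ≤ ∑ t ∈ range B, g t := by
  calc ∑ j ∈ Icc 1 J, (tau j - tau (j - 1)) * f j
      = ∑ j ∈ Icc 1 J, ∑ t ∈ Ico (tau (j - 1)) (tau j), f j := by
        apply Finset.sum_congr rfl
        intro j _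
        rw [Finset.sum_const, Nat.card_Ico, smul_eq_mul]
    _ ≤ ∑ j ∈ Icc 1 J, ∑ t ∈ Ico (tau (j - 1)) (tau j), g t := by
        apply Finset.sum_le_sum
        intro j hj
        apply Finset.sum_le_sum
        intro t ht
        exact hf j (mem_Icc.1 hj).1 t (mem_Ico.1 ht).1 (mem_Ico.1 ht).2
    _ = ∑ t ∈ Ico (tau 0) (tau J), g t := c3_levels g J
    _ ≤ ∑ t ∈ range B, g t := by
        apply Finset.sum_le_sum_of_subset
        intro t ht
        rw [mem_range]
        exact lt_of_lt_of_le (mem_Ico.1 ht).2 hB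

private theorem c3_tcost (nx : Equiv.Perm V) (B : ℕ) (hB : ∀ v, d v (nx v) ≤ B) :
    tcost d nx = ∑ t ∈ range B, (univ.filter (fun v => t < d v (nx v))).card :=
  sum_eq_levels univ (fun v => d v (nx v)) B (fun v _ => hB v)

private theorem c3_w (T : MTree d) (B : ℕ) (hB : ∀ x, T.wt x ≤ B) :
    T.w = ∑ t ∈ range B, (univ.filter (fun x => t < T.wt x)).card :=
  sum_eq_levels univ (fun x => T.wt x) B (fun v _ => hB v)

private theorem c3_bound (T : MTree d) (nx : Equiv.Perm V) (M : ℕ) :
    ∃ B, M ≤ B ∧ (∀ v, d v (nx v) ≤ B) ∧ (∀ x, T.wt x ≤ B) := by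
  refine ⟨M + tcost d nx + T.w, by omega, ?_, ?_⟩
  · intro v
    have : d v (nx v) ≤ tcost d nx :=
      Finset.single_le_sum (f := fun v => d v (nx v)) (fun _ _ => Nat.zero_le _) (mem_univ v)
    omega
  · intro x
    have : T.wt x ≤ T.w :=
      Finset.single_le_sum (f := fun x => T.wt x) (fun _ _ => Nat.zero_le _) (mem_univ x)
    omega

private theorem c3_defect (hd : NMet d) (T : MTree d) (nx : Equiv.Perm V) (hnx : TourP nx)
    (t : ℕ) : (univ.filter (fun v => t < d v (nx v) ∧ Rch d t v (nx v))).card +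
      (univ.filter (fun x => t < T.wt x)).card ≤ (univ.filter (fun v => t < d v (nx v))).card := by
  have h1 : (univ.filter (fun v => t < d v (nx v))).card =
      (univ.filter (fun v => t < d v (nx v) ∧ Rch d t v (nx v))).card +
      (univ.filter (fun v => ¬ Rch d t v (nx v))).card := by
    rw [← Finset.card_union_of_disjoint]
    · congr 1
      ext v
      simp only [mem_filter, mem_univ, true_and, mem_union]
      constructor
      · intro h
        by_cases h2 : Rch d t v (nx v)
        · exact Or.inl ⟨h, h2⟩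
        · exact Or.inr h2
      · rintro (h | h)
        · exact h.1
        · by_contra h2
          exact h (Relation.ReflTransGen.single (not_lt.1 h2))
    · rw [Finset.disjoint_left]
      intro v hv hv'
      exact (mem_filter.1 hv').2 (mem_filter.1 hv).2.2
  rw [h1]
  apply Nat.add_le_add_left
  by_cases h : (univ.filter (fun x => t < T.wt x)).Nonempty
  · have := tour_cross hd T nx hnx t h
    omega
  · rw [Finset.not_nonempty_iff_eq_empty.1 h]
    simp

theorem defect_bound (hd : NMet d) (T : MTree d) (nx : Equiv.Perm V) (hnx : TourP nx) (J : ℕ) :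
    ∑ j ∈ Icc 1 J, (tau j - tau (j - 1)) *
        (univ.filter (fun v => tau j < d v (nx v) ∧ Rch d (tau (j - 1)) v (nx v))).card + T.w ≤
      tcost d nx := by
  obtain ⟨B, hB1, hB2, hB3⟩ := c3_bound T nx (tau J)
  rw [c3_tcost nx B hB2, c3_w T B hB3]
  have h1 := c3_levels_le
    (fun t => (univ.filter (fun v => t < d v (nx v) ∧ Rch d t v (nx v))).card)
    (fun j => (univ.filter (fun v => tau j < d v (nx v) ∧ Rch d (tau (j - 1)) v (nx v))).card)
    J B hB1 (by
      intro j _ t ht1 ht2
      apply Finset.card_le_card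
      intro v hv
      have hv' := (mem_filter.1 hv).2
      exact mem_filter.2 ⟨mem_univ _, lt_trans ht2 hv'.1, rch_mono ht1 hv'.2⟩)
  refine le_trans (Nat.add_le_add_right h1 _) ?_
  rw [← Finset.sum_add_distrib]
  apply Finset.sum_le_sum
  intro t _
  exact c3_defect hd T nx hnx t

/-- number of ends at `v` of steps longer than `t` -/
private noncomputable def c3a (d : V → V → ℕ) (nx : Equiv.Perm V) (t : ℕ) (v : V) : ℕ :=
  (if t < d v (nx v) then 1 else 0) + (if t < d (nx.symm v) v then 1 else 0)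

private theorem c3a_sum (nx : Equiv.Perm V) (t : ℕ) :
    ∑ v, c3a d nx t v = 2 * (univ.filter (fun v => t < d v (nx v))).card := by
  unfold c3a
  rw [Finset.sum_add_distrib]
  have h1 : ∑ v, (if t < d (nx.symm v) v then 1 else 0) =
      ∑ v, (if t < d v (nx v) then 1 else 0) := by
    rw [← Equiv.sum_comp nx (fun v => if t < d (nx.symm v) v then 1 else 0)]
    apply Finset.sum_congr rfl
    intro v _
    rw [Equiv.symm_apply_apply]
  rw [h1, Finset.card_filter]
  ring

private theorem c3a_set (nx : Equiv.Perm V) (t : ℕ) (X : Finset V) :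
    ∑ v ∈ X, c3a d nx t v = (X.filter (fun v => t < d v (nx v))).card +
      (univ.filter (fun v => nx v ∈ X ∧ t < d v (nx v))).card := by
  unfold c3a
  rw [Finset.sum_add_distrib, Finset.card_filter]
  congr 1
  have h1 : univ.filter (fun v => nx v ∈ X ∧ t < d v (nx v)) =
      (X.filter (fun v => t < d (nx.symm v) v)).map nx.symm.toEmbedding := by
    ext v
    simp only [mem_filter, mem_univ, true_and, mem_map, Equiv.coe_toEmbedding]
    constructor
    · rintro ⟨h2, h3⟩
      refine ⟨nx v, ⟨h2, ?_⟩, Equiv.symm_apply_apply _ _⟩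
      rw [Equiv.symm_apply_apply]
      exact h3
    · rintro ⟨w, ⟨h2, h3⟩, h4⟩
      subst h4
      rw [Equiv.apply_symm_apply]
      exact ⟨h2, h3⟩
  rw [h1, Finset.card_map, Finset.card_filter]

private theorem c3_cross_le (nx : Equiv.Perm V) (t t' : ℕ) (htt : t ≤ t') (X : Finset V) :
    crossN d nx t' X ≤ ∑ v ∈ X, c3a d nx t v := by
  rw [c3a_set]
  unfold crossN
  refine le_trans (Finset.card_le_card ?_) (Finset.card_union_le _ _)
  intro v hv
  obtain ⟨h1, h2⟩ := (mem_filter.1 hv).2
  by_cases h3 : v ∈ X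
  · exact mem_union_left _ (mem_filter.2 ⟨h3, lt_of_le_of_lt htt h1⟩)
  · by_cases h4 : nx v ∈ X
    · exact mem_union_right _ (mem_filter.2 ⟨mem_univ _, h4, lt_of_le_of_lt htt h1⟩)
    · exact absurd ⟨fun h => absurd h h3, fun h => absurd h h4⟩ h2

private theorem c3_mem_cmp (t : ℕ) (u v : V) : v ∈ cmp d t u ↔ Rch d t u v := by
  unfold cmp
  simp

private theorem c3_cmp_eq (hd : NMet d) {t : ℕ} {u v : V} (h : Rch d t u v) :
    cmp d t u = cmp d t v := by
  ext w
  rw [c3_mem_cmp, c3_mem_cmp]
  exact ⟨fun h1 => Relation.ReflTransGen.trans (rch_symm hd h) h1,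
    fun h1 => Relation.ReflTransGen.trans h h1⟩

private theorem c3_disj (hd : NMet d) (s : ℕ) (F : Finset (Finset V))
    (hF : F ⊆ (univ : Finset V).image (cmp d s)) :
    (F : Set (Finset V)).PairwiseDisjoint (fun X => X) := by
  intro X hX Y hY hne
  obtain ⟨u, _, hu⟩ := mem_image.1 (hF hX)
  obtain ⟨v, _, hv⟩ := mem_image.1 (hF hY)
  show Disjoint X Y
  rw [Finset.disjoint_left]
  intro w hw1 hw2
  apply hne
  rw [← hu, c3_mem_cmp] at hw1
  rw [← hv, c3_mem_cmp] at hw2
  rw [← hu, ← hv, c3_cmp_eq hd hw1, c3_cmp_eq hd hw2]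

private theorem c3_sum_classes_le (hd : NMet d) (s : ℕ) (F : Finset (Finset V))
    (hF : F ⊆ (univ : Finset V).image (cmp d s)) (Y : Finset V) (hY : ∀ X ∈ F, X ⊆ Y)
    (a : V → ℕ) : ∑ X ∈ F, ∑ v ∈ X, a v ≤ ∑ v ∈ Y, a v := by
  rw [← Finset.sum_biUnion (c3_disj hd s F hF)]
  apply Finset.sum_le_sum_of_subset
  intro v hv
  obtain ⟨X, hX, hv'⟩ := mem_biUnion.1 hv
  exact hY X hX hv'

private theorem c3_phi (hd : NMet d) {s t : ℕ} (hst : s ≤ t) (u : V) :
    (cmp d s u).biUnion (cmp d t) = cmp d t u := by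
  ext w
  rw [mem_biUnion, c3_mem_cmp]
  constructor
  · rintro ⟨x, hx, hw⟩
    rw [c3_mem_cmp] at hx hw
    exact Relation.ReflTransGen.trans (rch_mono hst hx) hw
  · intro hw
    refine ⟨u, ?_, ?_⟩
    · rw [c3_mem_cmp]
      exact Relation.ReflTransGen.refl
    · rw [c3_mem_cmp]
      exact hw

private theorem c3_two (hd : NMet d) (nx : Equiv.Perm V) (hnx : TourP nx) (t : ℕ) (Y : Finset V)
    (hY : Y ∈ (univ : Finset V).image (cmp d t)) (hYu : Y ≠ univ) :
    2 ≤ ∑ v ∈ Y, c3a d nx t v := by
  obtain ⟨u, _, hu⟩ := mem_image.1 hY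
  have hne : Y.Nonempty := by
    refine ⟨u, ?_⟩
    rw [← hu, c3_mem_cmp]
    exact Relation.ReflTransGen.refl
  have hclosed : ∀ v w, v ∈ Y → w ∉ Y → t < d v w := by
    intro v w hv hw
    by_contra h
    apply hw
    rw [← hu, c3_mem_cmp] at hv ⊢
    exact Relation.ReflTransGen.tail hv (not_lt.1 h)
  obtain ⟨v, hv, hv'⟩ := hnx Y hne hYu
  have hc1 : (Yᶜ).Nonempty := by
    rw [Finset.nonempty_iff_ne_empty]
    intro h
    exact hYu (Finset.compl_eq_empty_iff Y |>.1 h)
  have hc2 : Yᶜ ≠ univ := by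
    intro h
    rw [Finset.compl_eq_univ_iff] at h
    rw [h] at hne
    exact Finset.not_nonempty_empty hne
  obtain ⟨x, hx, hx'⟩ := hnx Yᶜ hc1 hc2
  rw [Finset.mem_compl] at hx hx'
  rw [not_not] at hx'
  rw [c3a_set]
  have h1 : 0 < (Y.filter (fun v => t < d v (nx v))).card :=
    Finset.card_pos.2 ⟨v, mem_filter.2 ⟨hv, hclosed v _ hv hv'⟩⟩
  have h2 : 0 < (univ.filter (fun v => nx v ∈ Y ∧ t < d v (nx v))).card :=
    Finset.card_pos.2 ⟨x, mem_filter.2 ⟨mem_univ _, hx', by
      rw [hd.symm]
      exact hclosed _ _ hx' hx⟩⟩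
  omega

private theorem c3_excess (hd : NMet d) (T : MTree d) (nx : Equiv.Perm V) (hnx : TourP nx)
    (s t t' : ℕ) (hst : s ≤ t) (htt : t ≤ t') :
    ∑ X ∈ (univ : Finset V).image (cmp d s), (crossN d nx t' X - 2) +
      2 * (univ.filter (fun x => t < T.wt x)).card ≤
      2 * (univ.filter (fun v => t < d v (nx v))).card := by
  rw [← c3a_sum (d := d) nx t]
  by_cases h : (univ.filter (fun x => t < T.wt x)).Nonempty
  · have hcard := card_classes hd T t
    have hmaps : ∀ X ∈ (univ : Finset V).image (cmp d s),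
        X.biUnion (cmp d t) ∈ (univ : Finset V).image (cmp d t) := by
      intro X hX
      obtain ⟨u, _, hu⟩ := mem_image.1 hX
      rw [← hu, c3_phi hd hst]
      exact mem_image_of_mem _ (mem_univ _)
    rw [← Finset.sum_fiberwise_of_maps_to hmaps]
    have hpos := Finset.card_pos.2 h
    have hnuniv : ∀ Y ∈ (univ : Finset V).image (cmp d t), Y ≠ univ := by
      intro Y hY hYu
      obtain ⟨u, _, hu⟩ := mem_image.1 hY
      have h1 : (univ : Finset V).image (cmp d t) ⊆ {Y} := by
        intro Z hZ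
        obtain ⟨v, _, hv⟩ := mem_image.1 hZ
        rw [mem_singleton, ← hv, ← hu]
        have h2 : v ∈ cmp d t u := by
          rw [hu, hYu]
          exact mem_univ _
        rw [c3_mem_cmp] at h2
        exact (c3_cmp_eq hd h2).symm
      have h2 := Finset.card_le_card h1
      rw [Finset.card_singleton] at h2
      omega
    have key : ∀ Y ∈ (univ : Finset V).image (cmp d t),
        ∑ X ∈ ((univ : Finset V).image (cmp d s)).filter (fun X => X.biUnion (cmp d t) = Y),
          (crossN d nx t' X - 2) + 2 ≤ ∑ v ∈ Y, c3a d nx t v := by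
      intro Y hY
      have h2 := c3_two hd nx hnx t Y hY (hnuniv Y hY)
      have h3 : ∑ X ∈ ((univ : Finset V).image (cmp d s)).filter
          (fun X => X.biUnion (cmp d t) = Y), crossN d nx t' X ≤ ∑ v ∈ Y, c3a d nx t v := by
        refine le_trans (Finset.sum_le_sum (fun X _ => c3_cross_le nx t t' htt X)) ?_
        apply c3_sum_classes_le hd s _ (Finset.filter_subset _ _)
        intro X hX
        obtain ⟨h4, h5⟩ := mem_filter.1 hX
        obtain ⟨u, _, hu⟩ := mem_image.1 h4
        rw [← hu, c3_phi hd hst] at h5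
        rw [← h5, ← hu]
        intro v hv
        rw [c3_mem_cmp] at hv ⊢
        exact rch_mono hst hv
      by_cases h6 : ∃ X ∈ ((univ : Finset V).image (cmp d s)).filter
          (fun X => X.biUnion (cmp d t) = Y), 2 < crossN d nx t' X
      · obtain ⟨X0, hX0, h7⟩ := h6
        have h8 := Finset.add_sum_erase _ (fun X => crossN d nx t' X) hX0
        have h9 := Finset.add_sum_erase _ (fun X => crossN d nx t' X - 2) hX0
        have h10 : ∑ X ∈ (((univ : Finset V).image (cmp d s)).filter
          (fun X => X.biUnion (cmp d t) = Y)).erase X0, (crossN d nx t' X - 2) ≤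
          ∑ X ∈ (((univ : Finset V).image (cmp d s)).filter
          (fun X => X.biUnion (cmp d t) = Y)).erase X0, crossN d nx t' X :=
          Finset.sum_le_sum (fun X _ => Nat.sub_le _ _)
        omega
      · push Not at h6
        have h7 : ∑ X ∈ ((univ : Finset V).image (cmp d s)).filter
          (fun X => X.biUnion (cmp d t) = Y), (crossN d nx t' X - 2) = 0 := by
          apply Finset.sum_eq_zero
          intro X hX
          have := h6 X hX
          omega
        omega
    have hsum := Finset.sum_le_sum key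
    rw [Finset.sum_add_distrib, Finset.sum_const, smul_eq_mul, hcard] at hsum
    have hlast := c3_sum_classes_le hd t ((univ : Finset V).image (cmp d t)) (Finset.Subset.refl _)
      univ (fun X _ => Finset.subset_univ X) (c3a d nx t)
    omega
  · rw [Finset.not_nonempty_iff_eq_empty.1 h, Finset.card_empty, mul_zero, add_zero]
    refine le_trans (Finset.sum_le_sum (fun X _ =>
      (Nat.sub_le _ _).trans (c3_cross_le nx t t' htt X))) ?_
    exact c3_sum_classes_le hd s _ (Finset.Subset.refl _) univ (fun X _ => Finset.subset_univ X) _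

theorem excess_bound (hd : NMet d) (T : MTree d) (nx : Equiv.Perm V) (hnx : TourP nx) (J : ℕ) :
    ∑ j ∈ Icc 1 J, (tau j - tau (j - 1)) *
        ∑ X ∈ (univ : Finset V).image (cmp d (tau (j - 1))), (crossN d nx (tau j) X - 2) + 2 * T.w ≤
      2 * tcost d nx := by
  obtain ⟨B, hB1, hB2, hB3⟩ := c3_bound T nx (tau J)
  rw [c3_tcost nx B hB2, c3_w T B hB3]
  have h1 := c3_levels_le
    (fun t => 2 * (univ.filter (fun v => t < d v (nx v))).card -
      2 * (univ.filter (fun x => t < T.wt x)).card)
    (fun j => ∑ X ∈ (univ : Finset V).image (cmp d (tau (j - 1))), (crossN d nx (tau j) X - 2))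
    J B hB1 (by
      intro j _ t ht1 ht2
      have := c3_excess hd T nx hnx (tau (j - 1)) t (tau j) ht1 ht2.le
      omega)
  refine le_trans (Nat.add_le_add_right h1 _) ?_
  rw [Finset.mul_sum, Finset.mul_sum, ← Finset.sum_add_distrib]
  apply Finset.sum_le_sum
  intro t _
  have := tour_count hd T nx hnx t
  omega

/-- the short steps of a tour cost at most the short tree edges plus the excess -/
theorem short_bound (hd : NMet d) (T : MTree d) (nx : Equiv.Perm V) (hnx : TourP nx) (R : ℕ) :
    ∑ v ∈ univ.filter (fun v => d v (nx v) ≤ R), d v (nx v) + T.w ≤ T.wle R + tcost d nx := by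
  obtain ⟨B, _, hB2, hB3⟩ := c3_bound T nx 0
  have h1 : T.w = T.wle R + ∑ x ∈ univ.filter (fun x => ¬ T.wt x ≤ R), T.wt x :=
    (Finset.sum_filter_add_sum_filter_not univ (fun x => T.wt x ≤ R) (fun x => T.wt x)).symm
  have h2 : tcost d nx = ∑ v ∈ univ.filter (fun v => d v (nx v) ≤ R), d v (nx v) +
      ∑ v ∈ univ.filter (fun v => ¬ d v (nx v) ≤ R), d v (nx v) :=
    (Finset.sum_filter_add_sum_filter_not univ (fun v => d v (nx v) ≤ R)
      (fun v => d v (nx v))).symm
  have h3 : ∑ x ∈ univ.filter (fun x => ¬ T.wt x ≤ R), T.wt x ≤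
      ∑ v ∈ univ.filter (fun v => ¬ d v (nx v) ≤ R), d v (nx v) := by
    rw [sum_eq_levels _ (fun x => T.wt x) B (fun x _ => hB3 x),
      sum_eq_levels _ (fun v => d v (nx v)) B (fun v _ => hB2 v)]
    apply Finset.sum_le_sum
    intro t _
    rw [Finset.filter_filter, Finset.filter_filter]
    have h4 := tour_count hd T nx hnx (max R t)
    have h5 : univ.filter (fun x => ¬ T.wt x ≤ R ∧ t < T.wt x) =
        univ.filter (fun x => max R t < T.wt x) := by
      ext x
      simp only [mem_filter, mem_univ, true_and, not_le, max_lt_iff]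
    have h6 : univ.filter (fun v => ¬ d v (nx v) ≤ R ∧ t < d v (nx v)) =
        univ.filter (fun v => max R t < d v (nx v)) := by
      ext x
      simp only [mem_filter, mem_univ, true_and, not_le, max_lt_iff]
    rw [h5, h6]
    exact h4
  omega

end H82.TQ
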