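import Pool.Agent.H82.TQ.C3

/-!
# TQ C4: short tours give cheap solutions of the local linear program

`x u v = 1` if `v = nx u`, `v ∈ nbr u` and `d u v ≤ R` ((kept) step), else `0`. Call the step `(u, nx u)` replaced if it
is not kept, i.e. if `nx u ∉ nbr u` or `R < d u (nx u)` (note that `nx u ≠ u` by `TourP` and `hV`);
`y u` (for `u ∉ S`; `y u = 0` for `u ∈ S`) is the number of replaced steps among `(u, nx u)` and `(nx⁻¹ u, u)`.
Cuts: `X` nonempty, `≠ univ`, disjoint from `S`: some step leaves `X` and some step enters `X` (apply `TourP` to `X` and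
to its complement); each contributes at least `1` to `cutv` (through `x` if it is kept, through `y` at its end in `X`
otherwise).
Cost: kept steps cost `d ≤ R`; a replaced step `(u,v)` costs at most `f u + f v` (where `u, v ∉ S`), and by `H`:
if `R < d u v`: at most `2 r` (and the tour has at most `tcost / R` such steps); so let `d u v ≤ R` from now on;
if `u ∈ S` or `v ∈ S`: at most `d u v` (`f` is Lipschitz and `0` on `S`); if `f u ≤ d u v ∨ f v ≤ d u v` then `f u + f v ≤ 3 d u v`, so at most `3 τ 1` in the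
second case; at most `2 r` if `u ∈ BI ∨ v ∈ BI` (at most `2 |BI|` steps); in the last case (with `d u v ≤ R`) at most
`3 d u v ≤ 3 τ(j+1)`: for the steps inside a class of level `τ(j-1)` use `defect_bound`, for those with an end in
`BU j` and ends in different classes use `excess_bound` (`∑_{X ⊆ BU j} k X ≤ 2 #classes + ∑ (k X - 2)`), for
those with an end in `BC j` count `2 |BC j|` steps of cost `≤ 3 R`. `2 τ(j+1) ≤ 21 (τ j - τ(j-1))` (`tau_ratio`).
Steps of length at most `R` cost at most `wle R + δ w` in total by `short_bound`. Total constants: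
`1 + 31.5 + 63 ≤ 96`.
`∑ x² ≤ n`, `∑ y² ≤ 4 n`.
-/

set_option autoImplicit false

open Finset Classical

namespace H82.TQ

namespace YB

set_option linter.unusedSectionVars false

variable {V : Type} [Fintype V]

/-- the pair variables of a tour -/
noncomputable def xk (κ : V → Prop) (nx : Equiv.Perm V) (u v : V) : ℝ :=
  if v = nx u ∧ κ u then 1 else 0

/-- the link variables of a tour -/
noncomputable def yk (κ : V → Prop) (nx : Equiv.Perm V) (S : Finset V) (u : V) : ℝ :=
  if u ∈ S then 0 else (if κ u then 0 else 1) + (if κ (nx.symm u) then 0 else 1)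

theorem xk_nonneg (κ : V → Prop) (nx : Equiv.Perm V) (u v : V) : 0 ≤ xk κ nx u v := by
  unfold xk; split_ifs <;> norm_num

theorem yk_nonneg (κ : V → Prop) (nx : Equiv.Perm V) (S : Finset V) (u : V) : 0 ≤ yk κ nx S u := by
  unfold yk; split_ifs <;> norm_num

theorem yk_le (κ : V → Prop) (nx : Equiv.Perm V) (S : Finset V) (u : V) : yk κ nx S u ≤ 2 := by
  unfold yk; split_ifs <;> norm_num

theorem cut_ge (κ : V → Prop) (nx : Equiv.Perm V) (hnx : TourP nx) (S : Finset V) (X : Finset V)
    (h1 : X.Nonempty) (h2 : X ≠ univ) (h3 : Disjoint X S) :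
    2 ≤ cutv (xk κ nx) (yk κ nx S) X := by
  obtain ⟨a, ha, ha'⟩ := hnx X h1 h2
  obtain ⟨b, hb, hb'⟩ := hnx Xᶜ (by
    rw [Finset.nonempty_iff_ne_empty]
    intro h
    exact h2 (by rwa [Finset.compl_eq_empty_iff] at h)) (by
    intro h
    obtain ⟨z, hz⟩ := h1
    have : z ∈ Xᶜ := by rw [h]; exact mem_univ z
    rw [mem_compl] at this
    exact this hz)
  rw [mem_compl] at hb hb'
  rw [not_not] at hb'
  have e1 : cutv (xk κ nx) (yk κ nx S) X =
      ∑ u ∈ X, ((if κ u then (0:ℝ) else 1) + ∑ v ∈ univ.filter (fun v => v ∉ X), xk κ nx u v) +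
      ∑ u ∈ X, ((if κ (nx.symm u) then (0:ℝ) else 1) +
        ∑ v ∈ univ.filter (fun v => v ∉ X), xk κ nx v u) := by
    unfold cutv
    rw [← sum_add_distrib]
    refine sum_congr rfl ?_
    intro u hu
    have hS : u ∉ S := fun h => (Finset.disjoint_left.mp h3 hu h)
    have : yk κ nx S u = (if κ u then (0:ℝ) else 1) + (if κ (nx.symm u) then 0 else 1) := by
      unfold yk
      rw [if_neg hS]
    rw [this, sum_add_distrib]
    ring
  rw [e1]
  have n1 : ∀ u, 0 ≤ (if κ u then (0:ℝ) else 1) +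
      ∑ v ∈ univ.filter (fun v => v ∉ X), xk κ nx u v := by
    intro u
    have : 0 ≤ ∑ v ∈ univ.filter (fun v => v ∉ X), xk κ nx u v :=
      sum_nonneg (fun v _ => xk_nonneg κ nx u v)
    split_ifs <;> linarith
  have n2 : ∀ u, 0 ≤ (if κ (nx.symm u) then (0:ℝ) else 1) +
      ∑ v ∈ univ.filter (fun v => v ∉ X), xk κ nx v u := by
    intro u
    have : 0 ≤ ∑ v ∈ univ.filter (fun v => v ∉ X), xk κ nx v u :=
      sum_nonneg (fun v _ => xk_nonneg κ nx v u)
    split_ifs <;> linarith
  have p1 := single_le_sum (f := fun u => (if κ u then (0:ℝ) else 1) +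
      ∑ v ∈ univ.filter (fun v => v ∉ X), xk κ nx u v) (fun u _ => n1 u) ha
  have p2 := single_le_sum (f := fun u => (if κ (nx.symm u) then (0:ℝ) else 1) +
      ∑ v ∈ univ.filter (fun v => v ∉ X), xk κ nx v u) (fun u _ => n2 u) hb'
  have q1 : 1 ≤ (if κ a then (0:ℝ) else 1) +
      ∑ v ∈ univ.filter (fun v => v ∉ X), xk κ nx a v := by
    by_cases hk : κ a
    · have := single_le_sum (f := fun v => xk κ nx a v) (s := univ.filter (fun v => v ∉ X))
        (fun v _ => xk_nonneg κ nx a v) (a := nx a) (by simp [ha'])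
      have h1 : xk κ nx a (nx a) = 1 := by unfold xk; rw [if_pos ⟨rfl, hk⟩]
      rw [if_pos hk]
      simp only [h1] at this
      linarith
    · rw [if_neg hk]
      have : 0 ≤ ∑ v ∈ univ.filter (fun v => v ∉ X), xk κ nx a v :=
        sum_nonneg (fun v _ => xk_nonneg κ nx a v)
      linarith
  have q2 : 1 ≤ (if κ (nx.symm (nx b)) then (0:ℝ) else 1) +
      ∑ v ∈ univ.filter (fun v => v ∉ X), xk κ nx v (nx b) := by
    rw [Equiv.symm_apply_apply]
    by_cases hk : κ b
    · have := single_le_sum (f := fun v => xk κ nx v (nx b)) (s := univ.filter (fun v => v ∉ X))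
        (fun v _ => xk_nonneg κ nx v (nx b)) (a := b) (by simp [hb])
      have h1 : xk κ nx b (nx b) = 1 := by unfold xk; rw [if_pos ⟨rfl, hk⟩]
      rw [if_pos hk]
      simp only [h1] at this
      linarith
    · rw [if_neg hk]
      have : 0 ≤ ∑ v ∈ univ.filter (fun v => v ∉ X), xk κ nx v (nx b) :=
        sum_nonneg (fun v _ => xk_nonneg κ nx v (nx b))
      linarith
  linarith

theorem sum_xk (κ : V → Prop) (nx : Equiv.Perm V) (u : V) (g : V → ℝ) :
    ∑ v, xk κ nx u v * g v = if κ u then g (nx u) else 0 := by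
  unfold xk
  by_cases h : κ u
  · simp [h]
  · simp [h]

theorem sq_le (κ : V → Prop) (nx : Equiv.Perm V) (S : Finset V) :
    ∑ u, ∑ v, xk κ nx u v ^ 2 + ∑ u, yk κ nx S u ^ 2 ≤ 5 * Fintype.card V := by
  have h1 : ∑ u, ∑ v, xk κ nx u v ^ 2 ≤ Fintype.card V := by
    have : ∀ u ∈ (univ : Finset V), ∑ v, xk κ nx u v ^ 2 ≤ 1 := by
      intro u _
      have e : ∑ v, xk κ nx u v ^ 2 = ∑ v, xk κ nx u v * 1 := by
        refine sum_congr rfl ?_
        intro v _
        unfold xk
        split_ifs <;> norm_num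
      rw [e, sum_xk κ nx u (fun _ => 1)]
      split_ifs <;> norm_num
    calc ∑ u, ∑ v, xk κ nx u v ^ 2 ≤ ∑ u : V, (1:ℝ) := sum_le_sum this
      _ = Fintype.card V := by simp
  have h2 : ∑ u, yk κ nx S u ^ 2 ≤ 4 * Fintype.card V := by
    calc ∑ u, yk κ nx S u ^ 2 ≤ ∑ u : V, (4:ℝ) := by
          refine sum_le_sum ?_
          intro u _
          have a1 := yk_nonneg κ nx S u
          have a2 := yk_le κ nx S u
          nlinarith
      _ = 4 * Fintype.card V := by simp; ring
  linarith

theorem cost_eq (κ : V → Prop) (nx : Equiv.Perm V) (S : Finset V) (d : V → V → ℕ) (f : V → ℕ)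
    (hfS : ∀ u ∈ S, f u = 0) :
    ∑ u, ∑ v, xk κ nx u v * d u v + ∑ u, yk κ nx S u * f u =
      ((∑ u, (if κ u then d u (nx u) else f u + f (nx u)) : ℕ) : ℝ) := by
  have h1 : ∑ u, ∑ v, xk κ nx u v * d u v = ∑ u, if κ u then (d u (nx u) : ℝ) else 0 :=
    sum_congr rfl (fun u _ => sum_xk κ nx u (fun v => (d u v : ℝ)))
  have h2 : ∑ u, yk κ nx S u * f u = ∑ u, (if κ u then (0:ℝ) else f u) +
      ∑ u, (if κ (nx.symm u) then (0:ℝ) else f u) := by
    rw [← sum_add_distrib]
    refine sum_congr rfl ?_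
    intro u _
    unfold yk
    by_cases hS : u ∈ S
    · rw [if_pos hS, hfS u hS]
      simp
    · rw [if_neg hS]
      split_ifs <;> ring
  have h3 : ∑ u, (if κ (nx.symm u) then (0:ℝ) else f u) =
      ∑ u, (if κ u then (0:ℝ) else f (nx u)) := by
    rw [← Equiv.sum_comp nx]
    refine sum_congr rfl ?_
    intro u _
    rw [Equiv.symm_apply_apply]
  rw [h1, h2, h3, ← sum_add_distrib, ← sum_add_distrib]
  push_cast
  refine sum_congr rfl ?_
  intro u _
  split_ifs <;> simp

/-- number of steps with an end in `A` -/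
theorem ends_le (nx : Equiv.Perm V) (A : Finset V) :
    (univ.filter (fun u => u ∈ A ∨ nx u ∈ A)).card ≤ 2 * A.card := by
  have : univ.filter (fun u => u ∈ A ∨ nx u ∈ A) ⊆ A ∪ A.image nx.symm := by
    intro u hu
    rw [mem_filter] at hu
    rw [mem_union]
    rcases hu.2 with h | h
    · exact Or.inl h
    · right
      rw [mem_image]
      exact ⟨nx u, h, by simp⟩
  have h1 := card_le_card this
  have h2 := card_union_le A (A.image nx.symm)
  have h3 : (A.image nx.symm).card ≤ A.card := card_image_le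
  omega

/-- steps with an end in `B` and ends in different classes -/
theorem cross_le (d : V → V → ℕ) (nx : Equiv.Perm V)
    (s t : ℕ) (hsy : ∀ u v, Rch d s u v → Rch d s v u) (B : Finset V) :
    (univ.filter (fun u => t < d u (nx u) ∧ ¬ Rch d s u (nx u) ∧ (u ∈ B ∨ nx u ∈ B))).card ≤
      2 * (B.image (cmp d s)).card +
        ∑ X ∈ (univ : Finset V).image (cmp d s), (crossN d nx t X - 2) := by
  have h1 : univ.filter (fun u => t < d u (nx u) ∧ ¬ Rch d s u (nx u) ∧ (u ∈ B ∨ nx u ∈ B)) ⊆
      (B.image (cmp d s)).biUnion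
        (fun X => univ.filter (fun v => t < d v (nx v) ∧ ¬ (v ∈ X ↔ nx v ∈ X))) := by
    intro u hu
    rw [mem_filter] at hu
    obtain ⟨-, ha, hb, hc⟩ := hu
    rw [mem_biUnion]
    rcases hc with hc | hc
    · refine ⟨cmp d s u, mem_image_of_mem _ hc, ?_⟩
      rw [mem_filter]
      refine ⟨mem_univ _, ha, ?_⟩
      intro hh
      have : u ∈ cmp d s u := by
        unfold cmp
        rw [mem_filter]
        exact ⟨mem_univ _, Relation.ReflTransGen.refl⟩
      have h2 := hh.mp this
      unfold cmp at h2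
      rw [mem_filter] at h2
      exact hb h2.2
    · refine ⟨cmp d s (nx u), mem_image_of_mem _ hc, ?_⟩
      rw [mem_filter]
      refine ⟨mem_univ _, ha, ?_⟩
      intro hh
      have : nx u ∈ cmp d s (nx u) := by
        unfold cmp
        rw [mem_filter]
        exact ⟨mem_univ _, Relation.ReflTransGen.refl⟩
      have h2 := hh.mpr this
      unfold cmp at h2
      rw [mem_filter] at h2
      exact hb (hsy _ _ h2.2)
  have h2 := (card_le_card h1).trans card_biUnion_le
  have h3 : ∑ X ∈ B.image (cmp d s),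
      (univ.filter (fun v => t < d v (nx v) ∧ ¬ (v ∈ X ↔ nx v ∈ X))).card ≤
      ∑ X ∈ B.image (cmp d s), (2 + (crossN d nx t X - 2)) := by
    refine sum_le_sum ?_
    intro X _
    have : (univ.filter (fun v => t < d v (nx v) ∧ ¬ (v ∈ X ↔ nx v ∈ X))).card = crossN d nx t X := rfl
    rw [this]
    omega
  have h4 : ∑ X ∈ B.image (cmp d s), (crossN d nx t X - 2) ≤
      ∑ X ∈ (univ : Finset V).image (cmp d s), (crossN d nx t X - 2) :=
    sum_le_sum_of_subset (image_subset_image (subset_univ B))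
  rw [sum_add_distrib] at h3
  simp only [sum_const, smul_eq_mul] at h3
  omega

end YB

theorem yes_bound {V : Type} [Fintype V] {d : V → V → ℕ} (hd : NMet d) (T : MTree d) (δ : ℝ)
    (hδ : 0 ≤ δ) (hV : 2 ≤ Fintype.card V) (nx : Equiv.Perm V) (hnx : TourP nx)
    (hcost : (tcost d nx : ℝ) ≤ (1 + δ) * T.w)
    (S : Finset V) (f : V → ℕ) (r R J : ℕ) (hR : 0 < R) (hfS : ∀ u ∈ S, f u = 0)
    (hfl : ∀ u v, f u ≤ f v + d u v) (hfr : ∀ u, f u ≤ r)
    (nbr : V → Finset V) (BI : Finset V) (BU BC : ℕ → Finset V)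
    (hBU : ∀ j u v, Rch d (tau (j - 1)) u v → u ∈ BU j → v ∈ BU j)
    (H : ∀ u v, u ≠ v → v ∉ nbr u →
      u ∈ S ∨ v ∈ S ∨ R < d u v ∨
      ((f u ≤ d u v ∨ f v ≤ d u v) ∧ d u v ≤ tau 1) ∨
      (u ∈ BI ∨ v ∈ BI) ∨
      ((f u ≤ d u v ∨ f v ≤ d u v) ∧ ∃ j, 1 ≤ j ∧ j ≤ J ∧ tau j < d u v ∧ d u v ≤ tau (j + 1) ∧
        (Rch d (tau (j - 1)) u v ∨ u ∈ BU j ∨ v ∈ BU j ∨ u ∈ BC j ∨ v ∈ BC j))) :
    ∃ (x : V → V → ℝ) (y : V → ℝ),
      (∀ u v, 0 ≤ x u v) ∧ (∀ u, 0 ≤ y u) ∧ (∀ u v, x u v ≠ 0 → v ∈ nbr u) ∧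
      (∀ u ∈ S, y u = 0) ∧
      (∀ X : Finset V, X.Nonempty → X ≠ univ → Disjoint X S → 2 ≤ cutv x y X) ∧
      (∑ u, ∑ v, x u v ^ 2 + ∑ u, y u ^ 2 ≤ 5 * Fintype.card V) ∧
      ∑ u, ∑ v, x u v * d u v + ∑ u, y u * f u ≤
        T.wle R + 96 * δ * T.w + 2 * r * ((1 + δ) * T.w / R) + 15 * Fintype.card V +
          4 * r * BI.card +
          6 * ∑ j ∈ Icc 1 J, (tau (j + 1) : ℝ) * (((BU j).image (cmp d (tau (j - 1)))).card : ℝ) +
          6 * R * ∑ j ∈ Icc 1 J, ((BC j).card : ℝ) := by
  have hne : ∀ u, u ≠ nx u := by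
    intro u h
    obtain ⟨v, hv, hv'⟩ := hnx {u} (singleton_nonempty u) (by
      intro h1
      have : Fintype.card V = 1 := by rw [← Finset.card_univ, ← h1]; simp
      omega)
    rw [mem_singleton] at hv
    rw [hv] at hv'
    exact hv' (by rw [← h]; simp)
  obtain ⟨κ, hκ⟩ : ∃ κ : V → Prop, ∀ u, κ u ↔ (nx u ∈ nbr u ∧ d u (nx u) ≤ R) :=
    ⟨_, fun u => Iff.rfl⟩
  refine ⟨YB.xk κ nx, YB.yk κ nx S, YB.xk_nonneg κ nx, YB.yk_nonneg κ nx S, ?_, ?_, ?_, ?_, ?_⟩
  · intro u v h
    unfold YB.xk at h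
    split_ifs at h with h1
    · rw [h1.1]; exact ((hκ u).mp h1.2).1
    · exact absurd rfl h
  · intro u hu
    unfold YB.yk
    rw [if_pos hu]
  · intro X h1 h2 h3
    exact YB.cut_ge κ nx hnx S X h1 h2 h3
  · exact YB.sq_le κ nx S
  · rw [YB.cost_eq κ nx S d f hfS]
    -- tau 1 = 5
    have ht1 : tau 1 = 5 := by unfold tau; norm_num
    -- pointwise bound
    have pw : ∀ u ∈ (univ : Finset V), (if κ u then d u (nx u) else f u + f (nx u)) ≤
        (if d u (nx u) ≤ R then d u (nx u) else 0) + (if R < d u (nx u) then 2 * r else 0) + 10 +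
        (if u ∈ BI ∨ nx u ∈ BI then 2 * r else 0) +
        ∑ j ∈ Icc 1 J,
          ((if tau j < d u (nx u) ∧ Rch d (tau (j - 1)) u (nx u) then 2 * tau (j + 1) else 0) +
           (if tau j < d u (nx u) ∧ ¬ Rch d (tau (j - 1)) u (nx u) ∧ (u ∈ BU j ∨ nx u ∈ BU j)
              then 2 * tau (j + 1) else 0) +
           (if u ∈ BC j ∨ nx u ∈ BC j then 2 * R else 0)) := by
      intro u _
      have l1 := hfl u (nx u)
      have l2 := hfl (nx u) u
      rw [hd.symm (nx u) u] at l2
      have r1 := hfr u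
      have r2 := hfr (nx u)
      by_cases hk : κ u
      · rw [if_pos hk, if_pos ((hκ u).mp hk).2]
        omega
      · rw [if_neg hk]
        by_cases hRd : R < d u (nx u)
        · rw [if_pos hRd]
          omega
        · have hle : d u (nx u) ≤ R := not_lt.mp hRd
          rw [if_pos hle]
          have hnb : nx u ∉ nbr u := fun h => hk ((hκ u).mpr ⟨h, hle⟩)
          rcases H u (nx u) (hne u) hnb with h | h | h | h | h | h
          · have := hfS u h
            omega
          · have := hfS (nx u) h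
            omega
          · exact absurd h hRd
          · obtain ⟨ha, hb⟩ := h
            rw [ht1] at hb
            omega
          · rw [if_pos h]
            omega
          · obtain ⟨ha, j, hj1, hjJ, hj2, hj3, hj4⟩ := h
            have hs := single_le_sum (s := Icc 1 J) (f := fun j =>
              ((if tau j < d u (nx u) ∧ Rch d (tau (j - 1)) u (nx u) then 2 * tau (j + 1) else 0) +
               (if tau j < d u (nx u) ∧ ¬ Rch d (tau (j - 1)) u (nx u) ∧ (u ∈ BU j ∨ nx u ∈ BU j)
                  then 2 * tau (j + 1) else 0) +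
               (if u ∈ BC j ∨ nx u ∈ BC j then 2 * R else 0))) (fun j _ => Nat.zero_le _)
              (a := j) (by rw [mem_Icc]; exact ⟨hj1, hjJ⟩)
            have h3 : f u + f (nx u) ≤ 3 * d u (nx u) := by omega
            by_cases hrch : Rch d (tau (j - 1)) u (nx u)
            · rw [if_pos ⟨hj2, hrch⟩] at hs
              omega
            · by_cases hbu : u ∈ BU j ∨ nx u ∈ BU j
              · rw [if_pos (c := tau j < d u (nx u) ∧ ¬ Rch d (tau (j - 1)) u (nx u) ∧
                  (u ∈ BU j ∨ nx u ∈ BU j)) ⟨hj2, hrch, hbu⟩] at hs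
                omega
              · have hbc : u ∈ BC j ∨ nx u ∈ BC j := by
                  rcases hj4 with h | h | h | h | h
                  · exact absurd h hrch
                  · exact absurd (Or.inl h) hbu
                  · exact absurd (Or.inr h) hbu
                  · exact Or.inl h
                  · exact Or.inr h
                rw [if_pos hbc] at hs
                omega
    have tot := sum_le_sum pw
    rw [sum_add_distrib, sum_add_distrib, sum_add_distrib, sum_add_distrib, sum_comm] at tot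
    simp only [sum_add_distrib] at tot
    simp only [← sum_filter] at tot
    simp only [sum_const, smul_eq_mul, Finset.card_univ] at tot
    -- the parts
    have a0 := short_bound hd T nx hnx R
    have a1 : (univ.filter (fun u => R < d u (nx u))).card * R ≤ tcost d nx := by
      unfold tcost
      calc (univ.filter (fun u => R < d u (nx u))).card * R =
            ∑ u ∈ univ.filter (fun u => R < d u (nx u)), R := by simp
        _ ≤ ∑ u ∈ univ.filter (fun u => R < d u (nx u)), d u (nx u) := by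
            refine sum_le_sum ?_
            intro u hu
            rw [mem_filter] at hu
            exact hu.2.le
        _ ≤ ∑ u, d u (nx u) := sum_le_sum_of_subset (filter_subset _ _)
    have a3 := YB.ends_le nx BI
    have b1 := defect_bound hd T nx hnx J
    have b2 := excess_bound hd T nx hnx J
    have b1' : ∑ j ∈ Icc 1 J, (univ.filter (fun v => tau j < d v (nx v) ∧
        Rch d (tau (j - 1)) v (nx v))).card * (2 * tau (j + 1)) + 21 * T.w ≤ 21 * tcost d nx := by
      have : ∑ j ∈ Icc 1 J, (univ.filter (fun v => tau j < d v (nx v) ∧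
          Rch d (tau (j - 1)) v (nx v))).card * (2 * tau (j + 1)) ≤
          21 * ∑ j ∈ Icc 1 J, (tau j - tau (j - 1)) * (univ.filter (fun v => tau j < d v (nx v) ∧
          Rch d (tau (j - 1)) v (nx v))).card := by
        rw [mul_sum]
        refine sum_le_sum ?_
        intro j hj
        rw [mem_Icc] at hj
        have := tau_ratio (j - 1)
        have e1 : j - 1 + 2 = j + 1 := by omega
        have e2 : j - 1 + 1 = j := by omega
        rw [e1, e2] at this
        calc _ ≤ (univ.filter (fun v => tau j < d v (nx v) ∧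
          Rch d (tau (j - 1)) v (nx v))).card * (21 * (tau j - tau (j - 1))) :=
              Nat.mul_le_mul_left _ this
          _ = _ := by ring
      omega
    have b2' : ∑ j ∈ Icc 1 J, (univ.filter (fun u => tau j < d u (nx u) ∧
        ¬ Rch d (tau (j - 1)) u (nx u) ∧ (u ∈ BU j ∨ nx u ∈ BU j))).card * (2 * tau (j + 1)) +
        42 * T.w ≤ 42 * tcost d nx +
        4 * ∑ j ∈ Icc 1 J, tau (j + 1) * ((BU j).image (cmp d (tau (j - 1)))).card := by
      have : ∑ j ∈ Icc 1 J, (univ.filter (fun u => tau j < d u (nx u) ∧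
          ¬ Rch d (tau (j - 1)) u (nx u) ∧ (u ∈ BU j ∨ nx u ∈ BU j))).card * (2 * tau (j + 1)) ≤
          21 * ∑ j ∈ Icc 1 J, (tau j - tau (j - 1)) *
            ∑ X ∈ (univ : Finset V).image (cmp d (tau (j - 1))), (crossN d nx (tau j) X - 2) +
          4 * ∑ j ∈ Icc 1 J, tau (j + 1) * ((BU j).image (cmp d (tau (j - 1)))).card := by
        rw [mul_sum, mul_sum, ← sum_add_distrib]
        refine sum_le_sum ?_
        intro j hj
        rw [mem_Icc] at hj
        have hr := tau_ratio (j - 1)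
        have e1 : j - 1 + 2 = j + 1 := by omega
        have e2 : j - 1 + 1 = j := by omega
        rw [e1, e2] at hr
        have hc := YB.cross_le d nx (tau (j - 1)) (tau j)
          (fun u v h => rch_symm hd h) (BU j)
        calc _ ≤ (2 * ((BU j).image (cmp d (tau (j - 1)))).card +
              ∑ X ∈ (univ : Finset V).image (cmp d (tau (j - 1))), (crossN d nx (tau j) X - 2)) *
              (2 * tau (j + 1)) := Nat.mul_le_mul_right _ hc
          _ = (∑ X ∈ (univ : Finset V).image (cmp d (tau (j - 1))),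
              (crossN d nx (tau j) X - 2)) * (2 * tau (j + 1)) +
              4 * (tau (j + 1) * ((BU j).image (cmp d (tau (j - 1)))).card) := by ring
          _ ≤ (∑ X ∈ (univ : Finset V).image (cmp d (tau (j - 1))),
              (crossN d nx (tau j) X - 2)) * (21 * (tau j - tau (j - 1))) +
              4 * (tau (j + 1) * ((BU j).image (cmp d (tau (j - 1)))).card) :=
              Nat.add_le_add_right (Nat.mul_le_mul_left _ hr) _
          _ = _ := by ring
      omega
    have b3' : ∑ j ∈ Icc 1 J, (univ.filter (fun u => u ∈ BC j ∨ nx u ∈ BC j)).card * (2 * R) ≤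
        4 * R * ∑ j ∈ Icc 1 J, (BC j).card := by
      rw [mul_sum]
      refine sum_le_sum ?_
      intro j _
      have := YB.ends_le nx (BC j)
      calc _ ≤ (2 * (BC j).card) * (2 * R) := Nat.mul_le_mul_right _ this
        _ = _ := by ring
    -- real numbers
    have hRr : (0:ℝ) < R := by exact_mod_cast hR
    have totr : ((∑ u, (if κ u then d u (nx u) else f u + f (nx u)) : ℕ) : ℝ) ≤ _ :=
      Nat.cast_le.mpr tot
    refine totr.trans ?_
    push_cast
    have a0r : ((∑ v ∈ univ.filter (fun v => d v (nx v) ≤ R), d v (nx v) : ℕ) : ℝ) + T.w ≤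
        T.wle R + tcost d nx := by exact_mod_cast a0
    have a1r : ((univ.filter (fun u => R < d u (nx u))).card : ℝ) * (2 * r) ≤
        2 * r * ((1 + δ) * T.w / R) := by
      have : ((univ.filter (fun u => R < d u (nx u))).card : ℝ) ≤ (1 + δ) * T.w / R := by
        rw [le_div_iff₀ hRr]
        have : ((univ.filter (fun u => R < d u (nx u))).card : ℝ) * R ≤ tcost d nx := by
          exact_mod_cast a1
        linarith
      calc _ ≤ ((1 + δ) * T.w / R) * (2 * r) := mul_le_mul_of_nonneg_right this (by positivity)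
        _ = _ := by ring
    have a3r : ((univ.filter (fun u => u ∈ BI ∨ nx u ∈ BI)).card : ℝ) * (2 * r) ≤
        4 * r * BI.card := by
      have : ((univ.filter (fun u => u ∈ BI ∨ nx u ∈ BI)).card : ℝ) ≤ 2 * BI.card := by
        exact_mod_cast a3
      calc _ ≤ (2 * (BI.card : ℝ)) * (2 * r) := mul_le_mul_of_nonneg_right this (by positivity)
        _ = _ := by ring
    have b1r : ∑ j ∈ Icc 1 J, ((univ.filter (fun v => tau j < d v (nx v) ∧
        Rch d (tau (j - 1)) v (nx v))).card : ℝ) * (2 * (tau (j + 1) : ℝ)) + 21 * T.w ≤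
        21 * tcost d nx := by exact_mod_cast b1'
    have b2r : ∑ j ∈ Icc 1 J, ((univ.filter (fun u => tau j < d u (nx u) ∧
        ¬ Rch d (tau (j - 1)) u (nx u) ∧ (u ∈ BU j ∨ nx u ∈ BU j))).card : ℝ) *
        (2 * (tau (j + 1) : ℝ)) +
        42 * T.w ≤ 42 * tcost d nx +
        4 * ∑ j ∈ Icc 1 J, (tau (j + 1) : ℝ) *
          (((BU j).image (cmp d (tau (j - 1)))).card : ℝ) := by exact_mod_cast b2'
    have b3r : ∑ j ∈ Icc 1 J, ((univ.filter (fun u => u ∈ BC j ∨ nx u ∈ BC j)).card : ℝ) *
        (2 * (R : ℝ)) ≤ 4 * R * ∑ j ∈ Icc 1 J, ((BC j).card : ℝ) := by exact_mod_cast b3'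
    have s1 : (0:ℝ) ≤ ∑ j ∈ Icc 1 J, (tau (j + 1) : ℝ) *
          (((BU j).image (cmp d (tau (j - 1)))).card : ℝ) :=
      sum_nonneg (fun j _ => by positivity)
    have s2 : (0:ℝ) ≤ R * ∑ j ∈ Icc 1 J, ((BC j).card : ℝ) := by
      have : (0:ℝ) ≤ ∑ j ∈ Icc 1 J, ((BC j).card : ℝ) :=
        sum_nonneg (fun j _ => Nat.cast_nonneg _)
      exact mul_nonneg hRr.le this
    have s3 : (0:ℝ) ≤ Fintype.card V := Nat.cast_nonneg _
    have s4 : (0:ℝ) ≤ δ * T.w := mul_nonneg hδ (Nat.cast_nonneg _)
    push_cast at a0r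
    generalize ((univ.filter (fun u => R < d u (nx u))).card : ℝ) * (2 * (r:ℝ)) = A1 at *
    generalize ((univ.filter (fun u => u ∈ BI ∨ nx u ∈ BI)).card : ℝ) * (2 * (r:ℝ)) = A3 at *
    generalize ∑ j ∈ Icc 1 J, ((univ.filter (fun v => tau j < d v (nx v) ∧
        Rch d (tau (j - 1)) v (nx v))).card : ℝ) * (2 * (tau (j + 1) : ℝ)) = B1 at *
    generalize ∑ j ∈ Icc 1 J, ((univ.filter (fun u => tau j < d u (nx u) ∧
        ¬ Rch d (tau (j - 1)) u (nx u) ∧ (u ∈ BU j ∨ nx u ∈ BU j))).card : ℝ) *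
        (2 * (tau (j + 1) : ℝ)) = B2 at *
    generalize ∑ j ∈ Icc 1 J, ((univ.filter (fun u => u ∈ BC j ∨ nx u ∈ BC j)).card : ℝ) *
        (2 * (R : ℝ)) = B3 at *
    linarith
end H82.TQ
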