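import Pool.Agent.H82.TQ.A2

/-!
# TQ D1: expected number of dead components in the greedy process

All sums are over `ω : Fin M → Fin n` (sequences of picks, i.i.d. uniform). Let `F(I)` be the number
of dead components minus twice the number of those in `HB`. If `a` in the alive set `A` is picked,
then `a` and its alive neighbours (`adjU`) die. The ordered pairs of adjacent elements of `A` are of
the following types: equal elements (`|A|`), pairs with `Tadj` (at most `2 |A|`, since a class
contains at most one `x` with `s < wt x`), pairs with the first, or the second, element in `HB`.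
So the sum over `a` of `F(I') - F(I)` is at most `3 |A|`. Induct on `M`.
-/

set_option autoImplicit false

open Finset Classical

namespace H82.TQ

section

variable {n : ℕ} {d : Fin n → Fin n → ℕ}

theorem d1_rch_refl (s : ℕ) (a : Fin n) : Rch d s a a := Relation.ReflTransGen.refl

theorem d1_mem_cmp {s : ℕ} {a b : Fin n} : b ∈ cmp d s a ↔ Rch d s a b := by
  simp [cmp]

theorem d1_self_mem (s : ℕ) (a : Fin n) : a ∈ cmp d s a := d1_mem_cmp.2 (d1_rch_refl s a)

theorem d1_adj_symm (hd : NMet d) {s t : ℕ} {a b : Fin n} (h : adjU d s t a b) :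
    adjU d s t b a := by
  obtain ⟨x, hx, y, hy, h⟩ := h
  exact ⟨y, hy, x, hx, by rw [hd.symm]; exact h⟩

theorem d1_adj_self (hd : NMet d) (s t : ℕ) (a : Fin n) : adjU d s t a a :=
  ⟨a, d1_self_mem s a, a, d1_self_mem s a, by rw [hd.self]; exact Nat.zero_le _⟩

/-- two valid units in one class are equal -/
theorem d1_valid_eq (hd : NMet d) {s L : ℕ} {a b : Fin n} (ha : validU d s L a)
    (hb : validU d s L b) (h : Rch d s a b) : a = b :=
  le_antisymm (ha.2 b (d1_mem_cmp.2 h)) (hb.2 a (d1_mem_cmp.2 (rch_symm hd h)))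

theorem d1_alive_iff (s t L : ℕ) (I : Finset (Fin n)) (a : Fin n) :
    a ∈ aliveU d s t L I ↔ validU d s L a ∧ ∀ x ∈ cmp d s a, ∀ y ∈ I, t < d x y := by
  simp only [aliveU, Hv, Finset.mem_filter, Finset.mem_univ, true_and, not_exists, not_and, not_le]

theorem d1_gstep_alive {s t L : ℕ} {I : Finset (Fin n)} {a : Fin n} (h : a ∈ aliveU d s t L I) :
    gstep d s t L I a = I ∪ cmp d s a := if_pos ((d1_alive_iff s t L I a).1 h)

theorem d1_gstep_not {s t L : ℕ} {I : Finset (Fin n)} {a : Fin n} (h : a ∉ aliveU d s t L I) :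
    gstep d s t L I a = I := if_neg (fun h' => h ((d1_alive_iff s t L I a).2 h'))

/-- the newly dead components -/
noncomputable def d1N (d : Fin n → Fin n → ℕ) (s t L : ℕ) (I : Finset (Fin n)) (a : Fin n) :
    Finset (Fin n) := (aliveU d s t L I).filter (fun b => adjU d s t b a)

theorem d1_dead_step {s t L : ℕ} {I : Finset (Fin n)} {a : Fin n} :
    deadU d s t L (I ∪ cmp d s a) = deadU d s t L I ∪ d1N d s t L I a := by
  ext b
  simp only [deadU, d1N, Hv, aliveU, adjU, Finset.mem_filter, Finset.mem_univ, true_and,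
    Finset.mem_union, not_exists, not_and, not_le]
  constructor
  · rintro ⟨h1, x, hx, y, hy, h2⟩
    by_cases h3 : ∃ x ∈ cmp d s b, ∃ y ∈ I, d x y ≤ t
    · exact Or.inl ⟨h1, h3⟩
    · push Not at h3
      right
      refine ⟨⟨h1, h3⟩, x, hx, y, ?_, h2⟩
      rcases hy with hy | hy
      · exact absurd h2 (not_le.2 (h3 x hx y hy))
      · exact hy
  · rintro (⟨h1, x, hx, y, hy, h2⟩ | ⟨⟨h1, -⟩, x, hx, y, hy, h2⟩)
    · exact ⟨h1, x, hx, y, Or.inl hy, h2⟩
    · exact ⟨h1, x, hx, y, Or.inr hy, h2⟩

theorem d1_disj {s t L : ℕ} {I : Finset (Fin n)} {a : Fin n} :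
    Disjoint (deadU d s t L I) (d1N d s t L I a) := by
  rw [Finset.disjoint_left]
  intro b hb hb'
  simp only [deadU, d1N, aliveU, Finset.mem_filter, Finset.mem_univ, true_and] at hb hb'
  obtain ⟨-, x, hx, hxH⟩ := hb
  exact hb'.1.2 x hx hxH

/-- the potential -/
noncomputable def d1F (d : Fin n → Fin n → ℕ) (s t L : ℕ) (HB I : Finset (Fin n)) : ℝ :=
  ((deadU d s t L I).card : ℝ) - 2 * ((deadU d s t L I ∩ HB).card : ℝ)

theorem d1F_alive {s t L : ℕ} {HB I : Finset (Fin n)} {a : Fin n} (h : a ∈ aliveU d s t L I) :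
    d1F d s t L HB (gstep d s t L I a) = d1F d s t L HB I
      + ((d1N d s t L I a).card : ℝ) - 2 * ((d1N d s t L I a ∩ HB).card : ℝ) := by
  unfold d1F
  rw [d1_gstep_alive h, d1_dead_step, Finset.card_union_of_disjoint d1_disj,
    Finset.union_inter_distrib_right, Finset.card_union_of_disjoint
      (Disjoint.mono Finset.inter_subset_left Finset.inter_subset_left d1_disj)]
  push_cast
  ring

theorem d1F_not {s t L : ℕ} {HB I : Finset (Fin n)} {a : Fin n} (h : a ∉ aliveU d s t L I) :
    d1F d s t L HB (gstep d s t L I a) = d1F d s t L HB I := by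
  rw [d1_gstep_not h]

/-- counting adjacent pairs of alive units -/
theorem d1_pairs (hd : NMet d) (T : MTree d) (s t L : ℕ) (HB I : Finset (Fin n))
    (hHB : ∀ a b : Fin n, validU d s L a → validU d s L b → a ≠ b → adjU d s t a b →
      ¬ Tadj T s a b → a ∈ HB ∨ b ∈ HB) :
    ∑ a ∈ aliveU d s t L I, (d1N d s t L I a).card ≤
      3 * (aliveU d s t L I).card + 2 * ∑ a ∈ aliveU d s t L I, (d1N d s t L I a ∩ HB).card := by
  set A := aliveU d s t L I with hA
  have hval : ∀ a ∈ A, validU d s L a := fun a ha => ((d1_alive_iff s t L I a).1 ha).1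
  -- the ordered pairs
  set PP : Finset (Fin n × Fin n) := (A ×ˢ A).filter (fun e => adjU d s t e.1 e.2) with hPP
  have hsum : ∑ a ∈ A, (d1N d s t L I a).card = PP.card := by
    rw [hPP, Finset.card_filter, Finset.sum_product_right]
    refine Finset.sum_congr rfl fun a _ => ?_
    unfold d1N
    rw [Finset.card_filter]
  have hsum1 : ∑ a ∈ A, (d1N d s t L I a ∩ HB).card = (PP.filter (fun e => e.1 ∈ HB)).card := by
    rw [hPP, Finset.filter_filter, Finset.card_filter, Finset.sum_product_right]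
    refine Finset.sum_congr rfl fun a _ => ?_
    unfold d1N
    rw [← Finset.filter_mem_eq_inter, Finset.filter_filter, Finset.card_filter]
  have hsum2 : (PP.filter (fun e => e.2 ∈ HB)).card = (PP.filter (fun e => e.1 ∈ HB)).card := by
    refine Finset.card_bij (fun e _ => (e.2, e.1)) ?_ ?_ ?_
    · intro e he
      simp only [hPP, Finset.mem_filter, Finset.mem_product] at he ⊢
      exact ⟨⟨⟨he.1.1.2, he.1.1.1⟩, d1_adj_symm hd he.1.2⟩, he.2⟩
    · intro e _ e' _ h
      simp only [Prod.mk.injEq] at h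
      exact Prod.ext h.2 h.1
    · intro e he
      simp only [hPP, Finset.mem_filter, Finset.mem_product] at he
      refine ⟨(e.2, e.1), ?_, rfl⟩
      simp only [hPP, Finset.mem_filter, Finset.mem_product]
      exact ⟨⟨⟨he.1.1.2, he.1.1.1⟩, d1_adj_symm hd he.1.2⟩, he.2⟩
  set D0 : Finset (Fin n × Fin n) := (A ×ˢ A).filter (fun e => e.1 = e.2) with hD0
  set T1 : Finset (Fin n × Fin n) := (A ×ˢ A).filter
    (fun e => ∃ x, s < T.wt x ∧ Rch d s x e.1 ∧ Rch d s (T.par x) e.2) with hT1
  set T2 : Finset (Fin n × Fin n) := (A ×ˢ A).filter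
    (fun e => ∃ x, s < T.wt x ∧ Rch d s x e.2 ∧ Rch d s (T.par x) e.1) with hT2
  have hD0c : D0.card ≤ A.card := by
    refine Finset.card_le_card_of_injOn Prod.fst ?_ ?_
    · intro e he
      simp only [hD0, Finset.coe_filter, Finset.mem_product, Set.mem_ofPred_eq] at he
      exact he.1.1
    · intro e he e' he' h
      simp only [hD0, Finset.coe_filter, Finset.mem_product, Set.mem_ofPred_eq] at he he'
      exact Prod.ext h (by rw [← he.2, ← he'.2]; exact h)
  have huniq : ∀ x x' p q q' : Fin n, s < T.wt x → s < T.wt x' → Rch d s x p → Rch d s x' p →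
      Rch d s (T.par x) q → Rch d s (T.par x') q' → q ∈ A → q' ∈ A → q = q' := by
    intro x x' p q q' h1 h2 h3 h4 h5 h6 hq hq'
    have hx : x = x' := top_unique hd T h1 h2 (h3.trans (rch_symm hd h4))
    subst hx
    exact d1_valid_eq hd (hval q hq) (hval q' hq') ((rch_symm hd h5).trans h6)
  have hT1c : T1.card ≤ A.card := by
    refine Finset.card_le_card_of_injOn Prod.fst ?_ ?_
    · intro e he
      simp only [hT1, Finset.coe_filter, Finset.mem_product, Set.mem_ofPred_eq] at he
      exact he.1.1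
    · intro e he e' he' h
      simp only [hT1, Finset.coe_filter, Finset.mem_product, Set.mem_ofPred_eq] at he he'
      obtain ⟨⟨_, h2⟩, x, h3, h4, h5⟩ := he
      obtain ⟨⟨_, h2'⟩, x', h3', h4', h5'⟩ := he'
      have h' : e.1 = e'.1 := h
      rw [← h'] at h4'
      exact Prod.ext h (huniq x x' e.1 e.2 e'.2 h3 h3' h4 h4' h5 h5' h2 h2')
  have hT2c : T2.card ≤ A.card := by
    refine Finset.card_le_card_of_injOn Prod.snd ?_ ?_
    · intro e he
      simp only [hT2, Finset.coe_filter, Finset.mem_product, Set.mem_ofPred_eq] at he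
      exact he.1.2
    · intro e he e' he' h
      simp only [hT2, Finset.coe_filter, Finset.mem_product, Set.mem_ofPred_eq] at he he'
      obtain ⟨⟨h2, _⟩, x, h3, h4, h5⟩ := he
      obtain ⟨⟨h2', _⟩, x', h3', h4', h5'⟩ := he'
      have h' : e.2 = e'.2 := h
      rw [← h'] at h4'
      exact Prod.ext (huniq x x' e.2 e.1 e'.1 h3 h3' h4 h4' h5 h5' h2 h2') h
  have hcover : PP ⊆ D0 ∪ (T1 ∪ (T2 ∪ (PP.filter (fun e => e.1 ∈ HB) ∪
      PP.filter (fun e => e.2 ∈ HB)))) := by
    intro e he
    have he' := he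
    rw [hPP, Finset.mem_filter, Finset.mem_product] at he
    obtain ⟨⟨h1, h2⟩, h3⟩ := he
    simp only [Finset.mem_union]
    by_cases h4 : e.1 = e.2
    · left
      rw [hD0, Finset.mem_filter, Finset.mem_product]
      exact ⟨⟨h1, h2⟩, h4⟩
    · right
      by_cases h5 : Tadj T s e.1 e.2
      · obtain ⟨x, hx, h6 | h6⟩ := h5
        · left
          rw [hT1, Finset.mem_filter, Finset.mem_product]
          exact ⟨⟨h1, h2⟩, x, hx, h6⟩
        · right; left
          rw [hT2, Finset.mem_filter, Finset.mem_product]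
          exact ⟨⟨h1, h2⟩, x, hx, h6⟩
      · right; right
        rcases hHB e.1 e.2 (hval _ h1) (hval _ h2) h4 h3 h5 with h6 | h6
        · left; rw [Finset.mem_filter]; exact ⟨he', h6⟩
        · right; rw [Finset.mem_filter]; exact ⟨he', h6⟩
  have hc := (Finset.card_le_card hcover).trans (Finset.card_union_le _ _)
  have hc2 := Finset.card_union_le T1 (T2 ∪ (PP.filter (fun e => e.1 ∈ HB) ∪
      PP.filter (fun e => e.2 ∈ HB)))
  have hc3 := Finset.card_union_le T2 (PP.filter (fun e => e.1 ∈ HB) ∪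
      PP.filter (fun e => e.2 ∈ HB))
  have hc4 := Finset.card_union_le (PP.filter (fun e => e.1 ∈ HB)) (PP.filter (fun e => e.2 ∈ HB))
  rw [hsum, hsum1]
  omega

theorem d1_step (hd : NMet d) (T : MTree d) (s t L : ℕ) (HB I : Finset (Fin n))
    (hHB : ∀ a b : Fin n, validU d s L a → validU d s L b → a ≠ b → adjU d s t a b →
      ¬ Tadj T s a b → a ∈ HB ∨ b ∈ HB) :
    ∑ a, d1F d s t L HB (gstep d s t L I a) ≤ n * d1F d s t L HB I
      + 3 * ((univ.filter (fun a => validU d s L a)).card : ℝ) := by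
  have h1 : ∀ a, d1F d s t L HB (gstep d s t L I a) = d1F d s t L HB I
      + (if a ∈ aliveU d s t L I then
          (((d1N d s t L I a).card : ℝ) - 2 * ((d1N d s t L I a ∩ HB).card : ℝ)) else 0) := by
    intro a
    by_cases h : a ∈ aliveU d s t L I
    · rw [d1F_alive h, if_pos h]; ring
    · rw [d1F_not h, if_neg h, add_zero]
  rw [Finset.sum_congr rfl fun a _ => h1 a, Finset.sum_add_distrib, Finset.sum_const,
    Finset.card_univ, Fintype.card_fin, nsmul_eq_mul]
  have h2 : ∑ a, (if a ∈ aliveU d s t L I then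
          (((d1N d s t L I a).card : ℝ) - 2 * ((d1N d s t L I a ∩ HB).card : ℝ)) else 0)
      = ∑ a ∈ aliveU d s t L I,
          (((d1N d s t L I a).card : ℝ) - 2 * ((d1N d s t L I a ∩ HB).card : ℝ)) := by
    rw [Finset.sum_ite_mem, Finset.univ_inter]
  rw [h2, Finset.sum_sub_distrib, ← Finset.mul_sum]
  have h3 := d1_pairs hd T s t L HB I hHB
  have h4 : (aliveU d s t L I).card ≤ (univ.filter (fun a => validU d s L a)).card := by
    apply Finset.card_le_card
    intro a ha
    rw [Finset.mem_filter]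
    exact ⟨Finset.mem_univ _, ((d1_alive_iff s t L I a).1 ha).1⟩
  have h3' : (∑ a ∈ aliveU d s t L I, ((d1N d s t L I a).card : ℝ)) ≤
      3 * ((aliveU d s t L I).card : ℝ)
        + 2 * ∑ a ∈ aliveU d s t L I, ((d1N d s t L I a ∩ HB).card : ℝ) := by
    exact_mod_cast h3
  have h4' : ((aliveU d s t L I).card : ℝ) ≤ ((univ.filter (fun a => validU d s L a)).card : ℝ) := by
    exact_mod_cast h4
  linarith

theorem d1_all (hd : NMet d) (T : MTree d) (s t L : ℕ) (HB : Finset (Fin n))
    (hHB : ∀ a b : Fin n, validU d s L a → validU d s L b → a ≠ b → adjU d s t a b →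
      ¬ Tadj T s a b → a ∈ HB ∨ b ∈ HB) (M : ℕ) : ∀ I : Finset (Fin n),
    (∑ ω : Fin M → Fin n, d1F d s t L HB ((List.ofFn ω).foldl (gstep d s t L) I)) * n ≤
      (n : ℝ) ^ M * (n * d1F d s t L HB I
        + 3 * M * ((univ.filter (fun a => validU d s L a)).card : ℝ)) := by
  induction M with
  | zero =>
    intro I
    simp [mul_comm]
  | succ M ih =>
    intro I
    have e1 : ∑ ω : Fin (M + 1) → Fin n, d1F d s t L HB ((List.ofFn ω).foldl (gstep d s t L) I)
        = ∑ a : Fin n, ∑ ω : Fin M → Fin n,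
          d1F d s t L HB ((List.ofFn ω).foldl (gstep d s t L) (gstep d s t L I a)) := by
      rw [← (Fin.consEquiv (fun _ => Fin n)).sum_comp, Fintype.sum_prod_type]
      refine Finset.sum_congr rfl fun a _ => Finset.sum_congr rfl fun ω _ => ?_
      rw [List.ofFn_succ, List.foldl_cons]
      rfl
    rw [e1, Finset.sum_mul]
    calc ∑ a : Fin n, (∑ ω : Fin M → Fin n,
          d1F d s t L HB ((List.ofFn ω).foldl (gstep d s t L) (gstep d s t L I a))) * n
        ≤ ∑ a : Fin n, (n : ℝ) ^ M * (n * d1F d s t L HB (gstep d s t L I a)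
        + 3 * M * ((univ.filter (fun a => validU d s L a)).card : ℝ)) :=
          Finset.sum_le_sum fun a _ => ih (gstep d s t L I a)
      _ = (n : ℝ) ^ M * (n * ∑ a : Fin n, d1F d s t L HB (gstep d s t L I a)
        + n * (3 * M * ((univ.filter (fun a => validU d s L a)).card : ℝ))) := by
          rw [← Finset.mul_sum, Finset.sum_add_distrib, ← Finset.mul_sum, Finset.sum_const,
            Finset.card_univ, Fintype.card_fin, nsmul_eq_mul]
      _ ≤ (n : ℝ) ^ M * (n * (n * d1F d s t L HB I
          + 3 * ((univ.filter (fun a => validU d s L a)).card : ℝ))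
        + n * (3 * M * ((univ.filter (fun a => validU d s L a)).card : ℝ))) := by
          apply mul_le_mul_of_nonneg_left _ (by positivity)
          have := mul_le_mul_of_nonneg_left (d1_step hd T s t L HB I hHB)
            (Nat.cast_nonneg n : (0 : ℝ) ≤ n)
          linarith
      _ = _ := by push_cast; ring

end

theorem greedy_kill {n : ℕ} {d : Fin n → Fin n → ℕ} (hd : NMet d) (T : MTree d) (s t L M : ℕ)
    (HB : Finset (Fin n))
    (hHB : ∀ a b : Fin n, validU d s L a → validU d s L b → a ≠ b → adjU d s t a b →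
      ¬ Tadj T s a b → a ∈ HB ∨ b ∈ HB) :
    (∑ ω : Fin M → Fin n, ((deadU d s t L (greedy d s t L (List.ofFn ω))).card : ℝ)) * n ≤
      (n : ℝ) ^ M * (2 * HB.card * n + 3 * M * (univ.filter (fun a => validU d s L a)).card) := by
  have h := d1_all hd T s t L HB hHB M ∅
  have h0 : d1F d s t L HB ∅ = 0 := by
    have : deadU d s t L (∅ : Finset (Fin n)) = ∅ := by
      ext b
      simp [deadU, Hv]
    unfold d1F
    rw [this]
    simp
  rw [h0] at h
  have h1 : ∑ ω : Fin M → Fin n, ((deadU d s t L (greedy d s t L (List.ofFn ω))).card : ℝ)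
      ≤ ∑ ω : Fin M → Fin n, d1F d s t L HB ((List.ofFn ω).foldl (gstep d s t L) ∅)
        + (n : ℝ) ^ M * (2 * HB.card) := by
    have hcard : ((n : ℝ) ^ M) = ∑ _ω : Fin M → Fin n, (1 : ℝ) := by
      rw [Finset.sum_const, Finset.card_univ, Fintype.card_fun, Fintype.card_fin, Fintype.card_fin,
        nsmul_eq_mul, mul_one]
      push_cast
      rfl
    rw [hcard, Finset.sum_mul, ← Finset.sum_add_distrib]
    refine Finset.sum_le_sum fun ω _ => ?_
    have h2 : ((deadU d s t L (greedy d s t L (List.ofFn ω)) ∩ HB).card : ℝ) ≤ HB.card := by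
      exact_mod_cast Finset.card_le_card Finset.inter_subset_right
    unfold d1F
    have h3 : (List.ofFn ω).foldl (gstep d s t L) ∅ = greedy d s t L (List.ofFn ω) := rfl
    rw [h3]
    linarith
  have hn : (0 : ℝ) ≤ n := Nat.cast_nonneg n
  have h2 := mul_le_mul_of_nonneg_right h1 hn
  calc _ ≤ _ := h2
    _ ≤ (n : ℝ) ^ M * (n * 0 + 3 * M * ((univ.filter (fun a => validU d s L a)).card : ℝ))
        + (n : ℝ) ^ M * (2 * HB.card) * n := by linarith
    _ = _ := by ring

end H82.TQ
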