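import Pool.Agent.H82.TQ.A2

/-!
# TQ D2: few candidate neighbours after the greedy process

Fix `v`. `Q_I v` = number of alive components (state `I`) with a vertex within `t` of `v`. If `v ∉ Hv I_i` and one of
these components is picked then `v ∈ Hv I_{i+1}`; so `P(v ∉ Hv I_i) - P(v ∉ Hv I_{i+1}) ≥ (1/n) E[1(v ∉ Hv I_i) Q_{I_i} v]`
and the right hand side is non-increasing in `i`. Sum over `i < M`. This is `greedy_hit`.
`greedy_cand`: if `u` lies in an alive component `X` (given by its least vertex `a`) and `v ∉ Hv`, `d u v ≤ t` then `a`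
is counted in `Q v`; every `a` has at most `L` such `u`. Sum over `v`.
-/

set_option autoImplicit false

open Finset Classical

namespace H82.TQ

section Aux

variable {n : ℕ} {d : Fin n → Fin n → ℕ} {s t L : ℕ}

private lemma subset_gstep (I : Finset (Fin n)) (a : Fin n) : I ⊆ gstep d s t L I a := by
  unfold gstep
  split_ifs
  · exact subset_union_left
  · exact subset_rfl

private lemma subset_foldl (l : List (Fin n)) :
    ∀ I : Finset (Fin n), I ⊆ l.foldl (gstep d s t L) I := by
  induction l with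
  | nil => intro I; exact subset_rfl
  | cons a l ih => intro I; exact (subset_gstep I a).trans (ih _)

private lemma Hv_mono {I J : Finset (Fin n)} (h : I ⊆ J) : Hv d t I ⊆ Hv d t J := by
  intro v hv
  obtain ⟨y, hy, hvy⟩ := (mem_filter.1 hv).2
  exact mem_filter.2 ⟨mem_univ _, y, h hy, hvy⟩

private noncomputable def qs (d : Fin n → Fin n → ℕ) (s t L : ℕ) (v : Fin n)
    (I : Finset (Fin n)) : Finset (Fin n) :=
  (aliveU d s t L I).filter (fun a => ∃ x ∈ cmp d s a, d v x ≤ t)

private lemma qs_anti {v : Fin n} {I J : Finset (Fin n)} (h : I ⊆ J) :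
    qs d s t L v J ⊆ qs d s t L v I := by
  intro a ha
  obtain ⟨h1, h2⟩ := mem_filter.1 ha
  obtain ⟨-, h3, h4⟩ := mem_filter.1 h1
  exact mem_filter.2 ⟨mem_filter.2 ⟨mem_univ _, h3, fun x hx hxI => h4 x hx (Hv_mono h hxI)⟩, h2⟩

private lemma hit {v : Fin n} {I : Finset (Fin n)} {a : Fin n} (ha : a ∈ qs d s t L v I) :
    v ∈ Hv d t (gstep d s t L I a) := by
  obtain ⟨h1, x, hx, hvx⟩ := mem_filter.1 ha
  obtain ⟨-, h3, h4⟩ := mem_filter.1 h1
  have hc : validU d s L a ∧ ∀ x ∈ cmp d s a, ∀ y ∈ I, t < d x y := by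
    refine ⟨h3, fun x hx y hy => ?_⟩
    by_contra hcon
    exact h4 x hx (mem_filter.2 ⟨mem_univ _, y, hy, not_lt.1 hcon⟩)
  unfold gstep
  rw [if_pos hc]
  exact mem_filter.2 ⟨mem_univ _, x, mem_union_right _ hx, hvx⟩

private noncomputable def gv (d : Fin n → Fin n → ℕ) (s t L : ℕ) (v : Fin n)
    (I : Finset (Fin n)) : ℝ := if v ∈ Hv d t I then 0 else ((qs d s t L v I).card : ℝ)

private noncomputable def iv (d : Fin n → Fin n → ℕ) (t : ℕ) (v : Fin n)
    (I : Finset (Fin n)) : ℝ := if v ∈ Hv d t I then 0 else 1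

private lemma gv_anti {v : Fin n} {I J : Finset (Fin n)} (h : I ⊆ J) :
    gv d s t L v J ≤ gv d s t L v I := by
  unfold gv
  by_cases hI : v ∈ Hv d t I
  · rw [if_pos hI, if_pos (Hv_mono h hI)]
  · rw [if_neg hI]
    split_ifs
    · exact Nat.cast_nonneg _
    · exact_mod_cast card_le_card (qs_anti h)

private lemma step_le {v : Fin n} (I : Finset (Fin n)) :
    ∑ a : Fin n, iv d t v (gstep d s t L I a) ≤ n * iv d t v I - gv d s t L v I := by
  by_cases hI : v ∈ Hv d t I
  · have h1 : ∀ a : Fin n, iv d t v (gstep d s t L I a) = 0 := by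
      intro a
      unfold iv
      rw [if_pos (Hv_mono (subset_gstep I a) hI)]
    simp only [h1, sum_const_zero]
    unfold iv gv
    rw [if_pos hI, if_pos hI]
    simp
  · have h1 : ∀ a : Fin n, iv d t v (gstep d s t L I a) ≤
        1 - (if a ∈ qs d s t L v I then (1 : ℝ) else 0) := by
      intro a
      unfold iv
      by_cases ha : a ∈ qs d s t L v I
      · rw [if_pos (hit ha), if_pos ha]
        norm_num
      · rw [if_neg ha]
        split_ifs <;> norm_num
    calc ∑ a : Fin n, iv d t v (gstep d s t L I a)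
        ≤ ∑ a : Fin n, (1 - (if a ∈ qs d s t L v I then (1 : ℝ) else 0)) :=
          sum_le_sum fun a _ => h1 a
      _ = n * iv d t v I - gv d s t L v I := by
          rw [sum_sub_distrib, sum_boole]
          unfold iv gv
          rw [if_neg hI, if_neg hI]
          simp

private lemma sum_cons {M : ℕ} (F : (Fin (M + 1) → Fin n) → ℝ) :
    ∑ ω, F ω = ∑ a : Fin n, ∑ ω' : Fin M → Fin n, F (Fin.cons a ω') := by
  rw [← (Fin.consEquiv (fun _ => Fin n)).sum_comp, Fintype.sum_prod_type]
  rfl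

private lemma ofFn_cons {M : ℕ} (a : Fin n) (ω : Fin M → Fin n) :
    List.ofFn (Fin.cons a ω : Fin (M + 1) → Fin n) = a :: List.ofFn ω := by
  rw [List.ofFn_succ]
  simp

private lemma main_claim (v : Fin n) (M : ℕ) : ∀ I : Finset (Fin n),
    (∑ ω : Fin M → Fin n, gv d s t L v ((List.ofFn ω).foldl (gstep d s t L) I)) * M +
      n * ∑ ω : Fin M → Fin n, iv d t v ((List.ofFn ω).foldl (gstep d s t L) I) ≤
      (n : ℝ) ^ (M + 1) * iv d t v I := by
  induction M with
  | zero =>
    intro I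
    simp
  | succ M ih =>
    intro I
    have hmono : ∑ ω : Fin (M + 1) → Fin n,
        gv d s t L v ((List.ofFn ω).foldl (gstep d s t L) I) ≤
          (n : ℝ) ^ (M + 1) * gv d s t L v I := by
      calc _ ≤ ∑ _ω : Fin (M + 1) → Fin n, gv d s t L v I :=
            sum_le_sum fun ω _ => gv_anti (subset_foldl _ I)
        _ = _ := by simp
    have e1 : ∑ ω : Fin (M + 1) → Fin n, gv d s t L v ((List.ofFn ω).foldl (gstep d s t L) I) =
        ∑ a : Fin n, ∑ ω : Fin M → Fin n,
          gv d s t L v ((List.ofFn ω).foldl (gstep d s t L) (gstep d s t L I a)) := by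
      rw [sum_cons]
      simp only [ofFn_cons, List.foldl_cons]
    have e2 : ∑ ω : Fin (M + 1) → Fin n, iv d t v ((List.ofFn ω).foldl (gstep d s t L) I) =
        ∑ a : Fin n, ∑ ω : Fin M → Fin n,
          iv d t v ((List.ofFn ω).foldl (gstep d s t L) (gstep d s t L I a)) := by
      rw [sum_cons]
      simp only [ofFn_cons, List.foldl_cons]
    have h1 : (∑ ω : Fin (M + 1) → Fin n,
        gv d s t L v ((List.ofFn ω).foldl (gstep d s t L) I)) * M +
        n * ∑ ω : Fin (M + 1) → Fin n, iv d t v ((List.ofFn ω).foldl (gstep d s t L) I) ≤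
        (n : ℝ) ^ (M + 1) * (n * iv d t v I - gv d s t L v I) := by
      rw [e1, e2, sum_mul, mul_sum, ← sum_add_distrib]
      calc _ ≤ ∑ a : Fin n, (n : ℝ) ^ (M + 1) * iv d t v (gstep d s t L I a) :=
            sum_le_sum fun a _ => ih _
        _ = (n : ℝ) ^ (M + 1) * ∑ a : Fin n, iv d t v (gstep d s t L I a) := by
            rw [mul_sum]
        _ ≤ _ := mul_le_mul_of_nonneg_left (step_le I) (by positivity)
    have e3 : (n : ℝ) ^ (M + 1 + 1) * iv d t v I =
        (n : ℝ) ^ (M + 1) * (n * iv d t v I - gv d s t L v I) +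
          (n : ℝ) ^ (M + 1) * gv d s t L v I := by
      ring
    rw [e3]
    push_cast
    rw [mul_add, mul_one]
    linarith

end Aux

theorem greedy_hit {n : ℕ} {d : Fin n → Fin n → ℕ} (hd : NMet d) (s t L M : ℕ) (v : Fin n) :
    (∑ ω : Fin M → Fin n, if v ∈ Hv d t (greedy d s t L (List.ofFn ω)) then (0 : ℝ) else
        ((aliveU d s t L (greedy d s t L (List.ofFn ω))).filter
          (fun a => ∃ x ∈ cmp d s a, d v x ≤ t)).card) * M ≤ (n : ℝ) ^ M * n := by
  have h1 := main_claim (d := d) (s := s) (t := t) (L := L) v M ∅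
  have h2 : 0 ≤ (n : ℝ) * ∑ ω : Fin M → Fin n,
      iv d t v ((List.ofFn ω).foldl (gstep d s t L) ∅) := by
    apply mul_nonneg (Nat.cast_nonneg _)
    apply sum_nonneg
    intro ω _
    unfold iv
    split_ifs <;> norm_num
  have h3 : iv d t v ∅ ≤ 1 := by
    unfold iv
    split_ifs <;> norm_num
  have h4 : (n : ℝ) ^ (M + 1) * iv d t v ∅ ≤ (n : ℝ) ^ M * n := by
    calc (n : ℝ) ^ (M + 1) * iv d t v ∅ ≤ (n : ℝ) ^ (M + 1) * 1 :=
          mul_le_mul_of_nonneg_left h3 (by positivity)
      _ = _ := by ring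
  have h5 : (∑ ω : Fin M → Fin n, if v ∈ Hv d t (greedy d s t L (List.ofFn ω)) then (0 : ℝ) else
        ((aliveU d s t L (greedy d s t L (List.ofFn ω))).filter
          (fun a => ∃ x ∈ cmp d s a, d v x ≤ t)).card) =
      ∑ ω : Fin M → Fin n, gv d s t L v ((List.ofFn ω).foldl (gstep d s t L) ∅) := rfl
  rw [h5]
  linarith

private lemma cand_le {n : ℕ} {d : Fin n → Fin n → ℕ} (hd : NMet d) (s t L : ℕ)
    (I : Finset (Fin n)) (v : Fin n) :
    ((univ.filter (fun u => (cmp d s u).card ≤ L ∧ (∀ x ∈ cmp d s u, x ∉ Hv d t I) ∧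
      d u v ≤ t)).card : ℝ) ≤ L * (qs d s t L v I).card := by
  have hself : ∀ u : Fin n, u ∈ cmp d s u := fun u =>
    mem_filter.2 ⟨mem_univ _, Relation.ReflTransGen.refl⟩
  have hcmp : ∀ u a : Fin n, a ∈ cmp d s u → cmp d s a = cmp d s u := by
    intro u a ha
    have hua : Rch d s u a := (mem_filter.1 ha).2
    ext x
    constructor
    · intro hx
      exact mem_filter.2 ⟨mem_univ _, hua.trans (mem_filter.1 hx).2⟩
    · intro hx
      exact mem_filter.2 ⟨mem_univ _, (rch_symm hd hua).trans (mem_filter.1 hx).2⟩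
  have hsub : univ.filter (fun u => (cmp d s u).card ≤ L ∧ (∀ x ∈ cmp d s u, x ∉ Hv d t I) ∧
      d u v ≤ t) ⊆ (qs d s t L v I).biUnion fun a => (cmp d s a) := by
    intro u hu
    obtain ⟨-, h1, h2, h3⟩ := mem_filter.1 hu
    obtain ⟨a, ha, hmin⟩ := exists_min_image (cmp d s u) id ⟨u, hself u⟩
    have hau := hcmp u a ha
    rw [mem_biUnion]
    refine ⟨a, mem_filter.2 ⟨mem_filter.2 ⟨mem_univ _, ⟨?_, ?_⟩, ?_⟩, u, ?_, ?_⟩, ?_⟩
    · rw [hau]; exact h1
    · rw [hau]; exact hmin
    · rw [hau]; exact h2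
    · rw [hau]; exact hself u
    · rw [hd.symm]; exact h3
    · rw [hau]; exact hself u
  have h1 : (univ.filter (fun u => (cmp d s u).card ≤ L ∧ (∀ x ∈ cmp d s u, x ∉ Hv d t I) ∧
      d u v ≤ t)).card ≤ (qs d s t L v I).card * L := by
    refine (card_le_card hsub).trans (card_biUnion_le_card_mul _ _ _ fun a ha => ?_)
    exact (mem_filter.1 (mem_filter.1 ha).1).2.1.1
  calc ((univ.filter (fun u => (cmp d s u).card ≤ L ∧ (∀ x ∈ cmp d s u, x ∉ Hv d t I) ∧
      d u v ≤ t)).card : ℝ) ≤ (((qs d s t L v I).card * L : ℕ) : ℝ) := by exact_mod_cast h1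
    _ = _ := by push_cast; ring

theorem greedy_cand {n : ℕ} {d : Fin n → Fin n → ℕ} (hd : NMet d) (s t L M : ℕ) :
    (∑ ω : Fin M → Fin n,
      ∑ u ∈ univ.filter (fun u => (cmp d s u).card ≤ L ∧
          ∀ x ∈ cmp d s u, x ∉ Hv d t (greedy d s t L (List.ofFn ω))),
        ((univ.filter (fun v => v ∉ Hv d t (greedy d s t L (List.ofFn ω)) ∧ d u v ≤ t)).card : ℝ)) * M ≤
      (n : ℝ) ^ M * n * n * L := by
  have key : ∀ I : Finset (Fin n),
      ∑ u ∈ univ.filter (fun u => (cmp d s u).card ≤ L ∧ ∀ x ∈ cmp d s u, x ∉ Hv d t I),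
        ((univ.filter (fun v => v ∉ Hv d t I ∧ d u v ≤ t)).card : ℝ) ≤
      L * ∑ v : Fin n, gv d s t L v I := by
    intro I
    have e1 : ∀ u : Fin n, ((univ.filter (fun v => v ∉ Hv d t I ∧ d u v ≤ t)).card : ℝ) =
        ∑ v : Fin n, if v ∉ Hv d t I ∧ d u v ≤ t then (1 : ℝ) else 0 := by
      intro u
      rw [sum_boole]
    simp only [e1]
    rw [sum_comm, mul_sum]
    apply sum_le_sum
    intro v _
    by_cases hv : v ∈ Hv d t I
    · unfold gv
      rw [if_pos hv, mul_zero]
      apply le_of_eq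
      apply sum_eq_zero
      intro u _
      rw [if_neg (fun h => h.1 hv)]
    · unfold gv
      rw [if_neg hv]
      refine le_trans (le_of_eq ?_) (cand_le hd s t L I v)
      rw [sum_boole, filter_filter]
      congr 2
      apply filter_congr
      intro u _
      constructor
      · rintro ⟨⟨h1, h2⟩, -, h3⟩
        exact ⟨h1, h2, h3⟩
      · rintro ⟨h1, h2, h3⟩
        exact ⟨⟨h1, h2⟩, hv, h3⟩
  have h1 : ∀ v : Fin n,
      (∑ ω : Fin M → Fin n, gv d s t L v (greedy d s t L (List.ofFn ω))) * M ≤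
        (n : ℝ) ^ M * n := fun v => greedy_hit hd s t L M v
  calc _ ≤ (∑ ω : Fin M → Fin n, L * ∑ v : Fin n,
        gv d s t L v (greedy d s t L (List.ofFn ω))) * (M : ℝ) := by
        apply mul_le_mul_of_nonneg_right _ (Nat.cast_nonneg _)
        exact sum_le_sum fun ω _ => key _
    _ = L * ∑ v : Fin n,
        ((∑ ω : Fin M → Fin n, gv d s t L v (greedy d s t L (List.ofFn ω))) * M) := by
        rw [← mul_sum, sum_comm, ← sum_mul]
        ring
    _ ≤ L * ∑ _v : Fin n, ((n : ℝ) ^ M * n) :=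
        mul_le_mul_of_nonneg_left (sum_le_sum fun v _ => h1 v) (Nat.cast_nonneg _)
    _ = (n : ℝ) ^ M * n * n * L := by
        rw [sum_const, card_univ, Fintype.card_fin, nsmul_eq_mul]
        ring

/-- at most `M` components are taken -/
theorem greedy_card_le {n : ℕ} {d : Fin n → Fin n → ℕ} (s t L : ℕ) (l : List (Fin n)) :
    (greedy d s t L l).card ≤ l.length * L := by
  have key : ∀ (l : List (Fin n)) (I : Finset (Fin n)),
      (l.foldl (gstep d s t L) I).card ≤ I.card + l.length * L := by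
    intro l
    induction l with
    | nil => intro I; simp
    | cons a l ih =>
      intro I
      rw [List.foldl_cons, List.length_cons]
      have h1 : (gstep d s t L I a).card ≤ I.card + L := by
        unfold gstep
        split_ifs with h
        · exact (card_union_le _ _).trans (Nat.add_le_add_left h.1.1 _)
        · omega
      have h2 := ih (gstep d s t L I a)
      rw [Nat.add_mul, Nat.one_mul]
      omega
  have := key l ∅
  simpa [greedy] using this

end H82.TQ
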