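import Pool.Agent.H82.TQ.A2

/-!
# TQ D3: elementary probabilities for i.i.d. uniform picks, and averages

`near`: let `A` be a set of `D` vertices nearest to `u` (ties broken arbitrarily). If more than `D` vertices `v` satisfy
`∀ i, d u v < d u (ω i)`, then these vertices include `A` (they are a down-set for the distance from `u`), and no
pick is in `A`.
`miss_le`: `(1 - A/n)^M ≤ exp (-M A / n)`.
-/

set_option autoImplicit false

open Finset Classical

namespace H82.TQ

theorem miss {n M : ℕ} (A : Finset (Fin n)) :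
    (univ.filter (fun ω : Fin M → Fin n => ∀ i, ω i ∉ A)).card = (n - A.card) ^ M := by
  have h : (univ.filter (fun ω : Fin M → Fin n => ∀ i, ω i ∉ A)) =
      Fintype.piFinset (fun _ : Fin M => Aᶜ) := by
    ext ω
    simp
  rw [h, Fintype.card_piFinset, Finset.prod_const, Finset.card_univ, Fintype.card_fin,
    Finset.card_compl, Fintype.card_fin]

theorem miss_le {n M : ℕ} (A : Finset (Fin n)) :
    ((univ.filter (fun ω : Fin M → Fin n => ∀ i, ω i ∉ A)).card : ℝ) ≤
      (n : ℝ) ^ M * Real.exp (-(M * A.card / n)) := by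
  have hA : A.card ≤ n := by
    have := Finset.card_le_univ A
    rwa [Fintype.card_fin] at this
  rw [miss, Nat.cast_pow, Nat.cast_sub hA]
  rcases Nat.eq_zero_or_pos n with hn | hn
  · subst hn
    have hA0 : A.card = 0 := by omega
    rw [hA0]
    simp
  · have hn' : (0 : ℝ) < n := by exact_mod_cast hn
    have h1 : (n : ℝ) - A.card ≤ n * Real.exp (-(A.card / n)) := by
      have h2 := Real.add_one_le_exp (-((A.card : ℝ) / n))
      have h3 : (n : ℝ) * (-((A.card : ℝ) / n) + 1) = n - A.card := by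
        field_simp
        ring
      rw [← h3]
      exact mul_le_mul_of_nonneg_left h2 hn'.le
    have h0 : (0 : ℝ) ≤ (n : ℝ) - A.card := by
      rw [sub_nonneg]; exact_mod_cast hA
    calc ((n : ℝ) - A.card) ^ M ≤ (n * Real.exp (-(A.card / n))) ^ M :=
          pow_le_pow_left₀ h0 h1 M
      _ = (n : ℝ) ^ M * Real.exp (-(M * A.card / n)) := by
          rw [mul_pow, ← Real.exp_nat_mul]
          congr 2
          ring

private theorem D3_coord {n M : ℕ} (A : Finset (Fin n)) (i : Fin M) :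
    (univ.filter (fun ω : Fin M → Fin n => ω i ∈ A)).card * n = A.card * n ^ M := by
  have h : (univ.filter (fun ω : Fin M → Fin n => ω i ∈ A)) =
      Fintype.piFinset (fun j : Fin M => if j = i then A else univ) := by
    ext ω
    rw [Finset.mem_filter, Fintype.mem_piFinset]
    constructor
    · rintro ⟨-, h⟩ j
      by_cases hj : j = i
      · rw [if_pos hj, hj]; exact h
      · rw [if_neg hj]; exact Finset.mem_univ _
    · intro h
      have := h i
      rw [if_pos rfl] at this
      exact ⟨Finset.mem_univ _, this⟩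
  have hM : M = (M - 1) + 1 := by
    have := i.pos
    omega
  have h2 : ∏ j ∈ univ.erase i, (if j = i then A else (univ : Finset (Fin n))).card =
      n ^ (M - 1) := by
    have h3 : ∀ j ∈ univ.erase i, (if j = i then A else (univ : Finset (Fin n))).card = n := by
      intro j hj
      rw [if_neg (Finset.ne_of_mem_erase hj), Finset.card_univ, Fintype.card_fin]
    rw [Finset.prod_congr rfl h3, Finset.prod_const, Finset.card_erase_of_mem (Finset.mem_univ i),
      Finset.card_univ, Fintype.card_fin]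
  rw [h, Fintype.card_piFinset, ← Finset.mul_prod_erase univ _ (Finset.mem_univ i), h2,
    if_pos rfl]
  conv_rhs => rw [hM]
  rw [pow_succ, Nat.mul_assoc]

theorem hit {n M : ℕ} (A : Finset (Fin n)) :
    (univ.filter (fun ω : Fin M → Fin n => ∃ i, ω i ∈ A)).card * n ≤ M * A.card * n ^ M := by
  have h1 : (univ.filter (fun ω : Fin M → Fin n => ∃ i, ω i ∈ A)) ⊆
      univ.biUnion (fun i : Fin M => univ.filter (fun ω : Fin M → Fin n => ω i ∈ A)) := by
    intro ω hω
    obtain ⟨i, hi⟩ := (Finset.mem_filter.1 hω).2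
    exact Finset.mem_biUnion.2 ⟨i, Finset.mem_univ _, Finset.mem_filter.2 ⟨Finset.mem_univ _, hi⟩⟩
  calc (univ.filter (fun ω : Fin M → Fin n => ∃ i, ω i ∈ A)).card * n
      ≤ (∑ i : Fin M, (univ.filter (fun ω : Fin M → Fin n => ω i ∈ A)).card) * n :=
        Nat.mul_le_mul_right n ((Finset.card_le_card h1).trans Finset.card_biUnion_le)
    _ = ∑ i : Fin M, A.card * n ^ M := by
        rw [Finset.sum_mul]
        exact Finset.sum_congr rfl fun i _ => D3_coord A i
    _ = M * A.card * n ^ M := by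
        rw [Finset.sum_const, Finset.card_univ, Fintype.card_fin, smul_eq_mul, Nat.mul_assoc]

private theorem D3_nearest {n : ℕ} (f : Fin n → ℕ) :
    ∀ D, D ≤ n → ∃ A : Finset (Fin n), A.card = D ∧ ∀ a ∈ A, ∀ b, b ∉ A → f a ≤ f b := by
  intro D
  induction D with
  | zero => intro _; exact ⟨∅, rfl, fun a ha => absurd ha (Finset.notMem_empty a)⟩
  | succ D ih =>
    intro hD
    obtain ⟨A, hA, hAf⟩ := ih (by omega)
    have hne : (Aᶜ).Nonempty := by
      rw [← Finset.card_pos, Finset.card_compl, Fintype.card_fin]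
      omega
    obtain ⟨c, hc, hmin⟩ := Finset.exists_min_image Aᶜ f hne
    rw [Finset.mem_compl] at hc
    refine ⟨insert c A, ?_, ?_⟩
    · rw [Finset.card_insert_of_notMem hc, hA]
    · intro a ha b hb
      rw [Finset.mem_insert, not_or] at hb
      rcases Finset.mem_insert.1 ha with rfl | ha
      · exact hmin b (Finset.mem_compl.2 hb.2)
      · exact hAf a ha b hb.2

theorem near {n M D : ℕ} (d : Fin n → Fin n → ℕ) (u : Fin n) :
    ((univ.filter (fun ω : Fin M → Fin n =>
        D < (univ.filter (fun v => ∀ i, d u v < d u (ω i))).card)).card : ℝ) ≤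
      (n : ℝ) ^ M * Real.exp (-(M * D / n)) := by
  rcases Nat.lt_or_ge n D with hD | hD
  · have h1 : (univ.filter (fun ω : Fin M → Fin n =>
        D < (univ.filter (fun v => ∀ i, d u v < d u (ω i))).card)) = ∅ := by
      refine Finset.filter_eq_empty_iff.2 (fun ω _ => ?_)
      have h2 : (univ.filter (fun v => ∀ i, d u v < d u (ω i))).card ≤ n := by
        have := Finset.card_le_univ (univ.filter (fun v => ∀ i, d u v < d u (ω i)))
        rwa [Fintype.card_fin] at this
      omega
    rw [h1, Finset.card_empty, Nat.cast_zero]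
    positivity
  · obtain ⟨A, hA, hAf⟩ := D3_nearest (d u) D hD
    have h1 := miss_le (M := M) A
    rw [hA] at h1
    refine le_trans ?_ h1
    refine Nat.cast_le.2 (Finset.card_le_card ?_)
    intro ω hω
    rw [Finset.mem_filter] at hω ⊢
    refine ⟨Finset.mem_univ _, fun i hi => ?_⟩
    have h2 : (univ.filter (fun v => ∀ i, d u v < d u (ω i))) ⊆ A := by
      intro v hv
      by_contra hvA
      have h3 := (Finset.mem_filter.1 hv).2 i
      have h4 := hAf _ hi v hvA
      omega
    have h3 := Finset.card_le_card h2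
    rw [hA] at h3
    have h4 := hω.2
    omega

/-- Markov's inequality -/
theorem markov {Ω : Type} [Fintype Ω] (g : Ω → ℝ) (hg : ∀ ω, 0 ≤ g ω) (E t : ℝ) (ht : 0 < t)
    (h : ∑ ω, g ω ≤ E * Fintype.card Ω) :
    ((univ.filter (fun ω => t < g ω)).card : ℝ) ≤ E / t * Fintype.card Ω := by
  have h1 : ((univ.filter (fun ω => t < g ω)).card : ℝ) * t ≤ ∑ ω, g ω := by
    calc ((univ.filter (fun ω => t < g ω)).card : ℝ) * t
        = ∑ ω ∈ univ.filter (fun ω => t < g ω), t := by
          rw [Finset.sum_const, nsmul_eq_mul]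
      _ ≤ ∑ ω ∈ univ.filter (fun ω => t < g ω), g ω :=
          Finset.sum_le_sum fun ω hω => (Finset.mem_filter.1 hω).2.le
      _ ≤ ∑ ω, g ω :=
          Finset.sum_le_sum_of_subset_of_nonneg (Finset.subset_univ _) fun ω _ _ => hg ω
  rw [div_mul_eq_mul_div, le_div_iff₀ ht]
  exact h1.trans h

private theorem D3_var {n : ℕ} (ψ : Fin n → ℝ) (h0 : ∑ u, ψ u = 0) (m : ℕ) :
    ∑ ω : Fin m → Fin n, (∑ i, ψ (ω i)) = 0 ∧
    (∑ ω : Fin m → Fin n, (∑ i, ψ (ω i)) ^ 2) * n = m * n ^ m * ∑ u, ψ u ^ 2 := by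
  induction m with
  | zero => simp
  | succ m ih =>
    have hsum : ∀ F : (Fin (m + 1) → Fin n) → ℝ, ∑ ω : Fin (m + 1) → Fin n, F ω =
        ∑ u : Fin n, ∑ ω : Fin m → Fin n, F (Fin.cons u ω) := by
      intro F
      rw [← Fintype.sum_prod_type']
      exact (Fintype.sum_equiv (Fin.consEquiv (fun _ : Fin (m + 1) => Fin n))
        (fun p => F (Fin.cons p.1 p.2)) F (fun p => rfl)).symm
    have hc : ∀ (u : Fin n) (ω : Fin m → Fin n),
        ∑ i, ψ ((Fin.cons u ω : Fin (m + 1) → Fin n) i) = ψ u + ∑ i, ψ (ω i) := by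
      intro u ω
      rw [Fin.sum_univ_succ, Fin.cons_zero]
      simp only [Fin.cons_succ]
    have hcard : ((Fintype.card (Fin m → Fin n) : ℕ) : ℝ) = (n : ℝ) ^ m := by
      rw [Fintype.card_fun, Fintype.card_fin, Fintype.card_fin, Nat.cast_pow]
    constructor
    · rw [hsum]
      simp only [hc, Finset.sum_add_distrib, Finset.sum_const, Finset.card_univ, ih.1,
        nsmul_eq_mul]
      rw [← Finset.mul_sum, h0]
      simp
    · rw [hsum]
      have h1 : ∀ u : Fin n, ∑ ω : Fin m → Fin n,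
          (∑ i, ψ ((Fin.cons u ω : Fin (m + 1) → Fin n) i)) ^ 2 =
          (n : ℝ) ^ m * ψ u ^ 2 + ∑ ω : Fin m → Fin n, (∑ i, ψ (ω i)) ^ 2 := by
        intro u
        have h2 : ∀ ω : Fin m → Fin n,
            (∑ i, ψ ((Fin.cons u ω : Fin (m + 1) → Fin n) i)) ^ 2 =
            ψ u ^ 2 + 2 * ψ u * (∑ i, ψ (ω i)) + (∑ i, ψ (ω i)) ^ 2 := by
          intro ω
          rw [hc]
          ring
        rw [Finset.sum_congr rfl fun ω _ => h2 ω, Finset.sum_add_distrib, Finset.sum_add_distrib,
          ← Finset.mul_sum, ih.1, Finset.sum_const, Finset.card_univ, nsmul_eq_mul, hcard]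
        ring
      rw [Finset.sum_congr rfl fun u _ => h1 u, Finset.sum_add_distrib, ← Finset.mul_sum,
        Finset.sum_const, Finset.card_univ, Fintype.card_fin, nsmul_eq_mul, add_mul,
        mul_assoc (n : ℝ), ih.2]
      push_cast
      ring

/-- Chebyshev's inequality for sample averages -/
theorem sample {n m : ℕ} (hn : 0 < n) (hm : 0 < m) (φ : Fin n → ℝ) (B η : ℝ) (h0 : ∀ u, 0 ≤ φ u)
    (hB : ∀ u, φ u ≤ B) (hη : 0 < η) :
    ((univ.filter (fun ω : Fin m → Fin n =>
        η < |(∑ i, φ (ω i)) / m - (∑ u, φ u) / n|)).card : ℝ) ≤ (n : ℝ) ^ m * (B ^ 2 / (m * η ^ 2)) := by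
  have hn' : (0 : ℝ) < n := by exact_mod_cast hn
  have hm' : (0 : ℝ) < m := by exact_mod_cast hm
  set μ : ℝ := (∑ u, φ u) / n with hμ
  set ψ : Fin n → ℝ := fun u => φ u - μ with hψ
  have hμ0 : 0 ≤ μ := div_nonneg (Finset.sum_nonneg fun u _ => h0 u) hn'.le
  have hμB : μ ≤ B := by
    rw [hμ, div_le_iff₀ hn']
    calc ∑ u, φ u ≤ ∑ _u : Fin n, B := Finset.sum_le_sum fun u _ => hB u
      _ = B * n := by
        rw [Finset.sum_const, Finset.card_univ, Fintype.card_fin, nsmul_eq_mul, mul_comm]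
  have hψ0 : ∑ u, ψ u = 0 := by
    simp only [hψ, Finset.sum_sub_distrib, Finset.sum_const, Finset.card_univ, Fintype.card_fin,
      nsmul_eq_mul, hμ]
    field_simp
    ring
  have hψB : ∑ u, ψ u ^ 2 ≤ n * B ^ 2 := by
    calc ∑ u, ψ u ^ 2 ≤ ∑ _u : Fin n, B ^ 2 := by
          refine Finset.sum_le_sum fun u _ => ?_
          refine sq_le_sq' ?_ ?_
          · have := h0 u
            simp only [hψ]; linarith
          · have := hB u
            simp only [hψ]; linarith
      _ = n * B ^ 2 := by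
        rw [Finset.sum_const, Finset.card_univ, Fintype.card_fin, nsmul_eq_mul]
  have hvar := (D3_var ψ hψ0 m).2
  have havg : ∀ ω : Fin m → Fin n, (∑ i, φ (ω i)) / m - μ = (∑ i, ψ (ω i)) / m := by
    intro ω
    simp only [hψ, Finset.sum_sub_distrib, Finset.sum_const, Finset.card_univ, Fintype.card_fin,
      nsmul_eq_mul]
    field_simp
  have h1 : ((univ.filter (fun ω : Fin m → Fin n =>
      η < |(∑ i, φ (ω i)) / m - μ|)).card : ℝ) * (m * η) ^ 2 ≤
      ∑ ω : Fin m → Fin n, (∑ i, ψ (ω i)) ^ 2 := by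
    calc ((univ.filter (fun ω : Fin m → Fin n =>
          η < |(∑ i, φ (ω i)) / m - μ|)).card : ℝ) * (m * η) ^ 2
        = ∑ ω ∈ univ.filter (fun ω : Fin m → Fin n =>
            η < |(∑ i, φ (ω i)) / m - μ|), (m * η) ^ 2 := by
          rw [Finset.sum_const, nsmul_eq_mul]
      _ ≤ ∑ ω ∈ univ.filter (fun ω : Fin m → Fin n =>
            η < |(∑ i, φ (ω i)) / m - μ|), (∑ i, ψ (ω i)) ^ 2 := by
          refine Finset.sum_le_sum fun ω hω => ?_
          have h2 := (Finset.mem_filter.1 hω).2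
          rw [havg, abs_div, abs_of_pos hm', lt_div_iff₀ hm'] at h2
          rw [← sq_abs (∑ i, ψ (ω i))]
          refine pow_le_pow_left₀ (by positivity) ?_ 2
          rw [mul_comm]
          exact h2.le
      _ ≤ ∑ ω : Fin m → Fin n, (∑ i, ψ (ω i)) ^ 2 :=
          Finset.sum_le_sum_of_subset_of_nonneg (Finset.subset_univ _) fun ω _ _ => sq_nonneg _
  have h2 : (∑ ω : Fin m → Fin n, (∑ i, ψ (ω i)) ^ 2) ≤ m * n ^ m * B ^ 2 := by
    have h3 : (∑ ω : Fin m → Fin n, (∑ i, ψ (ω i)) ^ 2) * n ≤ (m * n ^ m * B ^ 2) * n := by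
      rw [hvar]
      calc (m : ℝ) * n ^ m * ∑ u, ψ u ^ 2 ≤ m * n ^ m * (n * B ^ 2) :=
            mul_le_mul_of_nonneg_left hψB (by positivity)
        _ = m * n ^ m * B ^ 2 * n := by ring
    exact le_of_mul_le_mul_right h3 hn'
  have h3 := h1.trans h2
  have h4 : (0 : ℝ) < (m * η) ^ 2 := by positivity
  rw [← le_div_iff₀ h4] at h3
  refine h3.trans (le_of_eq ?_)
  field_simp

end H82.TQ
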