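import Mathlib

/-!
# Project TQ (MP_7803ed_lc): definitions

Estimating the cost of metric TSP within a factor `2 - δ` with `o(n^2)` distance queries.
-/

set_option autoImplicit false

open Finset Classical

namespace H82.TQ

/-! ## Integer metrics, tours -/

/-- integer valued (pseudo)metrics -/
structure NMet {V : Type} (d : V → V → ℕ) : Prop where
  self : ∀ u, d u u = 0
  symm : ∀ u v, d u v = d v u
  tri : ∀ u v w, d u w ≤ d u v + d v w

/-- length of a walk given as a list of vertices -/
def wlen {V : Type} (d : V → V → ℕ) : List V → ℕ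
  | [] => 0
  | [_] => 0
  | a :: b :: l => d a b + wlen d (b :: l)

/-- length of the closed walk through the vertices of a list in this order, back to the first one -/
def cyc {V : Type} (d : V → V → ℕ) : List V → ℕ
  | [] => 0
  | a :: l => wlen d (a :: (l ++ [a]))

/-- `nx` is a tour: a cyclic permutation of the vertices (no proper nonempty set is mapped into itself) -/
def TourP {V : Type} [Fintype V] (nx : Equiv.Perm V) : Prop :=
  ∀ X : Finset V, X.Nonempty → X ≠ univ → ∃ v ∈ X, nx v ∉ X

/-- length of a tour -/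
def tcost {V : Type} [Fintype V] (d : V → V → ℕ) (nx : Equiv.Perm V) : ℕ := ∑ v, d v (nx v)

/-! ## Rooted minimum spanning trees -/

/-- A rooted tree given by parent pointers (`par root = root`), with the cut property of minimum
spanning trees: the edge from `x` to its parent is a shortest one leaving the set of descendants of `x`.
Tree edges are indexed by their lower end `x`; the root has a dummy edge of length `d root root = 0`. -/
structure MTree {V : Type} (d : V → V → ℕ) where
  root : V
  par : V → V
  rank : V → ℕ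
  par_root : par root = root
  rank_lt : ∀ x, x ≠ root → rank (par x) < rank x
  cut : ∀ x u v, (∃ k, par^[k] u = x) → (¬ ∃ k, par^[k] v = x) → d x (par x) ≤ d u v

namespace MTree
variable {V : Type} {d : V → V → ℕ} (T : MTree d)

/-- `u` is a descendant of `x` (or `x` itself) -/
def desc (x u : V) : Prop := ∃ k, T.par^[k] u = x

/-- length of the edge from `x` to its parent -/
def wt (x : V) : ℕ := d x (T.par x)

/-- the tree edge of `x` separates `u` and `v` -/
def sep (x u v : V) : Prop := ¬ (T.desc x u ↔ T.desc x v)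

/-- total length -/
def w [Fintype V] : ℕ := ∑ x, T.wt x

/-- set of descendants -/
noncomputable def descSet [Fintype V] (x : V) : Finset V := univ.filter (fun u => T.desc x u)

/-- total length of the tree edges of length at most `t` -/
noncomputable def wle [Fintype V] (t : ℕ) : ℕ := ∑ x ∈ univ.filter (fun x => T.wt x ≤ t), T.wt x

end MTree

/-! ## Threshold components -/

/-- reachability by steps of length at most `t` -/
def Rch {V : Type} (d : V → V → ℕ) (t : ℕ) (u v : V) : Prop :=
  Relation.ReflTransGen (fun a b => d a b ≤ t) u v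

/-- component of `u` in the graph of pairs at distance at most `t` -/
noncomputable def cmp {V : Type} [Fintype V] (d : V → V → ℕ) (t : ℕ) (u : V) : Finset V :=
  univ.filter (fun v => Rch d t u v)

/-- the components of `u` and `v` at level `s` are joined by a tree edge (longer than `s`) -/
def Tadj {V : Type} {d : V → V → ℕ} (T : MTree d) (s : ℕ) (u v : V) : Prop :=
  ∃ x, s < T.wt x ∧
    ((Rch d s x u ∧ Rch d s (T.par x) v) ∨ (Rch d s x v ∧ Rch d s (T.par x) u))

/-! ## The local linear program -/

/-- ball of radius `k` in a graph given by neighbour sets -/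
noncomputable def ball {V : Type} (nbr : V → Finset V) : ℕ → V → Finset V
  | 0, u => {u}
  | k + 1, u => ball nbr k u ∪ (ball nbr k u).biUnion nbr

/-- the family of small sets for which we impose cut constraints -/
noncomputable def Fam {V : Type} [Fintype V] (nbr : V → Finset V) (S : Finset V) (L : ℕ) :
    Finset (Finset V) :=
  univ.filter (fun X => X.Nonempty ∧ X.card ≤ L ∧ Disjoint X S ∧ ∀ a ∈ X, X ⊆ ball nbr L a)

/-- value of a cut: `x` are the variables of ordered pairs, `y` those of the links to the root -/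
noncomputable def cutv {V : Type} [Fintype V] (x : V → V → ℝ) (y : V → ℝ) (X : Finset V) : ℝ :=
  ∑ u ∈ X, (y u + ∑ v ∈ univ.filter (fun v => v ∉ X), (x u v + x v u))

/-- the penalised objective -/
noncomputable def Phi {V : Type} [Fintype V] (d : V → V → ℕ) (f : V → ℕ) (C0 : ℝ)
    (F : Finset (Finset V)) (x : V → V → ℝ) (y : V → ℝ) : ℝ :=
  ∑ u, ∑ v, x u v * d u v + ∑ u, y u * f u + C0 * ∑ X ∈ F, max 0 (2 - cutv x y X)

/-- the share of the vertex `u` in the penalised objective -/
noncomputable def phiAt {V : Type} [Fintype V] (d : V → V → ℕ) (f : V → ℕ) (C0 : ℝ)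
    (F : Finset (Finset V)) (x : V → V → ℝ) (y : V → ℝ) (u : V) : ℝ :=
  ∑ v, x u v * d u v + y u * f u +
    C0 * ∑ X ∈ F.filter (fun X => u ∈ X), max 0 (2 - cutv x y X) / X.card

/-- one step of projected subgradient descent for the pair variables -/
noncomputable def stepx {V : Type} [Fintype V] (d : V → V → ℕ) (C0 al : ℝ)
    (nbr : V → Finset V) (F : Finset (Finset V)) (x : V → V → ℝ) (y : V → ℝ) (u v : V) : ℝ :=
  if v ∈ nbr u then
    max 0 (x u v - al * ((d u v : ℝ) -
      C0 * ((F.filter (fun X => ¬ (u ∈ X ↔ v ∈ X) ∧ cutv x y X < 2)).card : ℝ)))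
  else 0

/-- one step of projected subgradient descent for the link variables -/
noncomputable def stepy {V : Type} [Fintype V] (f : V → ℕ) (S : Finset V) (C0 al : ℝ)
    (F : Finset (Finset V)) (x : V → V → ℝ) (y : V → ℝ) (u : V) : ℝ :=
  if u ∉ S then
    max 0 (y u - al * ((f u : ℝ) -
      C0 * ((F.filter (fun X => u ∈ X ∧ cutv x y X < 2)).card : ℝ)))
  else 0

/-- iterates of projected subgradient descent, started at `0` -/
noncomputable def itz {V : Type} [Fintype V] (d : V → V → ℕ) (f : V → ℕ) (S : Finset V)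
    (C0 al : ℝ) (nbr : V → Finset V) (F : Finset (Finset V)) : ℕ → (V → V → ℝ) × (V → ℝ)
  | 0 => (fun _ _ => 0, fun _ => 0)
  | k + 1 =>
      (stepx d C0 al nbr F (itz d f S C0 al nbr F k).1 (itz d f S C0 al nbr F k).2,
       stepy f S C0 al F (itz d f S C0 al nbr F k).1 (itz d f S C0 al nbr F k).2)

/-! ## Levels, units, greedy process, allowed pairs -/

/-- level thresholds 4,5,6,7,8,10,12,14,16,20,... -/
def tau (j : ℕ) : ℕ := 2 ^ (j / 4) * (4 + j % 4)

/-- `a` is the least vertex of its component at level `s`, and this component has at most `L` vertices -/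
def validU {n : ℕ} (d : Fin n → Fin n → ℕ) (s L : ℕ) (a : Fin n) : Prop :=
  (cmp d s a).card ≤ L ∧ ∀ x ∈ cmp d s a, a ≤ x

/-- the components of `a` and `b` at level `s` are at distance at most `t` -/
def adjU {n : ℕ} (d : Fin n → Fin n → ℕ) (s t : ℕ) (a b : Fin n) : Prop :=
  ∃ x ∈ cmp d s a, ∃ y ∈ cmp d s b, d x y ≤ t

/-- one step of the greedy process: take the component of `a` unless it is near to a component taken before -/
noncomputable def gstep {n : ℕ} (d : Fin n → Fin n → ℕ) (s t L : ℕ) (I : Finset (Fin n)) (a : Fin n) :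
    Finset (Fin n) :=
  if validU d s L a ∧ ∀ x ∈ cmp d s a, ∀ y ∈ I, t < d x y then I ∪ cmp d s a else I

/-- union of the components taken by the greedy process -/
noncomputable def greedy {n : ℕ} (d : Fin n → Fin n → ℕ) (s t L : ℕ) (l : List (Fin n)) :
    Finset (Fin n) := l.foldl (gstep d s t L) ∅

/-- vertices within distance `t` of `I` -/
noncomputable def Hv {n : ℕ} (d : Fin n → Fin n → ℕ) (t : ℕ) (I : Finset (Fin n)) : Finset (Fin n) :=
  univ.filter (fun v => ∃ y ∈ I, d v y ≤ t)

/-- valid components (given by their least vertices) that are taken or near to a taken one -/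
noncomputable def deadU {n : ℕ} (d : Fin n → Fin n → ℕ) (s t L : ℕ) (I : Finset (Fin n)) :
    Finset (Fin n) :=
  univ.filter (fun a => validU d s L a ∧ ∃ x ∈ cmp d s a, x ∈ Hv d t I)

/-- valid components that are not dead -/
noncomputable def aliveU {n : ℕ} (d : Fin n → Fin n → ℕ) (s t L : ℕ) (I : Finset (Fin n)) :
    Finset (Fin n) :=
  univ.filter (fun a => validU d s L a ∧ ∀ x ∈ cmp d s a, x ∉ Hv d t I)

/-- distance to the set `S`, truncated at `r` -/
noncomputable def fT {n : ℕ} (d : Fin n → Fin n → ℕ) (S : Finset (Fin n)) (r : ℕ) (u : Fin n) : ℕ :=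
  S.fold min r (fun s => d u s)

/-- the vertex `u` lies in a small component which is not dead, and has few candidate neighbours at level `j` -/
def unitOK {n : ℕ} (H : ℕ → Finset (Fin n)) (L D : ℕ) (d : Fin n → Fin n → ℕ) (j : ℕ) (u : Fin n) :
    Prop :=
  (cmp d (tau (j - 1)) u).card ≤ L ∧ (∀ x ∈ cmp d (tau (j - 1)) u, x ∉ H j) ∧
    (univ.filter (fun v => v ∉ H j ∧ d u v ≤ tau (j + 1))).card ≤ D

/-- allowed pairs -/
def adjA {n : ℕ} (S : Finset (Fin n)) (f : Fin n → ℕ) (H : ℕ → Finset (Fin n)) (L D J : ℕ)
    (d : Fin n → Fin n → ℕ) (u v : Fin n) : Prop :=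
  u ∉ S ∧ v ∉ S ∧ u ≠ v ∧
  ((d u v < f u ∧ d u v < f v ∧ (univ.filter (fun x => d u x < f u)).card ≤ D ∧
      (univ.filter (fun x => d v x < f v)).card ≤ D) ∨
    ∃ j, 1 ≤ j ∧ j ≤ J ∧ tau j < d u v ∧ d u v ≤ tau (j + 1) ∧
      unitOK H L D d j u ∧ unitOK H L D d j v ∧ ¬ Rch d (tau (j - 1)) u v)

/-- neighbour sets of allowed pairs -/
noncomputable def nbrA {n : ℕ} (S : Finset (Fin n)) (f : Fin n → ℕ) (H : ℕ → Finset (Fin n))
    (L D J : ℕ) (d : Fin n → Fin n → ℕ) (u : Fin n) : Finset (Fin n) :=
  univ.filter (fun v => adjA S f H L D J d u v)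

/-! ## Classes of a net, tours of a subset -/

/-- reachability inside `N` by steps of length at most `t` -/
def RchOn {V : Type} (N : Finset V) (d : V → V → ℕ) (t : ℕ) (u v : V) : Prop :=
  Relation.ReflTransGen (fun a b => a ∈ N ∧ b ∈ N ∧ d a b ≤ t) u v

/-- number of classes of `N` at level `t` -/
noncomputable def clN {V : Type} (N : Finset V) (d : V → V → ℕ) (t : ℕ) : ℕ :=
  (N.image (fun a => N.filter (fun b => RchOn N d t a b))).card

/-- least length of a closed walk inside `U` through all vertices of `U` -/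
noncomputable def tspOn {V : Type} (d : V → V → ℕ) (U : Finset V) : ℕ :=
  sInf {c | ∃ l : List V, (∀ v ∈ l, v ∈ U) ∧ (∀ v ∈ U, v ∈ l) ∧ cyc d l = c}

/-! ## Row query algorithms -/

/-- adaptive algorithms which ask for rows `d v` of the distance matrix -/
inductive RC (V R α : Type) : Type
  | pure (a : α) : RC V R α
  | ask (v : V) (k : (V → R) → RC V R α) : RC V R α

namespace RC
variable {V R α : Type}

/-- output of the algorithm on the matrix `d` -/
def eval (d : V → V → R) : RC V R α → α
  | pure a => a
  | ask v k => eval d (k (d v))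

/-- number of rows asked for on the matrix `d` -/
def used (d : V → V → R) : RC V R α → ℕ
  | pure _ => 0
  | ask v k => used d (k (d v)) + 1

end RC

/-- for all matrices `d` with `P d`, the value `F d` is computed by asking for at most `q` rows of `d` -/
def Comp {V R α : Type} (P : (V → V → R) → Prop) (F : (V → V → R) → α) (q : ℕ) : Prop :=
  ∃ p : RC V R α, ∀ d, P d → p.eval d = F d ∧ p.used d ≤ q

/-! ## Real metrics and the frozen statement -/

/-- metrics on `Fin n` as in the frozen statement -/
def RMet {n : ℕ} (d : Fin n → Fin n → ℝ) : Prop :=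
  (∀ i, d i i = 0) ∧ (∀ i j, i ≠ j → 0 < d i j) ∧ (∀ i j, d i j = d j i) ∧
    (∀ i j k, d i k ≤ d i j + d j k)

/-- the TSP optimum as in the frozen statement -/
noncomputable def opt {n : ℕ} (d : Fin n → Fin n → ℝ) : ℝ :=
  ⨅ σ : Equiv.Perm (Fin n), ∑ i : Fin n, d (σ i) (σ (finRotate n i))

/-- there is an algorithm for `n`-point metrics with `q` queries -/
def Alg (δ : ℝ) (n q : ℕ) : Prop :=
  ∃ m : ℕ, 0 < m ∧
    ∃ step : Fin m → List ℝ → ((Fin n × Fin n) ⊕ ℝ),
      ∀ d : Fin n → Fin n → ℝ,
        (∀ i, d i i = 0) →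
        (∀ i j, i ≠ j → 0 < d i j) →
        (∀ i j, d i j = d j i) →
        (∀ i j k, d i k ≤ d i j + d j k) →
        2 * m ≤ 3 * Nat.card {s : Fin m // ∃ r : ℝ,
          step s ((fun h : List ℝ =>
              Sum.elim (fun p : Fin n × Fin n => h ++ [d p.1 p.2])
                (fun _ : ℝ => h) (step s h))^[q] []) = Sum.inr r ∧
          (⨅ σ : Equiv.Perm (Fin n), ∑ i : Fin n, d (σ i) (σ (finRotate n i))) ≤ r ∧
          r ≤ (2 - δ) *
            (⨅ σ : Equiv.Perm (Fin n), ∑ i : Fin n, d (σ i) (σ (finRotate n i)))}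

end H82.TQ
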