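import Pool.Agent.H82.TQ.Defs

/-!
# Project TQ: definitions, part 2 (the algorithm)

`Prm` collects the parameters. The random choices are `ω1 : Fin M → Fin n` (picks of the greedy processes, all levels use
the same picks; their range is the sample `S`), `ω3 : Fin M3 → Fin n` (second sample, used for the tour of `N ∪ S3`) and
`ω4 : Fin m0 → Fin n` (sample of vertices at which the local quantities are evaluated).
-/

set_option autoImplicit false

open Finset Classical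

namespace H82.TQ

/-- proportion of the elements of a finite type with a property -/
noncomputable def pr {Ω : Type} [Fintype Ω] (P : Ω → Prop) : ℝ :=
  ((univ.filter P).card : ℝ) / Fintype.card Ω

structure Prm where
  (ρ0 ℓ r R J L1 L3 L4 D B K : ℕ)
  (C0 al : ℝ)

section

variable (P : Prm) {n M M3 m0 : ℕ}

/-- range of a sequence of picks -/
noncomputable def rg (ω : Fin M → Fin n) : Finset (Fin n) := univ.image ω

/-- union of the components taken by the greedy process of level `j` -/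
noncomputable def grI (ω : Fin M → Fin n) (d : Fin n → Fin n → ℕ) (j : ℕ) : Finset (Fin n) :=
  greedy d (tau (j - 1)) (tau (j + 1)) P.L1 (List.ofFn ω)

/-- vertices near to them (only for the levels `1, …, J`) -/
noncomputable def Hj (ω : Fin M → Fin n) (d : Fin n → Fin n → ℕ) (j : ℕ) : Finset (Fin n) :=
  if j ∈ Icc 1 P.J then Hv d (tau (j + 1)) (grI P ω d j) else ∅

/-- prices of the links -/
noncomputable def ff (ω : Fin M → Fin n) (d : Fin n → Fin n → ℕ) : Fin n → ℕ := fT d (rg ω) P.r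

/-- neighbour sets -/
noncomputable def nb (ω : Fin M → Fin n) (d : Fin n → Fin n → ℕ) : Fin n → Finset (Fin n) :=
  nbrA (rg ω) (ff P ω d) (Hj P ω d) P.L1 P.D P.J d

/-- iterates of the subgradient method -/
noncomputable def it (ω : Fin M → Fin n) (d : Fin n → Fin n → ℕ) (k : ℕ) :
    (Fin n → Fin n → ℝ) × (Fin n → ℝ) :=
  itz d (ff P ω d) (rg ω) P.C0 P.al (nb P ω d) (Fam (nb P ω d) (rg ω) P.L4) k

/-- values of the objective -/
noncomputable def PhiK (ω : Fin M → Fin n) (d : Fin n → Fin n → ℕ) (k : ℕ) : ℝ :=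
  Phi d (ff P ω d) P.C0 (Fam (nb P ω d) (rg ω) P.L4) (it P ω d k).1 (it P ω d k).2

/-- total weight of the dead components -/
noncomputable def kill (ω : Fin M → Fin n) (d : Fin n → Fin n → ℕ) : ℝ :=
  ∑ j ∈ Icc 1 P.J, (tau (j + 1) : ℝ) *
    ((deadU d (tau (j - 1)) (tau (j + 1)) P.L1 (grI P ω d j)).card : ℝ)

/-! local quantities -/

noncomputable def phi1 (d : Fin n → Fin n → ℕ) (u : Fin n) : ℝ :=
  ∑ t ∈ range P.R, if (cmp d t u).card ≤ P.B then (1 : ℝ) / (cmp d t u).card else 0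

noncomputable def phi2 (d : Fin n → Fin n → ℕ) (u : Fin n) : ℝ :=
  if (cmp d P.R u).card ≤ P.B then (1 : ℝ) / (cmp d P.R u).card else 0

noncomputable def phi3 (ω : Fin M → Fin n) (d : Fin n → Fin n → ℕ) (u : Fin n) : ℝ :=
  (∑ k ∈ range P.K, phiAt d (ff P ω d) P.C0 (Fam (nb P ω d) (rg ω) P.L4) (it P ω d k).1
    (it P ω d k).2 u) / P.K

noncomputable def phi4 (ω : Fin M → Fin n) (d : Fin n → Fin n → ℕ) (u : Fin n) : ℝ :=
  ∑ j ∈ Icc 1 P.J, (tau (j + 1) : ℝ) *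
    (if u ∈ deadU d (tau (j - 1)) (tau (j + 1)) P.L1 (grI P ω d j) then 1 else 0)

/-- estimate of a sum over all vertices by sampling -/
noncomputable def est (φ : Fin n → ℝ) (ω : Fin m0 → Fin n) : ℝ := n * ((∑ i, φ (ω i)) / m0)

/-- contribution of the levels `≥ R`, computed from the net `N` -/
noncomputable def tailN (d : Fin n → Fin n → ℕ) (N : Finset (Fin n)) : ℕ :=
  ∑ t ∈ Ico P.R (N.sup (fun u => N.sup (fun v => d u v))), (clN N d t - 1)

/-- estimate of the weight of the minimum spanning tree -/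
noncomputable def what (ω4 : Fin m0 → Fin n) (N : Finset (Fin n)) (d : Fin n → Fin n → ℕ) : ℝ :=
  est (phi1 P d) ω4 - P.R + tailN P d N

/-- estimate of the weight of the short edges -/
noncomputable def wleh (ω4 : Fin m0 → Fin n) (d : Fin n → Fin n → ℕ) : ℝ :=
  est (phi1 P d) ω4 - P.R - P.R * (est (phi2 P d) ω4 - 1)

/-- the decision: `true` if the instance is considered as having a tour much shorter than `2 w` -/
noncomputable def bitP (ω1 : Fin M → Fin n) (ω3 : Fin M3 → Fin n) (ω4 : Fin m0 → Fin n)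
    (N : Finset (Fin n)) (d : Fin n → Fin n → ℕ) : Prop :=
  (tspOn d (N ∪ rg ω3) : ℝ) ≤ (1 + 2 / 10 ^ 4) * what P ω4 N d ∧
    ((1 / 100) * what P ω4 N d ≤ est (phi4 P ω1 d) ω4 ∨
      est (phi3 P ω1 d) ω4 ≤ wleh P ω4 d + 1 / 4 * what P ω4 N d)

/-- output of the algorithm -/
noncomputable def out (ω1 : Fin M → Fin n) (ω3 : Fin M3 → Fin n) (ω4 : Fin m0 → Fin n)
    (N : Finset (Fin n)) (d : Fin n → Fin n → ℕ) : ℝ × Bool :=
  (what P ω4 N d, decide (bitP P ω1 ω3 ω4 N d))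

/-! exceptional sets -/

/-- vertices with many vertices nearer than the sample -/
noncomputable def BI (ω : Fin M → Fin n) (d : Fin n → Fin n → ℕ) : Finset (Fin n) :=
  univ.filter (fun u => P.D < (univ.filter (fun v => d u v < ff P ω d u)).card)

/-- vertices of alive components with many candidates -/
noncomputable def BC (ω : Fin M → Fin n) (d : Fin n → Fin n → ℕ) (j : ℕ) : Finset (Fin n) :=
  univ.filter (fun u => (cmp d (tau (j - 1)) u).card ≤ P.L1 ∧
    (∀ x ∈ cmp d (tau (j - 1)) u, x ∉ Hj P ω d j) ∧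
    P.D < (univ.filter (fun v => v ∉ Hj P ω d j ∧ d u v ≤ tau (j + 1))).card)

/-- weight of the tree edges with few descendants, one of them in `S` -/
noncomputable def hitW {d : Fin n → Fin n → ℕ} (T : MTree d) (S : Finset (Fin n)) : ℝ :=
  ∑ e ∈ univ.filter (fun e => T.wt e ≤ P.ρ0 ∧ (T.descSet e).card ≤ P.L3 ∧ ∃ u ∈ S, T.desc e u),
    (T.wt e : ℝ)

/-- weight of the tree edges with many descendants and non-descendants, such that `S` misses one of the sides -/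
noncomputable def missW {d : Fin n → Fin n → ℕ} (T : MTree d) (S : Finset (Fin n)) : ℝ :=
  ∑ e ∈ univ.filter (fun e => P.L3 < (T.descSet e).card ∧ P.L3 < ((univ : Finset (Fin n)) \ T.descSet e).card ∧
      ((∀ u ∈ S, ¬ T.desc e u) ∨ (∀ u ∈ S, T.desc e u))), (T.wt e : ℝ)

/-- the samples give good estimates -/
def SampOK (ω1 : Fin M → Fin n) (ω4 : Fin m0 → Fin n) (d : Fin n → Fin n → ℕ) : Prop :=
  |est (phi1 P d) ω4 - ∑ u, phi1 P d u| ≤ n ∧
  P.R * |est (phi2 P d) ω4 - ∑ u, phi2 P d u| ≤ n ∧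
  |est (phi3 P ω1 d) ω4 - ∑ u, phi3 P ω1 d u| ≤ n ∧
  |est (phi4 P ω1 d) ω4 - ∑ u, phi4 P ω1 d u| ≤ n

end

/-- conditions on the parameters -/
structure POK (P : Prm) (n M : ℕ) : Prop where
  ρℓ : P.ρ0 ≤ P.ℓ
  ℓ1 : 1 ≤ P.ℓ
  ℓr : 10 ^ 4 * P.ℓ ≤ P.r
  ρr : 4000 * P.ρ0 * P.L3 ≤ P.r
  rR : 10 ^ 4 * P.r ≤ P.R
  ρR : 10 ^ 11 * P.ρ0 ≤ P.R
  RJ : P.R ≤ tau (P.J + 1)
  RB : P.R ≤ P.B
  L34 : P.L3 ≤ P.L4
  ℓL4 : P.ℓ ≤ P.L4
  L1J : P.J * tau (P.J + 1) ≤ P.L1
  C0 : (P.ℓ : ℝ) * (P.L4 + 1) ≤ P.C0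
  al0 : 0 < P.al
  al2 : P.al * ((((P.J + 1) * P.D : ℕ) + 1 : ℝ) *
    ((tau (P.J + 1) : ℝ) + 2 * P.C0 * 2 ^ (((P.J + 1) * P.D + 1) ^ P.L4)) ^ 2) ≤ 2
  K5 : 5 ≤ 2 * P.al * P.K
  n2 : 2 ≤ n
  nL4 : P.L4 < n
  nL3 : 2 * P.L3 < n
  nρ : P.ρ0 * (P.L3 + 1) ≤ n
  nℓ : P.ℓ ≤ n
  nτ : tau (P.J + 1) ≤ n
  Mℓ : M * P.ℓ ≤ n

/-- the instance has no tour much shorter than `2 w` -/
def NOi {V : Type} [Fintype V] {d : V → V → ℕ} (T : MTree d) : Prop :=
  ∀ nx : Equiv.Perm V, TourP nx → (2 - 1 / 10 ^ 8 : ℝ) * T.w ≤ tcost d nx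

/-- the instance has a tour of length about `w` -/
def YESi {V : Type} [Fintype V] {d : V → V → ℕ} (T : MTree d) : Prop :=
  ∃ nx : Equiv.Perm V, TourP nx ∧ (tcost d nx : ℝ) ≤ (1 + 1 / 10 ^ 4) * T.w

end H82.TQ
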