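import Pool.Agent.H82.TQ.Defs

/-!
# TQ E1: projected subgradient descent for the local linear program

Write `F = Fam nbr S L`, `it k = itz d f S C0 al nbr F k`.
`fam_count`: an element `X ∋ u` of `F` is a subset of `ball nbr L u`, which has at most `(D+1)^L` elements.
`subgrad`: `Phi` is convex in `(x,y)`; with `g u v = d u v - C0 #{X ∈ F : exactly one of u,v in X, cutv X < 2}` (`v ∈ nbr u`)
and `h u = f u - C0 #{X ∈ F : u ∈ X, cutv X < 2}` one has for all supported `x', y'`: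
`Phi x' y' ≥ Phi x y + ∑_{u, v ∈ nbr u} g u v (x' u v - x u v) + ∑_{u ∉ S} h u (y' u - y u)`
(note that every `X ∈ F` is disjoint from `S`, and `x u v = 0` unless `v ∈ nbr u`).
`|g|, |h| ≤ G = R + 2 C0 NX` with `NX = 2^((D+1)^L)`. Projection to the nonnegative numbers decreases the distance to
`(x',y')`: `‖z_{k+1} - z'‖² ≤ ‖z_k - z'‖² - 2 al (Phi z_k - Phi z') + al² n (D+1) G²`. Sum over `k < K`.
-/

set_option autoImplicit false

open Finset Classical

namespace H82.TQ

variable {V : Type} [Fintype V]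

theorem ball_card (nbr : V → Finset V) (D : ℕ) (hD : ∀ u, (nbr u).card ≤ D) (k : ℕ) (u : V) :
    (ball nbr k u).card ≤ (D + 1) ^ k := by
  induction k with
  | zero => simp [ball]
  | succ k ih =>
    have h1 : (ball nbr (k + 1) u).card ≤
        (ball nbr k u).card + ((ball nbr k u).biUnion nbr).card := by
      rw [ball]
      exact Finset.card_union_le _ _
    have h2 : ((ball nbr k u).biUnion nbr).card ≤ (ball nbr k u).card * D :=
      Finset.card_biUnion_le_card_mul _ _ _ fun v _ => hD v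
    calc (ball nbr (k + 1) u).card ≤ (ball nbr k u).card + (ball nbr k u).card * D := by omega
      _ = (ball nbr k u).card * (D + 1) := by ring
      _ ≤ (D + 1) ^ k * (D + 1) := Nat.mul_le_mul_right _ ih
      _ = (D + 1) ^ (k + 1) := by rw [pow_succ]

theorem fam_count (nbr : V → Finset V) (S : Finset V) (L D : ℕ) (hD : ∀ u, (nbr u).card ≤ D) (u : V) :
    ((Fam nbr S L).filter (fun X => u ∈ X)).card ≤ 2 ^ ((D + 1) ^ L) := by
  have h1 : (Fam nbr S L).filter (fun X => u ∈ X) ⊆ (ball nbr L u).powerset := by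
    intro X hX
    rw [Finset.mem_filter] at hX
    have h2 := hX.1
    unfold Fam at h2
    rw [Finset.mem_filter] at h2
    rw [Finset.mem_powerset]
    exact h2.2.2.2.2 u hX.2
  refine (Finset.card_le_card h1).trans ?_
  rw [Finset.card_powerset]
  exact Nat.pow_le_pow_right (by norm_num) (ball_card nbr D hD L u)

theorem itz_nonneg (d : V → V → ℕ) (f : V → ℕ) (S : Finset V) (C0 al : ℝ) (nbr : V → Finset V)
    (F : Finset (Finset V)) (k : ℕ) :
    (∀ u v, 0 ≤ (itz d f S C0 al nbr F k).1 u v) ∧ (∀ u, 0 ≤ (itz d f S C0 al nbr F k).2 u) := by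
  cases k with
  | zero => exact ⟨fun _ _ => le_rfl, fun _ => le_rfl⟩
  | succ k =>
    constructor
    · intro u v
      show 0 ≤ stepx d C0 al nbr F _ _ u v
      unfold stepx
      split_ifs
      · exact le_max_left _ _
      · exact le_rfl
    · intro u
      show 0 ≤ stepy f S C0 al F _ _ u
      unfold stepy
      by_cases hu : u ∈ S
      · rw [if_neg (not_not.2 hu)]
      · rw [if_pos hu]
        exact le_max_left _ _

theorem itz_supp (d : V → V → ℕ) (f : V → ℕ) (S : Finset V) (C0 al : ℝ) (nbr : V → Finset V)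
    (F : Finset (Finset V)) (k : ℕ) :
    (∀ u v, (itz d f S C0 al nbr F k).1 u v ≠ 0 → v ∈ nbr u) ∧
      (∀ u ∈ S, (itz d f S C0 al nbr F k).2 u = 0) := by
  cases k with
  | zero => exact ⟨fun _ _ h => absurd rfl h, fun _ _ => rfl⟩
  | succ k =>
    constructor
    · intro u v h
      by_contra hv
      apply h
      show stepx d C0 al nbr F _ _ u v = 0
      unfold stepx
      rw [if_neg hv]
    · intro u hu
      show stepy f S C0 al F _ _ u = 0
      unfold stepy
      rw [if_neg (not_not.2 hu)]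

private theorem e1_count_pair (nbr : V → Finset V) (S : Finset V) (L D : ℕ)
    (hD : ∀ u, (nbr u).card ≤ D) (x : V → V → ℝ) (y : V → ℝ) (u v : V) :
    ((((Fam nbr S L).filter (fun X => ¬ (u ∈ X ↔ v ∈ X) ∧ cutv x y X < 2)).card : ℕ) : ℝ) ≤
      2 * 2 ^ ((D + 1) ^ L) := by
  have h1 : (Fam nbr S L).filter (fun X => ¬ (u ∈ X ↔ v ∈ X) ∧ cutv x y X < 2) ⊆
      (Fam nbr S L).filter (fun X => u ∈ X) ∪ (Fam nbr S L).filter (fun X => v ∈ X) := by
    intro X hX
    rw [Finset.mem_filter] at hX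
    rw [Finset.mem_union, Finset.mem_filter, Finset.mem_filter]
    have := hX.2.1
    by_cases hu : u ∈ X
    · exact Or.inl ⟨hX.1, hu⟩
    · right
      refine ⟨hX.1, ?_⟩
      by_contra hv
      exact this ⟨fun h => absurd h hu, fun h => absurd h hv⟩
  have h2 := (Finset.card_le_card h1).trans (Finset.card_union_le _ _)
  have h3 := fam_count nbr S L D hD u
  have h4 := fam_count nbr S L D hD v
  have h5 : ((Fam nbr S L).filter (fun X => ¬ (u ∈ X ↔ v ∈ X) ∧ cutv x y X < 2)).card ≤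
      2 * 2 ^ ((D + 1) ^ L) := by omega
  exact_mod_cast h5

private theorem e1_count_one (nbr : V → Finset V) (S : Finset V) (L D : ℕ)
    (hD : ∀ u, (nbr u).card ≤ D) (x : V → V → ℝ) (y : V → ℝ) (u : V) :
    ((((Fam nbr S L).filter (fun X => u ∈ X ∧ cutv x y X < 2)).card : ℕ) : ℝ) ≤
      2 * 2 ^ ((D + 1) ^ L) := by
  have h1 : (Fam nbr S L).filter (fun X => u ∈ X ∧ cutv x y X < 2) ⊆
      (Fam nbr S L).filter (fun X => u ∈ X) := by
    intro X hX
    rw [Finset.mem_filter] at hX ⊢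
    exact ⟨hX.1, hX.2.1⟩
  have h2 := (Finset.card_le_card h1).trans (fam_count nbr S L D hD u)
  have h5 : ((Fam nbr S L).filter (fun X => u ∈ X ∧ cutv x y X < 2)).card ≤
      2 * 2 ^ ((D + 1) ^ L) := by omega
  exact_mod_cast h5

/-- bounds for the iterates -/
theorem itz_le (d : V → V → ℕ) (f : V → ℕ) (S : Finset V) (C0 al : ℝ) (hC0 : 0 ≤ C0) (hal : 0 ≤ al)
    (nbr : V → Finset V) (L D : ℕ) (hD : ∀ u, (nbr u).card ≤ D) (k : ℕ) :
    (∀ u v, (itz d f S C0 al nbr (Fam nbr S L) k).1 u v ≤ k * (al * (C0 * (2 * 2 ^ ((D + 1) ^ L))))) ∧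
      (∀ u, (itz d f S C0 al nbr (Fam nbr S L) k).2 u ≤ k * (al * (C0 * (2 * 2 ^ ((D + 1) ^ L))))) := by
  have hpos : (0 : ℝ) ≤ al * (C0 * (2 * 2 ^ ((D + 1) ^ L))) := by positivity
  induction k with
  | zero =>
    constructor
    · intro u v
      show (0 : ℝ) ≤ _
      simp
    · intro u
      show (0 : ℝ) ≤ _
      simp
  | succ k ih =>
    obtain ⟨ih1, ih2⟩ := ih
    have hk : (0 : ℝ) ≤ (k : ℝ) * (al * (C0 * (2 * 2 ^ ((D + 1) ^ L)))) := by positivity
    have hk1 : (((k + 1 : ℕ) : ℝ)) * (al * (C0 * (2 * 2 ^ ((D + 1) ^ L)))) =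
        (k : ℝ) * (al * (C0 * (2 * 2 ^ ((D + 1) ^ L)))) + al * (C0 * (2 * 2 ^ ((D + 1) ^ L))) := by
      push_cast; ring
    rw [hk1]
    constructor
    · intro u v
      show stepx d C0 al nbr (Fam nbr S L) _ _ u v ≤ _
      unfold stepx
      split_ifs
      · refine max_le (by linarith) ?_
        have h1 := ih1 u v
        have h2 := e1_count_pair nbr S L D hD (itz d f S C0 al nbr (Fam nbr S L) k).1
          (itz d f S C0 al nbr (Fam nbr S L) k).2 u v
        have h3 : (0 : ℝ) ≤ (d u v : ℝ) := Nat.cast_nonneg _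
        have h4 := mul_le_mul_of_nonneg_left (mul_le_mul_of_nonneg_left h2 hC0) hal
        have h5 : 0 ≤ al * (d u v : ℝ) := mul_nonneg hal h3
        rw [mul_sub]
        linarith
      · linarith
    · intro u
      show stepy f S C0 al (Fam nbr S L) _ _ u ≤ _
      unfold stepy
      by_cases hu : u ∈ S
      · rw [if_neg (not_not.2 hu)]
        linarith
      · rw [if_pos hu]
        refine max_le (by linarith) ?_
        have h1 := ih2 u
        have h2 := e1_count_one nbr S L D hD (itz d f S C0 al nbr (Fam nbr S L) k).1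
          (itz d f S C0 al nbr (Fam nbr S L) k).2 u
        have h3 : (0 : ℝ) ≤ (f u : ℝ) := Nat.cast_nonneg _
        have h4 := mul_le_mul_of_nonneg_left (mul_le_mul_of_nonneg_left h2 hC0) hal
        have h5 : 0 ≤ al * (f u : ℝ) := mul_nonneg hal h3
        rw [mul_sub]
        linarith

theorem phi_eq_sum (d : V → V → ℕ) (f : V → ℕ) (C0 : ℝ) (nbr : V → Finset V) (S : Finset V) (L : ℕ)
    (x : V → V → ℝ) (y : V → ℝ) :
    Phi d f C0 (Fam nbr S L) x y = ∑ u, phiAt d f C0 (Fam nbr S L) x y u := by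
  unfold Phi phiAt
  rw [Finset.sum_add_distrib, Finset.sum_add_distrib, ← Finset.mul_sum]
  congr 2
  have h1 : ∀ u : V, ∑ X ∈ (Fam nbr S L).filter (fun X => u ∈ X), max 0 (2 - cutv x y X) / X.card =
      ∑ X ∈ Fam nbr S L, if u ∈ X then max 0 (2 - cutv x y X) / X.card else 0 := by
    intro u
    rw [Finset.sum_filter]
  rw [Finset.sum_congr rfl fun u _ => h1 u, Finset.sum_comm]
  refine Finset.sum_congr rfl fun X hX => ?_
  unfold Fam at hX
  rw [Finset.mem_filter] at hX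
  have hc : (X.card : ℝ) ≠ 0 := by
    have := Finset.card_pos.2 hX.2.1
    exact_mod_cast this.ne'
  rw [← Finset.sum_filter, Finset.sum_const, nsmul_eq_mul]
  have h2 : (univ.filter (fun u : V => u ∈ X)) = X := by
    ext u; simp
  rw [h2]
  field_simp

private theorem e1_cutv_nonneg (x : V → V → ℝ) (y : V → ℝ) (hx : ∀ u v, 0 ≤ x u v)
    (hy : ∀ u, 0 ≤ y u) (X : Finset V) : 0 ≤ cutv x y X := by
  unfold cutv
  exact Finset.sum_nonneg fun u _ => add_nonneg (hy u)
    (Finset.sum_nonneg fun v _ => add_nonneg (hx u v) (hx v u))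

/-- bounds for the local terms -/
theorem phiAt_le (d : V → V → ℕ) (f : V → ℕ) (S : Finset V) (C0 B : ℝ) (hC0 : 0 ≤ C0) (hB : 0 ≤ B)
    (nbr : V → Finset V) (L D R : ℕ) (hD : ∀ u, (nbr u).card ≤ D)
    (hR : ∀ u, ∀ v ∈ nbr u, d u v ≤ R) (hf : ∀ u, f u ≤ R) (x : V → V → ℝ) (y : V → ℝ)
    (hx : ∀ u v, 0 ≤ x u v) (hy : ∀ u, 0 ≤ y u) (hxB : ∀ u v, x u v ≤ B) (hyB : ∀ u, y u ≤ B)
    (hsup : ∀ u v, x u v ≠ 0 → v ∈ nbr u) (u : V) :
    0 ≤ phiAt d f C0 (Fam nbr S L) x y u ∧
      phiAt d f C0 (Fam nbr S L) x y u ≤ (D + 1) * B * R + C0 * (2 * 2 ^ ((D + 1) ^ L)) := by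
  unfold phiAt
  constructor
  · refine add_nonneg (add_nonneg ?_ ?_) ?_
    · exact Finset.sum_nonneg fun v _ => mul_nonneg (hx u v) (Nat.cast_nonneg _)
    · exact mul_nonneg (hy u) (Nat.cast_nonneg _)
    · exact mul_nonneg hC0 (Finset.sum_nonneg fun X _ =>
        div_nonneg (le_max_left _ _) (Nat.cast_nonneg _))
  · have h1 : ∑ v, x u v * (d u v : ℝ) ≤ D * B * R := by
      have h2 : ∑ v, x u v * (d u v : ℝ) = ∑ v ∈ nbr u, x u v * (d u v : ℝ) := by
        symm
        refine Finset.sum_subset (Finset.subset_univ _) fun v _ hv => ?_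
        have : x u v = 0 := by
          by_contra h
          exact hv (hsup u v h)
        rw [this, zero_mul]
      rw [h2]
      have h3 : ∀ v ∈ nbr u, x u v * (d u v : ℝ) ≤ B * R := by
        intro v hv
        have h4 : (d u v : ℝ) ≤ R := by exact_mod_cast hR u v hv
        exact mul_le_mul (hxB u v) h4 (Nat.cast_nonneg _) hB
      refine (Finset.sum_le_card_nsmul _ _ _ h3).trans ?_
      rw [nsmul_eq_mul]
      have h5 : ((nbr u).card : ℝ) ≤ D := by exact_mod_cast hD u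
      have h6 : (0 : ℝ) ≤ B * R := by positivity
      calc ((nbr u).card : ℝ) * (B * R) ≤ D * (B * R) := mul_le_mul_of_nonneg_right h5 h6
        _ = D * B * R := by ring
    have h2 : y u * (f u : ℝ) ≤ B * R := by
      have h4 : (f u : ℝ) ≤ R := by exact_mod_cast hf u
      exact mul_le_mul (hyB u) h4 (Nat.cast_nonneg _) hB
    have h3 : ∑ X ∈ (Fam nbr S L).filter (fun X => u ∈ X), max 0 (2 - cutv x y X) / X.card ≤
        2 * 2 ^ ((D + 1) ^ L) := by
      have h4 : ∀ X ∈ (Fam nbr S L).filter (fun X => u ∈ X),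
          max 0 (2 - cutv x y X) / (X.card : ℝ) ≤ 2 := by
        intro X hX
        rw [Finset.mem_filter] at hX
        have hc : (1 : ℝ) ≤ X.card := by
          have := Finset.card_pos.2 ⟨u, hX.2⟩
          exact_mod_cast this
        have h5 : max 0 (2 - cutv x y X) ≤ 2 :=
          max_le (by norm_num) (by linarith [e1_cutv_nonneg x y hx hy X])
        have h6 : (0 : ℝ) ≤ max 0 (2 - cutv x y X) := le_max_left _ _
        exact (div_le_self h6 hc).trans h5
      refine (Finset.sum_le_card_nsmul _ _ _ h4).trans ?_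
      rw [nsmul_eq_mul, mul_comm]
      have h7 : ((((Fam nbr S L).filter (fun X => u ∈ X)).card : ℕ) : ℝ) ≤ 2 ^ ((D + 1) ^ L) := by
        exact_mod_cast fam_count nbr S L D hD u
      linarith
    have h4 := mul_le_mul_of_nonneg_left h3 hC0
    linarith

private theorem e1_cutv_eq (x : V → V → ℝ) (y : V → ℝ) (X : Finset V) :
    cutv x y X = ∑ u, (if u ∈ X then y u else 0) +
      ∑ u, ∑ v, (if ¬ (u ∈ X ↔ v ∈ X) then x u v else 0) := by
  have h1 : ∑ u, ∑ v, (if ¬ (u ∈ X ↔ v ∈ X) then x u v else 0) =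
      ∑ u, ∑ v, (if u ∈ X ∧ v ∉ X then x u v else 0) +
        ∑ u, ∑ v, (if v ∈ X ∧ u ∉ X then x u v else 0) := by
    rw [← Finset.sum_add_distrib]
    refine Finset.sum_congr rfl fun u _ => ?_
    rw [← Finset.sum_add_distrib]
    refine Finset.sum_congr rfl fun v _ => ?_
    by_cases hu : u ∈ X <;> by_cases hv : v ∈ X <;> simp [hu, hv]
  have h2 : ∑ u, ∑ v, (if v ∈ X ∧ u ∉ X then x u v else 0) =
      ∑ u, ∑ v, (if u ∈ X ∧ v ∉ X then x v u else 0) := Finset.sum_comm
  rw [h1, h2]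
  unfold cutv
  rw [Finset.sum_add_distrib]
  have h3 : ∑ u ∈ X, y u = ∑ u, (if u ∈ X then y u else 0) := by
    rw [Finset.sum_ite_mem]
    simp
  have h4 : ∑ u ∈ X, ∑ v ∈ univ.filter (fun v => v ∉ X), (x u v + x v u) =
      ∑ u, ∑ v, (if u ∈ X ∧ v ∉ X then x u v else 0) +
        ∑ u, ∑ v, (if u ∈ X ∧ v ∉ X then x v u else 0) := by
    rw [← Finset.sum_add_distrib]
    have h5 : ∀ u : V, (∑ v, (if u ∈ X ∧ v ∉ X then x u v else 0) +
        ∑ v, (if u ∈ X ∧ v ∉ X then x v u else 0)) =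
        if u ∈ X then ∑ v ∈ univ.filter (fun v => v ∉ X), (x u v + x v u) else 0 := by
      intro u
      by_cases hu : u ∈ X
      · rw [if_pos hu, Finset.sum_filter, ← Finset.sum_add_distrib]
        refine Finset.sum_congr rfl fun v _ => ?_
        by_cases hv : v ∈ X <;> simp [hu, hv]
      · rw [if_neg hu]
        simp [hu]
    rw [Finset.sum_congr rfl fun u _ => h5 u, Finset.sum_ite_mem]
    simp
  rw [h3, h4]

/-- The sum of the cut values over a family. -/
private theorem e1_sum_cutv (x : V → V → ℝ) (y : V → ℝ) (F : Finset (Finset V))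
    (P : Finset V → Prop) :
    ∑ X ∈ F.filter P, cutv x y X =
      ∑ u, y u * ((F.filter (fun X => u ∈ X ∧ P X)).card : ℝ) +
      ∑ u, ∑ v, x u v * ((F.filter (fun X => ¬ (u ∈ X ↔ v ∈ X) ∧ P X)).card : ℝ) := by
  simp_rw [e1_cutv_eq]
  rw [Finset.sum_add_distrib]
  congr 1
  · rw [Finset.sum_comm]
    refine Finset.sum_congr rfl fun u _ => ?_
    rw [← Finset.sum_filter, Finset.sum_const, nsmul_eq_mul, mul_comm, Finset.filter_filter]
    congr 3
    ext X
    simp only [Finset.mem_filter]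
    tauto
  · rw [Finset.sum_comm]
    refine Finset.sum_congr rfl fun u _ => ?_
    rw [Finset.sum_comm]
    refine Finset.sum_congr rfl fun v _ => ?_
    rw [← Finset.sum_filter, Finset.sum_const, nsmul_eq_mul, mul_comm, Finset.filter_filter]
    congr 3
    ext X
    simp only [Finset.mem_filter]
    tauto

private theorem e1_proj {a b : ℝ} (hb : 0 ≤ b) : (max 0 a - b) ^ 2 ≤ (a - b) ^ 2 := by
  rcases le_total 0 a with h | h
  · rw [max_eq_right h]
  · rw [max_eq_left h]
    nlinarith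

/-- One step of the descent. -/
private theorem e1_step (d : V → V → ℕ) (f : V → ℕ) (S : Finset V) (C0 al : ℝ) (hC0 : 0 ≤ C0)
    (hal : 0 < al) (nbr : V → Finset V) (L D R : ℕ) (hD : ∀ u, (nbr u).card ≤ D)
    (hR : ∀ u, ∀ v ∈ nbr u, d u v ≤ R) (hf : ∀ u, f u ≤ R)
    (x' : V → V → ℝ) (y' : V → ℝ) (hx : ∀ u v, 0 ≤ x' u v) (hy : ∀ u, 0 ≤ y' u)
    (hsup : ∀ u v, x' u v ≠ 0 → v ∈ nbr u) (hyS : ∀ u ∈ S, y' u = 0)
    (hcut : ∀ X ∈ Fam nbr S L, 2 ≤ cutv x' y' X)
    (x : V → V → ℝ) (y : V → ℝ)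
    (hsx : ∀ u v, x u v ≠ 0 → v ∈ nbr u) (hsy : ∀ u ∈ S, y u = 0) :
    (∑ u, ∑ v, (stepx d C0 al nbr (Fam nbr S L) x y u v - x' u v) ^ 2 +
        ∑ u, (stepy f S C0 al (Fam nbr S L) x y u - y' u) ^ 2) ≤
      (∑ u, ∑ v, (x u v - x' u v) ^ 2 + ∑ u, (y u - y' u) ^ 2) -
        2 * al * (Phi d f C0 (Fam nbr S L) x y - (∑ u, ∑ v, x' u v * d u v + ∑ u, y' u * f u)) +
        al ^ 2 * (Fintype.card V * (D + 1) * (R + 2 * C0 * 2 ^ ((D + 1) ^ L)) ^ 2) := by
  set F := Fam nbr S L with hF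
  set cp : V → V → ℝ := fun u v =>
    ((F.filter (fun X => ¬ (u ∈ X ↔ v ∈ X) ∧ cutv x y X < 2)).card : ℝ) with hcp
  set cq : V → ℝ := fun u => ((F.filter (fun X => u ∈ X ∧ cutv x y X < 2)).card : ℝ) with hcq
  set g : V → V → ℝ := fun u v => (d u v : ℝ) - C0 * cp u v with hg
  set h : V → ℝ := fun u => (f u : ℝ) - C0 * cq u with hh
  set G : ℝ := R + 2 * C0 * 2 ^ ((D + 1) ^ L) with hG
  have hG0 : 0 ≤ G := by rw [hG]; positivity
  have hx0 : ∀ u v, v ∉ nbr u → x u v = 0 := fun u v hv => by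
    by_contra hc; exact hv (hsx u v hc)
  have hx0' : ∀ u v, v ∉ nbr u → x' u v = 0 := fun u v hv => by
    by_contra hc; exact hv (hsup u v hc)
  -- bounds for the gradient
  have hgG : ∀ u, ∀ v ∈ nbr u, g u v ^ 2 ≤ G ^ 2 := by
    intro u v hv
    have h1 : (d u v : ℝ) ≤ R := by exact_mod_cast hR u v hv
    have h2 : (0 : ℝ) ≤ d u v := Nat.cast_nonneg _
    have h3 : cp u v ≤ 2 * 2 ^ ((D + 1) ^ L) := e1_count_pair nbr S L D hD x y u v
    have h4 : 0 ≤ cp u v := Nat.cast_nonneg _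
    have h5 := mul_le_mul_of_nonneg_left h3 hC0
    have h6 := mul_nonneg hC0 h4
    have h7 : (0 : ℝ) ≤ R := Nat.cast_nonneg _
    have h8 : 0 ≤ C0 * (2 * 2 ^ ((D + 1) ^ L)) := by positivity
    refine sq_le_sq' ?_ ?_
    · rw [hG]; simp only [hg]; linarith
    · rw [hG]; simp only [hg]; linarith
  have hhG : ∀ u, h u ^ 2 ≤ G ^ 2 := by
    intro u
    have h1 : (f u : ℝ) ≤ R := by exact_mod_cast hf u
    have h2 : (0 : ℝ) ≤ f u := Nat.cast_nonneg _
    have h3 : cq u ≤ 2 * 2 ^ ((D + 1) ^ L) := e1_count_one nbr S L D hD x y u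
    have h4 : 0 ≤ cq u := Nat.cast_nonneg _
    have h5 := mul_le_mul_of_nonneg_left h3 hC0
    have h6 := mul_nonneg hC0 h4
    have h7 : (0 : ℝ) ≤ R := Nat.cast_nonneg _
    have h8 : 0 ≤ C0 * (2 * 2 ^ ((D + 1) ^ L)) := by positivity
    refine sq_le_sq' ?_ ?_
    · rw [hG]; simp only [hh]; linarith
    · rw [hG]; simp only [hh]; linarith
  -- pair variables
  have hX : ∑ u, ∑ v, (stepx d C0 al nbr F x y u v - x' u v) ^ 2 ≤
      ∑ u, ∑ v, (x u v - x' u v) ^ 2 - 2 * al * ∑ u, ∑ v, g u v * (x u v - x' u v) +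
        al ^ 2 * (Fintype.card V * (D * G ^ 2)) := by
    have h1 : ∀ u, ∑ v, (stepx d C0 al nbr F x y u v - x' u v) ^ 2 ≤
        ∑ v, (x u v - x' u v) ^ 2 - 2 * al * ∑ v, g u v * (x u v - x' u v) +
          al ^ 2 * (D * G ^ 2) := by
      intro u
      have h2 : ∀ v, (stepx d C0 al nbr F x y u v - x' u v) ^ 2 ≤
          (x u v - x' u v) ^ 2 - 2 * al * (g u v * (x u v - x' u v)) +
            al ^ 2 * (if v ∈ nbr u then G ^ 2 else 0) := by
        intro v
        by_cases hv : v ∈ nbr u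
        · have h3 : stepx d C0 al nbr F x y u v = max 0 (x u v - al * g u v) := by
            unfold stepx
            rw [if_pos hv]
          rw [h3, if_pos hv]
          refine (e1_proj (hx u v)).trans ?_
          have h4 := hgG u v hv
          have h5 := mul_le_mul_of_nonneg_left h4 (sq_nonneg al)
          nlinarith
        · have h3 : stepx d C0 al nbr F x y u v = 0 := by
            unfold stepx
            rw [if_neg hv]
          rw [h3, if_neg hv, hx0 u v hv, hx0' u v hv]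
          simp
      refine (Finset.sum_le_sum fun v _ => h2 v).trans ?_
      rw [Finset.sum_add_distrib, Finset.sum_sub_distrib, ← Finset.mul_sum, ← Finset.mul_sum]
      have h6 : ∑ v, (if v ∈ nbr u then G ^ 2 else 0) ≤ D * G ^ 2 := by
        rw [Finset.sum_ite_mem, Finset.sum_const, nsmul_eq_mul]
        simp only [Finset.univ_inter]
        have : ((nbr u).card : ℝ) ≤ D := by exact_mod_cast hD u
        exact mul_le_mul_of_nonneg_right this (sq_nonneg _)
      have h7 := mul_le_mul_of_nonneg_left h6 (sq_nonneg al)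
      linarith
    refine (Finset.sum_le_sum fun u _ => h1 u).trans (le_of_eq ?_)
    rw [Finset.sum_add_distrib, Finset.sum_sub_distrib, ← Finset.mul_sum, Finset.sum_const,
      Finset.card_univ, nsmul_eq_mul]
    ring
  -- link variables
  have hY : ∑ u, (stepy f S C0 al F x y u - y' u) ^ 2 ≤
      ∑ u, (y u - y' u) ^ 2 - 2 * al * ∑ u, h u * (y u - y' u) +
        al ^ 2 * (Fintype.card V * G ^ 2) := by
    have h2 : ∀ u, (stepy f S C0 al F x y u - y' u) ^ 2 ≤
        (y u - y' u) ^ 2 - 2 * al * (h u * (y u - y' u)) + al ^ 2 * G ^ 2 := by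
      intro u
      by_cases hu : u ∈ S
      · have h3 : stepy f S C0 al F x y u = 0 := by
          unfold stepy
          rw [if_neg (not_not.2 hu)]
        rw [h3, hsy u hu, hyS u hu]
        have : 0 ≤ al ^ 2 * G ^ 2 := by positivity
        simpa using this
      · have h3 : stepy f S C0 al F x y u = max 0 (y u - al * h u) := by
          unfold stepy
          rw [if_pos hu]
        rw [h3]
        refine (e1_proj (hy u)).trans ?_
        have h5 := mul_le_mul_of_nonneg_left (hhG u) (sq_nonneg al)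
        nlinarith
    refine (Finset.sum_le_sum fun u _ => h2 u).trans (le_of_eq ?_)
    rw [Finset.sum_add_distrib, Finset.sum_sub_distrib, ← Finset.mul_sum, Finset.sum_const,
      Finset.card_univ, nsmul_eq_mul]
    ring
  -- convexity
  have hconv : Phi d f C0 F x y - (∑ u, ∑ v, x' u v * d u v + ∑ u, y' u * f u) ≤
      ∑ u, ∑ v, g u v * (x u v - x' u v) + ∑ u, h u * (y u - y' u) := by
    have h1 : ∑ X ∈ F, max 0 (2 - cutv x y X) ≤
        ∑ X ∈ F.filter (fun X => cutv x y X < 2), (cutv x' y' X - cutv x y X) := by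
      rw [Finset.sum_filter]
      refine Finset.sum_le_sum fun X hX => ?_
      by_cases hc : cutv x y X < 2
      · rw [if_pos hc]
        refine max_le ?_ ?_
        · linarith [hcut X hX]
        · linarith [hcut X hX]
      · rw [if_neg hc]
        exact max_le le_rfl (by linarith)
    rw [Finset.sum_sub_distrib, e1_sum_cutv, e1_sum_cutv] at h1
    have h2 := mul_le_mul_of_nonneg_left h1 hC0
    have e1 : ∑ u, ∑ v, g u v * (x u v - x' u v) =
        ∑ u, ∑ v, x u v * (d u v : ℝ) - ∑ u, ∑ v, x' u v * (d u v : ℝ) -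
        C0 * (∑ u, ∑ v, x u v * cp u v - ∑ u, ∑ v, x' u v * cp u v) := by
      rw [← Finset.sum_sub_distrib, ← Finset.sum_sub_distrib, Finset.mul_sum,
        ← Finset.sum_sub_distrib]
      refine Finset.sum_congr rfl fun u _ => ?_
      rw [← Finset.sum_sub_distrib, ← Finset.sum_sub_distrib, Finset.mul_sum,
        ← Finset.sum_sub_distrib]
      refine Finset.sum_congr rfl fun v _ => ?_
      simp only [hg]
      ring
    have e2 : ∑ u, h u * (y u - y' u) =
        ∑ u, y u * (f u : ℝ) - ∑ u, y' u * (f u : ℝ) -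
        C0 * (∑ u, y u * cq u - ∑ u, y' u * cq u) := by
      rw [← Finset.sum_sub_distrib, ← Finset.sum_sub_distrib, Finset.mul_sum,
        ← Finset.sum_sub_distrib]
      refine Finset.sum_congr rfl fun u _ => ?_
      simp only [hh]
      ring
    rw [e1, e2]
    unfold Phi
    simp only [hcp, hcq]
    linarith
  have hfin : 2 * al * (Phi d f C0 F x y - (∑ u, ∑ v, x' u v * d u v + ∑ u, y' u * f u)) ≤
      2 * al * (∑ u, ∑ v, g u v * (x u v - x' u v) + ∑ u, h u * (y u - y' u)) :=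
    mul_le_mul_of_nonneg_left hconv (by linarith)
  have hlast : al ^ 2 * (Fintype.card V * (D + 1) * G ^ 2) =
      al ^ 2 * (Fintype.card V * (D * G ^ 2)) + al ^ 2 * (Fintype.card V * G ^ 2) := by ring
  rw [hlast]
  linarith

theorem subgrad (d : V → V → ℕ) (f : V → ℕ) (S : Finset V) (C0 al : ℝ) (hC0 : 0 ≤ C0) (hal : 0 < al)
    (nbr : V → Finset V) (L D R : ℕ) (hD : ∀ u, (nbr u).card ≤ D)
    (hR : ∀ u, ∀ v ∈ nbr u, d u v ≤ R) (hf : ∀ u, f u ≤ R) (K : ℕ)
    (x' : V → V → ℝ) (y' : V → ℝ) (hx : ∀ u v, 0 ≤ x' u v) (hy : ∀ u, 0 ≤ y' u)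
    (hsup : ∀ u v, x' u v ≠ 0 → v ∈ nbr u) (hyS : ∀ u ∈ S, y' u = 0)
    (hcut : ∀ X ∈ Fam nbr S L, 2 ≤ cutv x' y' X) :
    ∑ k ∈ range K, Phi d f C0 (Fam nbr S L) (itz d f S C0 al nbr (Fam nbr S L) k).1
        (itz d f S C0 al nbr (Fam nbr S L) k).2 ≤
      K * (∑ u, ∑ v, x' u v * d u v + ∑ u, y' u * f u) +
        (∑ u, ∑ v, x' u v ^ 2 + ∑ u, y' u ^ 2) / (2 * al) +
        K * (al / 2 * (Fintype.card V * (D + 1) * (R + 2 * C0 * 2 ^ ((D + 1) ^ L)) ^ 2)) := by
  set F := Fam nbr S L with hF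
  set OPT : ℝ := ∑ u, ∑ v, x' u v * d u v + ∑ u, y' u * f u with hOPT
  set W : ℝ := Fintype.card V * (D + 1) * (R + 2 * C0 * 2 ^ ((D + 1) ^ L)) ^ 2 with hW
  set Δ : ℕ → ℝ := fun k => ∑ u, ∑ v, ((itz d f S C0 al nbr F k).1 u v - x' u v) ^ 2 +
    ∑ u, ((itz d f S C0 al nbr F k).2 u - y' u) ^ 2 with hΔ
  have hstep : ∀ k, Δ (k + 1) ≤ Δ k - 2 * al * (Phi d f C0 F (itz d f S C0 al nbr F k).1
      (itz d f S C0 al nbr F k).2 - OPT) + al ^ 2 * W := by
    intro k
    exact e1_step d f S C0 al hC0 hal nbr L D R hD hR hf x' y' hx hy hsup hyS hcut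
      (itz d f S C0 al nbr F k).1 (itz d f S C0 al nbr F k).2
      (itz_supp d f S C0 al nbr F k).1 (itz_supp d f S C0 al nbr F k).2
  have hsum : ∀ K : ℕ, 2 * al * ∑ k ∈ range K, Phi d f C0 F (itz d f S C0 al nbr F k).1
      (itz d f S C0 al nbr F k).2 ≤ 2 * al * (K * OPT) + (Δ 0 - Δ K) + K * (al ^ 2 * W) := by
    intro K
    induction K with
    | zero => simp
    | succ K ih =>
      rw [Finset.sum_range_succ]
      have := hstep K
      push_cast
      linarith
  have hΔ0 : Δ 0 = ∑ u, ∑ v, x' u v ^ 2 + ∑ u, y' u ^ 2 := by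
    simp only [hΔ, itz, zero_sub, neg_sq]
  have hΔK : 0 ≤ Δ K := by
    simp only [hΔ]
    exact add_nonneg (Finset.sum_nonneg fun u _ => Finset.sum_nonneg fun v _ => sq_nonneg _)
      (Finset.sum_nonneg fun u _ => sq_nonneg _)
  have h1 := hsum K
  rw [hΔ0] at h1
  have h2 : (0 : ℝ) < 2 * al := by linarith
  refine le_of_mul_le_mul_left ?_ h2
  have h3 : 2 * al * (K * OPT + (∑ u, ∑ v, x' u v ^ 2 + ∑ u, y' u ^ 2) / (2 * al) +
      K * (al / 2 * W)) = 2 * al * (K * OPT) + (∑ u, ∑ v, x' u v ^ 2 + ∑ u, y' u ^ 2) +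
      K * (al ^ 2 * W) := by
    field_simp
  rw [h3]
  linarith

end H82.TQ
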