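import Pool.Agent.H82.TQ.Defs

/-!
# TQ F1: calculus of row query algorithms

Define a monadic bind on `RC` by recursion, with `eval` and `used` additive. In `comp_bind'` use the given algorithm for
`G a` if `Q a` holds and any algorithm otherwise. `comp_finset`: compute `A d`, then go through its elements
(`Finset.toList`) one after the other. `comp_rows`: special case of `comp_finset` with a constant set.
`comp_comap`: replace every answer `r` for the row of `v` by `ψ v r`.
-/

set_option autoImplicit false

open Finset Classical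

namespace H82.TQ

variable {V R R' α β σ ι : Type} {P : (V → V → R) → Prop}

namespace RC

/-- sequential composition -/
def bnd : RC V R α → (α → RC V R β) → RC V R β
  | pure a, g => g a
  | ask v k, g => ask v (fun r => bnd (k r) g)

theorem eval_bnd (d : V → V → R) (p : RC V R α) (g : α → RC V R β) :
    (bnd p g).eval d = (g (p.eval d)).eval d := by
  induction p with
  | pure a => rfl
  | ask v k ih => exact ih (d v)

theorem used_bnd (d : V → V → R) (p : RC V R α) (g : α → RC V R β) :
    (bnd p g).used d = p.used d + (g (p.eval d)).used d := by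
  induction p with
  | pure a => simp [bnd, used, eval]
  | ask v k ih =>
      have h := ih (d v)
      simp only [bnd, used, eval] at h ⊢
      omega

/-- change of the answers -/
def cmap (ψ : V → (V → R) → (V → R')) : RC V R' α → RC V R α
  | pure a => pure a
  | ask v k => ask v (fun r => cmap ψ (k (ψ v r)))

theorem eval_cmap (ψ : V → (V → R) → (V → R')) (d : V → V → R) (p : RC V R' α) :
    (cmap ψ p).eval d = p.eval (fun v => ψ v (d v)) := by
  induction p with
  | pure a => rfl
  | ask v k ih => exact ih (ψ v (d v))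

theorem used_cmap (ψ : V → (V → R) → (V → R')) (d : V → V → R) (p : RC V R' α) :
    (cmap ψ p).used d = p.used (fun v => ψ v (d v)) := by
  induction p with
  | pure a => rfl
  | ask v k ih =>
      have h := ih (ψ v (d v))
      simp only [cmap, used] at h ⊢
      omega

end RC

theorem comp_const (a : α) : Comp P (fun _ => a) 0 :=
  ⟨RC.pure a, fun _ _ => ⟨rfl, le_rfl⟩⟩

theorem comp_row (v : V) : Comp P (fun d => d v) 1 :=
  ⟨RC.ask v (fun r => RC.pure r), fun _ _ => ⟨rfl, le_rfl⟩⟩

theorem comp_mono {F : (V → V → R) → α} {q q' : ℕ} (h : Comp P F q) (hq : q ≤ q') : Comp P F q' := by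
  obtain ⟨p, hp⟩ := h
  exact ⟨p, fun d hd => ⟨(hp d hd).1, (hp d hd).2.trans hq⟩⟩

theorem comp_congr {F F' : (V → V → R) → α} {q : ℕ} (h : Comp P F q) (he : ∀ d, P d → F d = F' d) :
    Comp P F' q := by
  obtain ⟨p, hp⟩ := h
  exact ⟨p, fun d hd => ⟨(hp d hd).1.trans (he d hd), (hp d hd).2⟩⟩

theorem comp_map {F : (V → V → R) → α} {q : ℕ} (h : Comp P F q) (g : α → β) :
    Comp P (fun d => g (F d)) q := by
  obtain ⟨p, hp⟩ := h
  refine ⟨RC.bnd p (fun a => RC.pure (g a)), fun d hd => ?_⟩
  rw [RC.eval_bnd, RC.used_bnd]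
  obtain ⟨h1, h2⟩ := hp d hd
  rw [h1]
  exact ⟨rfl, h2⟩

theorem comp_bind {F : (V → V → R) → α} {G : α → (V → V → R) → β} {q q' : ℕ} (h : Comp P F q)
    (h' : ∀ a, Comp P (G a) q') : Comp P (fun d => G (F d) d) (q + q') := by
  obtain ⟨p, hp⟩ := h
  choose p' hp' using h'
  refine ⟨RC.bnd p p', fun d hd => ?_⟩
  rw [RC.eval_bnd, RC.used_bnd]
  obtain ⟨h1, h2⟩ := hp d hd
  rw [h1]
  exact ⟨(hp' _ d hd).1, Nat.add_le_add h2 (hp' _ d hd).2⟩

/-- bind where the second cost bound is only known for the possible values -/
theorem comp_bind' {F : (V → V → R) → α} {G : α → (V → V → R) → β} {q q' : ℕ} (Q : α → Prop)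
    (h : Comp P F q) (hQ : ∀ d, P d → Q (F d)) (h' : ∀ a, Q a → Comp P (G a) q') :
    Comp P (fun d => G (F d) d) (q + q') := by
  by_cases hne : Nonempty (V → V → R)
  · obtain ⟨d0⟩ := hne
    obtain ⟨p, hp⟩ := h
    have h'' : ∀ a, ∃ p' : RC V R β, Q a → ∀ d, P d → p'.eval d = G a d ∧ p'.used d ≤ q' := by
      intro a
      by_cases ha : Q a
      · obtain ⟨p', hp'⟩ := h' a ha
        exact ⟨p', fun _ => hp'⟩
      · exact ⟨RC.pure (G (F d0) d0), fun h => absurd h ha⟩
    choose p' hp' using h''
    refine ⟨RC.bnd p p', fun d hd => ?_⟩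
    rw [RC.eval_bnd, RC.used_bnd]
    obtain ⟨h1, h2⟩ := hp d hd
    rw [h1]
    exact ⟨(hp' _ (hQ d hd) d hd).1, Nat.add_le_add h2 (hp' _ (hQ d hd) d hd).2⟩
  · have hV : ∃ v : V, ¬ Nonempty (V → R) := by
      by_contra hcon
      push Not at hcon
      exact hne ⟨fun v => (hcon v).some⟩
    obtain ⟨v, hv⟩ := hV
    refine ⟨RC.ask v (fun r => absurd ⟨r⟩ hv), fun d _ => absurd ⟨d⟩ hne⟩

theorem comp_pair {F : (V → V → R) → α} {G : (V → V → R) → β} {q q' : ℕ} (h : Comp P F q)
    (h' : Comp P G q') : Comp P (fun d => (F d, G d)) (q + q') :=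
  comp_bind (G := fun a d => (a, G d)) h (fun a => comp_map h' (fun b => (a, b)))

theorem comp_ite {C : (V → V → R) → Prop} {F G : (V → V → R) → α} {q q' : ℕ}
    (hC : Comp P (fun d => decide (C d)) q) (hF : Comp P F q') (hG : Comp P G q') :
    Comp P (fun d => if C d then F d else G d) (q + q') := by
  have h := comp_bind (G := fun (b : Bool) d => if b = true then F d else G d) hC (by
    intro b
    cases b
    · simpa using hG
    · simpa using hF)
  refine comp_congr h (fun d _ => ?_)
  by_cases hc : C d <;> simp [hc]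

theorem comp_finset_const (A : Finset ι) {g : ι → (V → V → R) → β} {q' : ℕ} (b : β)
    (hg : ∀ i, Comp P (g i) q') :
    Comp P (fun d => fun i => if i ∈ A then g i d else b) (A.card * q') := by
  induction A using Finset.induction_on with
  | empty =>
      have := comp_const (P := P) (fun _ : ι => b)
      simpa using this
  | insert i A hi ih =>
      have h := comp_map (comp_pair (hg i) ih) (fun (x : β × (ι → β)) => fun j => if j = i then x.1 else x.2 j)
      rw [Finset.card_insert_of_notMem hi]
      refine comp_mono (comp_congr h (fun d _ => ?_)) (by rw [Nat.add_mul, one_mul, Nat.add_comm])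
      funext j
      by_cases hj : j = i
      · subst hj; simp
      · simp [hj]

/-- evaluate a family on a computed finite set -/
theorem comp_finset {A : (V → V → R) → Finset ι} {g : ι → (V → V → R) → β} {q q' m : ℕ} (b : β)
    (hA : Comp P A q) (hm : ∀ d, P d → (A d).card ≤ m) (hg : ∀ i, Comp P (g i) q') :
    Comp P (fun d => fun i => if i ∈ A d then g i d else b) (q + m * q') := by
  refine comp_bind' (G := fun (A : Finset ι) d => fun i => if i ∈ A then g i d else b)
    (fun A => A.card ≤ m) hA hm (fun A hA => ?_)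
  exact comp_mono (comp_finset_const A b hg) (Nat.mul_le_mul_right _ hA)

/-- rows of a fixed finite set -/
theorem comp_rows (U : Finset V) (r : R) :
    Comp P (fun d => fun a b => if a ∈ U then d a b else r) U.card := by
  have h := comp_finset_const (P := P) U (g := fun a d => d a) (fun _ => r) (fun a => comp_row a)
  rw [mul_one] at h
  refine comp_congr h (fun d _ => ?_)
  funext a b
  by_cases ha : a ∈ U <;> simp [ha]

theorem comp_foldl {st : σ → ι → (V → V → R) → σ} {q : ℕ} (hst : ∀ s i, Comp P (st s i) q) (l : List ι)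
    (s0 : σ) : Comp P (fun d => l.foldl (fun s i => st s i d) s0) (l.length * q) := by
  induction l generalizing s0 with
  | nil => simpa using comp_const (P := P) s0
  | cons i l ih =>
      have h := comp_bind (G := fun s d => l.foldl (fun s i => st s i d) s) (hst s0 i) (fun s => ih s)
      refine comp_mono h ?_
      simp only [List.length_cons]
      rw [Nat.add_mul, one_mul, Nat.add_comm]

/-- a list of computations -/
theorem comp_list {g : ι → (V → V → R) → β} {q : ℕ} (hg : ∀ i, Comp P (g i) q) (l : List ι) :
    Comp P (fun d => l.map (fun i => g i d)) (l.length * q) := by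
  induction l with
  | nil => simpa using comp_const (P := P) ([] : List β)
  | cons i l ih =>
      have h := comp_map (comp_pair (hg i) ih) (fun x => x.1 :: x.2)
      refine comp_mono h ?_
      simp only [List.length_cons]
      rw [Nat.add_mul, one_mul, Nat.add_comm]

theorem comp_comap {P' : (V → V → R') → Prop} {F : (V → V → R') → α} {q : ℕ} (ψ : V → (V → R) → (V → R'))
    (h : Comp P' F q) (hP : ∀ d, P d → P' (fun v => ψ v (d v))) :
    Comp P (fun d => F (fun v => ψ v (d v))) q := by
  obtain ⟨p, hp⟩ := h
  refine ⟨RC.cmap ψ p, fun d hd => ?_⟩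
  rw [RC.eval_cmap, RC.used_cmap]
  exact hp _ (hP d hd)

end H82.TQ
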