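import Pool.Agent.H82.TQ.F1

/-!
# TQ F2: exploring small components

`A_0 = {u}`, `A_{i+1} = A_i ∪ {b : ∃ a ∈ A_i, d a b ≤ s}` if `|A_i| ≤ L` (ask for the rows of `A_i`), else `A_i`.
After `L + 1` rounds: if `|A| ≤ L` then `A` is stable and equal to the component.
-/

set_option autoImplicit false

open Finset Classical

namespace H82.TQ

/-- functions depending on the rows of a fixed finite set only -/
theorem comp_of_rows {V R α : Type} {P : (V → V → R) → Prop} (U : Finset V) (r : R)
    {F : (V → V → R) → α} (G : (V → V → R) → α)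
    (h : ∀ d D, P d → (∀ a ∈ U, D a = d a) → G D = F d) : Comp P F U.card := by
  refine comp_congr (comp_map (comp_rows U r) G) (fun d hd => h d _ hd ?_)
  intro a ha
  funext b
  rw [if_pos ha]

/-- one round of the exploration of a component -/
noncomputable def expl {n : ℕ} (d : Fin n → Fin n → ℕ) (s L : ℕ) (A : Finset (Fin n)) : Finset (Fin n) :=
  if A.card ≤ L then A ∪ univ.filter (fun b => ∃ a ∈ A, d a b ≤ s) else A

/-- the explored sets -/
noncomputable def explI {n : ℕ} (d : Fin n → Fin n → ℕ) (s L : ℕ) (u : Fin n) : ℕ → Finset (Fin n)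
  | 0 => {u}
  | i + 1 => expl d s L (explI d s L u i)

theorem subset_expl {n : ℕ} (d : Fin n → Fin n → ℕ) (s L : ℕ) (A : Finset (Fin n)) : A ⊆ expl d s L A := by
  unfold expl
  split_ifs
  · exact subset_union_left
  · exact subset_rfl

theorem explI_subset_cmp {n : ℕ} (d : Fin n → Fin n → ℕ) (s L : ℕ) (u : Fin n) (i : ℕ) :
    explI d s L u i ⊆ cmp d s u := by
  induction i with
  | zero =>
      intro x hx
      simp only [explI, mem_singleton] at hx
      subst hx
      simp only [cmp, mem_filter, mem_univ, true_and]
      exact Relation.ReflTransGen.refl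
  | succ i ih =>
      intro x hx
      simp only [explI, expl] at hx
      split_ifs at hx with hc
      · rw [mem_union] at hx
        rcases hx with hx | hx
        · exact ih hx
        · simp only [mem_filter, mem_univ, true_and] at hx
          obtain ⟨a, ha, hax⟩ := hx
          have h := ih ha
          simp only [cmp, mem_filter, mem_univ, true_and] at h ⊢
          exact Relation.ReflTransGen.tail h hax
      · exact ih hx

theorem explI_mono {n : ℕ} (d : Fin n → Fin n → ℕ) (s L : ℕ) (u : Fin n) {i j : ℕ} (hij : i ≤ j) :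
    explI d s L u i ⊆ explI d s L u j := by
  induction hij with
  | refl => exact subset_rfl
  | step _ ih => exact ih.trans (subset_expl _ _ _ _)

theorem explI_stable {n : ℕ} (d : Fin n → Fin n → ℕ) (s L : ℕ) (u : Fin n) {i : ℕ}
    (h : explI d s L u (i + 1) = explI d s L u i) (j : ℕ) (hij : i ≤ j) :
    explI d s L u j = explI d s L u i := by
  induction hij with
  | refl => rfl
  | step _ ih => rw [explI, ih]; exact h

theorem explI_card {n : ℕ} (d : Fin n → Fin n → ℕ) (s L : ℕ) (u : Fin n) (i : ℕ)
    (h : ∀ k < i, explI d s L u (k + 1) ≠ explI d s L u k) : i + 1 ≤ (explI d s L u i).card := by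
  induction i with
  | zero => simp [explI]
  | succ i ih =>
      have h1 := ih (fun k hk => h k (by omega))
      have h2 : (explI d s L u i).card < (explI d s L u (i + 1)).card := by
        apply card_lt_card
        rw [ssubset_iff_subset_ne]
        exact ⟨explI_mono d s L u (Nat.le_succ i), (h i (by omega)).symm⟩
      omega

theorem cmp_subset_of_closed {n : ℕ} (d : Fin n → Fin n → ℕ) (s : ℕ) (u : Fin n) (A : Finset (Fin n))
    (hu : u ∈ A) (hA : ∀ a ∈ A, ∀ b, d a b ≤ s → b ∈ A) : cmp d s u ⊆ A := by
  intro x hx
  simp only [cmp, mem_filter, mem_univ, true_and] at hx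
  induction hx with
  | refl => exact hu
  | tail _ h ih => exact hA _ ih _ h

theorem explI_last {n : ℕ} (d : Fin n → Fin n → ℕ) (s L : ℕ) (u : Fin n) :
    (if (explI d s L u (L + 1)).card ≤ L then some (explI d s L u (L + 1)) else none) =
      (if (cmp d s u).card ≤ L then some (cmp d s u) else none) := by
  by_cases hc : (explI d s L u (L + 1)).card ≤ L
  · have hstab : ∃ k < L + 1, explI d s L u (k + 1) = explI d s L u k := by
      by_contra hcon
      push Not at hcon
      have := explI_card d s L u (L + 1) hcon
      omega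
    obtain ⟨k, hk, hk1⟩ := hstab
    have hL : explI d s L u (L + 1) = explI d s L u k := explI_stable d s L u hk1 (L + 1) (by omega)
    have hkc : (explI d s L u k).card ≤ L := hL ▸ hc
    have heq : cmp d s u = explI d s L u (L + 1) := by
      apply subset_antisymm _ (explI_subset_cmp _ _ _ _ _)
      rw [hL]
      apply cmp_subset_of_closed
      · exact explI_mono d s L u (Nat.zero_le k) (by simp [explI])
      · intro a ha b hab
        rw [← hk1]
        simp only [explI, expl, if_pos hkc, mem_union, mem_filter, mem_univ, true_and]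
        exact Or.inr ⟨a, ha, hab⟩
    rw [heq]
  · have h2 : ¬ (cmp d s u).card ≤ L := by
      intro h
      exact hc ((card_le_card (explI_subset_cmp d s L u (L + 1))).trans h)
    rw [if_neg hc, if_neg h2]

theorem comp_expl {n : ℕ} (s L : ℕ) (A : Finset (Fin n)) :
    Comp (NMet (V := Fin n)) (fun d => expl d s L A) L := by
  by_cases hA : A.card ≤ L
  · refine comp_mono (comp_of_rows A 0 (fun D => expl D s L A) (fun d D _ hD => ?_)) hA
    unfold expl
    rw [if_pos hA, if_pos hA]
    congr 1
    apply filter_congr
    intro b _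
    constructor
    · rintro ⟨a, ha, h⟩
      rw [hD a ha] at h
      exact ⟨a, ha, h⟩
    · rintro ⟨a, ha, h⟩
      exact ⟨a, ha, by rw [hD a ha]; exact h⟩
  · refine comp_mono (comp_congr (comp_const A) (fun d _ => ?_)) (Nat.zero_le L)
    unfold expl
    rw [if_neg hA]

theorem comp_explI {n : ℕ} (s L : ℕ) (u : Fin n) (i : ℕ) :
    Comp (NMet (V := Fin n)) (fun d => explI d s L u i) (i * L) := by
  induction i with
  | zero =>
      rw [Nat.zero_mul]
      exact comp_const (P := NMet (V := Fin n)) ({u} : Finset (Fin n))
  | succ i ih =>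
      refine comp_mono (comp_bind (G := fun A d => expl d s L A) ih (fun A => comp_expl s L A)) ?_
      rw [Nat.add_mul, one_mul]

theorem comp_cmp {n : ℕ} (s L : ℕ) (u : Fin n) :
    Comp (NMet (V := Fin n)) (fun d => if (cmp d s u).card ≤ L then some (cmp d s u) else none)
      ((L + 1) * (L + 1)) := by
  refine comp_mono (comp_congr (comp_map (comp_explI s L u (L + 1))
    (fun A => if A.card ≤ L then some A else none)) (fun d _ => ?_))
    (Nat.mul_le_mul_left _ (Nat.le_succ L))
  exact explI_last d s L u

theorem comp_gstep {n : ℕ} (s t L : ℕ) (I : Finset (Fin n)) (a : Fin n) :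
    Comp (NMet (V := Fin n)) (fun d => gstep d s t L I a) ((L + 1) * (L + 2)) := by
  have h := comp_bind' (P := NMet (V := Fin n))
    (G := fun (c : Option (Finset (Fin n))) d => match c with
      | none => I
      | some C => if (∀ x ∈ C, a ≤ x) ∧ ∀ x ∈ C, ∀ y ∈ I, t < d x y then I ∪ C else I)
    (q' := L)
    (fun c => ∀ C, c = some C → C.card ≤ L) (comp_cmp s L a) (by
      intro d _ C hC
      split_ifs at hC with h1
      simp only [Option.some.injEq] at hC
      rw [← hC]; exact h1) (by
      intro c hc
      cases c with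
      | none => exact comp_mono (comp_const I) (Nat.zero_le L)
      | some C =>
          refine comp_mono (comp_of_rows C 0
            (fun D => if (∀ x ∈ C, a ≤ x) ∧ ∀ x ∈ C, ∀ y ∈ I, t < D x y then I ∪ C else I)
            (fun d D _ hD => ?_)) (hc C rfl)
          have : ((∀ x ∈ C, a ≤ x) ∧ ∀ x ∈ C, ∀ y ∈ I, t < D x y) ↔
              ((∀ x ∈ C, a ≤ x) ∧ ∀ x ∈ C, ∀ y ∈ I, t < d x y) := by
            refine and_congr Iff.rfl ?_
            refine forall_congr' fun x => forall_congr' fun hx => ?_
            rw [hD x hx]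
          by_cases hq : ((∀ x ∈ C, a ≤ x) ∧ ∀ x ∈ C, ∀ y ∈ I, t < d x y)
          · simp only [if_pos hq, if_pos (this.2 hq)]
          · simp only [if_neg hq, if_neg (fun h => hq (this.1 h))])
  refine comp_mono (comp_congr h (fun d _ => ?_)) (by nlinarith)
  unfold gstep validU
  by_cases h1 : (cmp d s a).card ≤ L
  · simp only [if_pos h1]
    congr 1
    simp [h1]
  · simp [h1]

/-- the greedy process -/
theorem comp_greedy {n : ℕ} (s t L : ℕ) (l : List (Fin n)) :
    Comp (NMet (V := Fin n)) (fun d => greedy d s t L l) (l.length * ((L + 1) * (L + 2))) := by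
  exact comp_foldl (st := fun I a d => gstep d s t L I a) (fun I a => comp_gstep s t L I a) l ∅

theorem gstep_card {n : ℕ} (d : Fin n → Fin n → ℕ) (s t L : ℕ) (I : Finset (Fin n)) (a : Fin n) :
    (gstep d s t L I a).card ≤ I.card + L := by
  unfold gstep
  split_ifs with h
  · exact (card_union_le _ _).trans (Nat.add_le_add_left h.1.1 _)
  · omega

theorem foldl_gstep_card {n : ℕ} (d : Fin n → Fin n → ℕ) (s t L : ℕ) (l : List (Fin n))
    (I : Finset (Fin n)) : (l.foldl (gstep d s t L) I).card ≤ I.card + l.length * L := by
  induction l generalizing I with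
  | nil => simp
  | cons a l ih =>
      simp only [List.foldl_cons, List.length_cons]
      refine (ih _).trans ?_
      have := gstep_card d s t L I a
      rw [Nat.add_mul, one_mul]
      omega

/-- greedy process and the vertices near to the taken ones (use `greedy_card_le`) -/
theorem comp_Hv {n : ℕ} (s t L : ℕ) (l : List (Fin n)) :
    Comp (NMet (V := Fin n)) (fun d => Hv d t (greedy d s t L l))
      (l.length * ((L + 1) * (L + 2)) + l.length * L) := by
  refine comp_bind' (G := fun I d => Hv d t I) (fun I => I.card ≤ l.length * L)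
    (comp_greedy s t L l) (fun d _ => ?_) (fun I hI => ?_)
  · have := foldl_gstep_card d s t L l ∅
    simpa [greedy] using this
  · refine comp_mono (comp_of_rows I 0
      (fun D => univ.filter (fun v => ∃ y ∈ I, D y v ≤ t)) (fun d D hd hD => ?_)) hI
    unfold Hv
    apply filter_congr
    intro v _
    constructor
    · rintro ⟨y, hy, h⟩
      rw [hD y hy] at h
      exact ⟨y, hy, by rw [hd.symm]; exact h⟩
    · rintro ⟨y, hy, h⟩
      exact ⟨y, hy, by rw [hD y hy, hd.symm]; exact h⟩

theorem comp_fT {n : ℕ} (S : Finset (Fin n)) (r : ℕ) :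
    Comp (NMet (V := Fin n)) (fun d => fT d S r) S.card := by
  refine comp_of_rows S 0 (fun D => fun u => S.fold min r (fun s => D s u))
    (fun d D hd hD => ?_)
  funext u
  unfold fT
  apply Finset.fold_congr
  intro s hs
  rw [hD s hs, hd.symm]

theorem wlen_congr {V : Type} {d D : V → V → ℕ} (l : List V) (h : ∀ v ∈ l, D v = d v) :
    wlen D l = wlen d l := by
  induction l with
  | nil => rfl
  | cons a l ih =>
      cases l with
      | nil => rfl
      | cons b l =>
          have h1 : D a = d a := h a (by simp)
          have h2 : wlen D (b :: l) = wlen d (b :: l) := ih (fun v hv => h v (List.mem_cons_of_mem _ hv))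
          simp only [wlen, h1, h2]

theorem cyc_congr {V : Type} {d D : V → V → ℕ} (l : List V) (h : ∀ v ∈ l, D v = d v) :
    cyc D l = cyc d l := by
  cases l with
  | nil => rfl
  | cons a l =>
      simp only [cyc]
      apply wlen_congr
      intro v hv
      apply h
      simp only [List.mem_cons, List.mem_append, List.not_mem_nil, or_false] at hv ⊢
      tauto

theorem comp_tspOn {n : ℕ} (U : Finset (Fin n)) :
    Comp (NMet (V := Fin n)) (fun d => tspOn d U) U.card := by
  refine comp_of_rows U 0 (fun D => tspOn D U) (fun d D hd hD => ?_)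
  unfold tspOn
  congr 1
  apply Set.ext
  intro c
  refine exists_congr fun l => ?_
  refine and_congr_right fun hl => and_congr_right fun _ => ?_
  rw [cyc_congr (d := d) (D := D) l (fun v hv => hD v (hl v hv))]

theorem RchOn_congr {V : Type} (N : Finset V) {d D : V → V → ℕ} (h : ∀ v ∈ N, D v = d v) (t : ℕ) (u v : V) :
    RchOn N D t u v ↔ RchOn N d t u v := by
  unfold RchOn
  have : (fun a b => a ∈ N ∧ b ∈ N ∧ D a b ≤ t) = (fun a b => a ∈ N ∧ b ∈ N ∧ d a b ≤ t) := by
    funext a b
    by_cases ha : a ∈ N
    · rw [h a ha]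
    · simp [ha]
  rw [this]

theorem clN_congr {V : Type} (N : Finset V) {d D : V → V → ℕ} (h : ∀ v ∈ N, D v = d v) (t : ℕ) :
    clN N D t = clN N d t := by
  unfold clN
  simp only [RchOn_congr N h]

theorem comp_netTail {n : ℕ} (N : Finset (Fin n)) (R : ℕ) :
    Comp (NMet (V := Fin n))
      (fun d => ∑ t ∈ Ico R (N.sup (fun u => N.sup (fun v => d u v))), (clN N d t - 1)) N.card := by
  refine comp_of_rows N 0 (fun d =>
    ∑ t ∈ Ico R (N.sup (fun u => N.sup (fun v => d u v))), (clN N d t - 1)) (fun d D hd h => ?_)
  have h1 : (N.sup (fun u => N.sup (fun v => D u v))) = (N.sup (fun u => N.sup (fun v => d u v))) := by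
    apply Finset.sup_congr rfl
    intro u hu
    rw [h u hu]
  simp only [clN_congr N h, h1]

end H82.TQ
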