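import Pool.Agent.H82.TQ.F2
import Pool.Agent.H82.TQ.A2

/-!
# TQ F3: allowed pairs: bounded degree, symmetry, row complexity

To compute `nbrA S f H L D J d u` (if `u ∉ S`): ask for the row of `u`. Type I: if `card {x | d u x < f u} ≤ D` then
for each of its elements `v` ask for its row and test the condition on `v`. Type II, for each `j ≤ J`: compute the
component of `u` at level `τ(j-1)` (`comp_cmp` with `L`), test `unitOK`; if it holds, for each `v` in the candidate set
`{v | v ∉ H j ∧ d u v ≤ τ(j+1)}` (at most `D` elements; a neighbour `v` satisfies `v ∉ H j` by `unitOK … v`) compute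
its component and its row. `Rch d s u v ↔ v ∈ cmp d s u`.
-/

set_option autoImplicit false

open Finset Classical

namespace H82.TQ

namespace F3X

/-- `F` is determined by the computed information `I` -/
theorem comp_det {V R α β : Type} {P : (V → V → R) → Prop} [Nonempty α] {F : (V → V → R) → α}
    {I : (V → V → R) → β} {q : ℕ} (hI : Comp P I q)
    (h : ∀ d d', P d → P d' → I d = I d' → F d = F d') : Comp P F q := by
  have h1 := comp_map hI
    (fun i => if h : ∃ d, P d ∧ I d = i then F h.choose else Classical.arbitrary α)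
  refine comp_congr h1 fun d hd => ?_
  have hex : ∃ d', P d' ∧ I d' = I d := ⟨d, hd, rfl⟩
  rw [dif_pos hex]
  exact h _ _ hex.choose_spec.1 hd hex.choose_spec.2

theorem tau_succ (j : ℕ) : tau j ≤ tau (j + 1) := by
  unfold tau
  by_cases h : j % 4 = 3
  · have h1 : (j + 1) / 4 = j / 4 + 1 := by omega
    have h2 : (j + 1) % 4 = 0 := by omega
    rw [h1, h2, h, pow_succ]
    have : 0 < 2 ^ (j / 4) := by positivity
    omega
  · have h1 : (j + 1) / 4 = j / 4 := by omega
    have h2 : (j + 1) % 4 = j % 4 + 1 := by omega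
    rw [h1, h2]
    exact Nat.mul_le_mul_left _ (by omega)

theorem tau_mono {i j : ℕ} (h : i ≤ j) : tau i ≤ tau j :=
  monotone_nat_of_le_succ tau_succ h

/-- candidates of the first type -/
noncomputable def cand0 {n : ℕ} (f : Fin n → ℕ) (D : ℕ) (a : Fin n → ℕ) (u : Fin n) : Finset (Fin n) :=
  if (univ.filter (fun x => a x < f u)).card ≤ D then univ.filter (fun x => a x < f u) else ∅

/-- candidates of the second type -/
noncomputable def cand1 {n : ℕ} (H : ℕ → Finset (Fin n)) (D : ℕ) (a : Fin n → ℕ) (j : ℕ) :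
    Finset (Fin n) :=
  if (univ.filter (fun v => v ∉ H j ∧ a v ≤ tau (j + 1))).card ≤ D then
    univ.filter (fun v => v ∉ H j ∧ a v ≤ tau (j + 1)) else ∅

/-- all candidates -/
noncomputable def cand {n : ℕ} (f : Fin n → ℕ) (H : ℕ → Finset (Fin n)) (D J : ℕ) (a : Fin n → ℕ)
    (u : Fin n) : Finset (Fin n) :=
  cand0 f D a u ∪ (Icc 1 J).biUnion (cand1 H D a)

theorem cand_card {n : ℕ} (f : Fin n → ℕ) (H : ℕ → Finset (Fin n)) (D J : ℕ) (a : Fin n → ℕ)
    (u : Fin n) : (cand f H D J a u).card ≤ (J + 1) * D := by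
  unfold cand
  have h0 : (cand0 f D a u).card ≤ D := by
    unfold cand0
    split_ifs with h
    · exact h
    · simp
  have h1 : ((Icc 1 J).biUnion (cand1 H D a)).card ≤ J * D := by
    have := card_biUnion_le_card_mul (Icc 1 J) (cand1 H D a) D (by
      intro j _
      unfold cand1
      split_ifs with h
      · exact h
      · simp)
    simpa using this
  calc _ ≤ (cand0 f D a u).card + ((Icc 1 J).biUnion (cand1 H D a)).card := card_union_le _ _
    _ ≤ D + J * D := add_le_add h0 h1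
    _ = (J + 1) * D := by ring

theorem self_mem_cmp {n : ℕ} (d : Fin n → Fin n → ℕ) (s : ℕ) (u : Fin n) : u ∈ cmp d s u := by
  unfold cmp
  rw [mem_filter]
  exact ⟨mem_univ _, Relation.ReflTransGen.refl⟩

theorem mem_cand {n : ℕ} {S : Finset (Fin n)} {f : Fin n → ℕ} {H : ℕ → Finset (Fin n)} {L D J : ℕ}
    {d : Fin n → Fin n → ℕ} {u v : Fin n} (h : adjA S f H L D J d u v) :
    v ∈ cand f H D J (d u) u := by
  obtain ⟨_, _, _, h | ⟨j, hj1, hjJ, _, h2, h3, h4, _⟩⟩ := h
  · apply mem_union_left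
    unfold cand0
    rw [if_pos h.2.2.1, mem_filter]
    exact ⟨mem_univ _, h.1⟩
  · apply mem_union_right
    rw [mem_biUnion]
    refine ⟨j, mem_Icc.2 ⟨hj1, hjJ⟩, ?_⟩
    unfold cand1
    rw [if_pos h3.2.2, mem_filter]
    exact ⟨mem_univ _, h4.2.1 v (self_mem_cmp d _ v), h2⟩

/-- component if small -/
noncomputable def oc {n : ℕ} (L : ℕ) (d : Fin n → Fin n → ℕ) (v : Fin n) (j : ℕ) :
    Option (Finset (Fin n)) :=
  if (cmp d (tau (j - 1)) v).card ≤ L then some (cmp d (tau (j - 1)) v) else none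

theorem cmp_eq_of_oc {n : ℕ} {L : ℕ} {d d' : Fin n → Fin n → ℕ} {v : Fin n} {j : ℕ}
    (h : oc L d v j = oc L d' v j) (hc : (cmp d (tau (j - 1)) v).card ≤ L) :
    cmp d (tau (j - 1)) v = cmp d' (tau (j - 1)) v := by
  unfold oc at h
  rw [if_pos hc] at h
  split_ifs at h with h'
  exact Option.some.inj h

theorem unitOK_transfer {n : ℕ} {H : ℕ → Finset (Fin n)} {L D : ℕ} {d d' : Fin n → Fin n → ℕ}
    {j : ℕ} {v : Fin n} (ho : oc L d v j = oc L d' v j) (hr : d v = d' v)
    (h : unitOK H L D d j v) : unitOK H L D d' j v := by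
  obtain ⟨h1, h2, h3⟩ := h
  have he := cmp_eq_of_oc ho h1
  rw [he] at h1 h2
  rw [hr] at h3
  exact ⟨h1, h2, h3⟩

theorem adjA_transfer {n : ℕ} {S : Finset (Fin n)} {f : Fin n → ℕ} {H : ℕ → Finset (Fin n)}
    {L D J : ℕ} {d d' : Fin n → Fin n → ℕ} {u v : Fin n} (hu : d u = d' u) (hv : d v = d' v)
    (hou : ∀ j, 1 ≤ j → j ≤ J → oc L d u j = oc L d' u j)
    (hov : ∀ j, 1 ≤ j → j ≤ J → oc L d v j = oc L d' v j)
    (h : adjA S f H L D J d u v) : adjA S f H L D J d' u v := by
  obtain ⟨a1, a2, a3, h | ⟨j, hj1, hjJ, h1, h2, h3, h4, h5⟩⟩ := h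
  · rw [hu, hv] at h
    exact ⟨a1, a2, a3, Or.inl h⟩
  · refine ⟨a1, a2, a3, Or.inr ⟨j, hj1, hjJ, by rwa [← hu], by rwa [← hu],
      unitOK_transfer (hou j hj1 hjJ) hu h3, unitOK_transfer (hov j hj1 hjJ) hv h4, ?_⟩⟩
    have he := cmp_eq_of_oc (hou j hj1 hjJ) h3.1
    intro hR
    apply h5
    have : v ∈ cmp d' (tau (j - 1)) u := by
      unfold cmp
      rw [mem_filter]
      exact ⟨mem_univ _, hR⟩
    rw [← he] at this
    unfold cmp at this
    rw [mem_filter] at this
    exact this.2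

end F3X

open F3X

theorem nbrA_card {n : ℕ} (S : Finset (Fin n)) (f : Fin n → ℕ) (H : ℕ → Finset (Fin n)) (L D J : ℕ)
    (d : Fin n → Fin n → ℕ) (hd : NMet d) (u : Fin n) : (nbrA S f H L D J d u).card ≤ (J + 1) * D := by
  refine le_trans (card_le_card ?_) (cand_card f H D J (d u) u)
  intro v hv
  unfold nbrA at hv
  rw [mem_filter] at hv
  exact mem_cand hv.2

theorem nbrA_symm {n : ℕ} (S : Finset (Fin n)) (f : Fin n → ℕ) (H : ℕ → Finset (Fin n)) (L D J : ℕ)
    (d : Fin n → Fin n → ℕ) (hd : NMet d) (u v : Fin n) (h : v ∈ nbrA S f H L D J d u) :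
    u ∈ nbrA S f H L D J d v := by
  unfold nbrA at h ⊢
  rw [mem_filter] at h ⊢
  refine ⟨mem_univ _, ?_⟩
  obtain ⟨-, a1, a2, a3, h | ⟨j, hj1, hjJ, h1, h2, h3, h4, h5⟩⟩ := h
  · refine ⟨a2, a1, a3.symm, Or.inl ?_⟩
    rw [hd.symm v u]
    exact ⟨h.2.1, h.1, h.2.2.2, h.2.2.1⟩
  · refine ⟨a2, a1, a3.symm, Or.inr ⟨j, hj1, hjJ, ?_, ?_, h4, h3, ?_⟩⟩
    · rwa [hd.symm v u]
    · rwa [hd.symm v u]
    · exact fun hR => h5 (rch_symm hd hR)

theorem nbrA_S {n : ℕ} (S : Finset (Fin n)) (f : Fin n → ℕ) (H : ℕ → Finset (Fin n)) (L D J : ℕ)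
    (d : Fin n → Fin n → ℕ) (u : Fin n) (h : u ∈ S) : nbrA S f H L D J d u = ∅ := by
  unfold nbrA
  rw [filter_eq_empty_iff]
  intro v _ hv
  exact hv.1 h

theorem nbrA_dist {n : ℕ} (S : Finset (Fin n)) (f : Fin n → ℕ) (H : ℕ → Finset (Fin n)) (L D J R : ℕ)
    (d : Fin n → Fin n → ℕ) (u v : Fin n) (h : v ∈ nbrA S f H L D J d u) (hf : f u ≤ R)
    (hR : tau (J + 1) ≤ R) : d u v ≤ R := by
  unfold nbrA at h
  rw [mem_filter] at h
  obtain ⟨-, a1, a2, a3, h | ⟨j, hj1, hjJ, h1, h2, h3, h4, h5⟩⟩ := h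
  · exact h.1.le.trans hf
  · exact h2.trans ((tau_mono (by omega)).trans hR)

theorem comp_nbrA (L D J : ℕ) : ∃ q : ℕ, ∀ (n : ℕ) (S : Finset (Fin n)) (f : Fin n → ℕ)
    (H : ℕ → Finset (Fin n)) (u : Fin n),
    Comp (NMet (V := Fin n)) (fun d => nbrA S f H L D J d u) q := by
  refine ⟨1 + (1 + ((J + 1) * D + 1) * (1 + (0 + J * ((L + 1) * (L + 1))))), ?_⟩
  intro n S f H u
  -- information at a vertex
  have hinfo : ∀ v : Fin n, Comp (NMet (V := Fin n))
      (fun d => (d v, fun j => if j ∈ Icc 1 J then oc L d v j else none))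
      (1 + (0 + J * ((L + 1) * (L + 1)))) := by
    intro v
    have h1 := comp_finset (P := NMet (V := Fin n)) (g := fun j d => oc L d v j)
      (none : Option (Finset (Fin n))) (comp_const (Icc 1 J)) (m := J) (by intro d _; simp)
      (fun j => comp_cmp (tau (j - 1)) L v)
    refine comp_congr (comp_pair (comp_row v) h1) fun d _ => ?_
    refine Prod.ext rfl ?_
    funext j
    dsimp only
    by_cases hj : j ∈ Icc 1 J
    · rw [if_pos hj, if_pos hj]
    · rw [if_neg hj, if_neg hj]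
  -- the candidates
  have hcand : Comp (NMet (V := Fin n)) (fun d => insert u (cand f H D J (d u) u)) 1 :=
    comp_map (comp_row u) (fun a => insert u (cand f H D J a u))
  have hall := comp_finset (g := fun (v : Fin n) (d : Fin n → Fin n → ℕ) =>
      (d v, fun j => if j ∈ Icc 1 J then oc L d v j else none))
    ((fun _ => 0, fun _ => none) : (Fin n → ℕ) × (ℕ → Option (Finset (Fin n)))) hcand
    (m := (J + 1) * D + 1)
    (by
      intro d _
      exact (card_insert_le _ _).trans (Nat.succ_le_succ (cand_card f H D J (d u) u)))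
    hinfo
  refine comp_det (comp_pair (comp_row u) hall) ?_
  have key : ∀ d d' : Fin n → Fin n → ℕ, d u = d' u →
      (∀ v ∈ insert u (cand f H D J (d u) u),
        (d v, fun j => if j ∈ Icc 1 J then oc L d v j else none) =
          (d' v, fun j => if j ∈ Icc 1 J then oc L d' v j else none)) →
      nbrA S f H L D J d u ⊆ nbrA S f H L D J d' u := by
    intro d d' hu hI v hv
    unfold nbrA at hv ⊢
    rw [mem_filter] at hv ⊢
    refine ⟨mem_univ _, ?_⟩
    have hsplit : ∀ w ∈ insert u (cand f H D J (d u) u), d w = d' w ∧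
        ∀ j, 1 ≤ j → j ≤ J → oc L d w j = oc L d' w j := by
      intro w hw
      have h1 := hI w hw
      have h2 := congrArg Prod.fst h1
      have h3 := congrArg Prod.snd h1
      refine ⟨h2, fun j hj1 hjJ => ?_⟩
      have h4 := congrFun h3 j
      have hj : j ∈ Icc 1 J := mem_Icc.2 ⟨hj1, hjJ⟩
      dsimp only at h4
      rwa [if_pos hj, if_pos hj] at h4
    obtain ⟨_, hou⟩ := hsplit u (mem_insert_self _ _)
    obtain ⟨hvr, hov⟩ := hsplit v (mem_insert_of_mem (mem_cand hv.2))
    exact adjA_transfer hu hvr hou hov hv.2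
  intro d d' _ _ hI
  have hu : d u = d' u := congrArg Prod.fst hI
  have hfun := congrArg Prod.snd hI
  have hvals : ∀ v ∈ insert u (cand f H D J (d u) u),
        (d v, fun j => if j ∈ Icc 1 J then oc L d v j else none) =
          (d' v, fun j => if j ∈ Icc 1 J then oc L d' v j else none) := by
    intro v hv
    have h1 := congrFun hfun v
    have hv' : v ∈ insert u (cand f H D J (d' u) u) := by rwa [← hu]
    dsimp only at h1
    rwa [if_pos hv, if_pos hv'] at h1
  apply Subset.antisymm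
  · exact key d d' hu hvals
  · refine key d' d hu.symm fun v hv => ?_
    rw [← hu] at hv
    exact (hvals v hv).symm

end H82.TQ
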