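import Pool.Agent.H82.TQ.F1
import Pool.Agent.H82.TQ.E1

/-!
# TQ F4: row complexity of the local terms of the linear program

Everything is a local function of the neighbour sets. Computable with a bounded number of rows (bound depending only on
`q, D, L, k`), by induction on `k`: `ball (nbr d) i u` (at most `(D+1)^i` vertices); `{X ∈ Fam (nbr d) S L : u ∈ X}`
(subsets of `ball (nbr d) L u`; test `X ⊆ ball a` for `a ∈ X`); for such `X` the value `cutv` for the `k`-th iterate
needs `x u v`, `x v u` for `u ∈ X`, `v ∈ nbr u \ X` (the support is symmetric) and `y u`; the step from `k` to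
`k + 1` for `x u v` (only needed for `v ∈ nbr u`) needs the sets of `Fam` containing `u` or `v`.
`phiAt` needs the row of `u`, the sets `X ∋ u` and their cut values.
-/

set_option autoImplicit false

open Finset Classical

namespace H82.TQ

namespace F4X

variable {V : Type}

theorem ball_self (nbr : V → Finset V) (r : ℕ) (u : V) : u ∈ ball nbr r u := by
  induction r with
  | zero => simp [ball]
  | succ r ih => rw [ball]; exact mem_union_left _ ih

theorem ball_mono (nbr : V → Finset V) {r s : ℕ} (h : r ≤ s) (u : V) :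
    ball nbr r u ⊆ ball nbr s u := by
  induction s, h using Nat.le_induction with
  | base => exact Subset.refl _
  | succ s _ ih => rw [ball]; exact ih.trans subset_union_left

theorem ball_trans (nbr : V → Finset V) {r s : ℕ} {u a : V} (h : a ∈ ball nbr r u) :
    ball nbr s a ⊆ ball nbr (r + s) u := by
  induction s with
  | zero =>
    intro x hx
    rw [ball, mem_singleton] at hx
    subst hx
    exact h
  | succ s ih =>
    rw [ball, ← add_assoc, ball]
    apply union_subset_union ih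
    exact biUnion_subset_biUnion_of_subset_left _ ih

theorem ball_step {nbr : V → Finset V} {u v : V} (h : v ∈ nbr u) (r : ℕ) :
    ball nbr r v ⊆ ball nbr (1 + r) u := by
  apply ball_trans
  rw [ball]
  apply mem_union_right
  rw [ball, singleton_biUnion]
  exact h

theorem ball_sub {nbr nbr' : V → Finset V} (h : ∀ v, nbr' v ⊆ nbr v) (r : ℕ) (u : V) :
    ball nbr' r u ⊆ ball nbr r u := by
  induction r with
  | zero => exact Subset.refl _
  | succ r ih =>
    rw [ball, ball]
    apply union_subset_union ih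
    intro x hx
    rw [mem_biUnion] at hx ⊢
    obtain ⟨a, ha, hx⟩ := hx
    exact ⟨a, ih ha, h a hx⟩

theorem ball_eq {nbr nbr' : V → Finset V} {U : Finset V} (h : ∀ v ∈ U, nbr' v = nbr v) (r : ℕ)
    (u : V) (hU : ball nbr r u ⊆ U) : ball nbr' r u = ball nbr r u := by
  induction r with
  | zero => rfl
  | succ r ih =>
    have hr : ball nbr r u ⊆ U := (ball_mono nbr (Nat.le_succ r) u).trans hU
    rw [ball, ball, ih hr]
    congr 1
    apply biUnion_congr rfl
    intro a ha
    exact h a (hr ha)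

variable [Fintype V]

/-- the region where everything agrees -/
structure Loc (d d' : V → V → ℕ) (nbr nbr' : V → Finset V) (U : Finset V) : Prop where
  sym : ∀ u v, v ∈ nbr u → u ∈ nbr v
  sub : ∀ v, nbr' v ⊆ nbr v
  eqn : ∀ v ∈ U, nbr' v = nbr v
  eqd : ∀ v ∈ U, d' v = d v

variable {d d' : V → V → ℕ} {nbr nbr' : V → Finset V} {U : Finset V}

theorem fam_iff (h : Loc d d' nbr nbr' U) (S : Finset V) (L : ℕ) {X : Finset V} {v : V}
    (hv : v ∈ X) (hU : ball nbr (2 * L) v ⊆ U) : X ∈ Fam nbr S L ↔ X ∈ Fam nbr' S L := by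
  unfold Fam
  rw [mem_filter, mem_filter]
  constructor
  · rintro ⟨h0, h1, h2, h3, h4⟩
    refine ⟨h0, h1, h2, h3, fun a ha => ?_⟩
    have ha' : a ∈ ball nbr L v := h4 v hv ha
    have : ball nbr L a ⊆ U := by
      refine (ball_trans nbr ha').trans ?_
      rwa [← two_mul]
    rw [ball_eq h.eqn L a this]
    exact h4 a ha
  · rintro ⟨h0, h1, h2, h3, h4⟩
    exact ⟨h0, h1, h2, h3, fun a ha => (h4 a ha).trans (ball_sub h.sub L a)⟩

/-- agreement of the variables at the vertex `u` -/
def Agr (x x' : V → V → ℝ) (y y' : V → ℝ) (u : V) : Prop :=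
  (∀ v, x u v = x' u v ∧ x v u = x' v u) ∧ y u = y' u

theorem cutv_eq {x x' : V → V → ℝ} {y y' : V → ℝ} {X : Finset V} (h : ∀ u ∈ X, Agr x x' y y' u) :
    cutv x y X = cutv x' y' X := by
  unfold cutv
  refine sum_congr rfl fun u hu => ?_
  rw [(h u hu).2]
  congr 1
  refine sum_congr rfl fun v _ => ?_
  rw [((h u hu).1 v).1, ((h u hu).1 v).2]

/-- the radius of dependence -/
def rad (L : ℕ) : ℕ → ℕ
  | 0 => 0
  | k + 1 => rad L k + (2 * L + 1)

theorem filter_eq (h : Loc d d' nbr nbr' U) (S : Finset V) (L r : ℕ) {x x' : V → V → ℝ}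
    {y y' : V → ℝ} (hr : ∀ a, ball nbr r a ⊆ U → Agr x x' y y' a) {Q : Finset V → Prop}
    {Pr : ℝ → Prop} {u : V} (hU : ball nbr (r + (2 * L + 1)) u ⊆ U)
    (hQ : ∀ X, Q X → ∃ w ∈ X, w ∈ ball nbr 1 u)
    {i1 : DecidablePred fun X => Q X ∧ Pr (cutv x y X)}
    {i2 : DecidablePred fun X => Q X ∧ Pr (cutv x' y' X)} :
    @Finset.filter _ (fun X => Q X ∧ Pr (cutv x y X)) i1 (Fam nbr S L) =
      @Finset.filter _ (fun X => Q X ∧ Pr (cutv x' y' X)) i2 (Fam nbr' S L) := by
  have key : ∀ X, Q X → (X ∈ Fam nbr S L → cutv x y X = cutv x' y' X) ∧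
      (X ∈ Fam nbr S L ↔ X ∈ Fam nbr' S L) := by
    intro X hX
    obtain ⟨w, hw, hwu⟩ := hQ X hX
    have h1 : ball nbr (2 * L) w ⊆ U :=
      (ball_trans nbr hwu).trans ((ball_mono nbr (by omega) u).trans hU)
    refine ⟨fun hXF => cutv_eq fun a ha => hr a ?_, fam_iff h S L hw h1⟩
    have h2 : a ∈ ball nbr L w := by
      unfold Fam at hXF
      rw [mem_filter] at hXF
      exact hXF.2.2.2.2 w hw ha
    have h3 : a ∈ ball nbr (1 + L) u := ball_trans nbr hwu h2
    exact (ball_trans nbr h3).trans ((ball_mono nbr (by omega) u).trans hU)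
  ext X
  rw [mem_filter, mem_filter]
  constructor
  · rintro ⟨h1, h2, h3⟩
    obtain ⟨e1, e2⟩ := key X h2
    refine ⟨e2.1 h1, h2, ?_⟩
    rwa [← e1 h1]
  · rintro ⟨h1, h2, h3⟩
    obtain ⟨e1, e2⟩ := key X h2
    refine ⟨e2.2 h1, h2, ?_⟩
    rwa [e1 (e2.2 h1)]

theorem itz_eq (h : Loc d d' nbr nbr' U) (f : V → ℕ) (S : Finset V) (C0 al : ℝ) (L k : ℕ) :
    ∀ u, ball nbr (rad L k) u ⊆ U →
      Agr (itz d f S C0 al nbr (Fam nbr S L) k).1 (itz d' f S C0 al nbr' (Fam nbr' S L) k).1
        (itz d f S C0 al nbr (Fam nbr S L) k).2 (itz d' f S C0 al nbr' (Fam nbr' S L) k).2 u := by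
  induction k with
  | zero => exact fun u _ => ⟨fun v => ⟨rfl, rfl⟩, rfl⟩
  | succ k ih =>
    intro u hU
    rw [rad] at hU
    have hUk : ball nbr (rad L k) u ⊆ U := (ball_mono nbr (by omega) u).trans hU
    obtain ⟨ihx, ihy⟩ := ih u hUk
    have hu : u ∈ U := hU (ball_self nbr _ u)
    have hself : u ∈ ball nbr 1 u := ball_self nbr 1 u
    have hnb : ∀ v ∈ nbr u, v ∈ ball nbr 1 u := fun v hv =>
      ball_step hv 0 (ball_self nbr 0 v)
    have hnbU : ∀ v ∈ nbr u, v ∈ U := fun v hv =>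
      hU (ball_mono nbr (by omega) u (hnb v hv))
    refine ⟨fun v => ⟨?_, ?_⟩, ?_⟩
    · show stepx _ _ _ _ _ _ _ _ _ = stepx _ _ _ _ _ _ _ _ _
      unfold stepx
      rw [h.eqn u hu, h.eqd u hu]
      by_cases hv : v ∈ nbr u
      · rw [if_pos hv, if_pos hv, (ihx v).1,
          filter_eq h S L (rad L k) ih (Q := fun X => ¬ (u ∈ X ↔ v ∈ X)) (Pr := fun c => c < 2) hU
            (by
              intro X hX
              by_cases huX : u ∈ X
              · exact ⟨u, huX, hself⟩
              · refine ⟨v, ?_, hnb v hv⟩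
                by_contra hvX
                exact hX ⟨fun hh => absurd hh huX, fun hh => absurd hh hvX⟩)]
      · rw [if_neg hv, if_neg hv]
    · show stepx _ _ _ _ _ _ _ _ _ = stepx _ _ _ _ _ _ _ _ _
      unfold stepx
      by_cases hv : u ∈ nbr v
      · have hv' : v ∈ nbr u := h.sym v u hv
        have hvU := hnbU v hv'
        rw [h.eqn v hvU, h.eqd v hvU, if_pos hv, if_pos hv, (ihx v).2,
          filter_eq h S L (rad L k) ih (Q := fun X => ¬ (v ∈ X ↔ u ∈ X)) (Pr := fun c => c < 2) hU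
            (by
              intro X hX
              by_cases huX : u ∈ X
              · exact ⟨u, huX, hself⟩
              · refine ⟨v, ?_, hnb v hv'⟩
                by_contra hvX
                exact hX ⟨fun hh => absurd hh hvX, fun hh => absurd hh huX⟩)]
      · rw [if_neg hv, if_neg (fun hh => hv (h.sub v hh))]
    · show stepy _ _ _ _ _ _ _ _ = stepy _ _ _ _ _ _ _ _
      unfold stepy
      rw [ihy, filter_eq h S L (rad L k) ih (Q := fun X => u ∈ X) (Pr := fun c => c < 2) hU
        (fun X hX => ⟨u, hX, hself⟩)]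

theorem filter_mem_eq (h : Loc d d' nbr nbr' U) (S : Finset V) (L : ℕ) {u : V}
    (hU : ball nbr (2 * L) u ⊆ U) {i1 i2 : DecidablePred fun X : Finset V => u ∈ X} :
    @Finset.filter _ (fun X => u ∈ X) i1 (Fam nbr S L) =
      @Finset.filter _ (fun X => u ∈ X) i2 (Fam nbr' S L) := by
  ext X
  refine Iff.trans (@Finset.mem_filter _ _ i1 _ _) (Iff.trans ?_ (@Finset.mem_filter _ _ i2 _ _).symm)
  constructor
  · rintro ⟨h1, h2⟩
    exact ⟨(fam_iff h S L h2 hU).1 h1, h2⟩
  · rintro ⟨h1, h2⟩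
    exact ⟨(fam_iff h S L h2 hU).2 h1, h2⟩

theorem phi_eq (h : Loc d d' nbr nbr' U) (f : V → ℕ) (S : Finset V) (C0 al : ℝ) (L k : ℕ) (u : V)
    (hU : ball nbr (rad L (k + 1)) u ⊆ U) :
    phiAt d f C0 (Fam nbr S L) (itz d f S C0 al nbr (Fam nbr S L) k).1
        (itz d f S C0 al nbr (Fam nbr S L) k).2 u =
      phiAt d' f C0 (Fam nbr' S L) (itz d' f S C0 al nbr' (Fam nbr' S L) k).1
        (itz d' f S C0 al nbr' (Fam nbr' S L) k).2 u := by
  rw [rad] at hU
  have hUk : ball nbr (rad L k) u ⊆ U := (ball_mono nbr (by omega) u).trans hU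
  obtain ⟨ihx, ihy⟩ := itz_eq h f S C0 al L k u hUk
  have hu : u ∈ U := hU (ball_self nbr _ u)
  unfold phiAt
  rw [ihy, h.eqd u hu]
  congr 1
  · congr 1
    exact sum_congr rfl fun v _ => by rw [(ihx v).1]
  · congr 1
    rw [← filter_mem_eq h S L ((ball_mono nbr (by omega) u).trans hU)]
    refine sum_congr rfl fun X hX => ?_
    rw [mem_filter] at hX
    rw [cutv_eq]
    intro a ha
    apply itz_eq h f S C0 al L k a
    have h3 : a ∈ ball nbr L u := by
      have := hX.1
      unfold Fam at this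
      rw [mem_filter] at this
      exact this.2.2.2.2 u hX.2 ha
    exact (ball_trans nbr h3).trans ((ball_mono nbr (by omega) u).trans hU)

/-- one step of the exploration -/
noncomputable def bstep {V : Type} (A : Finset V) (g : V → Finset V) : Finset V := A ∪ A.biUnion g

theorem ball_succ {V : Type} (nbr : V → Finset V) (r : ℕ) (u : V) :
    ball nbr (r + 1) u = bstep (ball nbr r u) nbr := rfl

theorem bstep_congr {V : Type} {A : Finset V} {g g' : V → Finset V} (h : ∀ a ∈ A, g a = g' a) :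
    bstep A g = bstep A g' := by
  unfold bstep
  rw [biUnion_congr rfl h]

/-- cost of the computation of a ball -/
def cb (q D : ℕ) : ℕ → ℕ
  | 0 => 0
  | r + 1 => cb q D r + (cb q D r + (D + 1) ^ r * q)

theorem comp_ball {n : ℕ} {q D : ℕ} (nbr : (Fin n → Fin n → ℕ) → Fin n → Finset (Fin n))
    (hq : ∀ v, Comp (NMet (V := Fin n)) (fun d => nbr d v) q)
    (hD : ∀ d, NMet d → ∀ v, (nbr d v).card ≤ D) (u : Fin n) (r : ℕ) :
    Comp (NMet (V := Fin n)) (fun d => ball (nbr d) r u) (cb q D r) := by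
  induction r with
  | zero => exact comp_const ({u} : Finset (Fin n))
  | succ r ih =>
    have h1 := comp_finset (g := fun v d => nbr d v) (∅ : Finset (Fin n)) ih
      (fun d hd => ball_card (nbr d) D (hD d hd) r u) hq
    have h2 := comp_map (comp_pair ih h1) (fun p => bstep p.1 p.2)
    refine comp_congr h2 fun d _ => ?_
    rw [ball_succ]
    dsimp only
    apply bstep_congr
    intro a ha
    rw [if_pos ha]

end F4X

open F4X in
theorem comp_phi (q D L k : ℕ) : ∃ Q : ℕ, ∀ (n : ℕ)
    (nbr : (Fin n → Fin n → ℕ) → Fin n → Finset (Fin n)),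
    (∀ v, Comp (NMet (V := Fin n)) (fun d => nbr d v) q) →
    (∀ d, NMet d → ∀ v, (nbr d v).card ≤ D) →
    (∀ d, NMet d → ∀ u v, v ∈ nbr d u → u ∈ nbr d v) →
    ∀ (f : Fin n → ℕ) (S : Finset (Fin n)) (C0 al : ℝ) (u : Fin n),
      Comp (NMet (V := Fin n))
        (fun d => phiAt d f C0 (Fam (nbr d) S L)
          (itz d f S C0 al (nbr d) (Fam (nbr d) S L) k).1
          (itz d f S C0 al (nbr d) (Fam (nbr d) S L) k).2 u) Q := by
  refine ⟨(cb q D (rad L (k + 1)) + (D + 1) ^ rad L (k + 1) * q) +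
    (cb q D (rad L (k + 1)) + (D + 1) ^ rad L (k + 1) * 1), ?_⟩
  intro n nbr hq hD hsym f S C0 al u
  have h0 := comp_ball nbr hq hD u (rad L (k + 1))
  have hc : ∀ d, NMet d → (ball (nbr d) (rad L (k + 1)) u).card ≤ (D + 1) ^ rad L (k + 1) :=
    fun d hd => ball_card (nbr d) D (hD d hd) _ u
  have h1 := comp_finset (g := fun v d => nbr d v) (∅ : Finset (Fin n)) h0 hc hq
  have h2 := comp_finset (g := fun (v : Fin n) (d : Fin n → Fin n → ℕ) => d v)
    (fun _ : Fin n => (0 : ℕ)) h0 hc (fun v => comp_row v)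
  have h3 := comp_map (comp_pair h1 h2) (fun p => phiAt p.2 f C0 (Fam p.1 S L)
    (itz p.2 f S C0 al p.1 (Fam p.1 S L) k).1 (itz p.2 f S C0 al p.1 (Fam p.1 S L) k).2 u)
  refine comp_congr h3 fun d hd => ?_
  symm
  apply phi_eq (U := ball (nbr d) (rad L (k + 1)) u) ?_ f S C0 al L k u (Subset.refl _)
  refine ⟨hsym d hd, fun v => ?_, fun v hv => ?_, fun v hv => ?_⟩
  · dsimp only
    split_ifs
    · exact Subset.refl _
    · exact empty_subset _
  · dsimp only
    rw [if_pos hv]
  · dsimp only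
    rw [if_pos hv]

end H82.TQ
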