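import Pool.Agent.H82.TQ.Defs2
import Pool.Agent.H82.TQ.F3
import Pool.Agent.H82.TQ.F4

/-!
# TQ G0: number of rows asked for by the algorithm

Bind calculus (`F1`). For fixed `ω1`: the sets `Hj P ω1 d j`, `j ∈ Icc 1 J`, are computed by `comp_finset` (constant set
`Icc 1 J`) and `comp_Hv`, at cost `J * (M (L1+1)(L1+2) + M L1) ≤ M * J * (L1+1)(L1+3)`; `ff P ω1 d` costs `≤ M` rows (`comp_fT`,
`(rg ω1).card ≤ M`). After this (use `comp_bind`) `f` and `H` are constants, and for every vertex `u` the local quantities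
`phi1, phi2, phi3, phi4` cost a bounded number of rows: `phi1, phi2`: `comp_cmp P.B`-computations at the levels `t ≤ R`;
`phi3`: `comp_phi` with `nbr d = nbrA S f H L1 D J d` (`comp_nbrA`, `nbrA_card`, `nbrA_symm`), for every `k < K`;
`phi4`: `u ∈ deadU … ↔ (cmp …).card ≤ L1 ∧ (u least vertex) ∧ ∃ x ∈ cmp …, x ∈ H j` (`comp_cmp` with `L1`).
The sample `ω4` has `m0` vertices. `tspOn d (N ∪ rg ω3)` costs `≤ N.card + M3`, `tailN` costs `N.card` (`comp_netTail`).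
-/

set_option autoImplicit false

open Finset Classical

namespace H82.TQ

/-! ### auxiliary lemmas -/

private theorem g0_sum {n : ℕ} {ι : Type} (A : Finset ι) (q : ι → ℕ)
    (g : ι → (Fin n → Fin n → ℕ) → ℝ) (hg : ∀ i, Comp (NMet (V := Fin n)) (g i) (q i)) :
    Comp (NMet (V := Fin n)) (fun d => ∑ i ∈ A, g i d) (∑ i ∈ A, q i) := by
  induction A using Finset.induction_on with
  | empty => simpa using comp_const (P := NMet (V := Fin n)) (0 : ℝ)
  | insert i A hi ih =>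
      have h := comp_map (comp_pair (hg i) ih) (fun x : ℝ × ℝ => x.1 + x.2)
      rw [Finset.sum_insert hi]
      refine comp_congr h (fun d _ => ?_)
      rw [Finset.sum_insert hi]

private theorem g0_pi {n m : ℕ} {β : Type} (b : β) (q : ℕ)
    (g : Fin m → (Fin n → Fin n → ℕ) → β) (hg : ∀ i, Comp (NMet (V := Fin n)) (g i) q) :
    Comp (NMet (V := Fin n)) (fun d => fun i => g i d) (m * q) := by
  have h := comp_finset (P := NMet (V := Fin n)) (A := fun _ => (univ : Finset (Fin m))) (m := m) b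
    (comp_const _) (fun d _ => by simp) hg
  refine comp_mono (comp_congr h (fun d _ => ?_)) (by omega)
  funext i
  simp

private theorem g0_phiB {n : ℕ} (s B : ℕ) (u : Fin n) :
    Comp (NMet (V := Fin n))
      (fun d => if (cmp d s u).card ≤ B then (1 : ℝ) / (cmp d s u).card else 0)
      ((B + 1) * (B + 1)) := by
  have h := comp_map (comp_cmp s B u)
    (fun o : Option (Finset (Fin n)) => o.elim (0 : ℝ) (fun C => (1 : ℝ) / (C.card : ℝ)))
  refine comp_congr h (fun d _ => ?_)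
  by_cases hc : (cmp d s u).card ≤ B <;> simp [hc]

private theorem g0_phi1 {n : ℕ} (P : Prm) (u : Fin n) :
    Comp (NMet (V := Fin n)) (fun d => phi1 P d u) (P.R * ((P.B + 1) * (P.B + 1))) := by
  have h := g0_sum (range P.R) (fun _ => (P.B + 1) * (P.B + 1))
    (fun t d => if (cmp d t u).card ≤ P.B then (1 : ℝ) / (cmp d t u).card else 0)
    (fun t => g0_phiB t P.B u)
  rw [Finset.sum_const, card_range, smul_eq_mul] at h
  exact h

private theorem g0_phi2 {n : ℕ} (P : Prm) (u : Fin n) :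
    Comp (NMet (V := Fin n)) (fun d => phi2 P d u) ((P.B + 1) * (P.B + 1)) :=
  g0_phiB P.R P.B u

/-- the third local quantity for given prices and hub sets -/
private noncomputable def g0_G3 {n : ℕ} (P : Prm) (S : Finset (Fin n)) (f : Fin n → ℕ)
    (H : ℕ → Finset (Fin n)) (d : Fin n → Fin n → ℕ) (u : Fin n) : ℝ :=
  (∑ k ∈ range P.K, phiAt d f P.C0 (Fam (nbrA S f H P.L1 P.D P.J d) S P.L4)
    (itz d f S P.C0 P.al (nbrA S f H P.L1 P.D P.J d) (Fam (nbrA S f H P.L1 P.D P.J d) S P.L4) k).1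
    (itz d f S P.C0 P.al (nbrA S f H P.L1 P.D P.J d) (Fam (nbrA S f H P.L1 P.D P.J d) S P.L4) k).2
      u) / P.K

private theorem g0_phi3 (P : Prm) : ∃ Q3 : ℕ, ∀ (n : ℕ) (S : Finset (Fin n)) (f : Fin n → ℕ)
    (H : ℕ → Finset (Fin n)) (u : Fin n),
    Comp (NMet (V := Fin n)) (fun d => g0_G3 P S f H d u) Q3 := by
  obtain ⟨q, hq⟩ := comp_nbrA P.L1 P.D P.J
  choose Qk hQk using fun k => comp_phi q ((P.J + 1) * P.D) P.L4 k
  refine ⟨∑ k ∈ range P.K, Qk k, fun n S f H u => ?_⟩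
  have h := g0_sum (range P.K) Qk
    (fun k d => phiAt d f P.C0 (Fam (nbrA S f H P.L1 P.D P.J d) S P.L4)
    (itz d f S P.C0 P.al (nbrA S f H P.L1 P.D P.J d) (Fam (nbrA S f H P.L1 P.D P.J d) S P.L4) k).1
    (itz d f S P.C0 P.al (nbrA S f H P.L1 P.D P.J d) (Fam (nbrA S f H P.L1 P.D P.J d) S P.L4) k).2
      u)
    (fun k => hQk k n (fun d => nbrA S f H P.L1 P.D P.J d) (fun v => hq n S f H v)
      (fun d hd v => nbrA_card S f H P.L1 P.D P.J d hd v)
      (fun d hd a b hab => nbrA_symm S f H P.L1 P.D P.J d hd a b hab) f S P.C0 P.al u)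
  exact comp_map h (fun x => x / (P.K : ℝ))

/-- the fourth local quantity for given hub sets -/
private noncomputable def g0_G4 {n : ℕ} (P : Prm) (H : ℕ → Finset (Fin n))
    (d : Fin n → Fin n → ℕ) (u : Fin n) : ℝ :=
  ∑ j ∈ Icc 1 P.J, (tau (j + 1) : ℝ) *
    (if (validU d (tau (j - 1)) P.L1 u ∧ ∃ x ∈ cmp d (tau (j - 1)) u, x ∈ H j) then 1 else 0)

private theorem g0_dead {n : ℕ} (s L : ℕ) (u : Fin n) (W : Finset (Fin n)) (c : ℝ) :
    Comp (NMet (V := Fin n))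
      (fun d => c * (if (validU d s L u ∧ ∃ x ∈ cmp d s u, x ∈ W) then (1 : ℝ) else 0))
      ((L + 1) * (L + 1)) := by
  have h := comp_map (comp_cmp s L u)
    (fun o : Option (Finset (Fin n)) =>
      c * o.elim (0 : ℝ) (fun C => if ((∀ x ∈ C, u ≤ x) ∧ ∃ x ∈ C, x ∈ W) then (1 : ℝ) else 0))
  refine comp_congr h (fun d _ => ?_)
  by_cases hc : (cmp d s u).card ≤ L
  · simp [hc, validU]
  · simp [hc, validU]

private theorem g0_phi4 {n : ℕ} (P : Prm) (H : ℕ → Finset (Fin n)) (u : Fin n) :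
    Comp (NMet (V := Fin n)) (fun d => g0_G4 P H d u) (P.J * ((P.L1 + 1) * (P.L1 + 1))) := by
  have h := g0_sum (Icc 1 P.J) (fun _ => (P.L1 + 1) * (P.L1 + 1))
    (fun j d => (tau (j + 1) : ℝ) *
      (if (validU d (tau (j - 1)) P.L1 u ∧ ∃ x ∈ cmp d (tau (j - 1)) u, x ∈ H j) then 1 else 0))
    (fun j => g0_dead _ _ _ _ _)
  rw [Finset.sum_const, Nat.card_Icc, smul_eq_mul, Nat.add_sub_cancel] at h
  exact h

private theorem g0_phi4_eq {n M : ℕ} (P : Prm) (ω1 : Fin M → Fin n) (d : Fin n → Fin n → ℕ)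
    (u : Fin n) : phi4 P ω1 d u = g0_G4 P (Hj P ω1 d) d u := by
  unfold phi4 g0_G4
  refine Finset.sum_congr rfl (fun j hj => ?_)
  have he : (u ∈ deadU d (tau (j - 1)) (tau (j + 1)) P.L1 (grI P ω1 d j)) ↔
      (validU d (tau (j - 1)) P.L1 u ∧ ∃ x ∈ cmp d (tau (j - 1)) u, x ∈ Hj P ω1 d j) := by
    unfold deadU Hj
    rw [if_pos hj]
    simp only [Finset.mem_filter, Finset.mem_univ, true_and]
  by_cases hc : u ∈ deadU d (tau (j - 1)) (tau (j + 1)) P.L1 (grI P ω1 d j)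
  · rw [if_pos hc, if_pos (he.1 hc)]
  · rw [if_neg hc, if_neg (fun h => hc (he.2 h))]

private theorem g0_H {n M : ℕ} (P : Prm) (ω1 : Fin M → Fin n) :
    Comp (NMet (V := Fin n)) (fun d => Hj P ω1 d)
      (P.J * (M * ((P.L1 + 1) * (P.L1 + 2)) + M * P.L1)) := by
  have h := comp_finset (P := NMet (V := Fin n)) (A := fun _ => Icc 1 P.J) (m := P.J)
    (g := fun j d => Hv d (tau (j + 1)) (greedy d (tau (j - 1)) (tau (j + 1)) P.L1 (List.ofFn ω1)))
    (q' := M * ((P.L1 + 1) * (P.L1 + 2)) + M * P.L1) ∅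
    (comp_const _) (fun d _ => by simp)
    (fun j => by
      have := comp_Hv (n := n) (tau (j - 1)) (tau (j + 1)) P.L1 (List.ofFn ω1)
      rw [List.length_ofFn] at this
      exact this)
  refine comp_mono (comp_congr h (fun d _ => ?_)) (by omega)
  funext j
  unfold Hj grI
  by_cases hj : j ∈ Icc 1 P.J
  · rw [if_pos hj, if_pos hj]
  · rw [if_neg hj, if_neg hj]

private theorem g0_ff {n M : ℕ} (P : Prm) (ω1 : Fin M → Fin n) :
    Comp (NMet (V := Fin n)) (fun d => ff P ω1 d) M := by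
  refine comp_mono (comp_fT (rg ω1) P.r) ?_
  refine (Finset.card_image_le).trans ?_
  simp

/-- the final decision from the computed values -/
private noncomputable def g0_fin {n m0 : ℕ} (P : Prm) (v : Fin m0 → ℝ × ℝ × ℝ × ℝ) (tl ts : ℕ) :
    ℝ × Bool :=
  let e1 : ℝ := (n : ℝ) * ((∑ i, (v i).1) / m0)
  let e2 : ℝ := (n : ℝ) * ((∑ i, (v i).2.1) / m0)
  let e3 : ℝ := (n : ℝ) * ((∑ i, (v i).2.2.1) / m0)
  let e4 : ℝ := (n : ℝ) * ((∑ i, (v i).2.2.2) / m0)
  let wh : ℝ := e1 - P.R + tl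
  let wl : ℝ := e1 - P.R - P.R * (e2 - 1)
  (wh, decide ((ts : ℝ) ≤ (1 + 2 / 10 ^ 4) * wh ∧
    ((1 / 100) * wh ≤ e4 ∨ e3 ≤ wl + 1 / 4 * wh)))

theorem comp_out (P : Prm) : ∃ Q : ℕ, ∀ (n M M3 m0 : ℕ) (ω1 : Fin M → Fin n) (ω3 : Fin M3 → Fin n)
    (ω4 : Fin m0 → Fin n) (N : Finset (Fin n)),
    Comp (NMet (V := Fin n)) (fun d => out P ω1 ω3 ω4 N d)
      (2 * N.card + M3 + M * (1 + P.J * ((P.L1 + 1) * (P.L1 + 3))) + m0 * Q) := by
  obtain ⟨Q3, hQ3⟩ := g0_phi3 P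
  refine ⟨P.R * ((P.B + 1) * (P.B + 1)) + ((P.B + 1) * (P.B + 1) +
    (Q3 + P.J * ((P.L1 + 1) * (P.L1 + 1)))), fun n M M3 m0 ω1 ω3 ω4 N => ?_⟩
  set Q := P.R * ((P.B + 1) * (P.B + 1)) + ((P.B + 1) * (P.B + 1) +
    (Q3 + P.J * ((P.L1 + 1) * (P.L1 + 1)))) with hQ
  have hvec : ∀ a : (Fin n → ℕ) × (ℕ → Finset (Fin n)),
      Comp (NMet (V := Fin n)) (fun d => fun i : Fin m0 =>
        (phi1 P d (ω4 i), phi2 P d (ω4 i), g0_G3 P (rg ω1) a.1 a.2 d (ω4 i),
          g0_G4 P a.2 d (ω4 i))) (m0 * Q) := by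
    intro a
    exact g0_pi (0, 0, 0, 0) Q _ (fun i => comp_pair (g0_phi1 P (ω4 i))
      (comp_pair (g0_phi2 P (ω4 i)) (comp_pair (hQ3 n (rg ω1) a.1 a.2 (ω4 i))
        (g0_phi4 P a.2 (ω4 i)))))
  have htail : Comp (NMet (V := Fin n)) (fun d => tailN P d N) N.card := comp_netTail N P.R
  have htsp : Comp (NMet (V := Fin n)) (fun d => tspOn d (N ∪ rg ω3)) (N.card + M3) := by
    refine comp_mono (comp_tspOn (N ∪ rg ω3)) ((Finset.card_union_le _ _).trans ?_)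
    refine Nat.add_le_add_left ((Finset.card_image_le).trans ?_) _
    simp
  have hall := comp_bind (P := NMet (V := Fin n))
    (F := fun d => (ff P ω1 d, Hj P ω1 d))
    (G := fun a d => g0_fin (n := n) P (fun i : Fin m0 =>
        (phi1 P d (ω4 i), phi2 P d (ω4 i), g0_G3 P (rg ω1) a.1 a.2 d (ω4 i),
          g0_G4 P a.2 d (ω4 i))) (tailN P d N) (tspOn d (N ∪ rg ω3)))
    (comp_pair (g0_ff P ω1) (g0_H P ω1))
    (fun a => comp_map (comp_pair (hvec a) (comp_pair htail htsp))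
      (fun x => g0_fin (n := n) P x.1 x.2.1 x.2.2))
  refine comp_mono (comp_congr hall (fun d _ => ?_)) ?_
  · have h3 : ∀ u, g0_G3 P (rg ω1) (ff P ω1 d) (Hj P ω1 d) d u = phi3 P ω1 d u := fun u => rfl
    have h4 : ∀ u, g0_G4 P (Hj P ω1 d) d u = phi4 P ω1 d u := fun u => (g0_phi4_eq P ω1 d u).symm
    simp only [g0_fin, out, what, bitP, wleh, est, h3, h4]
    exact Prod.ext rfl (decide_eq_decide.2 Iff.rfl)
  · have e : P.J * (M * ((P.L1 + 1) * (P.L1 + 2)) + M * P.L1) ≤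
        M * (P.J * ((P.L1 + 1) * (P.L1 + 3))) := by
      have : M * ((P.L1 + 1) * (P.L1 + 2)) + M * P.L1 ≤ M * ((P.L1 + 1) * (P.L1 + 3)) := by
        rw [← Nat.mul_add]
        exact Nat.mul_le_mul_left _ (by ring_nf; omega)
      calc P.J * (M * ((P.L1 + 1) * (P.L1 + 2)) + M * P.L1)
          ≤ P.J * (M * ((P.L1 + 1) * (P.L1 + 3))) := Nat.mul_le_mul_left _ this
        _ = M * (P.J * ((P.L1 + 1) * (P.L1 + 3))) := by ring
    have e2 : M * (1 + P.J * ((P.L1 + 1) * (P.L1 + 3))) =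
        M + M * (P.J * ((P.L1 + 1) * (P.L1 + 3))) := by ring
    rw [e2]
    omega

end H82.TQ
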