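import Pool.Agent.H82.TQ.Defs2
import Pool.Agent.H82.TQ.B4

/-!
# TQ G1: in instances without savings, if the tour of `N ∪ S3` is short then many light edges have few descendants

`tspOn d U` is attained by a closed walk `l` with elements exactly `U = N ∪ S3` (`Nat.sInf_mem`; the set is not empty:
`U.toList`). `kappa` with `θ = 1/100`, `c = 10^-8`: the edges `e` with elements of `l` on both sides have total weight at
most `(1 + 3/10^4 + 4/100 + 1/10^6)/2 w ≤ 0.5202 w`. The other edges `e` with `wt e > 0` (so `e ≠ root`):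
* `wt e > ρ0`: impossible, since both sides meet `N` (for `u` on a side, `a ∈ N` with `d u a ≤ ρ0 < wt e` is on the same
  side by the cut property);
* `wt e ≤ ρ0`, `(descSet e).card ≤ L3`: these are the ones in the conclusion;
* `wt e ≤ ρ0`, `L3 < (descSet e).card`, at most `L3` non-descendants: the sets `descSet e` of these `e` have more than `n/2` elements,
  so any two intersect, hence they form a chain; the numbers of non-descendants are different, so there are at most
  `L3 + 1` such `e`, of total weight `≤ ρ0 (L3 + 1) ≤ n ≤ 10^-12 w`;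
* the rest is counted in `missW`, at most `w/1000`.
-/

set_option autoImplicit false

open Finset Classical

namespace H82.TQ

/-- the value `tspOn` is attained -/
private theorem G1_attained {n : ℕ} (d : Fin n → Fin n → ℕ) (U : Finset (Fin n)) :
    ∃ l : List (Fin n), (∀ v ∈ l, v ∈ U) ∧ (∀ v ∈ U, v ∈ l) ∧ cyc d l = tspOn d U := by
  have hne : {c | ∃ l : List (Fin n), (∀ v ∈ l, v ∈ U) ∧ (∀ v ∈ U, v ∈ l) ∧ cyc d l = c}.Nonempty :=
    ⟨cyc d U.toList, U.toList, fun v hv => Finset.mem_toList.1 hv,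
      fun v hv => Finset.mem_toList.2 hv, rfl⟩
  exact Nat.sInf_mem hne

/-- `kappa` with an abstract set of crossing edges -/
private theorem G1_kappa {V : Type} [Fintype V] {d : V → V → ℕ} (hd : NMet d) (T : MTree d)
    (θ c : ℝ) (hθ : 0 < θ) (hθ' : θ ≤ 1 / 4) (hc : 0 ≤ c)
    (hno : ∀ nx : Equiv.Perm V, TourP nx → (2 - c) * T.w ≤ tcost d nx) (l : List V) :
    ∃ X : Finset V, (∀ x, x ∈ X ↔ ∃ a ∈ l, ∃ b ∈ l, T.desc x a ∧ ¬ T.desc x b) ∧
      2 * ∑ x ∈ X, (T.wt x : ℝ) ≤ cyc d l + (4 * θ + c / θ) * T.w := by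
  refine ⟨univ.filter (fun x => ∃ a ∈ l, ∃ b ∈ l, T.desc x a ∧ ¬ T.desc x b), fun x => ?_,
    kappa hd T θ c hθ hθ' hc hno l⟩
  rw [mem_filter]
  exact ⟨fun h => h.2, fun h => ⟨mem_univ _, h⟩⟩

/-- few vertices have almost all vertices as descendants -/
private theorem G1_big {n : ℕ} {d : Fin n → Fin n → ℕ} (T : MTree d) (L : ℕ) (hL : 2 * L < n) :
    (univ.filter (fun e : Fin n => L < (T.descSet e).card ∧
      ¬ L < ((univ : Finset (Fin n)) \ T.descSet e).card)).card ≤ L + 1 := by
  have hmap : ∀ e ∈ univ.filter (fun e : Fin n => L < (T.descSet e).card ∧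
      ¬ L < ((univ : Finset (Fin n)) \ T.descSet e).card),
      ((univ : Finset (Fin n)) \ T.descSet e).card ∈ range (L + 1) := by
    intro e he
    rw [mem_filter] at he
    rw [mem_range]
    omega
  have hinj : Set.InjOn (fun e : Fin n => ((univ : Finset (Fin n)) \ T.descSet e).card)
      ((univ.filter (fun e : Fin n => L < (T.descSet e).card ∧
      ¬ L < ((univ : Finset (Fin n)) \ T.descSet e).card) : Finset (Fin n)) : Set (Fin n)) := by
    intro e he e' he' heq
    by_contra hne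
    rw [mem_coe, mem_filter] at he he'
    have h1 : (univ \ T.descSet e).card + (T.descSet e).card = n := by
      have := Finset.card_sdiff_add_card_eq_card (Finset.subset_univ (T.descSet e))
      rwa [Finset.card_univ, Fintype.card_fin] at this
    have h2 : (univ \ T.descSet e').card + (T.descSet e').card = n := by
      have := Finset.card_sdiff_add_card_eq_card (Finset.subset_univ (T.descSet e'))
      rwa [Finset.card_univ, Fintype.card_fin] at this
    have heq' : (univ \ T.descSet e).card = (univ \ T.descSet e').card := heq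
    obtain ⟨u, hu⟩ : (T.descSet e ∩ T.descSet e').Nonempty := by
      rw [Finset.nonempty_iff_ne_empty]
      intro h0
      have h3 := Finset.card_union_add_card_inter (T.descSet e) (T.descSet e')
      rw [h0, Finset.card_empty] at h3
      have h4 : (T.descSet e ∪ T.descSet e').card ≤ n := by
        have := Finset.card_le_univ (T.descSet e ∪ T.descSet e')
        rwa [Fintype.card_fin] at this
      omega
    rw [mem_inter] at hu
    have hu1 : T.desc e u := by
      have := hu.1
      simpa [MTree.descSet] using this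
    have hu2 : T.desc e' u := by
      have := hu.2
      simpa [MTree.descSet] using this
    rcases T.desc_chain hu1 hu2 with h | h
    · have := Finset.card_lt_card (T.descSet_ssubset h hne)
      omega
    · have := Finset.card_lt_card (T.descSet_ssubset h (Ne.symm hne))
      omega
  have := Finset.card_le_card_of_injOn _ hmap hinj
  rwa [card_range] at this

theorem twig_weight (P : Prm) {n M : ℕ} (h : POK P n M) {d : Fin n → Fin n → ℕ} (hd : NMet d)
    (T : MTree d) (hno : NOi T) (N : Finset (Fin n)) (hN : ∀ v, ∃ a ∈ N, d v a ≤ P.ρ0)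
    (S3 : Finset (Fin n)) (hw : (10 : ℝ) ^ 12 * n ≤ T.w) (hm : missW P T S3 ≤ 1 / 1000 * T.w)
    (ht : (tspOn d (N ∪ S3) : ℝ) ≤ (1 + 3 / 10 ^ 4) * T.w) :
    (47 / 100 : ℝ) * T.w ≤
      ∑ e ∈ univ.filter (fun e => T.wt e ≤ P.ρ0 ∧ (T.descSet e).card ≤ P.L3), (T.wt e : ℝ) := by
  obtain ⟨l, hl1, hl2, hl3⟩ := G1_attained d (N ∪ S3)
  obtain ⟨X, hX, hk⟩ := G1_kappa hd T (1 / 100) (1 / 10 ^ 8) (by norm_num) (by norm_num)
    (by norm_num) hno l
  rw [hl3] at hk
  set A : Finset (Fin n) := univ.filter (fun e => T.wt e ≤ P.ρ0 ∧ (T.descSet e).card ≤ P.L3)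
    with hA
  set C : Finset (Fin n) := univ.filter (fun e : Fin n => P.L3 < (T.descSet e).card ∧
      ¬ P.L3 < ((univ : Finset (Fin n)) \ T.descSet e).card) with hC
  set C' : Finset (Fin n) := C.filter (fun e => T.wt e ≤ P.ρ0) with hC'
  set E : Finset (Fin n) := univ.filter (fun e => P.L3 < (T.descSet e).card ∧
      P.L3 < ((univ : Finset (Fin n)) \ T.descSet e).card ∧
      ((∀ u ∈ S3, ¬ T.desc e u) ∨ (∀ u ∈ S3, T.desc e u))) with hE
  have hsub : (univ : Finset (Fin n)) ⊆ X ∪ (A ∪ (C' ∪ E)) := by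
    intro e _
    by_cases hx : e ∈ X
    · exact mem_union_left _ hx
    apply mem_union_right
    have hx' : ∀ a ∈ l, ∀ b ∈ l, T.desc e a → T.desc e b := by
      intro a ha b hb hab
      by_contra hcon
      exact hx ((hX e).2 ⟨a, ha, b, hb, hab, hcon⟩)
    have hwt : T.wt e ≤ P.ρ0 := by
      by_contra hcon
      push Not at hcon
      have hroot : e ≠ T.root := by
        rintro rfl
        rw [T.wt_root hd] at hcon
        omega
      obtain ⟨a, haN, ha⟩ := hN e
      obtain ⟨b, hbN, hb⟩ := hN T.root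
      have ha' : T.desc e a := by
        by_contra hc
        have hs : T.sep e e a := by
          intro hiff
          exact hc (hiff.1 (T.desc_refl e))
        have := T.cut' hd hs
        omega
      have hb' : ¬ T.desc e b := by
        intro hc
        have hs : T.sep e T.root b := by
          intro hiff
          exact hroot (T.desc_root_iff.1 (hiff.2 hc))
        have := T.cut' hd hs
        omega
      exact hb' (hx' a (hl2 a (mem_union_left _ haN)) b (hl2 b (mem_union_left _ hbN)) ha')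
    by_cases h1 : (T.descSet e).card ≤ P.L3
    · apply mem_union_left
      rw [hA, mem_filter]
      exact ⟨mem_univ _, hwt, h1⟩
    apply mem_union_right
    push Not at h1
    by_cases h2 : P.L3 < ((univ : Finset (Fin n)) \ T.descSet e).card
    · apply mem_union_right
      rw [hE, mem_filter]
      refine ⟨mem_univ _, h1, h2, ?_⟩
      by_cases h3 : ∀ u ∈ S3, ¬ T.desc e u
      · exact Or.inl h3
      · push Not at h3
        obtain ⟨u, hu, hu'⟩ := h3
        right
        intro v hv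
        exact hx' u (hl2 u (mem_union_right _ hu)) v (hl2 v (mem_union_right _ hv)) hu'
    · apply mem_union_left
      rw [hC', mem_filter, hC, mem_filter]
      exact ⟨⟨mem_univ _, h1, h2⟩, hwt⟩
  have hnn : ∀ e : Fin n, (0 : ℝ) ≤ (T.wt e : ℝ) := fun e => Nat.cast_nonneg _
  have hsum : (T.w : ℝ) = ∑ e, (T.wt e : ℝ) := by
    rw [MTree.w]
    push_cast
    rfl
  have hU : ∀ (Y Z : Finset (Fin n)), ∑ e ∈ Y ∪ Z, (T.wt e : ℝ) ≤
      ∑ e ∈ Y, (T.wt e : ℝ) + ∑ e ∈ Z, (T.wt e : ℝ) := by
    intro Y Z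
    have h1 := Finset.sum_union_inter (s₁ := Y) (s₂ := Z) (f := fun e => (T.wt e : ℝ))
    have h2 : 0 ≤ ∑ e ∈ Y ∩ Z, (T.wt e : ℝ) := Finset.sum_nonneg (fun e _ => hnn e)
    linarith
  have htot : (T.w : ℝ) ≤ ∑ e ∈ X, (T.wt e : ℝ) + (∑ e ∈ A, (T.wt e : ℝ) +
      (∑ e ∈ C', (T.wt e : ℝ) + ∑ e ∈ E, (T.wt e : ℝ))) := by
    rw [hsum]
    have h1 := Finset.sum_le_sum_of_subset_of_nonneg (f := fun e => (T.wt e : ℝ)) hsub
      (fun e _ _ => hnn e)
    have h2 := hU X (A ∪ (C' ∪ E))
    have h3 := hU A (C' ∪ E)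
    have h4 := hU C' E
    linarith
  have hCsum : ∑ e ∈ C', (T.wt e : ℝ) ≤ n := by
    have h1 : ∑ e ∈ C', (T.wt e : ℝ) ≤ ∑ _e ∈ C', (P.ρ0 : ℝ) := by
      apply Finset.sum_le_sum
      intro e he
      rw [hC', mem_filter] at he
      exact_mod_cast he.2
    rw [Finset.sum_const, nsmul_eq_mul] at h1
    have h2 : C'.card ≤ P.L3 + 1 :=
      le_trans (Finset.card_le_card (Finset.filter_subset _ _)) (G1_big T P.L3 h.nL3)
    have h3 : C'.card * P.ρ0 ≤ n := by
      calc C'.card * P.ρ0 ≤ (P.L3 + 1) * P.ρ0 := Nat.mul_le_mul_right _ h2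
        _ = P.ρ0 * (P.L3 + 1) := by ring
        _ ≤ n := h.nρ
    have h4 : (C'.card : ℝ) * (P.ρ0 : ℝ) ≤ n := by exact_mod_cast h3
    linarith
  have hEsum : ∑ e ∈ E, (T.wt e : ℝ) ≤ 1 / 1000 * T.w := hm
  have hn0 : (0 : ℝ) ≤ n := Nat.cast_nonneg _
  have hw0 : (0 : ℝ) ≤ T.w := Nat.cast_nonneg _
  have hn1 : (n : ℝ) ≤ 1 / 10 ^ 12 * T.w := by
    linarith [hw]
  have hk2 : 2 * ∑ x ∈ X, (T.wt x : ℝ) ≤ (tspOn d (N ∪ S3) : ℝ) +
      (4 * (1 / 100) + 1 / 10 ^ 8 / (1 / 100)) * T.w := hk
  have e1 : (4 * (1 / 100) + 1 / 10 ^ 8 / (1 / 100) : ℝ) = 40001 / 1000000 := by norm_num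
  have e2 : (1 + 3 / 10 ^ 4 : ℝ) = 10003 / 10000 := by norm_num
  have e3 : (1 / 10 ^ 12 : ℝ) ≤ 1 / 1000 := by norm_num
  rw [e1] at hk2
  rw [e2] at ht
  have hn2 : (n : ℝ) ≤ 1 / 1000 * T.w := le_trans hn1 (mul_le_mul_of_nonneg_right e3 hw0)
  linarith

end H82.TQ
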