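import Pool.Agent.H82.TQ.F1
import Pool.Agent.H82.TQ.B4

/-!
# TQ I1: nets and rounding

`net_exists`: farthest-first traversal: start with one vertex, repeatedly add a vertex farthest from the present set;
after `N1` vertices let `F.2` be the covering radius `max_v min_{a} d v a` (positive since `N1 < n`). All pairwise
distances of the chosen vertices are at least the final covering radius. It asks for the rows of the `N1` chosen vertices.
`sep_weight`: `exists_tour_two`, `perm_to_list`: a closed walk through the vertices of `N` without repetitions has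
`|N|` steps of length at least `ρ`.
`exists_sep_net`: take a maximal set with pairwise distances `> r`.
-/

set_option autoImplicit false

open Finset Classical

namespace H82.TQ

/-- position of a maximum -/
private noncomputable def i1am {n : ℕ} [Nonempty (Fin n)] (f : Fin n → ℝ) : Fin n :=
  Classical.choose (Finite.exists_max f)

private theorem i1am_spec {n : ℕ} [Nonempty (Fin n)] (f : Fin n → ℝ) (v : Fin n) :
    f v ≤ f (i1am f) := Classical.choose_spec (Finite.exists_max f) v

/-- one step of the traversal -/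
private noncomputable def i1step {n : ℕ} [Nonempty (Fin n)]
    (s : Finset (Fin n) × (Fin n → ℝ)) (row : Fin n → ℝ) : Finset (Fin n) × (Fin n → ℝ) :=
  (insert (i1am s.2) s.1, fun v => min (s.2 v) (row v))

private noncomputable def i1St {n : ℕ} [Nonempty (Fin n)] (v0 : Fin n) (d : Fin n → Fin n → ℝ) :
    ℕ → Finset (Fin n) × (Fin n → ℝ)
  | 0 => ({v0}, d v0)
  | k + 1 => i1step (i1St v0 d k) (d (i1am (i1St v0 d k).2))

private theorem i1_comp {n : ℕ} [Nonempty (Fin n)] (v0 : Fin n) (k : ℕ) :
    Comp (RMet (n := n)) (fun d => i1St v0 d k) (k + 1) := by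
  induction k with
  | zero =>
    have h := comp_map (comp_row (P := RMet (n := n)) v0)
      (fun row => (({v0} : Finset (Fin n)), row))
    exact h
  | succ k ih =>
    have h := comp_bind (G := fun (s : Finset (Fin n) × (Fin n → ℝ)) (d : Fin n → Fin n → ℝ) =>
      i1step s (d (i1am s.2))) ih
      (fun s => comp_map (comp_row (P := RMet (n := n)) (i1am s.2)) (i1step s))
    exact h

private theorem i1_inv {n : ℕ} [Nonempty (Fin n)] (v0 : Fin n) (d : Fin n → Fin n → ℝ)
    (hd : RMet d) (k : ℕ) (hk : k + 1 < n) :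
    (i1St v0 d k).1.card = k + 1 ∧
    (∀ v, ∃ a ∈ (i1St v0 d k).1, (i1St v0 d k).2 v = d a v) ∧
    (∀ v, ∀ a ∈ (i1St v0 d k).1, (i1St v0 d k).2 v ≤ d a v) ∧
    (∀ u ∈ (i1St v0 d k).1, ∀ v ∈ (i1St v0 d k).1, u ≠ v →
      (i1St v0 d k).2 (i1am (i1St v0 d k).2) ≤ d u v) := by
  induction k with
  | zero =>
    refine ⟨?_, ?_, ?_, ?_⟩
    · simp [i1St]
    · intro v
      exact ⟨v0, by simp [i1St], by simp [i1St]⟩
    · intro v a ha
      have : a = v0 := by simpa [i1St] using ha
      rw [this]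
      simp [i1St]
    · intro u hu v hv hne
      have h1 : u = v0 := by simpa [i1St] using hu
      have h2 : v = v0 := by simpa [i1St] using hv
      exact absurd (h1.trans h2.symm) hne
  | succ k ih =>
    obtain ⟨h1, h2, h3, h4⟩ := ih (by omega)
    have hpos : 0 < (i1St v0 d k).2 (i1am (i1St v0 d k).2) := by
      have : ∃ v, v ∉ (i1St v0 d k).1 := by
        by_contra hcon
        push Not at hcon
        have h5 : (i1St v0 d k).1 = univ := Finset.eq_univ_iff_forall.2 hcon
        rw [h5, Finset.card_univ, Fintype.card_fin] at h1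
        omega
      obtain ⟨v, hv⟩ := this
      obtain ⟨a, ha, ha'⟩ := h2 v
      have h6 : a ≠ v := fun e => hv (e ▸ ha)
      have h7 := hd.2.1 a v h6
      rw [← ha'] at h7
      exact lt_of_lt_of_le h7 (i1am_spec _ v)
    have hnew : i1am (i1St v0 d k).2 ∉ (i1St v0 d k).1 := by
      intro h5
      have h6 := h3 (i1am (i1St v0 d k).2) _ h5
      rw [hd.1] at h6
      linarith
    have hmono : (i1St v0 d (k + 1)).2 (i1am (i1St v0 d (k + 1)).2) ≤
        (i1St v0 d k).2 (i1am (i1St v0 d k).2) := by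
      have h5 : (i1St v0 d (k + 1)).2 (i1am (i1St v0 d (k + 1)).2) ≤
          (i1St v0 d k).2 (i1am (i1St v0 d (k + 1)).2) := min_le_left _ _
      exact h5.trans (i1am_spec _ _)
    have hset : (i1St v0 d (k + 1)).1 = insert (i1am (i1St v0 d k).2) (i1St v0 d k).1 := rfl
    have hfun : ∀ v, (i1St v0 d (k + 1)).2 v =
        min ((i1St v0 d k).2 v) (d (i1am (i1St v0 d k).2) v) := fun v => rfl
    refine ⟨?_, ?_, ?_, ?_⟩
    · rw [hset, Finset.card_insert_of_notMem hnew, h1]
    · intro v
      rw [hfun]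
      obtain ⟨a, ha, ha'⟩ := h2 v
      rcases le_total ((i1St v0 d k).2 v) (d (i1am (i1St v0 d k).2) v) with h5 | h5
      · exact ⟨a, by rw [hset]; exact mem_insert_of_mem ha, by rw [min_eq_left h5, ha']⟩
      · exact ⟨_, by rw [hset]; exact mem_insert_self _ _, by rw [min_eq_right h5]⟩
    · intro v a ha
      rw [hfun]
      rw [hset] at ha
      rcases mem_insert.1 ha with h5 | h5
      · rw [h5]
        exact min_le_right _ _
      · exact (min_le_left _ _).trans (h3 v a h5)
    · intro u hu v hv hne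
      rw [hset] at hu hv
      rcases mem_insert.1 hu with h5 | h5
      · rcases mem_insert.1 hv with h6 | h6
        · exact absurd (h5.trans h6.symm) hne
        · refine hmono.trans ?_
          rw [hd.2.2.1 u v, h5]
          exact h3 _ v h6
      · rcases mem_insert.1 hv with h6 | h6
        · refine hmono.trans ?_
          rw [h6]
          exact h3 _ u h5
        · exact hmono.trans (h4 u h5 v h6 hne)

theorem net_exists (n N1 : ℕ) (h1 : 1 ≤ N1) (h2 : N1 < n) :
    ∃ F : (Fin n → Fin n → ℝ) → Finset (Fin n) × ℝ, Comp (RMet (n := n)) F N1 ∧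
      ∀ d, RMet d → (F d).1.card = N1 ∧ 0 < (F d).2 ∧
        (∀ u ∈ (F d).1, ∀ v ∈ (F d).1, u ≠ v → (F d).2 ≤ d u v) ∧
        ∀ v, ∃ a ∈ (F d).1, d v a ≤ (F d).2 := by
  have : Nonempty (Fin n) := ⟨⟨0, by omega⟩⟩
  obtain ⟨k, rfl⟩ : ∃ k, N1 = k + 1 := ⟨N1 - 1, by omega⟩
  let v0 : Fin n := ⟨0, by omega⟩
  refine ⟨fun d => ((i1St v0 d k).1, (i1St v0 d k).2 (i1am (i1St v0 d k).2)), ?_, ?_⟩
  · exact comp_map (i1_comp v0 k) (fun s => (s.1, s.2 (i1am s.2)))
  · intro d hd
    obtain ⟨h3, h4, h5, h6⟩ := i1_inv v0 d hd k h2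
    refine ⟨h3, ?_, h6, ?_⟩
    · have : ∃ v, v ∉ (i1St v0 d k).1 := by
        by_contra hcon
        push Not at hcon
        have h7 : (i1St v0 d k).1 = univ := Finset.eq_univ_iff_forall.2 hcon
        rw [h7, Finset.card_univ, Fintype.card_fin] at h3
        omega
      obtain ⟨v, hv⟩ := this
      obtain ⟨a, ha, ha'⟩ := h4 v
      have h7 : a ≠ v := fun e => hv (e ▸ ha)
      have h8 := hd.2.1 a v h7
      rw [← ha'] at h8
      exact lt_of_lt_of_le h8 (i1am_spec _ v)
    · intro v
      obtain ⟨a, ha, ha'⟩ := h4 v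
      refine ⟨a, ha, ?_⟩
      rw [hd.2.2.1 v a, ← ha']
      exact i1am_spec _ v

private theorem i1_nonneg {n : ℕ} (d : Fin n → Fin n → ℝ) (hd : RMet d) (u v : Fin n) :
    0 ≤ d u v := by
  by_cases h : u = v
  · rw [h, hd.1]
  · exact (hd.2.1 u v h).le

theorem rnd_met {n : ℕ} (d : Fin n → Fin n → ℝ) (hd : RMet d) (u0 : ℝ) (h0 : 0 < u0) :
    NMet (fun u v => ⌈d u v / u0⌉₊) := by
  refine ⟨?_, ?_, ?_⟩
  · intro u
    simp [hd.1 u]
  · intro u v
    show ⌈d u v / u0⌉₊ = ⌈d v u / u0⌉₊
    rw [hd.2.2.1 u v]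
  · intro u v w
    show ⌈d u w / u0⌉₊ ≤ ⌈d u v / u0⌉₊ + ⌈d v w / u0⌉₊
    have h1 : d u w / u0 ≤ d u v / u0 + d v w / u0 := by
      rw [← add_div]
      exact div_le_div_of_nonneg_right (hd.2.2.2 u v w) h0.le
    exact (Nat.ceil_le_ceil h1).trans (Nat.ceil_add_le _ _)

theorem rnd_bounds {n : ℕ} (d : Fin n → Fin n → ℝ) (hd : RMet d) (u0 : ℝ) (h0 : 0 < u0) (u v : Fin n) :
    d u v ≤ u0 * ⌈d u v / u0⌉₊ ∧ u0 * ⌈d u v / u0⌉₊ ≤ d u v + u0 := by
  have h1 : 0 ≤ d u v / u0 := div_nonneg (i1_nonneg d hd u v) h0.le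
  have h2 : u0 * (d u v / u0) = d u v := by
    field_simp
  constructor
  · calc d u v = u0 * (d u v / u0) := h2.symm
      _ ≤ u0 * ⌈d u v / u0⌉₊ := mul_le_mul_of_nonneg_left (Nat.le_ceil _) h0.le
  · calc u0 * ⌈d u v / u0⌉₊ ≤ u0 * (d u v / u0 + 1) :=
        mul_le_mul_of_nonneg_left (Nat.ceil_lt_add_one h1).le h0.le
      _ = d u v + u0 := by rw [mul_add, h2, mul_one]

private theorem i1_wlen {V : Type} {d : V → V → ℕ} (ρ : ℕ) : ∀ (L : List V),
    L.IsChain (fun a b => ρ ≤ d a b) → (L.length - 1) * ρ ≤ wlen d L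
  | [], _ => by simp [wlen]
  | [a], _ => by simp [wlen]
  | a :: b :: l, h => by
    have h1 := List.isChain_cons_cons.1 h
    have h2 := i1_wlen ρ (b :: l) h1.2
    simp only [wlen, List.length_cons, Nat.add_sub_cancel] at h2 ⊢
    have h3 := h1.1
    nlinarith

theorem sep_weight {V : Type} [Fintype V] {d : V → V → ℕ} (hd : NMet d) (T : MTree d) (N : Finset V)
    (h2 : 2 ≤ N.card) (ρ : ℕ) (hsep : ∀ u ∈ N, ∀ v ∈ N, u ≠ v → ρ ≤ d u v) : N.card * ρ ≤ 2 * T.w := by
  obtain ⟨nx, hnx, hcost⟩ := exists_tour_two hd T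
  obtain ⟨l, hnd, hl1, hl2, hl3⟩ := perm_to_list hd nx hnx N
  have hlen : l.length = N.card := by
    have h3 : l.toFinset = N := by
      ext v
      rw [List.mem_toFinset]
      exact ⟨hl1 v, hl2 v⟩
    rw [← h3, List.toFinset_card_of_nodup hnd]
  cases l with
  | nil => simp at hlen; omega
  | cons a l' =>
    have hch : (a :: (l' ++ [a])).IsChain (fun a b => ρ ≤ d a b) := by
      have h4 : (a :: l').IsChain (fun a b => ρ ≤ d a b) := by
        apply List.Pairwise.isChain
        have h5 : (a :: l').Pairwise (fun x y => x ≠ y) := hnd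
        exact List.Pairwise.imp_of_mem (fun {x y} hx hy hne =>
          hsep x (hl1 x hx) y (hl1 y hy) hne) h5
      rw [← List.cons_append]
      rw [List.isChain_append]
      refine ⟨h4, by simp, ?_⟩
      intro x hx y hy
      have hy' : y = a := by simpa using hy.symm
      rw [hy']
      have hl'ne : l' ≠ [] := by
        intro e
        rw [e] at hlen
        simp at hlen
        omega
      rw [List.getLast?_cons_of_ne_nil hl'ne] at hx
      have hx' : x ∈ l' := List.mem_of_mem_getLast? hx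
      have hne : x ≠ a := by
        intro e
        rw [e] at hx'
        exact (List.nodup_cons.1 hnd).1 hx'
      exact hsep x (hl1 x (List.mem_cons_of_mem _ hx')) a (hl1 a List.mem_cons_self) hne
    have h6 := i1_wlen ρ _ hch
    have h7 : (a :: (l' ++ [a])).length - 1 = N.card := by
      rw [← hlen]
      simp
    rw [h7] at h6
    have h8 : cyc d (a :: l') = wlen d (a :: (l' ++ [a])) := rfl
    omega

theorem exists_sep_net {V : Type} [Fintype V] [Nonempty V] {d : V → V → ℕ} (hd : NMet d) (T : MTree d)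
    (r : ℕ) (hr : 0 < r) :
    ∃ N' : Finset V, (∀ v, ∃ a ∈ N', d v a ≤ r) ∧ (N'.card : ℝ) ≤ 2 * T.w / r + 1 := by
  have hne : ((univ : Finset (Finset V)).filter
      (fun N => ∀ u ∈ N, ∀ v ∈ N, u ≠ v → r < d u v)).Nonempty :=
    ⟨∅, mem_filter.2 ⟨mem_univ _, by simp⟩⟩
  obtain ⟨N', hN', hmax⟩ := Finset.exists_max_image _ (fun N => N.card) hne
  have hsep := (mem_filter.1 hN').2
  refine ⟨N', ?_, ?_⟩
  · intro v
    by_contra hcon
    push Not at hcon
    have hv : v ∉ N' := by
      intro hv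
      have := hcon v hv
      rw [hd.self] at this
      omega
    have h1 := hmax (insert v N') (mem_filter.2 ⟨mem_univ _, by
      intro u hu w hw hne
      rcases mem_insert.1 hu with h3 | h3
      · rcases mem_insert.1 hw with h4 | h4
        · exact absurd (h3.trans h4.symm) hne
        · rw [h3]
          exact hcon w h4
      · rcases mem_insert.1 hw with h4 | h4
        · rw [h4, hd.symm]
          exact hcon u h3
        · exact hsep u h3 w h4 hne⟩)
    rw [Finset.card_insert_of_notMem hv] at h1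
    omega
  · have hr' : (0 : ℝ) < r := by exact_mod_cast hr
    by_cases h2 : 2 ≤ N'.card
    · have h3 := sep_weight hd T N' h2 r (fun u hu v hv hne => (hsep u hu v hv hne).le)
      have h4 : (N'.card : ℝ) * r ≤ 2 * T.w := by exact_mod_cast h3
      have h5 : (N'.card : ℝ) ≤ 2 * T.w / r := by
        rw [le_div_iff₀ hr']
        exact h4
      linarith
    · have h3 : (N'.card : ℝ) ≤ 1 := by
        have : N'.card ≤ 1 := by omega
        exact_mod_cast this
      have h4 : (0 : ℝ) ≤ 2 * T.w / r := by positivity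
      linarith

end H82.TQ
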