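import Pool.Agent.H82.TQ.Defs2
import Pool.Agent.H82.TQ.C2
import Pool.Agent.H82.TQ.I1
import Pool.Agent.H82.TQ.E1
import Pool.Agent.H82.TQ.F3

/-!
# TQ G3: lower bound for the iterates in instances without savings

Apply `lp_lower` with `θ = 1/100`, `c = 10^-8`, `S = rg ω`, `N'` from `exists_sep_net` with `r = P.r`, `f = ff P ω d`
(`f u` is the minimum of `r` and the distances from `u` to `S`, so some vertex of `S ∪ N'` is within `f u`), `ℓ = P.ℓ`,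
`A1 = {e : wt e ≤ ρ0, (descSet e).card ≤ L3}`, `x, y` = the `k`-th iterate (`itz_nonneg`, `itz_supp`), neighbour sets
`nb P ω d` (`nbrA_symm`, `nbrA_S`). The edges of `A1` with a descendant in `S` weigh at most `w/1000` (`hitW`); those with a
descendant in `N'` at most `ρ0 * L3 * N'.card` (a vertex has at most `L3` ancestors with at most `L3` descendants, since
the numbers of descendants are different along the chain of ancestors), `N'.card ≤ 2 w/r + 1`,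
`≤ 2 w/4000 + ρ0 L3 ≤ w/2000 + n`. `ℓ n/L4 ≤ n`, `ℓ S.card ≤ ℓ M ≤ n`, `ℓ N'.card ≤ 2 w/10^4 + ℓ ≤ w/5000 + n`. Hence
`Phi ≥ wle ℓ + 0.47 w - 0.040001 w - 0.0015 w - 0.0002 w - 4 n`, `wle ℓ ≥ wle R - w/200`, `n ≤ 10^-12 w`.
-/

set_option autoImplicit false

open Finset Classical

namespace H82.TQ

private theorem G3_anc {V : Type} [Fintype V] {d : V → V → ℕ} (T : MTree d) (L : ℕ) (u : V) :
    (univ.filter (fun e => (T.descSet e).card ≤ L ∧ T.desc e u)).card ≤ L := by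
  have h1 : (univ.filter (fun e => (T.descSet e).card ≤ L ∧ T.desc e u)).card ≤
      (Finset.Icc 1 L).card := by
    refine Finset.card_le_card_of_injOn (fun e => (T.descSet e).card) ?_ ?_
    · intro e he
      have he' := (Finset.mem_filter.1 (Finset.mem_coe.1 he)).2
      refine Finset.mem_coe.2 (Finset.mem_Icc.2 ⟨?_, he'.1⟩)
      exact Finset.card_pos.2 ⟨e, Finset.mem_filter.2 ⟨Finset.mem_univ _, T.desc_refl e⟩⟩
    · intro e he e' he' hee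
      have h2 := (Finset.mem_filter.1 (Finset.mem_coe.1 he)).2
      have h3 := (Finset.mem_filter.1 (Finset.mem_coe.1 he')).2
      have hee' : (T.descSet e).card = (T.descSet e').card := hee
      by_contra hne
      rcases T.desc_chain h2.2 h3.2 with h4 | h4
      · have := Finset.card_lt_card (T.descSet_ssubset h4 hne)
        omega
      · have := Finset.card_lt_card (T.descSet_ssubset h4 (Ne.symm hne))
        omega
  rwa [Nat.card_Icc, Nat.add_sub_cancel] at h1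

private theorem G3_hit (P : Prm) {n : ℕ} {d : Fin n → Fin n → ℕ} (T : MTree d)
    (S N' Q : Finset (Fin n)) (hQ : ∀ e ∈ Q, T.wt e ≤ P.ρ0 ∧ (T.descSet e).card ≤ P.L3 ∧
      ∃ u, (u ∈ S ∨ u ∈ N') ∧ T.desc e u) :
    ∑ e ∈ Q, (T.wt e : ℝ) ≤ hitW P T S + P.ρ0 * P.L3 * N'.card := by
  have h1 : Q ⊆
      (univ.filter (fun e => T.wt e ≤ P.ρ0 ∧ (T.descSet e).card ≤ P.L3 ∧
        ∃ u ∈ S, T.desc e u)) ∪
      N'.biUnion (fun u => univ.filter (fun e => T.wt e ≤ P.ρ0 ∧ (T.descSet e).card ≤ P.L3 ∧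
        T.desc e u)) := by
    intro e he
    obtain ⟨he1, he2, u, hu, he3⟩ := hQ e he
    rcases hu with hu | hu
    · exact Finset.mem_union_left _ (Finset.mem_filter.2
        ⟨Finset.mem_univ _, he1, he2, u, hu, he3⟩)
    · exact Finset.mem_union_right _ (Finset.mem_biUnion.2 ⟨u, hu, Finset.mem_filter.2
        ⟨Finset.mem_univ _, he1, he2, he3⟩⟩)
  have h2 : ∀ u : Fin n, ∑ e ∈ univ.filter (fun e => T.wt e ≤ P.ρ0 ∧ (T.descSet e).card ≤ P.L3 ∧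
      T.desc e u), (T.wt e : ℝ) ≤ P.ρ0 * P.L3 := by
    intro u
    calc ∑ e ∈ univ.filter (fun e => T.wt e ≤ P.ρ0 ∧ (T.descSet e).card ≤ P.L3 ∧
          T.desc e u), (T.wt e : ℝ)
        ≤ ∑ e ∈ univ.filter (fun e => T.wt e ≤ P.ρ0 ∧ (T.descSet e).card ≤ P.L3 ∧
          T.desc e u), (P.ρ0 : ℝ) := by
          refine Finset.sum_le_sum fun e he => ?_
          exact_mod_cast (Finset.mem_filter.1 he).2.1
      _ = ((univ.filter (fun e => T.wt e ≤ P.ρ0 ∧ (T.descSet e).card ≤ P.L3 ∧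
          T.desc e u)).card : ℝ) * P.ρ0 := by rw [Finset.sum_const, nsmul_eq_mul]
      _ ≤ P.L3 * P.ρ0 := by
          refine mul_le_mul_of_nonneg_right ?_ (Nat.cast_nonneg _)
          refine Nat.cast_le.2 (le_trans (Finset.card_le_card ?_) (G3_anc T P.L3 u))
          intro e he
          have he' := (Finset.mem_filter.1 he).2
          exact Finset.mem_filter.2 ⟨Finset.mem_univ _, he'.2.1, he'.2.2⟩
      _ = P.ρ0 * P.L3 := mul_comm _ _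
  have hnn : ∀ (A : Finset (Fin n)), 0 ≤ ∑ e ∈ A, (T.wt e : ℝ) :=
    fun A => Finset.sum_nonneg fun e _ => Nat.cast_nonneg _
  have hbi : ∀ (A : Finset (Fin n)) (g : Fin n → Finset (Fin n)),
      ∑ e ∈ A.biUnion g, (T.wt e : ℝ) ≤ ∑ u ∈ A, ∑ e ∈ g u, (T.wt e : ℝ) := by
    intro A g
    induction A using Finset.induction_on with
    | empty => simp
    | insert a A ha ih =>
      rw [Finset.biUnion_insert, Finset.sum_insert ha]
      have h3 := Finset.sum_union_inter (s₁ := g a) (s₂ := A.biUnion g)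
        (f := fun e => (T.wt e : ℝ))
      have h4 := hnn (g a ∩ A.biUnion g)
      linarith
  have h3 := Finset.sum_union_inter
    (s₁ := univ.filter (fun e => T.wt e ≤ P.ρ0 ∧ (T.descSet e).card ≤ P.L3 ∧
        ∃ u ∈ S, T.desc e u))
    (s₂ := N'.biUnion (fun u => univ.filter (fun e => T.wt e ≤ P.ρ0 ∧
      (T.descSet e).card ≤ P.L3 ∧ T.desc e u)))
    (f := fun e => (T.wt e : ℝ))
  have h4 := Finset.sum_le_sum_of_subset_of_nonneg (f := fun e => (T.wt e : ℝ)) h1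
    (fun e _ _ => Nat.cast_nonneg _)
  have h5 := hbi N' (fun u => univ.filter (fun e => T.wt e ≤ P.ρ0 ∧
      (T.descSet e).card ≤ P.L3 ∧ T.desc e u))
  have h6 : ∑ u ∈ N', ∑ e ∈ univ.filter (fun e => T.wt e ≤ P.ρ0 ∧ (T.descSet e).card ≤ P.L3 ∧
      T.desc e u), (T.wt e : ℝ) ≤ P.ρ0 * P.L3 * N'.card := by
    calc ∑ u ∈ N', ∑ e ∈ univ.filter (fun e => T.wt e ≤ P.ρ0 ∧ (T.descSet e).card ≤ P.L3 ∧
          T.desc e u), (T.wt e : ℝ) ≤ ∑ u ∈ N', (P.ρ0 : ℝ) * P.L3 :=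
          Finset.sum_le_sum fun u _ => h2 u
      _ = P.ρ0 * P.L3 * N'.card := by rw [Finset.sum_const, nsmul_eq_mul]; ring
  have h7 := hnn ((univ.filter (fun e => T.wt e ≤ P.ρ0 ∧ (T.descSet e).card ≤ P.L3 ∧
        ∃ u ∈ S, T.desc e u)) ∩
      N'.biUnion (fun u => univ.filter (fun e => T.wt e ≤ P.ρ0 ∧
      (T.descSet e).card ≤ P.L3 ∧ T.desc e u)))
  unfold hitW
  linarith

private theorem G3_lp {V : Type} [Fintype V] {d : V → V → ℕ} (hd : NMet d) (T : MTree d)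
    (hno : NOi T) (f : V → ℕ) (S N' : Finset V)
    (hf : ∀ u, ∃ v, (v ∈ S ∨ v ∈ N') ∧ d u v ≤ f u)
    (nbr : V → Finset V) (hsym : ∀ u v, v ∈ nbr u → u ∈ nbr v) (hS : ∀ u ∈ S, nbr u = ∅)
    (x : V → V → ℝ) (y : V → ℝ) (hx : ∀ u v, 0 ≤ x u v) (hy : ∀ u, 0 ≤ y u)
    (hsup : ∀ u v, x u v ≠ 0 → v ∈ nbr u)
    (ℓ L3 L4 : ℕ) (hL : L3 ≤ L4) (hL4 : 1 ≤ L4) (hn : L4 < Fintype.card V)
    (A1 : Finset V) (hA1 : ∀ e ∈ A1, T.wt e ≤ ℓ ∧ (T.descSet e).card ≤ L3)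
    (C0 : ℝ) (hC0 : (ℓ : ℝ) * (L4 + 1) ≤ C0) :
    ∃ Q : Finset V, (∀ e ∈ Q, e ∈ A1 ∧ ∃ u, (u ∈ S ∨ u ∈ N') ∧ T.desc e u) ∧
    (T.wle ℓ : ℝ) + ∑ e ∈ A1, (T.wt e : ℝ) ≤
      Phi d f C0 (Fam nbr S L4) x y + 40001 / 1000000 * T.w +
        ∑ e ∈ Q, (T.wt e : ℝ) +
        ℓ * ((Fintype.card V : ℝ) / L4 + S.card + N'.card) := by
  have key := lp_lower hd T (1 / 100) (1 / 10 ^ 8) (by norm_num) (by norm_num) (by norm_num)
    (fun nx hnx => hno nx hnx) f S N'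
    (fun u => (hf u).imp fun v hv => ⟨Finset.mem_union.2 hv.1, hv.2⟩) nbr hsym hS x y hx hy hsup
    ℓ L3 L4 hL hL4 hn A1 hA1 C0 hC0
  refine ⟨A1.filter (fun e => ∃ u ∈ S ∪ N', T.desc e u), fun e he => ?_, ?_⟩
  · obtain ⟨he1, u, hu, he2⟩ := Finset.mem_filter.1 he
    exact ⟨he1, u, Finset.mem_union.1 hu, he2⟩
  · refine key.trans (le_of_eq ?_)
    norm_num

theorem no_lp (P : Prm) {n M : ℕ} (h : POK P n M) {d : Fin n → Fin n → ℕ} (hd : NMet d)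
    (T : MTree d) (hno : NOi T) (ω : Fin M → Fin n) (hw : (10 : ℝ) ^ 12 * n ≤ T.w)
    (hwin : (T.wle P.R : ℝ) ≤ T.wle P.ℓ + 1 / 200 * T.w)
    (htw : (47 / 100 : ℝ) * T.w ≤
      ∑ e ∈ univ.filter (fun e => T.wt e ≤ P.ρ0 ∧ (T.descSet e).card ≤ P.L3), (T.wt e : ℝ))
    (hhit : hitW P T (rg ω) ≤ 1 / 1000 * T.w) (k : ℕ) :
    (T.wle P.R : ℝ) + 40 / 100 * T.w ≤ PhiK P ω d k := by
  have hn2 := h.n2
  have : Nonempty (Fin n) := ⟨⟨0, by omega⟩⟩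
  have hℓ1 := h.ℓ1
  have hℓr := h.ℓr
  have hr : 0 < P.r := by omega
  obtain ⟨N', hN', hN'c⟩ := exists_sep_net hd T P.r hr
  have hf : ∀ u, ∃ v, (v ∈ rg ω ∨ v ∈ N') ∧ d u v ≤ ff P ω d u := by
    intro u
    have h1 : (rg ω).fold min P.r (fun s => d u s) ≤ ff P ω d u := le_refl _
    rw [Finset.fold_min_le] at h1
    rcases h1 with h1 | ⟨s, hs, h1⟩
    · obtain ⟨a, ha, hda⟩ := hN' u
      exact ⟨a, Or.inr ha, hda.trans h1⟩
    · exact ⟨s, Or.inl hs, h1⟩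
  have hit := itz_nonneg d (ff P ω d) (rg ω) P.C0 P.al (nb P ω d)
    (Fam (nb P ω d) (rg ω) P.L4) k
  have his := itz_supp d (ff P ω d) (rg ω) P.C0 P.al (nb P ω d)
    (Fam (nb P ω d) (rg ω) P.L4) k
  have hcard : Fintype.card (Fin n) = n := Fintype.card_fin n
  obtain ⟨Q, hQ, key⟩ := G3_lp hd T hno (ff P ω d) (rg ω) N' hf (nb P ω d)
    (fun u v huv => nbrA_symm _ _ _ _ _ _ d hd u v huv)
    (fun u hu => nbrA_S _ _ _ _ _ _ d u hu)
    (it P ω d k).1 (it P ω d k).2 hit.1 hit.2 his.1 P.ℓ P.L3 P.L4 h.L34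
    (hℓ1.trans h.ℓL4) (by rw [hcard]; exact h.nL4)
    (univ.filter (fun e => T.wt e ≤ P.ρ0 ∧ (T.descSet e).card ≤ P.L3))
    (fun e he => ⟨(Finset.mem_filter.1 he).2.1.trans h.ρℓ, (Finset.mem_filter.1 he).2.2⟩)
    P.C0 h.C0
  rw [hcard] at key
  have hPhi : PhiK P ω d k = Phi d (ff P ω d) P.C0 (Fam (nb P ω d) (rg ω) P.L4)
    (it P ω d k).1 (it P ω d k).2 := rfl
  rw [← hPhi] at key
  have hhit2 := G3_hit P T (rg ω) N' Q (fun e he => by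
    obtain ⟨he1, he2⟩ := hQ e he
    exact ⟨(Finset.mem_filter.1 he1).2.1, (Finset.mem_filter.1 he1).2.2, he2⟩)
  have hrR : (0 : ℝ) < P.r := by exact_mod_cast hr
  have hW : (0 : ℝ) ≤ T.w := Nat.cast_nonneg _
  -- the bounds
  have e1 : (P.ρ0 : ℝ) * P.L3 * N'.card ≤ 1 / 2000 * T.w + n := by
    have h1 : (4000 : ℝ) * P.ρ0 * P.L3 ≤ P.r := by exact_mod_cast h.ρr
    have h2 : (P.ρ0 : ℝ) * (P.L3 + 1) ≤ n := by exact_mod_cast h.nρ
    have h3 : (0 : ℝ) ≤ P.ρ0 := Nat.cast_nonneg _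
    have h4 : (0 : ℝ) ≤ (P.ρ0 : ℝ) * P.L3 := by positivity
    have h5 : (P.ρ0 : ℝ) * P.L3 * (2 * T.w / P.r) ≤ 1 / 2000 * T.w := by
      have h6 : (P.ρ0 : ℝ) * P.L3 * (2 * T.w / P.r) = (P.ρ0 * P.L3) * (2 * T.w) / P.r := by ring
      rw [h6, div_le_iff₀ hrR]
      nlinarith
    calc (P.ρ0 : ℝ) * P.L3 * N'.card ≤ P.ρ0 * P.L3 * (2 * T.w / P.r + 1) :=
          mul_le_mul_of_nonneg_left hN'c h4
      _ = P.ρ0 * P.L3 * (2 * T.w / P.r) + P.ρ0 * P.L3 := by ring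
      _ ≤ 1 / 2000 * T.w + n := by nlinarith
  have e2 : (P.ℓ : ℝ) * ((n : ℝ) / P.L4) ≤ n := by
    have h1 : (P.ℓ : ℝ) ≤ P.L4 := by exact_mod_cast h.ℓL4
    have h2 : (0 : ℝ) < P.L4 := by
      have : 0 < P.L4 := by have := h.ℓL4; omega
      exact_mod_cast this
    rw [← mul_div_assoc, div_le_iff₀ h2, mul_comm (n : ℝ)]
    exact mul_le_mul_of_nonneg_right h1 (Nat.cast_nonneg _)
  have e3 : (P.ℓ : ℝ) * ((rg ω).card : ℝ) ≤ n := by
    have h1 : (rg ω).card ≤ M := by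
      have := Finset.card_image_le (s := (univ : Finset (Fin M))) (f := ω)
      rwa [Finset.card_univ, Fintype.card_fin] at this
    have h2 : P.ℓ * (rg ω).card ≤ n := by
      calc P.ℓ * (rg ω).card ≤ P.ℓ * M := Nat.mul_le_mul_left _ h1
        _ = M * P.ℓ := Nat.mul_comm _ _
        _ ≤ n := h.Mℓ
    exact_mod_cast h2
  have e4 : (P.ℓ : ℝ) * (N'.card : ℝ) ≤ 1 / 5000 * T.w + n := by
    have h1 : (10 : ℝ) ^ 4 * P.ℓ ≤ P.r := by exact_mod_cast hℓr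
    have h2 : (P.ℓ : ℝ) ≤ n := by exact_mod_cast h.nℓ
    have h3 : (0 : ℝ) ≤ P.ℓ := Nat.cast_nonneg _
    have h5 : (P.ℓ : ℝ) * (2 * T.w / P.r) ≤ 1 / 5000 * T.w := by
      have h6 : (P.ℓ : ℝ) * (2 * T.w / P.r) = P.ℓ * (2 * T.w) / P.r := by ring
      rw [h6, div_le_iff₀ hrR]
      nlinarith
    calc (P.ℓ : ℝ) * (N'.card : ℝ) ≤ P.ℓ * (2 * T.w / P.r + 1) :=
          mul_le_mul_of_nonneg_left hN'c h3
      _ = P.ℓ * (2 * T.w / P.r) + P.ℓ := by ring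
      _ ≤ 1 / 5000 * T.w + n := by linarith
  have e5 : (P.ℓ : ℝ) * ((n : ℝ) / P.L4 + (rg ω).card + N'.card) ≤ 1 / 5000 * T.w + 3 * n := by
    have : (P.ℓ : ℝ) * ((n : ℝ) / P.L4 + (rg ω).card + N'.card) =
        P.ℓ * ((n : ℝ) / P.L4) + P.ℓ * ((rg ω).card : ℝ) + P.ℓ * (N'.card : ℝ) := by ring
    rw [this]
    linarith
  norm_num at key hw ⊢
  linarith

end H82.TQ
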