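import Pool.Agent.H82.TQ.Defs2
import Pool.Agent.H82.TQ.C4
import Pool.Agent.H82.TQ.E1
import Pool.Agent.H82.TQ.F3

/-!
# TQ G5: the iterates are cheap on average if there is a short tour

`yes_bound` with `δ = 10^-4`, `S = rg ω`, `f = ff P ω d`, neighbour sets `nb P ω d`, `BI P ω d`, `BC P ω d`, and
`BU j = {u : L1 < (cmp (τ(j-1)) u).card ∨ ∃ x ∈ cmp (τ(j-1)) u, x ∈ Hj P ω d j}`.
Condition `H`: let `u ≠ v`, `v ∉ nb u`, `u, v ∉ S`, `d u v ≤ R`. If `d u v < f u` and `d u v < f v` then one of `u, v` is in `BI`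
(first kind of allowed pairs). Otherwise `f u ≤ d u v ∨ f v ≤ d u v`; if `d u v > τ 1` there is `j` with
`τ j < d u v ≤ τ(j+1)` (`tau_exists`), `j ≤ J` since `d u v ≤ R ≤ τ(J+1)`, and one of the conditions of the second kind of
allowed pairs fails.
The number of classes of level `τ(j-1)` in `BU j` is at most the number of those with more than `L1` elements (`≤ n/(L1+1)`) plus the
number of dead valid ones (`deadU`, given by their least vertices), so `∑_j τ(j+1) #classes ≤ n + kill ≤ n + 0.011 w`.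
Cost of the solution: `≤ wle R + (0.0096 + 0.00021 + 0.066) w + (15 + 1 + 6 + 1) n`.
`subgrad` with `R := τ(J+1)` (`nbrA_dist`), `D := (J+1) D` (`nbrA_card`): the two error terms are `≤ K n` each
(`hcut`: the sets of `Fam` are disjoint from `S`, nonempty, and not everything as `card ≤ L4 < n`).
Here `n ≤ 10^-12 w`.
-/

set_option autoImplicit false

open Finset Classical

namespace H82.TQ

private theorem g5_cmp_eq {V : Type} [Fintype V] {d : V → V → ℕ} (hd : NMet d) {t : ℕ} {u v : V}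
    (h : Rch d t u v) : cmp d t u = cmp d t v := by
  ext x
  unfold cmp
  rw [mem_filter, mem_filter]
  exact ⟨fun hx => ⟨hx.1, (rch_symm hd h).trans hx.2⟩, fun hx => ⟨hx.1, h.trans hx.2⟩⟩

private theorem g5_mem_cmp {V : Type} [Fintype V] {d : V → V → ℕ} {t : ℕ} {u v : V} :
    v ∈ cmp d t u ↔ Rch d t u v := by
  unfold cmp
  rw [mem_filter]
  exact ⟨fun h => h.2, fun h => ⟨mem_univ _, h⟩⟩

private theorem g5_self {V : Type} [Fintype V] {d : V → V → ℕ} {t : ℕ} (u : V) :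
    u ∈ cmp d t u := g5_mem_cmp.2 Relation.ReflTransGen.refl

private theorem g5_mem_fam {V : Type} [Fintype V] {nbr : V → Finset V} {S : Finset V} {L : ℕ}
    {X : Finset V} (h : X ∈ Fam nbr S L) : X.Nonempty ∧ X.card ≤ L ∧ Disjoint X S := by
  unfold Fam at h
  rw [mem_filter] at h
  exact ⟨h.2.1, h.2.2.1, h.2.2.2.1⟩

/-- number of classes -/
private noncomputable def g5_cc {V : Type} (B : Finset V) (c : V → Finset V) : ℕ :=
  (B.image c).card

/-- few large classes -/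
private theorem g5_large {V : Type} [Fintype V] {d : V → V → ℕ} (hd : NMet d) (s L : ℕ)
    (B A : Finset V) (h : ∀ u ∈ B, L < (cmp d s u).card ∨ ∃ a ∈ A, cmp d s a = cmp d s u) :
    ∃ m, g5_cc B (cmp d s) ≤ m + A.card ∧ m * (L + 1) ≤ Fintype.card V := by
  refine ⟨((univ.filter fun u => L < (cmp d s u).card).image (cmp d s)).card, ?_, ?_⟩
  · have hsub : B.image (cmp d s) ⊆
        ((univ.filter fun u => L < (cmp d s u).card).image (cmp d s)) ∪ A.image (cmp d s) := by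
      intro X hX
      rw [mem_image] at hX
      obtain ⟨u, hu, rfl⟩ := hX
      rw [mem_union, mem_image, mem_image]
      rcases h u hu with hc | ⟨a, ha, hau⟩
      · exact Or.inl ⟨u, mem_filter.2 ⟨mem_univ _, hc⟩, rfl⟩
      · exact Or.inr ⟨a, ha, hau⟩
    exact (card_le_card hsub).trans ((card_union_le _ _).trans
      (Nat.add_le_add_left card_image_le _))
  · have h1 : ((univ.filter fun u => L < (cmp d s u).card).image (cmp d s)).card * (L + 1) ≤
        ∑ X ∈ (univ.filter fun u => L < (cmp d s u).card).image (cmp d s), X.card := by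
      rw [← smul_eq_mul, ← sum_const]
      refine sum_le_sum fun X hX => ?_
      rw [mem_image] at hX
      obtain ⟨u, hu, rfl⟩ := hX
      rw [mem_filter] at hu
      exact hu.2
    refine h1.trans ?_
    rw [← card_biUnion]
    · exact card_le_univ _
    · intro X hX Y hY hXY
      rw [mem_coe, mem_image] at hX hY
      obtain ⟨u, _, rfl⟩ := hX
      obtain ⟨v, _, rfl⟩ := hY
      rw [Function.onFun, disjoint_left]
      intro x hx hx'
      apply hXY
      rw [g5_mem_cmp] at hx hx'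
      rw [g5_cmp_eq hd hx, g5_cmp_eq hd hx']

/-- dead small classes are given by their least vertices -/
private theorem g5_dead {n : ℕ} {d : Fin n → Fin n → ℕ} (hd : NMet d) (s t L : ℕ)
    (I : Finset (Fin n)) {u : Fin n} (hL : (cmp d s u).card ≤ L)
    (hx : ∃ x ∈ cmp d s u, x ∈ Hv d t I) : ∃ a ∈ deadU d s t L I, cmp d s a = cmp d s u := by
  obtain ⟨a, ha, hmin⟩ := exists_min_image (cmp d s u) id ⟨u, g5_self u⟩
  have he : cmp d s a = cmp d s u := (g5_cmp_eq hd (g5_mem_cmp.1 ha)).symm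
  refine ⟨a, ?_, he⟩
  unfold deadU
  rw [mem_filter]
  refine ⟨mem_univ _, ⟨?_, ?_⟩, ?_⟩
  · rw [he]; exact hL
  · intro x hx
    rw [he] at hx
    exact hmin x hx
  · rw [he]; exact hx

private theorem g5_fS {n : ℕ} {d : Fin n → Fin n → ℕ} (hd : NMet d) (S : Finset (Fin n)) (r : ℕ)
    {u : Fin n} (hu : u ∈ S) : fT d S r u = 0 := by
  have h : fT d S r u ≤ 0 := by
    unfold fT
    rw [Finset.fold_min_le]
    exact Or.inr ⟨u, hu, (hd.self u).le⟩
  omega

private theorem g5_fr {n : ℕ} (d : Fin n → Fin n → ℕ) (S : Finset (Fin n)) (r : ℕ)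
    (u : Fin n) : fT d S r u ≤ r := by
  unfold fT
  rw [Finset.fold_min_le]
  exact Or.inl le_rfl

private theorem g5_fl {n : ℕ} {d : Fin n → Fin n → ℕ} (hd : NMet d) (S : Finset (Fin n)) (r : ℕ)
    (u v : Fin n) : fT d S r u ≤ fT d S r v + d u v := by
  have h : fT d S r v ≤ fT d S r v := le_rfl
  conv_lhs at h => unfold fT
  rw [Finset.fold_min_le] at h
  have h2 : fT d S r u ≤ fT d S r v + d u v ↔
      (r ≤ fT d S r v + d u v ∨ ∃ x ∈ S, d u x ≤ fT d S r v + d u v) := by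
    conv_lhs => lhs; unfold fT
    rw [Finset.fold_min_le]
  rw [h2]
  rcases h with h | ⟨x, hx, h⟩
  · left; omega
  · right
    refine ⟨x, hx, ?_⟩
    have := hd.tri u v x
    omega

/-- the set of the vertices in large or dead classes -/
private noncomputable def g5_BU (P : Prm) {n M : ℕ} (ω : Fin M → Fin n) (d : Fin n → Fin n → ℕ)
    (j : ℕ) : Finset (Fin n) :=
  univ.filter (fun u => P.L1 < (cmp d (tau (j - 1)) u).card ∨
    ∃ x ∈ cmp d (tau (j - 1)) u, x ∈ Hj P ω d j)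

private theorem g5_classes (P : Prm) {n M : ℕ} {d : Fin n → Fin n → ℕ} (hd : NMet d)
    (ω : Fin M → Fin n) (hL : P.J * tau (P.J + 1) ≤ P.L1) :
    ∑ j ∈ Icc 1 P.J, (tau (j + 1) : ℝ) *
      ((g5_cc (g5_BU P ω d j) (cmp d (tau (j - 1))) : ℕ) : ℝ) ≤ n + kill P ω d := by
  have h1 : ∀ j ∈ Icc 1 P.J, (tau (j + 1) : ℝ) *
      ((g5_cc (g5_BU P ω d j) (cmp d (tau (j - 1))) : ℕ) : ℝ) ≤
      tau (P.J + 1) * (n / (P.L1 + 1)) + (tau (j + 1) : ℝ) *
        ((deadU d (tau (j - 1)) (tau (j + 1)) P.L1 (grI P ω d j)).card : ℝ) := by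
    intro j hj
    obtain ⟨m, hm1, hm2⟩ := g5_large hd (tau (j - 1)) P.L1 (g5_BU P ω d j)
      (deadU d (tau (j - 1)) (tau (j + 1)) P.L1 (grI P ω d j)) (by
        intro u hu
        unfold g5_BU at hu
        rw [mem_filter] at hu
        by_cases hc : P.L1 < (cmp d (tau (j - 1)) u).card
        · exact Or.inl hc
        · right
          have hx := hu.2.resolve_left hc
          have hH : Hj P ω d j = Hv d (tau (j + 1)) (grI P ω d j) := by
            unfold Hj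
            rw [if_pos hj]
          rw [hH] at hx
          exact g5_dead hd _ _ _ _ (not_lt.1 hc) hx)
    rw [Fintype.card_fin] at hm2
    have h4 : (m : ℝ) ≤ n / (P.L1 + 1) := by
      rw [le_div_iff₀ (by positivity)]
      exact_mod_cast hm2
    have h5 : (tau (j + 1) : ℝ) ≤ tau (P.J + 1) := by
      exact_mod_cast tau_strictMono.monotone (Nat.succ_le_succ (mem_Icc.1 hj).2)
    have h6 : (tau (j + 1) : ℝ) * m ≤ tau (P.J + 1) * (n / (P.L1 + 1)) :=
      mul_le_mul h5 h4 (Nat.cast_nonneg _) (Nat.cast_nonneg _)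
    have h9 : ((g5_cc (g5_BU P ω d j) (cmp d (tau (j - 1))) : ℕ) : ℝ) ≤ (m : ℝ) +
        ((deadU d (tau (j - 1)) (tau (j + 1)) P.L1 (grI P ω d j)).card : ℝ) := by
      exact_mod_cast hm1
    have h10 := mul_le_mul_of_nonneg_left h9 (Nat.cast_nonneg (α := ℝ) (tau (j + 1)))
    linarith
  have h6 : (P.J : ℝ) * (tau (P.J + 1) * (n / (P.L1 + 1))) ≤ n := by
    have h7 : (P.J : ℝ) * tau (P.J + 1) ≤ P.L1 + 1 := by
      have : (P.J : ℝ) * tau (P.J + 1) ≤ P.L1 := by exact_mod_cast hL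
      linarith
    have h8 : (0 : ℝ) < P.L1 + 1 := by positivity
    calc (P.J : ℝ) * (tau (P.J + 1) * (n / (P.L1 + 1))) =
        ((P.J : ℝ) * tau (P.J + 1)) * (n / (P.L1 + 1)) := by ring
      _ ≤ (P.L1 + 1) * (n / (P.L1 + 1)) := mul_le_mul_of_nonneg_right h7 (by positivity)
      _ = n := by field_simp
  calc ∑ j ∈ Icc 1 P.J, (tau (j + 1) : ℝ) *
      ((g5_cc (g5_BU P ω d j) (cmp d (tau (j - 1))) : ℕ) : ℝ) ≤
      ∑ j ∈ Icc 1 P.J, (tau (P.J + 1) * (n / (P.L1 + 1)) + (tau (j + 1) : ℝ) *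
        ((deadU d (tau (j - 1)) (tau (j + 1)) P.L1 (grI P ω d j)).card : ℝ)) := sum_le_sum h1
    _ = (P.J : ℝ) * (tau (P.J + 1) * (n / (P.L1 + 1))) + kill P ω d := by
        rw [sum_add_distrib, sum_const, Nat.card_Icc, nsmul_eq_mul]
        unfold kill
        simp
    _ ≤ n + kill P ω d := by linarith

/-- the condition of `yes_bound` -/
private theorem g5_H (P : Prm) {n M : ℕ} {d : Fin n → Fin n → ℕ}
    (ω : Fin M → Fin n) (hRJ : P.R ≤ tau (P.J + 1)) (u v : Fin n) (huv : u ≠ v)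
    (hv : v ∉ nb P ω d u) :
      u ∈ rg ω ∨ v ∈ rg ω ∨ P.R < d u v ∨
      ((ff P ω d u ≤ d u v ∨ ff P ω d v ≤ d u v) ∧ d u v ≤ tau 1) ∨
      (u ∈ BI P ω d ∨ v ∈ BI P ω d) ∨
      ((ff P ω d u ≤ d u v ∨ ff P ω d v ≤ d u v) ∧
        ∃ j, 1 ≤ j ∧ j ≤ P.J ∧ tau j < d u v ∧ d u v ≤ tau (j + 1) ∧
        (Rch d (tau (j - 1)) u v ∨ u ∈ g5_BU P ω d j ∨ v ∈ g5_BU P ω d j ∨
          u ∈ BC P ω d j ∨ v ∈ BC P ω d j)) := by
  by_cases hu : u ∈ rg ω
  · exact Or.inl hu
  by_cases hvS : v ∈ rg ω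
  · exact Or.inr (Or.inl hvS)
  by_cases hR : P.R < d u v
  · exact Or.inr (Or.inr (Or.inl hR))
  rw [not_lt] at hR
  have hnot : ¬ adjA (rg ω) (ff P ω d) (Hj P ω d) P.L1 P.D P.J d u v := by
    intro hadj
    apply hv
    unfold nb nbrA
    rw [mem_filter]
    exact ⟨mem_univ _, hadj⟩
  by_cases hf : d u v < ff P ω d u ∧ d u v < ff P ω d v
  · right; right; right; right; left
    by_contra hcon
    rw [not_or] at hcon
    apply hnot
    refine ⟨hu, hvS, huv, Or.inl ⟨hf.1, hf.2, ?_, ?_⟩⟩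
    · by_contra h
      apply hcon.1
      unfold BI
      rw [mem_filter]
      exact ⟨mem_univ _, not_le.1 h⟩
    · by_contra h
      apply hcon.2
      unfold BI
      rw [mem_filter]
      exact ⟨mem_univ _, not_le.1 h⟩
  · have hf' : ff P ω d u ≤ d u v ∨ ff P ω d v ≤ d u v := by
      by_contra hcon
      rw [not_or, not_le, not_le] at hcon
      exact hf hcon
    by_cases h1 : d u v ≤ tau 1
    · exact Or.inr (Or.inr (Or.inr (Or.inl ⟨hf', h1⟩)))
    · right; right; right; right; right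
      refine ⟨hf', ?_⟩
      obtain ⟨j, hj1, hj2, hj3⟩ := tau_exists (d u v) (not_le.1 h1)
      have hjJ : j ≤ P.J := by
        have : tau j < tau (P.J + 1) := lt_of_lt_of_le hj2 (hR.trans hRJ)
        have := tau_strictMono.lt_iff_lt.1 this
        omega
      refine ⟨j, hj1, hjJ, hj2, hj3, ?_⟩
      by_contra hcon
      simp only [not_or] at hcon
      obtain ⟨c1, c2, c3, c4, c5⟩ := hcon
      have hunit : ∀ w, w ∉ g5_BU P ω d j → w ∉ BC P ω d j →
          unitOK (Hj P ω d) P.L1 P.D d j w := by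
        intro w hw1 hw2
        unfold g5_BU at hw1
        rw [mem_filter] at hw1
        unfold BC at hw2
        rw [mem_filter] at hw2
        have e1 : (cmp d (tau (j - 1)) w).card ≤ P.L1 := by
          by_contra hh
          exact hw1 ⟨mem_univ _, Or.inl (not_le.1 hh)⟩
        have e2 : ∀ x ∈ cmp d (tau (j - 1)) w, x ∉ Hj P ω d j := by
          intro x hx hxH
          exact hw1 ⟨mem_univ _, Or.inr ⟨x, hx, hxH⟩⟩
        refine ⟨e1, e2, ?_⟩
        by_contra hh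
        exact hw2 ⟨mem_univ _, e1, e2, not_le.1 hh⟩
      apply hnot
      exact ⟨hu, hvS, huv, Or.inr ⟨j, hj1, hjJ, hj2, hj3, hunit u c2 c4, hunit v c3 c5, c1⟩⟩

theorem yes_lp (P : Prm) {n M : ℕ} (h : POK P n M) {d : Fin n → Fin n → ℕ} (hd : NMet d)
    (T : MTree d) (hyes : YESi T) (ω : Fin M → Fin n) (hw : (10 : ℝ) ^ 12 * n ≤ T.w)
    (hkill : kill P ω d ≤ 11 / 1000 * T.w)
    (hBI : (4 * P.r * (BI P ω d).card : ℝ) ≤ n)
    (hBC : (6 * P.R * ∑ j ∈ Icc 1 P.J, ((BC P ω d j).card : ℝ)) ≤ n) :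
    ∑ k ∈ range P.K, PhiK P ω d k ≤ P.K * (T.wle P.R + 10 / 100 * T.w) := by
  obtain ⟨nx, hnx, hcost⟩ := hyes
  have hℓ := h.ℓ1
  have hℓr := h.ℓr
  have hrR := h.rR
  have hR0 : 0 < P.R := by omega
  have hr0 : 0 < P.r := by omega
  obtain ⟨x, y, hx, hy, hsup, hyS, hcut, hsq, hobj⟩ := yes_bound hd T (1 / 10 ^ 4) (by positivity)
    (by rw [Fintype.card_fin]; exact h.n2) nx hnx hcost (rg ω) (ff P ω d) P.r P.R P.J hR0
    (fun u hu => g5_fS hd (rg ω) P.r hu) (fun u v => g5_fl hd (rg ω) P.r u v)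
    (fun u => g5_fr d (rg ω) P.r u) (nb P ω d) (BI P ω d) (g5_BU P ω d) (BC P ω d)
    (by
      intro j u v huv hu
      unfold g5_BU at hu ⊢
      rw [mem_filter] at hu ⊢
      rw [← g5_cmp_eq hd huv]
      exact ⟨mem_univ _, hu.2⟩)
    (g5_H P ω h.RJ)
  have hC0 : 0 ≤ P.C0 := le_trans (by positivity) h.C0
  have hrτ : P.r ≤ tau (P.J + 1) := by
    have := h.RJ
    omega
  have hff : ∀ u, ff P ω d u ≤ tau (P.J + 1) := fun u => (g5_fr d (rg ω) P.r u).trans hrτ
  have hsub := subgrad d (ff P ω d) (rg ω) P.C0 P.al hC0 h.al0 (nb P ω d) P.L4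
    ((P.J + 1) * P.D) (tau (P.J + 1))
    (fun u => nbrA_card (rg ω) (ff P ω d) (Hj P ω d) P.L1 P.D P.J d hd u)
    (fun u v hv => nbrA_dist (rg ω) (ff P ω d) (Hj P ω d) P.L1 P.D P.J (tau (P.J + 1)) d u v hv
      (hff u) le_rfl)
    hff P.K x y hx hy hsup hyS
    (by
      intro X hX
      have hX := g5_mem_fam hX
      refine hcut X hX.1 ?_ hX.2.2
      rintro rfl
      have h1 := hX.2.1
      rw [card_univ, Fintype.card_fin] at h1
      have h2 := h.nL4
      omega)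
  have hn0 : (0 : ℝ) ≤ n := Nat.cast_nonneg _
  have hw0 : (0 : ℝ) ≤ T.w := Nat.cast_nonneg _
  have hK0 : (0 : ℝ) ≤ P.K := Nat.cast_nonneg _
  have hal := h.al0
  rw [Fintype.card_fin] at hsub hsq hobj
  -- the error terms
  have e1 : (∑ u, ∑ v, x u v ^ 2 + ∑ u, y u ^ 2) / (2 * P.al) ≤ P.K * n := by
    rw [div_le_iff₀ (by positivity)]
    refine hsq.trans ?_
    have h5 := mul_le_mul_of_nonneg_right h.K5 hn0
    linarith
  have e2 : (P.K : ℝ) * (P.al / 2 * (n * (((P.J + 1) * P.D : ℕ) + 1) *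
      ((tau (P.J + 1) : ℕ) + 2 * P.C0 * 2 ^ (((P.J + 1) * P.D + 1) ^ P.L4)) ^ 2)) ≤ P.K * n := by
    apply mul_le_mul_of_nonneg_left _ hK0
    have h5 := mul_le_mul_of_nonneg_right h.al2 hn0
    calc _ = P.al * ((((P.J + 1) * P.D : ℕ) + 1 : ℝ) *
          ((tau (P.J + 1) : ℝ) + 2 * P.C0 * 2 ^ (((P.J + 1) * P.D + 1) ^ P.L4)) ^ 2) * n / 2 := by
          ring
      _ ≤ 2 * n / 2 := by linarith
      _ = n := by ring
  -- the objective
  have hcl := g5_classes P hd ω h.L1J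
  have e3 : 2 * (P.r : ℝ) * ((1 + 1 / 10 ^ 4) * T.w / P.R) ≤ 21 / 100000 * T.w := by
    have hRr : (10 : ℝ) ^ 4 * P.r ≤ P.R := by exact_mod_cast hrR
    have hR0' : (0 : ℝ) < P.R := by exact_mod_cast hR0
    have h6 : 2 * (P.r : ℝ) * ((1 + 1 / 10 ^ 4) * T.w / P.R) =
        (2 * (1 + 1 / 10 ^ 4) * T.w) * (P.r / P.R) := by ring
    rw [h6]
    have h7 : (P.r : ℝ) / P.R ≤ 1 / 10 ^ 4 := by
      rw [div_le_div_iff₀ hR0' (by positivity)]
      linarith
    calc (2 * (1 + 1 / 10 ^ 4) * (T.w : ℝ)) * (P.r / P.R) ≤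
        (2 * (1 + 1 / 10 ^ 4) * (T.w : ℝ)) * (1 / 10 ^ 4) :=
          mul_le_mul_of_nonneg_left h7 (by positivity)
      _ ≤ 21 / 100000 * T.w := by
          have : (2 * (1 + 1 / 10 ^ 4) * (T.w : ℝ)) * (1 / 10 ^ 4) =
            (2 * (1 + 1 / 10 ^ 4) / 10 ^ 4) * T.w := by ring
          rw [this]
          apply mul_le_mul_of_nonneg_right _ hw0
          norm_num
  have e4 : ∑ u, ∑ v, x u v * d u v + ∑ u, y u * ff P ω d u ≤
      T.wle P.R + 8 / 100 * T.w + 23 * n := by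
    have h8 : 6 * ∑ j ∈ Icc 1 P.J, (tau (j + 1) : ℝ) *
        ((g5_cc (g5_BU P ω d j) (cmp d (tau (j - 1))) : ℕ) : ℝ) ≤
        6 * (n + 11 / 1000 * T.w) := by linarith
    have h9 : 96 * (1 / 10 ^ 4 : ℝ) * T.w = 96 / 10000 * T.w := by ring
    have hobj' : ∑ u, ∑ v, x u v * d u v + ∑ u, y u * ff P ω d u ≤
        T.wle P.R + 96 * (1 / 10 ^ 4 : ℝ) * T.w + 2 * P.r * ((1 + 1 / 10 ^ 4) * T.w / P.R) +
          15 * n + 4 * P.r * (BI P ω d).card +
          6 * ∑ j ∈ Icc 1 P.J, (tau (j + 1) : ℝ) *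
            ((g5_cc (g5_BU P ω d j) (cmp d (tau (j - 1))) : ℕ) : ℝ) +
          6 * P.R * ∑ j ∈ Icc 1 P.J, ((BC P ω d j).card : ℝ) := hobj
    linarith
  have e5 : 25 * (n : ℝ) ≤ 2 / 100 * T.w := by
    have : (10 : ℝ) ^ 12 * n = 1000000000000 * n := by norm_num
    rw [this] at hw
    linarith
  have e6 : (P.K : ℝ) * (∑ u, ∑ v, x u v * d u v + ∑ u, y u * ff P ω d u) ≤
      P.K * (T.wle P.R + 8 / 100 * T.w + 23 * n) := mul_le_mul_of_nonneg_left e4 hK0
  have e7 : (P.K : ℝ) * (25 * (n : ℝ)) ≤ P.K * (2 / 100 * T.w) := mul_le_mul_of_nonneg_left e5 hK0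
  have hmain : ∑ k ∈ range P.K, PhiK P ω d k ≤
      P.K * (∑ u, ∑ v, x u v * d u v + ∑ u, y u * ff P ω d u) + P.K * n + P.K * n := by
    refine le_trans hsub ?_
    have := add_le_add (add_le_add (le_refl (P.K *
      (∑ u, ∑ v, x u v * d u v + ∑ u, y u * (ff P ω d u : ℝ)))) e1) e2
    exact this
  linarith

end H82.TQ
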