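import Pool.Agent.H82.TQ.A3

/-!
# TQ H1: the weight of the minimum spanning tree from component counts and a net

`inv_card_sum`: `∑_u 1/|class of u|` = number of classes. `inv_card_trunc`: the classes with more than `B` vertices
contribute at most `n/B`. `trunc_levels`: `sum_eq_levels` for `min (wt x) R`.
`net_upper`: for `t ≥ ρ` every class of level `t` meets `N`, and classes of `N` at level `t` are contained in
classes of level `t`. `net_lower`: if `u ~ v` at level `t` (by steps `≤ t`) and `a, b ∈ N` are within `ρ` of `u, v` then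
`a ~ b` in `N` at level `t + 2ρ`.
`net_tail`: sum over `t ∈ [R, Tm)`; for `t ≥ max Tm ρ` there is one class. `∑_{t ≥ R} #{x : t < wt x} = ∑_x (wt x - R)`;
and `#{x : R - 2ρ < wt x} * (R - 2ρ) ≤ w`, `R - 2 ρ ≥ R/2`.
-/

set_option autoImplicit false

open Finset Classical

namespace H82.TQ

variable {V : Type} [Fintype V] {d : V → V → ℕ}

private lemma H1_mem_cmp {t : ℕ} {u v : V} : v ∈ cmp d t u ↔ Rch d t u v := by
  simp [cmp]

private lemma H1_cmp_eq (hd : NMet d) {t : ℕ} {u v : V} (h : Rch d t u v) :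
    cmp d t u = cmp d t v := by
  ext w
  rw [H1_mem_cmp, H1_mem_cmp]
  exact ⟨fun h' => (rch_symm hd h).trans h', fun h' => h.trans h'⟩

private lemma H1_cmp_eq_iff (hd : NMet d) {t : ℕ} {u v : V} :
    cmp d t v = cmp d t u ↔ v ∈ cmp d t u := by
  constructor
  · intro h
    rw [← h, H1_mem_cmp]
    exact Relation.ReflTransGen.refl
  · intro h
    exact (H1_cmp_eq hd (H1_mem_cmp.1 h)).symm

private lemma H1_cmp_pos {t : ℕ} (u : V) : 0 < (cmp d t u).card :=
  Finset.card_pos.2 ⟨u, H1_mem_cmp.2 Relation.ReflTransGen.refl⟩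

theorem inv_card_sum (hd : NMet d) (T : MTree d) (t : ℕ) :
    ∑ u, (1 : ℝ) / (cmp d t u).card = (univ.filter (fun x => t < T.wt x)).card + 1 := by
  have h1 := card_classes hd T t
  have h2 : ∑ u, (1 : ℝ) / (cmp d t u).card =
      ∑ Y ∈ (univ : Finset V).image (cmp d t), (1 : ℝ) := by
    rw [← Finset.sum_fiberwise_of_maps_to (s := (univ : Finset V))
      (t := (univ : Finset V).image (cmp d t)) (g := cmp d t)
      (fun x hx => Finset.mem_image_of_mem _ hx)]
    apply Finset.sum_congr rfl
    intro Y hY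
    obtain ⟨u, -, rfl⟩ := Finset.mem_image.1 hY
    have e : (univ.filter fun x => cmp d t x = cmp d t u) = cmp d t u := by
      ext v
      rw [Finset.mem_filter]
      simp only [Finset.mem_univ, true_and]
      exact H1_cmp_eq_iff hd
    rw [e]
    have h3 : ∀ v ∈ cmp d t u, (1 : ℝ) / (cmp d t v).card = 1 / (cmp d t u).card := by
      intro v hv
      rw [(H1_cmp_eq_iff hd).2 hv]
    rw [Finset.sum_congr rfl h3, Finset.sum_const, nsmul_eq_mul]
    have := H1_cmp_pos (d := d) (t := t) u
    field_simp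
  rw [h2, Finset.sum_const, nsmul_eq_mul, mul_one, h1]
  push_cast
  ring

theorem inv_card_trunc (hd : NMet d) (T : MTree d) (t B : ℕ) (hB : 0 < B) :
    |∑ u, (if (cmp d t u).card ≤ B then (1 : ℝ) / (cmp d t u).card else 0) -
      ((univ.filter (fun x => t < T.wt x)).card + 1)| ≤ Fintype.card V / B := by
  rw [← inv_card_sum hd T t, ← Finset.sum_sub_distrib]
  have hB' : (0 : ℝ) < B := by exact_mod_cast hB
  refine (Finset.abs_sum_le_sum_abs _ _).trans ?_
  have h : ∀ u ∈ (univ : Finset V), |(if (cmp d t u).card ≤ B then (1 : ℝ) / (cmp d t u).card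
      else 0) - 1 / (cmp d t u).card| ≤ 1 / B := by
    intro u _
    split_ifs with hc
    · rw [sub_self, abs_zero]
      positivity
    · rw [zero_sub, abs_neg, abs_of_nonneg (by positivity)]
      apply one_div_le_one_div_of_le hB'
      rw [not_le] at hc
      exact_mod_cast hc.le
  refine (Finset.sum_le_sum h).trans (le_of_eq ?_)
  rw [Finset.sum_const, nsmul_eq_mul, Finset.card_univ]
  ring

theorem trunc_levels (T : MTree d) (R : ℕ) :
    ∑ x, min (T.wt x) R = ∑ t ∈ range R, (univ.filter (fun x => t < T.wt x)).card := by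
  rw [sum_eq_levels univ (fun x => min (T.wt x) R) R (fun x _ => min_le_right _ _)]
  apply Finset.sum_congr rfl
  intro t ht
  rw [Finset.mem_range] at ht
  congr 1
  apply Finset.filter_congr
  intro x _
  rw [lt_min_iff]
  exact ⟨fun h => h.1, fun h => ⟨h, ht⟩⟩

theorem w_split (T : MTree d) (R : ℕ) : T.w = ∑ x, min (T.wt x) R + ∑ x, (T.wt x - R) := by
  unfold MTree.w
  rw [← Finset.sum_add_distrib]
  apply Finset.sum_congr rfl
  intro x _
  omega

theorem wle_split (T : MTree d) (R : ℕ) :
    T.wle R + R * (univ.filter (fun x => R < T.wt x)).card = ∑ x, min (T.wt x) R := by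
  unfold MTree.wle
  rw [← Finset.sum_filter_add_sum_filter_not univ (fun x => T.wt x ≤ R)
    (fun x => min (T.wt x) R)]
  congr 1
  · apply Finset.sum_congr rfl
    intro x hx
    rw [Finset.mem_filter] at hx
    omega
  · have e : (univ.filter fun x => ¬ T.wt x ≤ R) = univ.filter (fun x => R < T.wt x) := by
      apply Finset.filter_congr
      intro x _
      exact not_le
    rw [e, Finset.sum_congr rfl (g := fun _ => R), Finset.sum_const, smul_eq_mul, mul_comm]
    intro x hx
    rw [Finset.mem_filter] at hx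
    omega

private lemma H1_card_image_le {α β γ : Type} [DecidableEq β] [DecidableEq γ] [Nonempty γ]
    (N : Finset α) (f : α → β)
    (g : α → γ) (h : ∀ a ∈ N, ∀ b ∈ N, g a = g b → f a = f b) :
    (N.image f).card ≤ (N.image g).card := by
  have hex : ∀ y : β, ∃ z : γ, y ∈ N.image f → ∃ a ∈ N, f a = y ∧ g a = z := by
    intro y
    by_cases hy : y ∈ N.image f
    · obtain ⟨a, ha, hay⟩ := Finset.mem_image.1 hy
      exact ⟨g a, fun _ => ⟨a, ha, hay, rfl⟩⟩
    · exact ⟨Classical.arbitrary γ, fun h => (hy h).elim⟩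
  choose φ hφ using hex
  apply Finset.card_le_card_of_injOn φ
  · intro y hy
    obtain ⟨a, ha, -, haz⟩ := hφ y hy
    exact Finset.mem_coe.2 (Finset.mem_image.2 ⟨a, ha, haz⟩)
  · intro y hy z hz hyz
    obtain ⟨a, ha, hay, haφ⟩ := hφ y hy
    obtain ⟨b, hb, hbz, hbφ⟩ := hφ z hz
    rw [← hay, ← hbz]
    apply h a ha b hb
    rw [haφ, hbφ]
    exact hyz

omit [Fintype V] in
private lemma H1_rchOn_rch {N : Finset V} {t : ℕ} {a b : V} (h : RchOn N d t a b) :
    Rch d t a b := by
  induction h with
  | refl => exact Relation.ReflTransGen.refl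
  | tail _ hs ih => exact ih.tail hs.2.2

omit [Fintype V] in
private lemma H1_rchOn_symm (hd : NMet d) {N : Finset V} {t : ℕ} {a b : V}
    (h : RchOn N d t a b) : RchOn N d t b a := by
  induction h with
  | refl => exact Relation.ReflTransGen.refl
  | tail _ hs ih =>
    exact Relation.ReflTransGen.head ⟨hs.2.1, hs.1, by rw [hd.symm]; exact hs.2.2⟩ ih

omit [Fintype V] in
private lemma H1_filter_eq (hd : NMet d) {N : Finset V} {t : ℕ} {a b : V}
    (h : RchOn N d t a b) : N.filter (fun c => RchOn N d t a c) =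
      N.filter (fun c => RchOn N d t b c) := by
  apply Finset.filter_congr
  intro c _
  exact ⟨fun h' => (H1_rchOn_symm hd h).trans h', fun h' => h.trans h'⟩

theorem net_upper (hd : NMet d) (T : MTree d) (N : Finset V) (ρ : ℕ)
    (hN : ∀ v, ∃ a ∈ N, d v a ≤ ρ) (t : ℕ) (ht : ρ ≤ t) :
    (univ.filter (fun x => t < T.wt x)).card + 1 ≤ clN N d t := by
  rw [← card_classes hd T t]
  have e : (univ : Finset V).image (cmp d t) = N.image (cmp d t) := by
    ext Y
    rw [Finset.mem_image, Finset.mem_image]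
    constructor
    · rintro ⟨v, -, rfl⟩
      obtain ⟨a, ha, hav⟩ := hN v
      refine ⟨a, ha, ?_⟩
      exact (H1_cmp_eq hd (Relation.ReflTransGen.single (hav.trans ht))).symm
    · rintro ⟨v, -, rfl⟩
      exact ⟨v, Finset.mem_univ _, rfl⟩
  rw [e]
  unfold clN
  apply H1_card_image_le
  intro a ha b hb hab
  have h1 : b ∈ N.filter (fun c => RchOn N d t b c) :=
    Finset.mem_filter.2 ⟨hb, Relation.ReflTransGen.refl⟩
  rw [← hab, Finset.mem_filter] at h1
  exact H1_cmp_eq hd (H1_rchOn_rch h1.2)

omit [Fintype V] in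
private lemma H1_lift (hd : NMet d) (N : Finset V) (ρ : ℕ) (hN : ∀ v, ∃ a ∈ N, d v a ≤ ρ)
    (t : ℕ) {u v : V} (h : Rch d t u v) : ∀ a ∈ N, d u a ≤ ρ → ∀ b ∈ N, d v b ≤ ρ →
      RchOn N d (t + 2 * ρ) a b := by
  intro a ha hua
  induction h with
  | refl =>
    intro b hb hvb
    apply Relation.ReflTransGen.single
    refine ⟨ha, hb, ?_⟩
    have := hd.tri a u b
    rw [hd.symm a u] at this
    omega
  | @tail w v _ hs ih =>
    intro b hb hvb
    obtain ⟨c, hc, hwc⟩ := hN w
    refine (ih c hc hwc).tail ⟨hc, hb, ?_⟩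
    have h1 := hd.tri c w b
    have h2 := hd.tri w v b
    rw [hd.symm c w] at h1
    omega

theorem net_lower (hd : NMet d) (T : MTree d) (N : Finset V) (ρ : ℕ)
    (hN : ∀ v, ∃ a ∈ N, d v a ≤ ρ) (t : ℕ) :
    clN N d (t + 2 * ρ) ≤ (univ.filter (fun x => t < T.wt x)).card + 1 := by
  rw [← card_classes hd T t]
  unfold clN
  refine le_trans (H1_card_image_le N _ (cmp d t) ?_)
    (Finset.card_le_card (Finset.image_subset_image (Finset.subset_univ N)))
  intro a ha b hb hab
  apply H1_filter_eq hd
  have h1 : Rch d t a b := by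
    rw [← H1_mem_cmp, hab, H1_mem_cmp]
    exact Relation.ReflTransGen.refl
  exact H1_lift hd N ρ hN t h1 a ha (by rw [hd.self]; omega) b hb (by rw [hd.self]; omega)

theorem net_tail (hd : NMet d) (T : MTree d) (N : Finset V) (ρ : ℕ)
    (hN : ∀ v, ∃ a ∈ N, d v a ≤ ρ) (R Tm : ℕ) (hR : 4 * ρ ≤ R) (hR0 : 0 < R)
    (hTm : ∀ u ∈ N, ∀ v ∈ N, d u v ≤ Tm) :
    (∑ x, (T.wt x - R) : ℕ) ≤ ∑ t ∈ Ico R Tm, (clN N d t - 1) ∧
      ((∑ t ∈ Ico R Tm, (clN N d t - 1) : ℕ) : ℝ) ≤
        ((∑ x, (T.wt x - R) : ℕ) : ℝ) + 4 * ρ * T.w / R := by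
  -- exchange of the order of summation
  have hswap : ∀ g : ℕ → ℕ, ∑ t ∈ Ico R Tm, (univ.filter (fun x => g t < T.wt x)).card =
      ∑ x, ((Ico R Tm).filter (fun t => g t < T.wt x)).card := by
    intro g
    simp only [Finset.card_filter]
    exact Finset.sum_comm
  -- one class at high levels
  have hone : ∀ x, T.wt x ≤ max Tm R := by
    intro x
    have hρ : ρ ≤ max Tm R := le_trans (by omega) (le_max_right _ _)
    have h1 := net_upper hd T N ρ hN (max Tm R) hρ
    have h2 : clN N d (max Tm R) ≤ 1 := by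
      unfold clN
      rw [Finset.card_le_one]
      intro y hy z hz
      obtain ⟨a, ha, rfl⟩ := Finset.mem_image.1 hy
      obtain ⟨b, hb, rfl⟩ := Finset.mem_image.1 hz
      apply H1_filter_eq hd
      exact Relation.ReflTransGen.single ⟨ha, hb, (hTm a ha b hb).trans (le_max_left _ _)⟩
    have h3 : (univ.filter (fun x => max Tm R < T.wt x)).card = 0 := by omega
    rw [Finset.card_eq_zero] at h3
    by_contra hcon
    rw [not_le] at hcon
    have : x ∈ univ.filter (fun x => max Tm R < T.wt x) :=
      Finset.mem_filter.2 ⟨Finset.mem_univ _, hcon⟩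
    rw [h3] at this
    exact absurd this (Finset.notMem_empty _)
  constructor
  · calc ∑ x, (T.wt x - R)
        ≤ ∑ x, ((Ico R Tm).filter (fun t => t < T.wt x)).card := by
          apply Finset.sum_le_sum
          intro x _
          have h1 : (Ico R Tm).filter (fun t => t < T.wt x) = Ico R (min Tm (T.wt x)) := by
            ext t
            rw [Finset.mem_filter, Finset.mem_Ico, Finset.mem_Ico, lt_min_iff]
            tauto
          rw [h1, Nat.card_Ico]
          have h2 := hone x
          rcases le_total (T.wt x) Tm with h3 | h3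
          · rw [min_eq_right h3]
          · rw [min_eq_left h3]
            rcases le_total Tm R with h4 | h4
            · rw [max_eq_right h4] at h2
              omega
            · rw [max_eq_left h4] at h2
              omega
      _ = ∑ t ∈ Ico R Tm, (univ.filter (fun x => t < T.wt x)).card := (hswap fun t => t).symm
      _ ≤ ∑ t ∈ Ico R Tm, (clN N d t - 1) := by
          apply Finset.sum_le_sum
          intro t ht
          rw [Finset.mem_Ico] at ht
          have := net_upper hd T N ρ hN t (by omega)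
          omega
  · have h1 : ∑ t ∈ Ico R Tm, (clN N d t - 1) ≤
        ∑ x, ((T.wt x - R) + if R - 2 * ρ < T.wt x then 2 * ρ else 0) := by
      calc ∑ t ∈ Ico R Tm, (clN N d t - 1)
          ≤ ∑ t ∈ Ico R Tm, (univ.filter (fun x => t - 2 * ρ < T.wt x)).card := by
            apply Finset.sum_le_sum
            intro t ht
            rw [Finset.mem_Ico] at ht
            have := net_lower hd T N ρ hN (t - 2 * ρ)
            have e : t - 2 * ρ + 2 * ρ = t := by omega
            rw [e] at this
            omega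
        _ = ∑ x, ((Ico R Tm).filter (fun t => t - 2 * ρ < T.wt x)).card :=
            hswap fun t => t - 2 * ρ
        _ ≤ _ := by
            apply Finset.sum_le_sum
            intro x _
            have h2 : (Ico R Tm).filter (fun t => t - 2 * ρ < T.wt x) ⊆
                Ico R (T.wt x + 2 * ρ) := by
              intro t ht
              rw [Finset.mem_filter, Finset.mem_Ico] at ht
              rw [Finset.mem_Ico]
              omega
            refine (Finset.card_le_card h2).trans ?_
            rw [Nat.card_Ico]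
            split_ifs with h3
            · omega
            · omega
    have h2 : ∑ x, ((T.wt x - R) + if R - 2 * ρ < T.wt x then 2 * ρ else 0) =
        ∑ x, (T.wt x - R) + (univ.filter (fun x => R - 2 * ρ < T.wt x)).card * (2 * ρ) := by
      rw [Finset.sum_add_distrib, ← Finset.sum_filter, Finset.sum_const, smul_eq_mul]
    have h3 : (univ.filter (fun x => R - 2 * ρ < T.wt x)).card * (R - 2 * ρ) ≤ T.w := by
      unfold MTree.w
      calc (univ.filter (fun x => R - 2 * ρ < T.wt x)).card * (R - 2 * ρ)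
          = ∑ x ∈ univ.filter (fun x => R - 2 * ρ < T.wt x), (R - 2 * ρ) := by
            rw [Finset.sum_const, smul_eq_mul]
        _ ≤ ∑ x ∈ univ.filter (fun x => R - 2 * ρ < T.wt x), T.wt x := by
            apply Finset.sum_le_sum
            intro x hx
            exact (Finset.mem_filter.1 hx).2.le
        _ ≤ ∑ x, T.wt x := Finset.sum_le_sum_of_subset (Finset.filter_subset _ _)
    obtain ⟨c, hc⟩ : ∃ c, c = (univ.filter (fun x => R - 2 * ρ < T.wt x)).card := ⟨_, rfl⟩
    rw [← hc] at h2 h3
    have h4 : c * R ≤ 2 * T.w := by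
      have h5 : c * R ≤ c * (2 * (R - 2 * ρ)) := Nat.mul_le_mul_left _ (by omega)
      calc c * R ≤ c * (2 * (R - 2 * ρ)) := h5
        _ = 2 * (c * (R - 2 * ρ)) := by ring
        _ ≤ 2 * T.w := Nat.mul_le_mul_left _ h3
    have h5 : ∑ t ∈ Ico R Tm, (clN N d t - 1) ≤ ∑ x, (T.wt x - R) + c * (2 * ρ) := by
      rw [← h2]; exact h1
    have h6 : ((∑ t ∈ Ico R Tm, (clN N d t - 1) : ℕ) : ℝ) ≤
        ((∑ x, (T.wt x - R) : ℕ) : ℝ) + (c : ℝ) * (2 * ρ) := by exact_mod_cast h5
    have h7 : (c : ℝ) * (2 * ρ) ≤ 4 * ρ * T.w / R := by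
      have hR' : (0 : ℝ) < R := by exact_mod_cast hR0
      rw [le_div_iff₀ hR']
      have h8 : (c : ℝ) * R ≤ 2 * T.w := by exact_mod_cast h4
      have h9 := mul_le_mul_of_nonneg_left h8 (by positivity : (0 : ℝ) ≤ 2 * ρ)
      linarith
    linarith

end H82.TQ
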