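import Pool.Agent.H82.TQ.Defs2
import Pool.Agent.H82.TQ.H1

/-!
# TQ G7: accuracy of the estimates of `w` and of the weight of the short edges

`∑_u phi1 u = ∑_{t<R} ∑_u …`, within `R n/B ≤ n` of `∑_{t<R} (#{x : t < wt x} + 1) = ∑ min (wt x) R + R` (`inv_card_trunc`,
`trunc_levels`). `∑_u phi2 u` is within `n/B` of `#{x : R < wt x} + 1`. `w_split`, `net_tail` (with `ρ = ρ0`,
`Tm = ` the double supremum), `wle_split`; `4 ρ0 w/R ≤ 4 w/10^11`, `n ≤ 10^-12 w`.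
-/

set_option autoImplicit false

open Finset Classical

namespace H82.TQ

private theorem g7_R (P : Prm) {n M : ℕ} (h : POK P n M) : 0 < P.R := by
  have h1 := h.ℓ1
  have h2 := h.ℓr
  have h3 := h.rR
  omega

private theorem g7_RB (P : Prm) {n M : ℕ} (h : POK P n M) :
    (P.R : ℝ) * (n / P.B) ≤ n := by
  have hR := g7_R P h
  have hRB := h.RB
  have hB : (0 : ℝ) < P.B := by exact_mod_cast (lt_of_lt_of_le hR hRB)
  have hRB' : (P.R : ℝ) ≤ P.B := by exact_mod_cast hRB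
  have hn : (0 : ℝ) ≤ n := Nat.cast_nonneg n
  rw [← mul_div_assoc, div_le_iff₀ hB]
  nlinarith

private theorem g7_phi1 (P : Prm) {n M : ℕ} (h : POK P n M) {d : Fin n → Fin n → ℕ} (hd : NMet d)
    (T : MTree d) :
    |∑ u, phi1 P d u - (((∑ x, min (T.wt x) P.R : ℕ) : ℝ) + P.R)| ≤ n := by
  have hR := g7_R P h
  have hB : 0 < P.B := lt_of_lt_of_le hR h.RB
  have e1 : ∑ u, phi1 P d u = ∑ t ∈ range P.R, ∑ u,
      (if (cmp d t u).card ≤ P.B then (1 : ℝ) / (cmp d t u).card else 0) := by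
    unfold phi1
    rw [Finset.sum_comm]
  have e2 : (((∑ x, min (T.wt x) P.R : ℕ) : ℝ) + P.R) =
      ∑ t ∈ range P.R, (((univ.filter (fun x => t < T.wt x)).card : ℝ) + 1) := by
    rw [trunc_levels T P.R, Finset.sum_add_distrib]
    simp
  rw [e1, e2, ← Finset.sum_sub_distrib]
  refine (Finset.abs_sum_le_sum_abs _ _).trans ?_
  have e3 : ∀ t ∈ range P.R, |∑ u, (if (cmp d t u).card ≤ P.B then (1 : ℝ) / (cmp d t u).card else 0)
      - (((univ.filter (fun x => t < T.wt x)).card : ℝ) + 1)| ≤ (n : ℝ) / P.B := by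
    intro t _
    have := inv_card_trunc hd T t P.B hB
    rw [Fintype.card_fin] at this
    exact this
  refine (Finset.sum_le_sum e3).trans ?_
  rw [Finset.sum_const, Finset.card_range, nsmul_eq_mul]
  exact g7_RB P h

theorem what_good (P : Prm) {n M m0 : ℕ} (h : POK P n M) {d : Fin n → Fin n → ℕ} (hd : NMet d)
    (T : MTree d) (N : Finset (Fin n)) (hN : ∀ v, ∃ a ∈ N, d v a ≤ P.ρ0)
    (hw : (10 : ℝ) ^ 12 * n ≤ T.w) (ω4 : Fin m0 → Fin n)
    (h1 : |est (phi1 P d) ω4 - ∑ u, phi1 P d u| ≤ n) :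
    |what P ω4 N d - T.w| ≤ 1 / 10 ^ 10 * T.w := by
  have hR := g7_R P h
  have hRr : (0 : ℝ) < P.R := by exact_mod_cast hR
  have hρR := h.ρR
  have hb1 := g7_phi1 P h hd T
  have hTm : ∀ u ∈ N, ∀ v ∈ N, d u v ≤ N.sup (fun u => N.sup (fun v => d u v)) := by
    intro u hu v hv
    exact le_trans (Finset.le_sup (f := fun v => d u v) hv)
      (Finset.le_sup (f := fun u => N.sup (fun v => d u v)) hu)
  obtain ⟨t1, t2⟩ := net_tail hd T N P.ρ0 hN P.R _ (by omega) hR hTm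
  have t1' : ((∑ x, (T.wt x - P.R) : ℕ) : ℝ) ≤ (tailN P d N : ℝ) := by
    unfold tailN
    exact_mod_cast t1
  have t2' : (tailN P d N : ℝ) ≤ ((∑ x, (T.wt x - P.R) : ℕ) : ℝ) + 4 * P.ρ0 * T.w / P.R := by
    unfold tailN
    exact t2
  have hws : (T.w : ℝ) = ((∑ x, min (T.wt x) P.R : ℕ) : ℝ) + ((∑ x, (T.wt x - P.R) : ℕ) : ℝ) := by
    rw [← Nat.cast_add]
    exact_mod_cast w_split T P.R
  have hw0 : (0 : ℝ) ≤ T.w := Nat.cast_nonneg _
  have hρ : (10 : ℝ) ^ 11 * P.ρ0 ≤ P.R := by exact_mod_cast hρR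
  have hq : 4 * (P.ρ0 : ℝ) * T.w / P.R ≤ 4 / 10 ^ 11 * T.w := by
    rw [div_le_iff₀ hRr]
    nlinarith
  have hn : (0 : ℝ) ≤ n := Nat.cast_nonneg n
  unfold what
  rw [abs_le] at h1 hb1 ⊢
  obtain ⟨a1, a2⟩ := h1
  obtain ⟨b1, b2⟩ := hb1
  constructor
  · linarith
  · linarith

theorem wleh_good (P : Prm) {n M m0 : ℕ} (h : POK P n M) {d : Fin n → Fin n → ℕ} (hd : NMet d)
    (T : MTree d) (ω4 : Fin m0 → Fin n)
    (h1 : |est (phi1 P d) ω4 - ∑ u, phi1 P d u| ≤ n)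
    (h2 : P.R * |est (phi2 P d) ω4 - ∑ u, phi2 P d u| ≤ n) :
    |wleh P ω4 d - T.wle P.R| ≤ 4 * n := by
  have hR := g7_R P h
  have hRr : (0 : ℝ) < P.R := by exact_mod_cast hR
  have hB : 0 < P.B := lt_of_lt_of_le hR h.RB
  have hb1 := g7_phi1 P h hd T
  have hb2 : |∑ u, phi2 P d u - (((univ.filter (fun x => P.R < T.wt x)).card : ℝ) + 1)| ≤
      (n : ℝ) / P.B := by
    have := inv_card_trunc hd T P.R P.B hB
    rw [Fintype.card_fin] at this
    exact this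
  have hb2' : (P.R : ℝ) * |∑ u, phi2 P d u -
      (((univ.filter (fun x => P.R < T.wt x)).card : ℝ) + 1)| ≤ n :=
    (mul_le_mul_of_nonneg_left hb2 hRr.le).trans (g7_RB P h)
  have hs : (T.wle P.R : ℝ) + P.R * ((univ.filter (fun x => P.R < T.wt x)).card : ℝ) =
      ((∑ x, min (T.wt x) P.R : ℕ) : ℝ) := by
    exact_mod_cast wle_split T P.R
  have e1 : |(P.R : ℝ) * (est (phi2 P d) ω4 - ∑ u, phi2 P d u)| ≤ n := by
    rw [abs_mul, abs_of_pos hRr]
    exact h2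
  have e2 : |(P.R : ℝ) * (∑ u, phi2 P d u -
      (((univ.filter (fun x => P.R < T.wt x)).card : ℝ) + 1))| ≤ n := by
    rw [abs_mul, abs_of_pos hRr]
    exact hb2'
  unfold wleh
  rw [abs_le] at h1 hb1 e1 e2 ⊢
  obtain ⟨a1, a2⟩ := h1
  obtain ⟨b1, b2⟩ := hb1
  obtain ⟨c1, c2⟩ := e1
  obtain ⟨d1, d2⟩ := e2
  constructor
  · nlinarith
  · nlinarith

end H82.TQ
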