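import Pool.Agent.H82.TQ.G1
import Pool.Agent.H82.TQ.G3
import Pool.Agent.H82.TQ.G5
import Pool.Agent.H82.TQ.G7
import Pool.Agent.H82.TQ.E1
import Pool.Agent.H82.TQ.I1

/-!
# TQ G10: the output is correct if all samples are good

`∑_u phi3 u = (∑_{k<K} PhiK k)/K` (`phi_eq_sum`), `∑_u phi4 u = kill`.
NO: suppose `bitP`. Then `tspOn (N ∪ S3) ≤ (1 + 2/10^4) what ≤ (1 + 3/10^4) w`, so `twig_weight` and `no_lp` apply and
`est phi3 ≥ wle R + 0.4 w - n > wleh + 1/4 what`; and `est phi4 ≤ kill + n ≤ w/200 + n < what/100`. Contradiction.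
YES: `tspOn d (N ∪ S3) ≤ tcost d nx ≤ (1 + 10^-4) w ≤ (1 + 2/10^4) what` (`perm_to_list`, `Nat.sInf_le`). If
`est phi4 < what/100` then `kill ≤ w/100 (1 + 10^-10) + n ≤ 0.011 w`, so by `yes_lp`
`est phi3 ≤ wle R + 0.1 w + n ≤ wleh + what/4`.
-/

set_option autoImplicit false

open Finset Classical

namespace H82.TQ

private theorem g10_phi4 (P : Prm) {n M : ℕ} (ω : Fin M → Fin n) (d : Fin n → Fin n → ℕ) :
    ∑ u, phi4 P ω d u = kill P ω d := by
  unfold phi4 kill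
  rw [Finset.sum_comm]
  refine Finset.sum_congr rfl fun j _ => ?_
  rw [← Finset.mul_sum, Finset.sum_ite_mem, Finset.univ_inter, Finset.sum_const, nsmul_eq_mul, mul_one]

private theorem g10_phi3 (P : Prm) {n M : ℕ} (ω : Fin M → Fin n) (d : Fin n → Fin n → ℕ) :
    ∑ u, phi3 P ω d u = (∑ k ∈ range P.K, PhiK P ω d k) / P.K := by
  unfold phi3
  rw [← Finset.sum_div, Finset.sum_comm]
  congr 1
  refine Finset.sum_congr rfl fun k _ => ?_
  unfold PhiK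
  rw [phi_eq_sum]

theorem out_good (P : Prm) {n M M3 m0 : ℕ} (h : POK P n M) {d : Fin n → Fin n → ℕ} (hd : NMet d)
    (T : MTree d) (N : Finset (Fin n)) (hN : ∀ v, ∃ a ∈ N, d v a ≤ P.ρ0)
    (hw : (10 : ℝ) ^ 12 * n ≤ T.w) (ω1 : Fin M → Fin n) (ω3 : Fin M3 → Fin n) (ω4 : Fin m0 → Fin n)
    (hs : SampOK P ω1 ω4 d)
    (hwin : (T.wle P.R : ℝ) ≤ T.wle P.ℓ + 1 / 200 * T.w)
    (hkill : NOi T → kill P ω1 d ≤ 1 / 200 * T.w)
    (hhit : hitW P T (rg ω1) ≤ 1 / 1000 * T.w) (hmiss : missW P T (rg ω3) ≤ 1 / 1000 * T.w)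
    (hBI : (4 * P.r * (BI P ω1 d).card : ℝ) ≤ n)
    (hBC : (6 * P.R * ∑ j ∈ Icc 1 P.J, ((BC P ω1 d j).card : ℝ)) ≤ n) :
    |(out P ω1 ω3 ω4 N d).1 - T.w| ≤ 1 / 10 ^ 10 * T.w ∧
      (NOi T → (out P ω1 ω3 ω4 N d).2 = false) ∧ (YESi T → (out P ω1 ω3 ω4 N d).2 = true) := by
  obtain ⟨hs1, hs2, hs3, hs4⟩ := hs
  have hwhat := what_good P h hd T N hN hw ω4 hs1
  have hwle := wleh_good P h hd T ω4 hs1 hs2
  have hn2 : (2 : ℝ) ≤ n := by exact_mod_cast h.n2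
  have hwpos : (0 : ℝ) < T.w := by nlinarith
  have hK : (0 : ℝ) < P.K := by
    have h5 := h.K5
    rcases Nat.eq_zero_or_pos P.K with h0 | h0
    · rw [h0] at h5
      norm_num at h5
    · exact_mod_cast h0
  have hnw : (n : ℝ) ≤ 1 / 10 ^ 12 * T.w := by
    rw [div_mul_eq_mul_div, le_div_iff₀ (by norm_num)]
    linarith
  rw [g10_phi3] at hs3
  rw [g10_phi4] at hs4
  have hw' := abs_le.1 hwhat
  have hl' := abs_le.1 hwle
  have h3' := abs_le.1 hs3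
  have h4' := abs_le.1 hs4
  refine ⟨hwhat, fun hno => ?_, fun hyes => ?_⟩
  · have hnb : ¬ bitP P ω1 ω3 ω4 N d := by
      rintro ⟨ht, hor⟩
      have ht' : (tspOn d (N ∪ rg ω3) : ℝ) ≤ (1 + 3 / 10 ^ 4) * T.w := by
        nlinarith [hw'.2]
      have htw := twig_weight P h hd T hno N hN (rg ω3) hw hmiss ht'
      have hk := hkill hno
      have hlp : (T.wle P.R : ℝ) + 40 / 100 * T.w ≤ (∑ k ∈ range P.K, PhiK P ω1 d k) / P.K := by
        rw [le_div_iff₀ hK]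
        have : ∑ k ∈ range P.K, ((T.wle P.R : ℝ) + 40 / 100 * T.w) ≤
            ∑ k ∈ range P.K, PhiK P ω1 d k :=
          Finset.sum_le_sum fun k _ => no_lp P h hd T hno ω1 hw hwin htw hhit k
        rw [Finset.sum_const, Finset.card_range, nsmul_eq_mul] at this
        linarith
      rcases hor with h4 | h3
      · nlinarith [hw'.1, hw'.2, h4'.1, h4'.2]
      · nlinarith [hw'.1, hw'.2, h3'.1, h3'.2, hl'.1, hl'.2]
    show decide (bitP P ω1 ω3 ω4 N d) = false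
    exact decide_eq_false hnb
  · have hb : bitP P ω1 ω3 ω4 N d := by
      obtain ⟨nx, hnx, hcost⟩ := id hyes
      have ht : (tspOn d (N ∪ rg ω3) : ℝ) ≤ tcost d nx := by
        obtain ⟨l, -, hl1, hl2, hl3⟩ := perm_to_list hd nx hnx (N ∪ rg ω3)
        have : tspOn d (N ∪ rg ω3) ≤ cyc d l := Nat.sInf_le ⟨l, hl1, hl2, rfl⟩
        exact_mod_cast this.trans hl3
      refine ⟨by nlinarith [hw'.1, hw'.2], ?_⟩
      by_cases h4 : (1 / 100 : ℝ) * what P ω4 N d ≤ est (phi4 P ω1 d) ω4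
      · exact Or.inl h4
      · refine Or.inr ?_
        rw [not_le] at h4
        have hk : kill P ω1 d ≤ 11 / 1000 * T.w := by
          nlinarith [hw'.1, hw'.2, h4'.1, h4'.2]
        have hlp := yes_lp P h hd T hyes ω1 hw hk hBI hBC
        have hlp' : (∑ k ∈ range P.K, PhiK P ω1 d k) / P.K ≤ T.wle P.R + 10 / 100 * T.w := by
          rw [div_le_iff₀ hK]
          linarith
        nlinarith [hw'.1, hw'.2, h3'.1, h3'.2, hl'.1, hl'.2]
    show decide (bitP P ω1 ω3 ω4 N d) = true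
    exact decide_eq_true hb

end H82.TQ
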