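import Pool.Agent.H82.TQ.Defs2
import Pool.Agent.H82.TQ.D3
import Pool.Agent.H82.TQ.A2

/-!
# TQ G2: probabilities of missing or hitting (Markov's inequality with `miss_le`, `hit`)

`miss_prob`: for every `e` counted in `missW`, the probability that all picks are on one given side is at most
`exp (-(M3 L3/n))` (`miss_le` for `descSet e` and for its complement), so `E missW ≤ 2 exp(-(M3 L3/n)) w`; Markov.
If `w = 0` the event is empty.
`hit_prob`: for every `e` with at most `L3` descendants the probability that a pick is a descendant of `e` is at most `M L3/n`.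
-/

set_option autoImplicit false

open Finset Classical

namespace H82.TQ

private theorem G2_w_eq {n : ℕ} {d : Fin n → Fin n → ℕ} (T : MTree d) :
    (T.w : ℝ) = ∑ e, (T.wt e : ℝ) := by
  rw [MTree.w]
  push_cast
  rfl

/-- Markov for a random sum of edge weights: each edge is counted with probability at most `p` -/
private theorem G2_markov {Ω : Type} [Fintype Ω] {n : ℕ} {d : Fin n → Fin n → ℕ} (T : MTree d)
    (W : Ω → Finset (Fin n)) (p : ℝ) (hp : 0 ≤ p)
    (hQ : ∀ e, ∃ F : Finset Ω, (∀ ω, e ∈ W ω → ω ∈ F) ∧ (F.card : ℝ) ≤ p * Fintype.card Ω) :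
    pr (fun ω : Ω => 1 / 1000 * (T.w : ℝ) < ∑ e ∈ W ω, (T.wt e : ℝ)) ≤ 1000 * p := by
  have hnn : ∀ e : Fin n, (0 : ℝ) ≤ (T.wt e : ℝ) := fun e => Nat.cast_nonneg _
  have hc0 : (0 : ℝ) ≤ (Fintype.card Ω : ℝ) := Nat.cast_nonneg _
  have hle : ∀ ω : Ω, ∑ e ∈ W ω, (T.wt e : ℝ) ≤ T.w := by
    intro ω
    rw [G2_w_eq]
    exact Finset.sum_le_sum_of_subset_of_nonneg (Finset.subset_univ _) (fun e _ _ => hnn e)
  rcases Nat.eq_zero_or_pos T.w with h0 | h0
  · have hE : univ.filter (fun ω : Ω => 1 / 1000 * (T.w : ℝ) <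
        ∑ e ∈ W ω, (T.wt e : ℝ)) = ∅ := by
      rw [Finset.filter_eq_empty_iff]
      intro ω _
      have := hle ω
      rw [h0] at this ⊢
      push_cast at this ⊢
      linarith
    rw [pr, hE]
    simp
    exact hp
  · have hw : (0 : ℝ) < T.w := by exact_mod_cast h0
    have hsum : ∑ ω : Ω, ∑ e ∈ W ω, (T.wt e : ℝ) ≤
        (T.w * p) * Fintype.card Ω := by
      have h1 : ∑ ω : Ω, ∑ e ∈ W ω, (T.wt e : ℝ) =
          ∑ e, (T.wt e : ℝ) * ((univ.filter (fun ω => e ∈ W ω)).card : ℝ) := by
        have h2 : ∀ ω : Ω, ∑ e ∈ W ω, (T.wt e : ℝ) = ∑ e, if e ∈ W ω then (T.wt e : ℝ) else 0 := by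
          intro ω
          rw [← Finset.sum_filter, Finset.filter_mem_eq_inter, Finset.univ_inter]
        rw [Finset.sum_congr rfl (fun ω _ => h2 ω), Finset.sum_comm]
        apply Finset.sum_congr rfl
        intro e _
        rw [← Finset.sum_filter, Finset.sum_const, nsmul_eq_mul, mul_comm]
      rw [h1]
      calc ∑ e, (T.wt e : ℝ) * ((univ.filter (fun ω => e ∈ W ω)).card : ℝ)
          ≤ ∑ e, (T.wt e : ℝ) * (p * Fintype.card Ω) := by
            apply Finset.sum_le_sum
            intro e _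
            obtain ⟨F, hF1, hF2⟩ := hQ e
            have hsub : univ.filter (fun ω => e ∈ W ω) ⊆ F := by
              intro ω hω
              rw [mem_filter] at hω
              exact hF1 ω hω.2
            have h3 : ((univ.filter (fun ω => e ∈ W ω)).card : ℝ) ≤ F.card := by
              exact_mod_cast Finset.card_le_card hsub
            exact mul_le_mul_of_nonneg_left (le_trans h3 hF2) (hnn e)
        _ = (∑ e, (T.wt e : ℝ)) * (p * Fintype.card Ω) := by rw [Finset.sum_mul]
        _ = (T.w * p) * Fintype.card Ω := by rw [← G2_w_eq]; ring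
    have hm := markov (fun ω : Ω => ∑ e ∈ W ω, (T.wt e : ℝ))
      (fun ω => Finset.sum_nonneg (fun e _ => hnn e)) (T.w * p) (1 / 1000 * (T.w : ℝ))
      (by positivity) hsum
    rw [pr]
    have hE : T.w * p / (1 / 1000 * (T.w : ℝ)) = 1000 * p := by
      field_simp
    rw [hE] at hm
    rcases eq_or_lt_of_le hc0 with h | h
    · rw [← h]
      simp
      exact hp
    · rw [div_le_iff₀ h]
      exact hm

private theorem G2_missW (P : Prm) {n : ℕ} {d : Fin n → Fin n → ℕ} (T : MTree d)
    (S : Finset (Fin n)) : ∃ W : Finset (Fin n), missW P T S = ∑ e ∈ W, (T.wt e : ℝ) ∧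
      ∀ e, e ∈ W ↔ (P.L3 < (T.descSet e).card ∧
        P.L3 < ((univ : Finset (Fin n)) \ T.descSet e).card ∧
        ((∀ u ∈ S, ¬ T.desc e u) ∨ (∀ u ∈ S, T.desc e u))) := by
  unfold missW
  exact ⟨_, rfl, fun e => by simp only [mem_filter, mem_univ, true_and]⟩

private theorem G2_hitW (P : Prm) {n : ℕ} {d : Fin n → Fin n → ℕ} (T : MTree d)
    (S : Finset (Fin n)) : ∃ W : Finset (Fin n), hitW P T S = ∑ e ∈ W, (T.wt e : ℝ) ∧
      ∀ e, e ∈ W ↔ (T.wt e ≤ P.ρ0 ∧ (T.descSet e).card ≤ P.L3 ∧ ∃ u ∈ S, T.desc e u) := by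
  unfold hitW
  exact ⟨_, rfl, fun e => by simp only [mem_filter, mem_univ, true_and]⟩

theorem miss_prob (P : Prm) {n M3 : ℕ} (hn : 0 < n) {d : Fin n → Fin n → ℕ} (hd : NMet d)
    (T : MTree d) :
    pr (fun ω : Fin M3 → Fin n => 1 / 1000 * (T.w : ℝ) < missW P T (rg ω)) ≤
      2000 * Real.exp (-(M3 * P.L3 / n)) := by
  have hn' : (0 : ℝ) < n := by exact_mod_cast hn
  have hcard : ((Fintype.card (Fin M3 → Fin n) : ℕ) : ℝ) = (n : ℝ) ^ M3 := by
    rw [Fintype.card_fun, Fintype.card_fin, Fintype.card_fin]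
    push_cast
    rfl
  have hmono : ∀ c : ℕ, P.L3 < c → Real.exp (-(M3 * c / n)) ≤ Real.exp (-(M3 * P.L3 / n)) := by
    intro c hc
    apply Real.exp_le_exp.2
    apply neg_le_neg
    apply div_le_div_of_nonneg_right _ hn'.le
    have : (P.L3 : ℝ) ≤ c := by exact_mod_cast hc.le
    exact mul_le_mul_of_nonneg_left this (Nat.cast_nonneg _)
  choose W hW1 hW2 using fun ω : Fin M3 → Fin n => G2_missW P T (rg ω)
  have h := G2_markov T W (2 * Real.exp (-(M3 * P.L3 / n))) (by positivity) (by
    intro e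
    rw [hcard]
    by_cases hA : P.L3 < (T.descSet e).card ∧
        P.L3 < ((univ : Finset (Fin n)) \ T.descSet e).card
    · refine ⟨univ.filter (fun ω : Fin M3 → Fin n => ∀ i, ω i ∉ T.descSet e) ∪
            univ.filter (fun ω : Fin M3 → Fin n =>
              ∀ i, ω i ∉ ((univ : Finset (Fin n)) \ T.descSet e)), ?_, ?_⟩
      · intro ω hω
        rw [hW2] at hω
        rw [mem_union, mem_filter, mem_filter]
        have hmem : ∀ i, ω i ∈ rg ω := fun i => by
          rw [rg]
          exact Finset.mem_image_of_mem _ (mem_univ i)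
        rcases hω.2.2 with h1 | h1
        · left
          refine ⟨mem_univ _, fun i hi => ?_⟩
          rw [MTree.descSet, mem_filter] at hi
          exact h1 _ (hmem i) hi.2
        · right
          refine ⟨mem_univ _, fun i hi => ?_⟩
          rw [mem_sdiff] at hi
          apply hi.2
          rw [MTree.descSet, mem_filter]
          exact ⟨mem_univ _, h1 _ (hmem i)⟩
      · have h2 := miss_le (M := M3) (T.descSet e)
        have h3 := miss_le (M := M3) ((univ : Finset (Fin n)) \ T.descSet e)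
        have h4 := hmono _ hA.1
        have h5 := hmono _ hA.2
        have hpow : (0 : ℝ) ≤ (n : ℝ) ^ M3 := by positivity
        have h6 := mul_le_mul_of_nonneg_left h4 hpow
        have h7 := mul_le_mul_of_nonneg_left h5 hpow
        refine le_trans (Nat.cast_le.2 (Finset.card_union_le _ _)) ?_
        rw [Nat.cast_add]
        linarith
    · refine ⟨∅, ?_, ?_⟩
      · intro ω hω
        rw [hW2] at hω
        exact absurd ⟨hω.1, hω.2.1⟩ hA
      · rw [Finset.card_empty, Nat.cast_zero]
        positivity)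
  have h2 : (1000 : ℝ) * (2 * Real.exp (-(M3 * P.L3 / n))) =
      2000 * Real.exp (-(M3 * P.L3 / n)) := by ring
  rw [h2] at h
  simp only [hW1]
  exact h

theorem hit_prob (P : Prm) {n M : ℕ} (hn : 0 < n) {d : Fin n → Fin n → ℕ} (hd : NMet d)
    (T : MTree d) :
    pr (fun ω : Fin M → Fin n => 1 / 1000 * (T.w : ℝ) < hitW P T (rg ω)) ≤ 1000 * M * P.L3 / n := by
  have hn' : (0 : ℝ) < n := by exact_mod_cast hn
  have hcard : ((Fintype.card (Fin M → Fin n) : ℕ) : ℝ) = (n : ℝ) ^ M := by
    rw [Fintype.card_fun, Fintype.card_fin, Fintype.card_fin]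
    push_cast
    rfl
  choose W hW1 hW2 using fun ω : Fin M → Fin n => G2_hitW P T (rg ω)
  have h := G2_markov T W ((M : ℝ) * P.L3 / n) (by positivity) (by
    intro e
    rw [hcard]
    by_cases hA : (T.descSet e).card ≤ P.L3
    · refine ⟨univ.filter (fun ω : Fin M → Fin n => ∃ i, ω i ∈ T.descSet e), ?_, ?_⟩
      · intro ω hω
        rw [hW2] at hω
        rw [mem_filter]
        refine ⟨mem_univ _, ?_⟩
        obtain ⟨u, hu, hu'⟩ := hω.2.2
        rw [rg, Finset.mem_image] at hu
        obtain ⟨i, _, rfl⟩ := hu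
        refine ⟨i, ?_⟩
        rw [MTree.descSet, mem_filter]
        exact ⟨mem_univ _, hu'⟩
      · have h2 := hit (M := M) (T.descSet e)
        have h3 := le_trans h2 (Nat.mul_le_mul_right (n ^ M) (Nat.mul_le_mul_left M hA))
        rw [div_mul_eq_mul_div, le_div_iff₀ hn']
        exact_mod_cast h3
    · refine ⟨∅, ?_, ?_⟩
      · intro ω hω
        rw [hW2] at hω
        exact absurd hω.2.1 hA
      · rw [Finset.card_empty, Nat.cast_zero]
        positivity)
  have h2 : (1000 : ℝ) * ((M : ℝ) * P.L3 / n) = 1000 * M * P.L3 / n := by ring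
  rw [h2] at h
  simp only [hW1]
  exact h

end H82.TQ
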