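import Pool.Agent.H82.TQ.Defs2
import Pool.Agent.H82.TQ.B6
import Pool.Agent.H82.TQ.D1
import Pool.Agent.H82.TQ.D3

/-!
# TQ G4: in instances without savings few components die

`hub_cover` with `c = 10^-8` gives `HB j`. `greedy_kill` for every level `j ∈ Icc 1 J` (`s = τ(j-1)`, `t = τ(j+1)`,
`HB = HB j`): `E deadU ≤ 2 |HB j| + 3 (M/n) N_j`, where `N_j`, the number of valid components, is at most
`#{x : τ(j-1) < wt x} + 1` (`card_classes`). Multiply by `τ(j+1) ≤ 3/2 τ(j-1)` (`tau_two_step`) and sum over `j`: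
`E kill ≤ 3 ∑ τ(j-1) |HB j| + 3 (M/n) ∑_j (3/2 τ(j-1) #{x : τ(j-1) < wt x} + τ(j+1)) ≤ 1440 c w + 3 (M/n) J (5/2) w`.
Markov's inequality: `200 * 1440 * 10^-8 ≤ 3/1000`, `200 * 7.5 ≤ 1800`.
-/

set_option autoImplicit false

open Finset Classical

namespace H82.TQ

private theorem card_valid_le {n : ℕ} {d : Fin n → Fin n → ℕ} (hd : NMet d) (T : MTree d)
    (s L : ℕ) :
    (univ.filter (fun a => validU d s L a)).card ≤
      (univ.filter (fun x => s < T.wt x)).card + 1 := by
  rw [← card_classes hd T s]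
  refine Finset.card_le_card_of_injOn (cmp d s) ?_ ?_
  · intro a _
    simp
  · intro a ha b hb hab
    have ha' := (Finset.mem_filter.1 (Finset.mem_coe.1 ha)).2
    have hb' := (Finset.mem_filter.1 (Finset.mem_coe.1 hb)).2
    have hself : ∀ u : Fin n, u ∈ cmp d s u := by
      intro u
      exact Finset.mem_filter.2 ⟨Finset.mem_univ _, Relation.ReflTransGen.refl⟩
    have h1 : a ≤ b := by
      apply ha'.2
      rw [hab]
      exact hself b
    have h2 : b ≤ a := by
      apply hb'.2
      rw [← hab]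
      exact hself a
    exact le_antisymm h1 h2

private theorem level_mul_le {n : ℕ} {d : Fin n → Fin n → ℕ} (T : MTree d) (s : ℕ) :
    s * (univ.filter (fun x => s < T.wt x)).card ≤ T.w := by
  unfold MTree.w
  calc s * (univ.filter (fun x => s < T.wt x)).card
      = ∑ _x ∈ univ.filter (fun x => s < T.wt x), s := by
        rw [Finset.sum_const, smul_eq_mul, mul_comm]
    _ ≤ ∑ x ∈ univ.filter (fun x => s < T.wt x), T.wt x := by
        apply Finset.sum_le_sum
        intro x hx
        exact (Finset.mem_filter.1 hx).2.le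
    _ ≤ ∑ x, T.wt x := by
        apply Finset.sum_le_sum_of_subset
        exact Finset.filter_subset _ _

theorem kill_prob (P : Prm) {n M : ℕ} (hn : 0 < n) {d : Fin n → Fin n → ℕ} (hd : NMet d)
    (T : MTree d) (hno : NOi T) (hw : 0 < T.w) (hτ : tau (P.J + 1) ≤ T.w) :
    pr (fun ω : Fin M → Fin n => 1 / 200 * (T.w : ℝ) < kill P ω d) ≤
      3 / 1000 + 1800 * P.J * M / n := by
  obtain ⟨HB, hHB, hsum⟩ := hub_cover hd T (1 / 10 ^ 8) (by positivity) hno P.J
  have hn' : (0 : ℝ) < n := by exact_mod_cast hn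
  have hw' : (0 : ℝ) < T.w := by exact_mod_cast hw
  have hlev : ∀ j ∈ Icc 1 P.J, (tau (j + 1) : ℝ) *
      (∑ ω : Fin M → Fin n,
        ((deadU d (tau (j - 1)) (tau (j + 1)) P.L1 (grI P ω d j)).card : ℝ)) ≤
      (n : ℝ) ^ M * (3 * ((tau (j - 1) : ℝ) * (HB j).card) + 15 / 2 * (M / n) * T.w) := by
    intro j hj
    obtain ⟨hj1, hj2⟩ := Finset.mem_Icc.1 hj
    have hk := greedy_kill hd T (tau (j - 1)) (tau (j + 1)) P.L1 M (HB j) (by
      intro a b ha hb hab hadj hnt
      exact hHB j hj1 hj2 a b ha.2 hb.2 hab hadj hnt)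
    have hgr : ∀ ω : Fin M → Fin n, grI P ω d j =
        greedy d (tau (j - 1)) (tau (j + 1)) P.L1 (List.ofFn ω) := fun ω => rfl
    simp only [hgr]
    set S := (∑ ω : Fin M → Fin n, ((deadU d (tau (j - 1)) (tau (j + 1)) P.L1
      (greedy d (tau (j - 1)) (tau (j + 1)) P.L1 (List.ofFn ω))).card : ℝ)) with hS
    set N := (univ.filter (fun a => validU d (tau (j - 1)) P.L1 a)).card with hNdef
    have hN : (N : ℝ) ≤ (univ.filter (fun x => tau (j - 1) < T.wt x)).card + 1 := by
      exact_mod_cast card_valid_le hd T (tau (j - 1)) P.L1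
    have hlm : (tau (j - 1) : ℝ) * (univ.filter (fun x => tau (j - 1) < T.wt x)).card ≤ T.w := by
      exact_mod_cast level_mul_le T (tau (j - 1))
    have h2s : (2 : ℝ) * tau (j + 1) ≤ 3 * tau (j - 1) := by
      have h := tau_two_step (j - 1)
      have e : j - 1 + 2 = j + 1 := by omega
      rw [e] at h
      exact_mod_cast h
    have hτj : (tau (j + 1) : ℝ) ≤ T.w := by
      have h1 : tau (j + 1) ≤ tau (P.J + 1) := tau_strictMono.monotone (by omega)
      exact_mod_cast h1.trans hτ
    have hτ0 : (0 : ℝ) ≤ tau (j + 1) := by positivity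
    have hτN : (tau (j + 1) : ℝ) * N ≤ 5 / 2 * T.w := by
      have h1 : (tau (j + 1) : ℝ) * N ≤ tau (j + 1) *
          ((univ.filter (fun x => tau (j - 1) < T.wt x)).card + 1) :=
        mul_le_mul_of_nonneg_left hN hτ0
      have h2 : (tau (j + 1) : ℝ) * (univ.filter (fun x => tau (j - 1) < T.wt x)).card ≤
          3 / 2 * tau (j - 1) * (univ.filter (fun x => tau (j - 1) < T.wt x)).card := by
        apply mul_le_mul_of_nonneg_right _ (by positivity)
        linarith
      nlinarith
    have hS' : S ≤ (n : ℝ) ^ M * (2 * (HB j).card + 3 * (M / n) * N) := by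
      have e : (n : ℝ) ^ M * (2 * (HB j).card * n + 3 * M * N) =
          (n : ℝ) ^ M * (2 * (HB j).card + 3 * (M / n) * N) * n := by
        field_simp
      rw [e] at hk
      exact le_of_mul_le_mul_right hk hn'
    have hMn : (0 : ℝ) ≤ M / n := by positivity
    calc (tau (j + 1) : ℝ) * S
        ≤ tau (j + 1) * ((n : ℝ) ^ M * (2 * (HB j).card + 3 * (M / n) * N)) :=
          mul_le_mul_of_nonneg_left hS' hτ0
      _ = (n : ℝ) ^ M * ((2 * tau (j + 1)) * (HB j).card + 3 * (M / n) * (tau (j + 1) * N)) := by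
          ring
      _ ≤ (n : ℝ) ^ M * ((3 * tau (j - 1)) * (HB j).card + 3 * (M / n) * (5 / 2 * T.w)) := by
          apply mul_le_mul_of_nonneg_left _ (by positivity)
          apply add_le_add
          · exact mul_le_mul_of_nonneg_right h2s (by positivity)
          · exact mul_le_mul_of_nonneg_left hτN (by positivity)
      _ = (n : ℝ) ^ M * (3 * ((tau (j - 1) : ℝ) * (HB j).card) + 15 / 2 * (M / n) * T.w) := by
          ring
  have hcard : (Fintype.card (Fin M → Fin n) : ℝ) = (n : ℝ) ^ M := by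
    simp
  have htot : ∑ ω : Fin M → Fin n, kill P ω d ≤
      (1440 / 10 ^ 8 * T.w + 15 / 2 * P.J * (M / n) * T.w) * Fintype.card (Fin M → Fin n) := by
    rw [hcard]
    unfold kill
    rw [Finset.sum_comm]
    simp only [← Finset.mul_sum]
    refine (Finset.sum_le_sum hlev).trans ?_
    rw [← Finset.mul_sum, Finset.sum_add_distrib, ← Finset.mul_sum, Finset.sum_const,
      Nat.card_Icc, nsmul_eq_mul]
    rw [mul_comm]
    apply mul_le_mul_of_nonneg_right _ (by positivity)
    have e : ((P.J + 1 - 1 : ℕ) : ℝ) = P.J := by simp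
    rw [e]
    have : 3 * ∑ j ∈ Icc 1 P.J, (tau (j - 1) : ℝ) * (HB j).card ≤
        3 * (480 * (1 / 10 ^ 8) * T.w) := by linarith
    linarith
  have hmk := markov (fun ω : Fin M → Fin n => kill P ω d) (fun ω => by
    unfold kill
    positivity) _ (1 / 200 * (T.w : ℝ)) (by positivity) htot
  have hcpos : (0 : ℝ) < Fintype.card (Fin M → Fin n) := by
    rw [hcard]; positivity
  unfold pr
  rw [div_le_iff₀ hcpos]
  refine hmk.trans ?_
  apply mul_le_mul_of_nonneg_right _ hcpos.le
  rw [div_le_iff₀ (by positivity)]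
  have hJM : (0 : ℝ) ≤ P.J * M / n := by positivity
  have e1 : (1800 * P.J * M / n : ℝ) = 1800 * (P.J * M / n) := by ring
  have e2 : (15 / 2 * P.J * (M / n) * T.w : ℝ) = 15 / 2 * (P.J * M / n) * T.w := by ring
  rw [e1, e2]
  have : 0 ≤ (P.J * M / n : ℝ) * T.w := by positivity
  nlinarith

end H82.TQ
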