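import Pool.Agent.H82.TQ.Defs2
import Pool.Agent.H82.TQ.D2
import Pool.Agent.H82.TQ.D3

/-!
# TQ G6: the exceptional sets are small with high probability

`prob_BI`: `ff P ω d u ≤ d u (ω i)` for all `i`, so `u ∈ BI` implies the event of `near`; sum over `u`, Markov.
`prob_BC`: for `j ∈ Icc 1 J`, `D * (BC j).card ≤` the inner sum of `greedy_cand` (`s = τ(j-1)`, `t = τ(j+1)`, `L = L1`); sum over
`j`, Markov.
-/

set_option autoImplicit false

open Finset Classical

namespace H82.TQ

theorem g6_fT_le {n : ℕ} (d : Fin n → Fin n → ℕ) (S : Finset (Fin n)) (r : ℕ) (u s : Fin n)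
    (hs : s ∈ S) : fT d S r u ≤ d u s := by
  unfold fT
  have h := (Finset.le_fold_min (s := S) (f := fun s => d u s) (b := r)
    (c := S.fold min r (fun s => d u s))).1 le_rfl
  exact h.2 s hs

theorem g6_pr_markov {Ω : Type} [Fintype Ω] (g : Ω → ℝ) (hg : ∀ ω, 0 ≤ g ω) (E c N : ℝ)
    (hc : 0 ≤ c) (hN : 0 < N) (hΩ : 0 < Fintype.card Ω) (hE : 0 ≤ E)
    (h : ∑ ω, g ω ≤ E * Fintype.card Ω) :
    pr (fun ω => N < c * g ω) ≤ c * E / N := by
  have hΩ' : (0 : ℝ) < Fintype.card Ω := by exact_mod_cast hΩ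
  unfold pr
  rw [div_le_iff₀ hΩ']
  rcases hc.eq_or_lt with h0 | h0
  · have he : (univ.filter (fun ω : Ω => N < c * g ω)) = ∅ := by
      apply Finset.filter_eq_empty_iff.2
      intro ω _ hω
      rw [← h0, zero_mul] at hω
      linarith
    rw [he]
    simp only [Finset.card_empty, Nat.cast_zero]
    positivity
  · have hm := markov g hg E (N / c) (by positivity) h
    have he : (univ.filter (fun ω : Ω => N < c * g ω)) = (univ.filter (fun ω : Ω => N / c < g ω)) := by
      apply Finset.filter_congr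
      intro ω _
      rw [div_lt_iff₀ h0, mul_comm c]
    rw [he]
    refine hm.trans (le_of_eq ?_)
    field_simp

theorem prob_BI (P : Prm) {n M : ℕ} (hn : 0 < n) {d : Fin n → Fin n → ℕ} (hd : NMet d) :
    pr (fun ω : Fin M → Fin n => (n : ℝ) < 4 * P.r * (BI P ω d).card) ≤
      4 * P.r * Real.exp (-(M * P.D / n)) := by
  have hn' : (0 : ℝ) < n := by exact_mod_cast hn
  have hcard : Fintype.card (Fin M → Fin n) = n ^ M := by simp
  have key : ∑ ω : Fin M → Fin n, ((BI P ω d).card : ℝ) ≤
      (n * Real.exp (-(M * P.D / n))) * Fintype.card (Fin M → Fin n) := by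
    have h1 : ∀ ω : Fin M → Fin n, ((BI P ω d).card : ℝ) =
        ∑ u : Fin n, if P.D < (univ.filter (fun v => d u v < ff P ω d u)).card then (1 : ℝ) else 0 := by
      intro ω
      unfold BI
      rw [Finset.sum_boole]
    simp only [h1]
    rw [Finset.sum_comm]
    have h2 : ∀ u : Fin n, (∑ ω : Fin M → Fin n,
        if P.D < (univ.filter (fun v => d u v < ff P ω d u)).card then (1 : ℝ) else 0) ≤
        (n : ℝ) ^ M * Real.exp (-(M * P.D / n)) := by
      intro u
      rw [Finset.sum_boole]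
      refine le_trans ?_ (near (M := M) (D := P.D) d u)
      have hsub : (univ.filter (fun ω : Fin M → Fin n =>
          P.D < (univ.filter (fun v => d u v < ff P ω d u)).card)) ⊆
          (univ.filter (fun ω : Fin M → Fin n =>
          P.D < (univ.filter (fun v => ∀ i, d u v < d u (ω i))).card)) := by
        intro ω hω
        rw [Finset.mem_filter] at hω ⊢
        refine ⟨hω.1, lt_of_lt_of_le hω.2 (Finset.card_le_card ?_)⟩
        intro v hv
        rw [Finset.mem_filter] at hv ⊢
        refine ⟨hv.1, fun i => lt_of_lt_of_le hv.2 ?_⟩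
        apply g6_fT_le
        unfold rg
        exact Finset.mem_image_of_mem _ (Finset.mem_univ i)
      exact_mod_cast Finset.card_le_card hsub
    refine (Finset.sum_le_sum (fun u _ => h2 u)).trans (le_of_eq ?_)
    rw [Finset.sum_const, Finset.card_univ, Fintype.card_fin, hcard]
    simp only [nsmul_eq_mul]
    push_cast
    ring
  have hmain := g6_pr_markov (fun ω : Fin M → Fin n => ((BI P ω d).card : ℝ))
    (fun ω => Nat.cast_nonneg _) (n * Real.exp (-(M * P.D / n))) (4 * P.r) n (by positivity) hn'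
    (by rw [hcard]; positivity) (by positivity) key
  refine hmain.trans (le_of_eq ?_)
  field_simp

theorem prob_BC (P : Prm) {n M : ℕ} (hn : 0 < n) (hM : 0 < M) (hD : 0 < P.D)
    {d : Fin n → Fin n → ℕ} (hd : NMet d) :
    pr (fun ω : Fin M → Fin n => (n : ℝ) < 6 * P.R * ∑ j ∈ Icc 1 P.J, ((BC P ω d j).card : ℝ)) ≤
      6 * P.R * P.J * P.L1 * n / (M * P.D) := by
  have hn' : (0 : ℝ) < n := by exact_mod_cast hn
  have hM' : (0 : ℝ) < M := by exact_mod_cast hM
  have hD' : (0 : ℝ) < P.D := by exact_mod_cast hD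
  have hcard : Fintype.card (Fin M → Fin n) = n ^ M := by simp
  have hj : ∀ j ∈ Icc 1 P.J, ∑ ω : Fin M → Fin n, ((BC P ω d j).card : ℝ) ≤
      (n : ℝ) ^ M * n * n * P.L1 / (M * P.D) := by
    intro j hj
    rw [le_div_iff₀ (by positivity)]
    have h := greedy_cand hd (tau (j - 1)) (tau (j + 1)) P.L1 M
    refine le_trans ?_ h
    rw [show (∑ ω : Fin M → Fin n, ((BC P ω d j).card : ℝ)) * (M * P.D) =
      (∑ ω : Fin M → Fin n, ((BC P ω d j).card : ℝ) * P.D) * M by
        rw [← Finset.sum_mul]; ring]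
    refine mul_le_mul_of_nonneg_right ?_ hM'.le
    refine Finset.sum_le_sum (fun ω _ => ?_)
    have hH : Hj P ω d j = Hv d (tau (j + 1)) (greedy d (tau (j - 1)) (tau (j + 1)) P.L1 (List.ofFn ω)) := by
      unfold Hj grI
      rw [if_pos hj]
    have hsub : BC P ω d j ⊆ univ.filter (fun u => (cmp d (tau (j - 1)) u).card ≤ P.L1 ∧
          ∀ x ∈ cmp d (tau (j - 1)) u,
            x ∉ Hv d (tau (j + 1)) (greedy d (tau (j - 1)) (tau (j + 1)) P.L1 (List.ofFn ω))) := by
      intro u hu
      unfold BC at hu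
      rw [hH] at hu
      rw [Finset.mem_filter] at hu ⊢
      exact ⟨hu.1, hu.2.1, hu.2.2.1⟩
    refine le_trans ?_ (Finset.sum_le_sum_of_subset_of_nonneg hsub
      (fun _ _ _ => Nat.cast_nonneg _))
    rw [← nsmul_eq_mul]
    refine Finset.card_nsmul_le_sum _ _ _ (fun u hu => ?_)
    unfold BC at hu
    rw [hH] at hu
    rw [Finset.mem_filter] at hu
    exact_mod_cast hu.2.2.2.le
  have key : ∑ ω : Fin M → Fin n, (∑ j ∈ Icc 1 P.J, ((BC P ω d j).card : ℝ)) ≤
      (P.J * (n * n * P.L1 / (M * P.D))) * Fintype.card (Fin M → Fin n) := by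
    rw [Finset.sum_comm]
    refine (Finset.sum_le_sum hj).trans (le_of_eq ?_)
    rw [Finset.sum_const, Nat.card_Icc, hcard]
    simp only [nsmul_eq_mul, Nat.add_sub_cancel]
    push_cast
    ring
  have hmain := g6_pr_markov (fun ω : Fin M → Fin n => ∑ j ∈ Icc 1 P.J, ((BC P ω d j).card : ℝ))
    (fun ω => Finset.sum_nonneg (fun _ _ => Nat.cast_nonneg _)) _ (6 * P.R) n (by positivity) hn'
    (by rw [hcard]; positivity) (by positivity) key
  refine hmain.trans (le_of_eq ?_)
  field_simp

end H82.TQ
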