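import Pool.Agent.H82.TQ.Defs2

/-!
# TQ G8: calculus of proportions, windows

`windows`: the intervals `(ℓ i, R i]` are disjoint, so `∑_i (wle (R i) - wle (ℓ i)) ≤ w`.
-/

set_option autoImplicit false

open Finset Classical

namespace H82.TQ

private theorem fcongr {α : Type} {p q : α → Prop} {i1 : DecidablePred p} {i2 : DecidablePred q}
    (s : Finset α) (h : ∀ x, p x ↔ q x) :
    @Finset.filter α p i1 s = @Finset.filter α q i2 s := by
  ext x
  exact Iff.trans (@Finset.mem_filter _ _ i1 _ _)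
    (Iff.trans (and_congr_right' (h x)) (@Finset.mem_filter _ _ i2 _ _).symm)

private theorem pr_eq {Ω : Type} [Fintype Ω] (P : Ω → Prop) {i : DecidablePred P} :
    pr P = ((@Finset.filter Ω P i univ).card : ℝ) / Fintype.card Ω := by
  unfold pr
  rw [fcongr univ (fun _ => Iff.rfl)]

theorem pr_nonneg {Ω : Type} [Fintype Ω] (P : Ω → Prop) : 0 ≤ pr P := by
  unfold pr
  positivity

theorem pr_mono {Ω : Type} [Fintype Ω] {P Q : Ω → Prop} (h : ∀ ω, P ω → Q ω) : pr P ≤ pr Q := by
  unfold pr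
  apply div_le_div_of_nonneg_right _ (Nat.cast_nonneg _)
  exact_mod_cast card_le_card (monotone_filter_right _ fun x _ => h x)

theorem pr_or {Ω : Type} [Fintype Ω] (P Q : Ω → Prop) : pr (fun ω => P ω ∨ Q ω) ≤ pr P + pr Q := by
  rw [pr_eq (fun ω => P ω ∨ Q ω) (i := fun ω => instDecidableOr)]
  unfold pr
  rw [← add_div]
  apply div_le_div_of_nonneg_right _ (Nat.cast_nonneg _)
  have h : (univ.filter fun ω => P ω ∨ Q ω) ⊆ univ.filter P ∪ univ.filter Q := by
    intro x hx
    rw [mem_union, mem_filter, mem_filter]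
    rw [mem_filter] at hx
    exact hx.2.imp (fun h => ⟨hx.1, h⟩) (fun h => ⟨hx.1, h⟩)
  have h1 := (card_le_card h).trans (card_union_le _ _)
  exact_mod_cast h1

theorem pr_fst {A B : Type} [Fintype A] [Fintype B] [Nonempty B] (P : A → Prop) :
    pr (fun ω : A × B => P ω.1) = pr P := by
  unfold pr
  have h1 : (univ.filter fun ω : A × B => P ω.1) = (univ.filter P) ×ˢ (univ : Finset B) := by
    ext ω
    simp
  have hB : (Fintype.card B : ℝ) ≠ 0 := by exact_mod_cast Fintype.card_ne_zero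
  rw [h1, card_product, Fintype.card_prod]
  push_cast
  rw [card_univ, mul_div_mul_right _ _ hB]

theorem pr_snd {A B : Type} [Fintype A] [Fintype B] [Nonempty A] (P : B → Prop) :
    pr (fun ω : A × B => P ω.2) = pr P := by
  unfold pr
  have h1 : (univ.filter fun ω : A × B => P ω.2) = (univ : Finset A) ×ˢ (univ.filter P) := by
    ext ω
    simp
  have hA : (Fintype.card A : ℝ) ≠ 0 := by exact_mod_cast Fintype.card_ne_zero
  rw [h1, card_product, Fintype.card_prod]
  push_cast
  rw [card_univ, mul_div_mul_left _ _ hA]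

theorem pr_fiber {A B : Type} [Fintype A] [Fintype B] (Q : A → B → Prop) (p : ℝ) (hp : 0 ≤ p)
    (h : ∀ a, pr (Q a) ≤ p) : pr (fun ω : A × B => Q ω.1 ω.2) ≤ p := by
  have h1 : ((univ.filter fun ω : A × B => Q ω.1 ω.2).card : ℝ) ≤
      p * (Fintype.card A * Fintype.card B) := by
    have h2 : (univ.filter fun ω : A × B => Q ω.1 ω.2).card =
        ∑ a : A, (univ.filter fun b : B => Q a b).card := by
      simp only [card_filter, Fintype.sum_prod_type]
    rw [h2]
    push_cast
    have h3 : ∀ a : A, ((univ.filter fun b : B => Q a b).card : ℝ) ≤ p * Fintype.card B := by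
      intro a
      have h4 := h a
      unfold pr at h4
      rcases Nat.eq_zero_or_pos (Fintype.card B) with h0 | h0
      · have h5 : (univ.filter fun b : B => Q a b).card ≤ Fintype.card B := card_le_univ _
        rw [h0] at h5
        have h6 : (univ.filter fun b : B => Q a b).card = 0 := Nat.le_zero.1 h5
        rw [h6, h0]
        simp
      · rwa [div_le_iff₀ (by exact_mod_cast h0)] at h4
    calc ∑ a : A, ((univ.filter fun b : B => Q a b).card : ℝ) ≤ ∑ _a : A, p * Fintype.card B :=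
          sum_le_sum fun a _ => h3 a
      _ = p * (Fintype.card A * Fintype.card B) := by
          rw [sum_const, card_univ, nsmul_eq_mul]; ring
  unfold pr
  rw [Fintype.card_prod]
  push_cast
  exact div_le_of_le_mul₀ (by positivity) hp h1

theorem pr_good {Ω : Type} [Fintype Ω] [Nonempty Ω] (P : Ω → Prop)
    (h : pr (fun ω => ¬ P ω) ≤ 1 / 3) : 2 * Fintype.card Ω ≤ 3 * (univ.filter P).card := by
  have h0 : (0 : ℝ) < Fintype.card Ω := by exact_mod_cast Fintype.card_pos
  have h1 : (univ.filter P).card + (univ.filter fun ω => ¬ P ω).card = Fintype.card Ω := by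
    rw [← card_univ (α := Ω)]
    exact card_filter_add_card_filter_not _
  rw [pr_eq (fun ω => ¬ P ω) (i := fun ω => instDecidableNot), div_le_iff₀ h0] at h
  have h2 : ((univ.filter P).card : ℝ) + ((univ.filter fun ω => ¬ P ω).card : ℝ) =
      Fintype.card Ω := by exact_mod_cast h1
  have h3 : (2 : ℝ) * Fintype.card Ω ≤ 3 * (univ.filter P).card := by linarith
  exact_mod_cast h3

theorem windows {V : Type} [Fintype V] {d : V → V → ℕ} (T : MTree d) (k : ℕ) (ℓ R : ℕ → ℕ)
    (h1 : ∀ i, ℓ i ≤ R i) (h2 : ∀ i, R i ≤ ℓ (i + 1)) :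
    ((univ.filter (fun i : Fin k => (T.wle (ℓ i) : ℝ) + 1 / 200 * T.w < T.wle (R i))).card : ℝ) ≤
      200 := by
  have hmono : ∀ s t : ℕ, s ≤ t → T.wle s ≤ T.wle t := by
    intro s t hst
    unfold MTree.wle
    exact sum_le_sum_of_subset (monotone_filter_right _ fun x _ hx => hx.trans hst)
  have hle : ∀ t, T.wle t ≤ T.w := by
    intro t
    unfold MTree.wle MTree.w
    exact sum_le_sum_of_subset (filter_subset _ _)
  have htel : ∀ m : ℕ, ∑ i ∈ range m, ((T.wle (R i) : ℝ) - T.wle (ℓ i)) ≤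
      T.wle (ℓ m) - T.wle (ℓ 0) := by
    intro m
    rw [← sum_range_sub (fun i => (T.wle (ℓ i) : ℝ)) m]
    refine sum_le_sum fun i _ => ?_
    have h3 : (T.wle (R i) : ℝ) ≤ T.wle (ℓ (i + 1)) := by exact_mod_cast hmono _ _ (h2 i)
    linarith
  have hall : ∑ i : Fin k, ((T.wle (R i) : ℝ) - T.wle (ℓ i)) ≤ T.w := by
    rw [Fin.sum_univ_eq_sum_range (fun i => (T.wle (R i) : ℝ) - T.wle (ℓ i)) k]
    refine (htel k).trans ?_
    have h3 : (T.wle (ℓ k) : ℝ) ≤ T.w := by exact_mod_cast hle _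
    have h4 : (0 : ℝ) ≤ T.wle (ℓ 0) := Nat.cast_nonneg _
    linarith
  have hnn : ∀ i : ℕ, (0 : ℝ) ≤ (T.wle (R i) : ℝ) - T.wle (ℓ i) := by
    intro i
    have h3 : (T.wle (ℓ i) : ℝ) ≤ T.wle (R i) := by exact_mod_cast hmono _ _ (h1 i)
    linarith
  set F := univ.filter (fun i : Fin k => (T.wle (ℓ i) : ℝ) + 1 / 200 * T.w < T.wle (R i)) with hF
  rcases Nat.eq_zero_or_pos T.w with h0 | h0
  · have hempty : F = ∅ := by
      rw [hF, filter_eq_empty_iff]
      intro i _ hi
      have h3 : (T.wle (R i) : ℝ) ≤ T.w := by exact_mod_cast hle _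
      have h4 : (0 : ℝ) ≤ T.wle (ℓ i) := Nat.cast_nonneg _
      rw [h0] at hi h3
      push_cast at hi h3
      linarith
    rw [hempty]
    norm_num
  · have hw : (0 : ℝ) < T.w := by exact_mod_cast h0
    have h3 : (F.card : ℝ) * (1 / 200 * T.w) ≤ ∑ i ∈ F, ((T.wle (R i) : ℝ) - T.wle (ℓ i)) := by
      rw [← nsmul_eq_mul, ← sum_const]
      refine sum_le_sum fun i hi => ?_
      rw [hF, mem_filter] at hi
      linarith [hi.2]
    have h4 : ∑ i ∈ F, ((T.wle (R i) : ℝ) - T.wle (ℓ i)) ≤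
        ∑ i : Fin k, ((T.wle (R i) : ℝ) - T.wle (ℓ i)) :=
      sum_le_sum_of_subset_of_nonneg (subset_univ _) fun i _ _ => hnn i
    have h5 : (F.card : ℝ) * (1 / 200 * T.w) ≤ 200 * (1 / 200 * T.w) := by linarith
    exact le_of_mul_le_mul_right h5 (by positivity)

end H82.TQ
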