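import Pool.Agent.H82.TQ.Defs2
import Pool.Agent.H82.TQ.D3
import Pool.Agent.H82.TQ.E1
import Pool.Agent.H82.TQ.F3

/-!
# TQ G9: a large sample gives good estimates

All local quantities are between `0` and a constant which depends only on `P`: `phi1 ≤ R`, `phi2 ≤ 1`,
`phi4 ≤ ∑_{j ≤ J} τ(j+1)`, `phi3` by `phiAt_le` and `itz_le` (with `D := (J+1) D` by `nbrA_card`, `R := τ(J+1)` by `nbrA_dist`,
`ff ≤ r ≤ τ(J+1)`). Apply `sample` four times with `η = 1` (for `phi2`: `η = 1/(R+1)`) and choose `m1` large.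
-/

set_option autoImplicit false

open Finset Classical

namespace H82.TQ

private theorem g9_fcongr {α : Type} {p q : α → Prop} {i1 : DecidablePred p} {i2 : DecidablePred q}
    (s : Finset α) (h : ∀ x, p x ↔ q x) :
    @Finset.filter α p i1 s = @Finset.filter α q i2 s := by
  ext x
  exact Iff.trans (@Finset.mem_filter _ _ i1 _ _)
    (Iff.trans (and_congr_right' (h x)) (@Finset.mem_filter _ _ i2 _ _).symm)

private theorem g9_pr_le {Ω : Type} [Fintype Ω] (P : Ω → Prop) (A B C E : Ω → Prop)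
    (h : ∀ ω, P ω → A ω ∨ B ω ∨ C ω ∨ E ω) : pr P ≤ pr A + pr B + pr C + pr E := by
  unfold pr
  rw [← add_div, ← add_div, ← add_div]
  apply div_le_div_of_nonneg_right _ (Nat.cast_nonneg _)
  have h1 : univ.filter P ⊆ ((univ.filter A ∪ univ.filter B) ∪ univ.filter C) ∪ univ.filter E := by
    intro x hx
    rw [mem_filter] at hx
    rw [mem_union, mem_union, mem_union, mem_filter, mem_filter, mem_filter, mem_filter]
    rcases h x hx.2 with h | h | h | h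
    · exact Or.inl (Or.inl (Or.inl ⟨hx.1, h⟩))
    · exact Or.inl (Or.inl (Or.inr ⟨hx.1, h⟩))
    · exact Or.inl (Or.inr ⟨hx.1, h⟩)
    · exact Or.inr ⟨hx.1, h⟩
  have h2 := (card_le_card h1).trans ((card_union_le _ _).trans (Nat.add_le_add_right
    ((card_union_le _ _).trans (Nat.add_le_add_right (card_union_le _ _) _)) _))
  exact_mod_cast h2

private theorem g9_est {n m : ℕ} (hn : 0 < n) (hm : 0 < m) (φ : Fin n → ℝ) (B η : ℝ)
    (h0 : ∀ u, 0 ≤ φ u) (hB : ∀ u, φ u ≤ B) (hη : 0 < η) :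
    pr (fun ω : Fin m → Fin n => n * η < |est φ ω - ∑ u, φ u|) ≤ B ^ 2 / (m * η ^ 2) := by
  have hn' : (0 : ℝ) < n := by exact_mod_cast hn
  have h1 := sample hn hm φ B η h0 hB hη
  unfold pr
  rw [Fintype.card_fun, Fintype.card_fin, Fintype.card_fin]
  push_cast
  rw [div_le_iff₀ (by positivity), mul_comm (B ^ 2 / (m * η ^ 2))]
  refine le_trans (le_of_eq ?_) h1
  congr 2
  apply g9_fcongr
  intro ω
  unfold est
  have h2 : (n : ℝ) * ((∑ i, φ (ω i)) / m) - ∑ u, φ u =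
      n * ((∑ i, φ (ω i)) / m - (∑ u, φ u) / n) := by
    field_simp
  rw [h2, abs_mul, abs_of_pos hn', mul_lt_mul_iff_right₀ hn']

private theorem g9_phi1 (P : Prm) {n : ℕ} (d : Fin n → Fin n → ℕ) (u : Fin n) :
    0 ≤ phi1 P d u ∧ phi1 P d u ≤ P.R := by
  have h : ∀ t, (0 : ℝ) ≤ (if (cmp d t u).card ≤ P.B then (1 : ℝ) / (cmp d t u).card else 0) ∧
      (if (cmp d t u).card ≤ P.B then (1 : ℝ) / (cmp d t u).card else 0) ≤ 1 := by
    intro t
    split_ifs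
    · refine ⟨by positivity, ?_⟩
      rcases Nat.eq_zero_or_pos (cmp d t u).card with h0 | h0
      · rw [h0]; norm_num
      · have : (1 : ℝ) ≤ (cmp d t u).card := by exact_mod_cast h0
        rw [div_le_one (by linarith)]
        exact this
    · exact ⟨le_refl _, zero_le_one⟩
  unfold phi1
  refine ⟨sum_nonneg fun t _ => (h t).1, ?_⟩
  calc _ ≤ ∑ _t ∈ range P.R, (1 : ℝ) := sum_le_sum fun t _ => (h t).2
    _ = P.R := by simp

private theorem g9_phi2 (P : Prm) {n : ℕ} (d : Fin n → Fin n → ℕ) (u : Fin n) :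
    0 ≤ phi2 P d u ∧ phi2 P d u ≤ 1 := by
  unfold phi2
  split_ifs
  · refine ⟨by positivity, ?_⟩
    rcases Nat.eq_zero_or_pos (cmp d P.R u).card with h0 | h0
    · rw [h0]; norm_num
    · have : (1 : ℝ) ≤ (cmp d P.R u).card := by exact_mod_cast h0
      rw [div_le_one (by linarith)]
      exact this
  · exact ⟨le_refl _, zero_le_one⟩

private theorem g9_phi4 (P : Prm) {n M : ℕ} (ω : Fin M → Fin n) (d : Fin n → Fin n → ℕ)
    (u : Fin n) : 0 ≤ phi4 P ω d u ∧ phi4 P ω d u ≤ ∑ j ∈ Icc 1 P.J, (tau (j + 1) : ℝ) := by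
  unfold phi4
  constructor
  · refine sum_nonneg fun j _ => ?_
    split_ifs
    · positivity
    · simp
  · refine sum_le_sum fun j _ => ?_
    split_ifs
    · rw [mul_one]
    · rw [mul_zero]; exact Nat.cast_nonneg _

private theorem g9_ff (P : Prm) {n M : ℕ} (ω : Fin M → Fin n) (d : Fin n → Fin n → ℕ)
    (u : Fin n) : ff P ω d u ≤ P.r := by
  unfold ff fT
  rw [Finset.fold_min_le]
  exact Or.inl le_rfl

private noncomputable def g9_D (P : Prm) : ℕ := (P.J + 1) * P.D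

private noncomputable def g9_NX (P : Prm) : ℝ := 2 * 2 ^ ((g9_D P + 1) ^ P.L4)

private noncomputable def g9_B (P : Prm) : ℝ := P.K * (P.al * (P.C0 * g9_NX P))

private noncomputable def g9_B3 (P : Prm) : ℝ :=
  (g9_D P + 1) * g9_B P * tau (P.J + 1) + P.C0 * g9_NX P

private theorem g9_phi3 (P : Prm) (hC0 : 0 ≤ P.C0) (hal : 0 ≤ P.al) (hr : P.r ≤ tau (P.J + 1))
    {n M : ℕ} (ω : Fin M → Fin n) (d : Fin n → Fin n → ℕ) (hd : NMet d)
    (u : Fin n) : 0 ≤ phi3 P ω d u ∧ phi3 P ω d u ≤ g9_B3 P := by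
  have hNX : 0 ≤ g9_NX P := by unfold g9_NX; positivity
  have hB0 : 0 ≤ g9_B P := by unfold g9_B; positivity
  have hB30 : 0 ≤ g9_B3 P := by unfold g9_B3; positivity
  have hD : ∀ u, (nb P ω d u).card ≤ g9_D P := fun u =>
    nbrA_card (rg ω) (ff P ω d) (Hj P ω d) P.L1 P.D P.J d hd u
  have hf : ∀ u, ff P ω d u ≤ tau (P.J + 1) := fun u => (g9_ff P ω d u).trans hr
  have hR : ∀ u, ∀ v ∈ nb P ω d u, d u v ≤ tau (P.J + 1) := fun u v hv =>
    nbrA_dist (rg ω) (ff P ω d) (Hj P ω d) P.L1 P.D P.J (tau (P.J + 1)) d u v hv (hf u) le_rfl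
  have key : ∀ k ∈ range P.K,
      0 ≤ phiAt d (ff P ω d) P.C0 (Fam (nb P ω d) (rg ω) P.L4) (it P ω d k).1 (it P ω d k).2 u ∧
      phiAt d (ff P ω d) P.C0 (Fam (nb P ω d) (rg ω) P.L4) (it P ω d k).1 (it P ω d k).2 u ≤
        g9_B3 P := by
    intro k hk
    have hkK : (k : ℝ) ≤ P.K := by exact_mod_cast (mem_range.1 hk).le
    obtain ⟨b1, b2⟩ := itz_le d (ff P ω d) (rg ω) P.C0 P.al hC0 hal (nb P ω d) P.L4 (g9_D P) hD k
    obtain ⟨n1, n2⟩ := itz_nonneg d (ff P ω d) (rg ω) P.C0 P.al (nb P ω d)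
      (Fam (nb P ω d) (rg ω) P.L4) k
    obtain ⟨s1, s2⟩ := itz_supp d (ff P ω d) (rg ω) P.C0 P.al (nb P ω d)
      (Fam (nb P ω d) (rg ω) P.L4) k
    have hmul : (k : ℝ) * (P.al * (P.C0 * (2 * 2 ^ ((g9_D P + 1) ^ P.L4)))) ≤ g9_B P := by
      unfold g9_B g9_NX
      exact mul_le_mul_of_nonneg_right hkK (by positivity)
    have h := phiAt_le d (ff P ω d) (rg ω) P.C0 (g9_B P) hC0 hB0 (nb P ω d) P.L4 (g9_D P)
      (tau (P.J + 1)) hD hR hf (it P ω d k).1 (it P ω d k).2 n1 n2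
      (fun u v => (b1 u v).trans hmul) (fun u => (b2 u).trans hmul) s1 u
    exact h
  unfold phi3
  constructor
  · exact div_nonneg (sum_nonneg fun k hk => (key k hk).1) (Nat.cast_nonneg _)
  · apply div_le_of_le_mul₀ (Nat.cast_nonneg _) hB30
    calc _ ≤ ∑ _k ∈ range P.K, g9_B3 P := sum_le_sum fun k hk => (key k hk).2
      _ = g9_B3 P * P.K := by rw [sum_const, card_range, nsmul_eq_mul, mul_comm]

theorem sampling (P : Prm) (hC0 : 0 ≤ P.C0) (hal : 0 ≤ P.al) (hr : P.r ≤ tau (P.J + 1)) :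
    ∃ m1 : ℕ, 0 < m1 ∧ ∀ m0, m1 ≤ m0 → ∀ n, 0 < n → ∀ (M : ℕ) (ω1 : Fin M → Fin n)
      (d : Fin n → Fin n → ℕ), NMet d →
      pr (fun ω4 : Fin m0 → Fin n => ¬ SampOK P ω1 ω4 d) ≤ 1 / 100 := by
  obtain ⟨B4, hB4⟩ : ∃ B4 : ℝ, B4 = ∑ j ∈ Icc 1 P.J, (tau (j + 1) : ℝ) := ⟨_, rfl⟩
  obtain ⟨B3, hB3⟩ : ∃ B3 : ℝ, B3 = g9_B3 P := ⟨_, rfl⟩
  obtain ⟨m1, hm1⟩ := exists_nat_ge (400 * ((P.R : ℝ) ^ 2 + (P.R + 1) ^ 2 + B3 ^ 2 + B4 ^ 2))
  refine ⟨m1 + 1, Nat.succ_pos _, ?_⟩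
  intro m0 hm0 n hn M ω1 d hd
  have hm0' : 0 < m0 := by omega
  have hm0r : (0 : ℝ) < m0 := by exact_mod_cast hm0'
  have hm10 : (m1 : ℝ) ≤ m0 := by exact_mod_cast (by omega : m1 ≤ m0)
  have hR0 : (0 : ℝ) ≤ P.R := Nat.cast_nonneg _
  have hn0 : (0 : ℝ) < n := by exact_mod_cast hn
  have e1 := g9_est hn hm0' (phi1 P d) P.R 1 (fun u => (g9_phi1 P d u).1)
    (fun u => (g9_phi1 P d u).2) one_pos
  have e2 := g9_est hn hm0' (phi2 P d) 1 (1 / (P.R + 1)) (fun u => (g9_phi2 P d u).1)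
    (fun u => (g9_phi2 P d u).2) (by positivity)
  have e3 := g9_est hn hm0' (phi3 P ω1 d) B3 1
    (fun u => (g9_phi3 P hC0 hal hr ω1 d hd u).1)
    (fun u => by rw [hB3]; exact (g9_phi3 P hC0 hal hr ω1 d hd u).2) one_pos
  have e4 := g9_est hn hm0' (phi4 P ω1 d) B4 1 (fun u => (g9_phi4 P ω1 d u).1)
    (fun u => by rw [hB4]; exact (g9_phi4 P ω1 d u).2) one_pos
  have hsum := g9_pr_le (fun ω4 : Fin m0 → Fin n => ¬ SampOK P ω1 ω4 d)
    (fun ω4 => n * 1 < |est (phi1 P d) ω4 - ∑ u, phi1 P d u|)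
    (fun ω4 => n * (1 / (P.R + 1)) < |est (phi2 P d) ω4 - ∑ u, phi2 P d u|)
    (fun ω4 => n * 1 < |est (phi3 P ω1 d) ω4 - ∑ u, phi3 P ω1 d u|)
    (fun ω4 => n * 1 < |est (phi4 P ω1 d) ω4 - ∑ u, phi4 P ω1 d u|)
    (by
      intro ω4 hω
      by_contra hcon
      push Not at hcon
      obtain ⟨c1, c2, c3, c4⟩ := hcon
      apply hω
      rw [mul_one] at c1 c3 c4
      refine ⟨c1, ?_, c3, c4⟩
      calc (P.R : ℝ) * |est (phi2 P d) ω4 - ∑ u, phi2 P d u| ≤ P.R * (n * (1 / (P.R + 1))) :=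
            mul_le_mul_of_nonneg_left c2 hR0
        _ = n * (P.R / (P.R + 1)) := by ring
        _ ≤ n * 1 := by
            apply mul_le_mul_of_nonneg_left _ hn0.le
            rw [div_le_one (by positivity)]
            linarith
        _ = n := mul_one _)
  have s1 : (P.R : ℝ) ^ 2 / (m0 * 1 ^ 2) ≤ 1 / 400 := by
    rw [div_le_iff₀ (by positivity)]
    nlinarith [sq_nonneg B3, sq_nonneg B4, sq_nonneg ((P.R : ℝ) + 1)]
  have s2 : (1 : ℝ) ^ 2 / (m0 * (1 / (P.R + 1)) ^ 2) ≤ 1 / 400 := by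
    have : (1 : ℝ) ^ 2 / (m0 * (1 / (P.R + 1)) ^ 2) = (P.R + 1) ^ 2 / m0 := by
      field_simp
    rw [this, div_le_iff₀ hm0r]
    nlinarith [sq_nonneg B3, sq_nonneg B4, sq_nonneg (P.R : ℝ)]
  have s3 : B3 ^ 2 / (m0 * 1 ^ 2) ≤ 1 / 400 := by
    rw [div_le_iff₀ (by positivity)]
    nlinarith [sq_nonneg B4, sq_nonneg (P.R : ℝ), sq_nonneg ((P.R : ℝ) + 1)]
  have s4 : B4 ^ 2 / (m0 * 1 ^ 2) ≤ 1 / 400 := by
    rw [div_le_iff₀ (by positivity)]
    nlinarith [sq_nonneg B3, sq_nonneg (P.R : ℝ), sq_nonneg ((P.R : ℝ) + 1)]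
  linarith

end H82.TQ
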