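import Pool.Agent.H82.TQ.F1
import Pool.Agent.H82.TQ.B3

/-!
# TQ J1: from row algorithms to the frozen statement

`bridge`: number the elements of `Ω` (`m = card Ω`). A row algorithm `p : RC (Fin n) ℝ ℝ` gives a decision tree for
pair queries: a query for the row of `v` is replaced by the `n` queries `(v,0),…,(v,n-1)`. Define
`step p h : (Fin n × Fin n) ⊕ ℝ` by running `p` along the list `h` of answers: at a leaf return `inr a` (whatever `h`
is); at a query, if fewer than `n` answers are left (say `i < n`) return `inl (v,i)`, else continue with the first `n`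
answers as row and the rest of the list. Then `Q * n` iterations reach a leaf if at most `Q` rows are used, and
further iterations do not change the state (so `Alg` is monotone in `q`). For `n = 0` a row costs nothing.
`alg_exact`: ask for all pairs and output `opt d` (`Ω = Unit`; `opt d ≥ 0`, `δ ≤ 1`).
`frozen_of_alg`: `q n` = least `q` with `Alg δ n q`.
-/

set_option autoImplicit false

open Finset Classical Asymptotics

namespace H82.TQ

/-- One step of the decision tree given by a row algorithm. -/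
private noncomputable def J1_step {n : ℕ} : RC (Fin n) ℝ ℝ → List ℝ → (Fin n × Fin n) ⊕ ℝ
  | RC.pure a, _ => Sum.inr a
  | RC.ask v k, h =>
      if hl : h.length < n then Sum.inl (v, ⟨h.length, hl⟩)
      else J1_step (k (fun i => h.getD i 0)) (h.drop n)

/-- The state after one more query. -/
private noncomputable def J1_next {n : ℕ} (d : Fin n → Fin n → ℝ)
    (st : List ℝ → (Fin n × Fin n) ⊕ ℝ) (h : List ℝ) : List ℝ :=
  Sum.elim (fun p : Fin n × Fin n => h ++ [d p.1 p.2]) (fun _ : ℝ => h) (st h)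

private lemma J1_next_fix {n : ℕ} (d : Fin n → Fin n → ℝ)
    (st : List ℝ → (Fin n × Fin n) ⊕ ℝ) (h : List ℝ) (r : ℝ) (hr : st h = Sum.inr r) (j : ℕ) :
    (J1_next d st)^[j] h = h := by
  have h1 : J1_next d st h = h := by
    unfold J1_next
    rw [hr]
    rfl
  exact Function.iterate_fixed h1 j

private lemma J1_mono {n : ℕ} (d : Fin n → Fin n → ℝ)
    (st : List ℝ → (Fin n × Fin n) ⊕ ℝ) (h : List ℝ) (r : ℝ) (q q' : ℕ) (hq : q ≤ q')
    (hr : st ((J1_next d st)^[q] h) = Sum.inr r) :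
    st ((J1_next d st)^[q'] h) = Sum.inr r := by
  obtain ⟨j, rfl⟩ := Nat.exists_eq_add_of_le hq
  rw [add_comm, Function.iterate_add_apply, J1_next_fix d st _ r hr]
  exact hr

private lemma J1_row {n : ℕ} (d : Fin n → Fin n → ℝ) (P : RC (Fin n) ℝ ℝ) (v : Fin n)
    (k : (Fin n → ℝ) → RC (Fin n) ℝ ℝ) (pre : List ℝ)
    (hR : ∀ h, J1_step P (pre ++ h) = J1_step (RC.ask v k) h) (i : ℕ) (hi : i ≤ n) :
    (J1_next d (J1_step P))^[i] pre = pre ++ (List.ofFn (d v)).take i := by
  induction i with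
  | zero => simp
  | succ i ih =>
    rw [Function.iterate_succ_apply', ih (by omega)]
    have hlen : ((List.ofFn (d v)).take i).length = i := by
      rw [List.length_take, List.length_ofFn]
      omega
    have hst : J1_step P (pre ++ (List.ofFn (d v)).take i) = Sum.inl (v, ⟨i, by omega⟩) := by
      rw [hR, J1_step]
      have h1 : ((List.ofFn (d v)).take i).length < n := by omega
      rw [dif_pos h1]
      simp only [hlen]
    unfold J1_next
    rw [hst]
    simp only [Sum.elim_inl]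
    rw [List.append_assoc]
    congr 1
    rw [List.take_add_one]
    congr 1
    rw [List.getElem?_ofFn, dif_pos (by omega : i < n)]
    rfl

private lemma J1_run {n : ℕ} (d : Fin n → Fin n → ℝ) (P : RC (Fin n) ℝ ℝ)
    (p : RC (Fin n) ℝ ℝ) : ∀ pre : List ℝ, (∀ h, J1_step P (pre ++ h) = J1_step p h) →
    ∃ j ≤ p.used d * n, J1_step P ((J1_next d (J1_step P))^[j] pre) = Sum.inr (p.eval d) := by
  induction p with
  | pure a =>
    intro pre hR
    refine ⟨0, Nat.zero_le _, ?_⟩
    have h1 := hR []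
    rw [List.append_nil] at h1
    rw [Function.iterate_zero_apply, h1, J1_step, RC.eval]
  | ask v k ih =>
    intro pre hR
    have h1 := J1_row d P v k pre hR n le_rfl
    have hlen : (List.ofFn (d v)).length = n := List.length_ofFn
    rw [List.take_of_length_le (by omega)] at h1
    have hR' : ∀ h, J1_step P ((pre ++ List.ofFn (d v)) ++ h) = J1_step (k (d v)) h := by
      intro h
      rw [List.append_assoc, hR, J1_step]
      have h2 : ¬ (List.ofFn (d v) ++ h).length < n := by
        rw [List.length_append, hlen]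
        omega
      rw [dif_neg h2]
      have h3 : (fun i : Fin n => (List.ofFn (d v) ++ h).getD i 0) = d v := by
        funext i
        rw [List.getD_eq_getElem?_getD, List.getElem?_append_left (by rw [hlen]; exact i.2),
          List.getElem?_ofFn, dif_pos i.2]
        rfl
      rw [h3, List.drop_append_of_le_length (by omega), List.drop_of_length_le (by omega),
        List.nil_append]
    obtain ⟨j, hj, hj'⟩ := ih (d v) _ hR'
    refine ⟨j + n, ?_, ?_⟩
    · rw [RC.used, Nat.add_mul, one_mul]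
      omega
    · rw [Function.iterate_add_apply, h1, hj', RC.eval]

theorem alg_mono {δ : ℝ} {n q q' : ℕ} (h : Alg δ n q) (hq : q ≤ q') : Alg δ n q' := by
  obtain ⟨m, hm, step, hs⟩ := h
  refine ⟨m, hm, step, fun d h1 h2 h3 h4 => ?_⟩
  refine (hs d h1 h2 h3 h4).trans ?_
  refine Nat.mul_le_mul_left 3 ?_
  refine Nat.card_le_card_of_injective (fun x => ⟨x.1, ?_⟩) ?_
  · obtain ⟨s, r, hr1, hr2⟩ := x
    exact ⟨r, J1_mono d (step s) [] r q q' hq hr1, hr2⟩
  · intro x y hxy
    apply Subtype.ext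
    simp only [Subtype.mk.injEq] at hxy
    exact hxy

theorem bridge (n Q : ℕ) (Ω : Type) [Fintype Ω] [Nonempty Ω] (δ : ℝ)
    (Out : Ω → (Fin n → Fin n → ℝ) → ℝ) (hC : ∀ ω, Comp (RMet (n := n)) (Out ω) Q)
    (hgood : ∀ d : Fin n → Fin n → ℝ, RMet d →
      2 * Fintype.card Ω ≤
        3 * (univ.filter (fun ω => opt d ≤ Out ω d ∧ Out ω d ≤ (2 - δ) * opt d)).card) :
    Alg δ n (Q * n) := by
  choose p hp using hC
  refine ⟨Fintype.card Ω, Fintype.card_pos, fun s => J1_step (p ((Fintype.equivFin Ω).symm s)), ?_⟩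
  intro d h1 h2 h3 h4
  have hd : RMet d := ⟨h1, h2, h3, h4⟩
  refine (hgood d hd).trans ?_
  refine Nat.mul_le_mul_left 3 ?_
  rw [← Nat.subtype_card (p := fun ω => opt d ≤ Out ω d ∧ Out ω d ≤ (2 - δ) * opt d)
    (univ.filter (fun ω => opt d ≤ Out ω d ∧ Out ω d ≤ (2 - δ) * opt d)) (by simp)]
  refine Nat.card_le_card_of_injective (fun x => ⟨Fintype.equivFin Ω x.1, ?_⟩) ?_
  · obtain ⟨ω, hω⟩ := x
    obtain ⟨j, hj, hj'⟩ := J1_run d (p ω) (p ω) [] (fun h => by rw [List.nil_append])
    obtain ⟨e1, e2⟩ := hp ω d hd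
    refine ⟨Out ω d, ?_, hω.1, hω.2⟩
    simp only [Equiv.symm_apply_apply]
    rw [e1] at hj'
    exact J1_mono d (J1_step (p ω)) [] (Out ω d) j (Q * n)
      (hj.trans (Nat.mul_le_mul_right n e2)) hj'
  · intro x y hxy
    apply Subtype.ext
    simp only [Subtype.mk.injEq, EmbeddingLike.apply_eq_iff_eq] at hxy
    exact hxy

private lemma J1_opt_nonneg {n : ℕ} (d : Fin n → Fin n → ℝ) (hd : RMet d) : 0 ≤ opt d := by
  unfold opt
  refine Real.iInf_nonneg fun σ => Finset.sum_nonneg fun i _ => ?_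
  by_cases h : σ i = σ (finRotate n i)
  · rw [← h, hd.1]
  · exact (hd.2.1 _ _ h).le

theorem alg_exact (n : ℕ) (δ : ℝ) (hδ : δ ≤ 1) : Alg δ n (n * n) := by
  refine bridge n n Unit δ (fun _ d => opt d) (fun _ => ?_) (fun d hd => ?_)
  · have h1 := comp_rows (P := RMet (n := n)) (univ : Finset (Fin n)) (0 : ℝ)
    rw [Finset.card_univ, Fintype.card_fin] at h1
    refine comp_congr (comp_map h1 opt) fun d _ => ?_
    simp only [mem_univ, if_true]
  · have h0 := J1_opt_nonneg d hd
    rw [Finset.filter_true_of_mem]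
    · simp
    · intro ω _
      refine ⟨le_rfl, ?_⟩
      nlinarith

theorem frozen_of_alg (δ : ℝ) (h0 : 0 < δ) (h1 : δ ≤ 1)
    (h : ∀ ε : ℝ, 0 < ε → ∃ n0 : ℕ, ∀ n, n0 ≤ n → ∃ q : ℕ, (q : ℝ) ≤ ε * (n : ℝ) ^ 2 ∧ Alg δ n q) :
    ∃ δ : ℝ, 0 < δ ∧ ∃ q : ℕ → ℕ,
      (fun n : ℕ => (q n : ℝ)) =o[Filter.atTop] (fun n : ℕ => (n : ℝ) ^ 2) ∧
      ∀ n : ℕ, ∃ m : ℕ, 0 < m ∧
        ∃ step : Fin m → List ℝ → ((Fin n × Fin n) ⊕ ℝ),
          ∀ d : Fin n → Fin n → ℝ,
            (∀ i, d i i = 0) →
            (∀ i j, i ≠ j → 0 < d i j) →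
            (∀ i j, d i j = d j i) →
            (∀ i j k, d i k ≤ d i j + d j k) →
            2 * m ≤ 3 * Nat.card {s : Fin m // ∃ r : ℝ,
              step s ((fun h : List ℝ =>
                  Sum.elim (fun p : Fin n × Fin n => h ++ [d p.1 p.2])
                    (fun _ : ℝ => h) (step s h))^[q n] []) = Sum.inr r ∧
              (⨅ σ : Equiv.Perm (Fin n), ∑ i : Fin n, d (σ i) (σ (finRotate n i))) ≤ r ∧
              r ≤ (2 - δ) *
                (⨅ σ : Equiv.Perm (Fin n), ∑ i : Fin n, d (σ i) (σ (finRotate n i)))} := by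
  have hex : ∀ n, ∃ q, Alg δ n q := fun n => ⟨n * n, alg_exact n δ h1⟩
  refine ⟨δ, h0, fun n => Nat.find (hex n), ?_, fun n => Nat.find_spec (hex n)⟩
  rw [Asymptotics.isLittleO_iff]
  intro ε hε
  obtain ⟨n0, hn0⟩ := h ε hε
  filter_upwards [Filter.eventually_ge_atTop n0] with n hn
  obtain ⟨q, hq, hA⟩ := hn0 n hn
  rw [Real.norm_of_nonneg (Nat.cast_nonneg _), Real.norm_of_nonneg (by positivity)]
  have h2 : Nat.find (hex n) ≤ q := Nat.find_min' (hex n) hA
  have h3 : (Nat.find (hex n) : ℝ) ≤ q := by exact_mod_cast h2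
  exact h3.trans hq

end H82.TQ
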