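import Pool.Agent.H82.TQ.G2
import Pool.Agent.H82.TQ.G4
import Pool.Agent.H82.TQ.G6
import Pool.Agent.H82.TQ.G8
import Pool.Agent.H82.TQ.G10

/-!
# TQ K0: the output is correct with high probability, for one window
-/

set_option autoImplicit false

open Finset Classical

namespace H82.TQ

/-- the output is as desired -/
def Good {n : ℕ} {d : Fin n → Fin n → ℕ} (T : MTree d) (o : ℝ × Bool) : Prop :=
  |o.1 - T.w| ≤ 1 / 10 ^ 10 * T.w ∧ (NOi T → o.2 = false) ∧ (YESi T → o.2 = true)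

theorem pr_false' {Ω : Type} [Fintype Ω] : pr (fun _ : Ω => False) = 0 := by
  unfold pr
  simp

theorem window_prob (P : Prm) {n M M3 m0 : ℕ} (h : POK P n M) (hM : 0 < M) (hD : 0 < P.D)
    {d : Fin n → Fin n → ℕ} (hd : NMet d) (T : MTree d) (N : Finset (Fin n))
    (hN : ∀ v, ∃ a ∈ N, d v a ≤ P.ρ0) (hw : (10 : ℝ) ^ 12 * n ≤ T.w)
    (hs : ∀ ω1 : Fin M → Fin n, pr (fun ω4 : Fin m0 → Fin n => ¬ SampOK P ω1 ω4 d) ≤ 1 / 100)
    (e1 : 1800 * P.J * M / n ≤ (1 : ℝ) / 1000) (e2 : 1000 * M * P.L3 / n ≤ (1 : ℝ) / 1000)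
    (e3 : 2000 * Real.exp (-(M3 * P.L3 / n)) ≤ (1 : ℝ) / 1000)
    (e4 : 4 * P.r * Real.exp (-(M * P.D / n)) ≤ (1 : ℝ) / 1000)
    (e5 : 6 * P.R * P.J * P.L1 * n / (M * P.D) ≤ (1 : ℝ) / 1000)
    (hwin : (T.wle P.R : ℝ) ≤ T.wle P.ℓ + 1 / 200 * T.w) :
    pr (fun ω : (Fin M → Fin n) × ((Fin M3 → Fin n) × (Fin m0 → Fin n)) =>
      ¬ Good T (out P ω.1 ω.2.1 ω.2.2 N d)) ≤ 1 / 20 := by
  have hn : 0 < n := by have := h.n2; omega
  have : Nonempty (Fin n) := ⟨⟨0, hn⟩⟩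
  have hn' : (0 : ℝ) < n := by exact_mod_cast hn
  have hwpos : (0 : ℝ) < T.w := by nlinarith
  have hwpos' : 0 < T.w := by exact_mod_cast hwpos
  have hτ : tau (P.J + 1) ≤ T.w := by
    have h1 : (n : ℝ) ≤ T.w := by nlinarith
    have h2 : n ≤ T.w := by exact_mod_cast h1
    exact le_trans h.nτ h2
  let E1 : (Fin M → Fin n) → Prop := fun ω => NOi T ∧ 1 / 200 * (T.w : ℝ) < kill P ω d
  let E2 : (Fin M → Fin n) → Prop := fun ω => 1 / 1000 * (T.w : ℝ) < hitW P T (rg ω)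
  let E3 : (Fin M → Fin n) → Prop := fun ω => (n : ℝ) < 4 * P.r * (BI P ω d).card
  let E4 : (Fin M → Fin n) → Prop := fun ω => (n : ℝ) < 6 * P.R * ∑ j ∈ Icc 1 P.J, ((BC P ω d j).card : ℝ)
  let E5 : (Fin M3 → Fin n) → Prop := fun ω => 1 / 1000 * (T.w : ℝ) < missW P T (rg ω)
  let E6 : (Fin M → Fin n) → (Fin m0 → Fin n) → Prop := fun ω1 ω4 => ¬ SampOK P ω1 ω4 d
  have p1 : pr E1 ≤ 4 / 1000 := by
    by_cases hno : NOi T
    · have := kill_prob P (M := M) hn hd T hno hwpos' hτ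
      have h2 : pr E1 ≤ pr (fun ω : Fin M → Fin n => 1 / 200 * (T.w : ℝ) < kill P ω d) :=
        pr_mono (fun ω hω => hω.2)
      linarith
    · have h2 : pr E1 ≤ pr (fun _ : Fin M → Fin n => False) := pr_mono (fun ω hω => hno hω.1)
      rw [pr_false'] at h2
      linarith
  have p2 : pr E2 ≤ 1 / 1000 := (hit_prob P hn hd T).trans e2
  have p3 : pr E3 ≤ 1 / 1000 := (prob_BI P hn hd).trans e4
  have p4 : pr E4 ≤ 1 / 1000 := (prob_BC P hn hM hD hd).trans e5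
  have p5 : pr E5 ≤ 1 / 1000 := (miss_prob P hn hd T).trans e3
  have q1 : pr (fun ω : (Fin M → Fin n) × ((Fin M3 → Fin n) × (Fin m0 → Fin n)) => E1 ω.1) ≤ 4 / 1000 := by
    rw [pr_fst]; exact p1
  have q2 : pr (fun ω : (Fin M → Fin n) × ((Fin M3 → Fin n) × (Fin m0 → Fin n)) => E2 ω.1) ≤ 1 / 1000 := by
    rw [pr_fst]; exact p2
  have q3 : pr (fun ω : (Fin M → Fin n) × ((Fin M3 → Fin n) × (Fin m0 → Fin n)) => E3 ω.1) ≤ 1 / 1000 := by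
    rw [pr_fst]; exact p3
  have q4 : pr (fun ω : (Fin M → Fin n) × ((Fin M3 → Fin n) × (Fin m0 → Fin n)) => E4 ω.1) ≤ 1 / 1000 := by
    rw [pr_fst]; exact p4
  have q5 : pr (fun ω : (Fin M → Fin n) × ((Fin M3 → Fin n) × (Fin m0 → Fin n)) => E5 ω.2.1) ≤ 1 / 1000 := by
    have := pr_snd (A := Fin M → Fin n) (B := (Fin M3 → Fin n) × (Fin m0 → Fin n)) (fun x => E5 x.1)
    rw [this, pr_fst]; exact p5
  have q6 : pr (fun ω : (Fin M → Fin n) × ((Fin M3 → Fin n) × (Fin m0 → Fin n)) => E6 ω.1 ω.2.2) ≤ 1 / 100 := by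
    apply pr_fiber (fun (ω1 : Fin M → Fin n) (x : (Fin M3 → Fin n) × (Fin m0 → Fin n)) => E6 ω1 x.2)
    · norm_num
    · intro ω1
      have := pr_snd (A := Fin M3 → Fin n) (B := Fin m0 → Fin n) (E6 ω1)
      rw [this]
      exact hs ω1
  have key : ∀ ω : (Fin M → Fin n) × ((Fin M3 → Fin n) × (Fin m0 → Fin n)),
      ¬ Good T (out P ω.1 ω.2.1 ω.2.2 N d) →
      (((((E1 ω.1 ∨ E2 ω.1) ∨ E3 ω.1) ∨ E4 ω.1) ∨ E5 ω.2.1) ∨ E6 ω.1 ω.2.2) := by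
    intro ω hω
    by_contra hcon
    push Not at hcon
    obtain ⟨⟨⟨⟨⟨c1, c2⟩, c3⟩, c4⟩, c5⟩, c6⟩ := hcon
    apply hω
    apply out_good P h hd T N hN hw ω.1 ω.2.1 ω.2.2
    · exact not_not.1 c6
    · exact hwin
    · intro hno
      by_contra hk
      exact c1 ⟨hno, not_le.1 hk⟩
    · exact not_lt.1 c2
    · exact not_lt.1 c5
    · exact not_lt.1 c3
    · exact not_lt.1 c4
  calc pr (fun ω : (Fin M → Fin n) × ((Fin M3 → Fin n) × (Fin m0 → Fin n)) =>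
        ¬ Good T (out P ω.1 ω.2.1 ω.2.2 N d)) ≤
      pr (fun ω : (Fin M → Fin n) × ((Fin M3 → Fin n) × (Fin m0 → Fin n)) =>
        (((((E1 ω.1 ∨ E2 ω.1) ∨ E3 ω.1) ∨ E4 ω.1) ∨ E5 ω.2.1) ∨ E6 ω.1 ω.2.2)) := pr_mono key
    _ ≤ ((((4 / 1000 + 1 / 1000) + 1 / 1000) + 1 / 1000) + 1 / 1000) + 1 / 100 := by
        refine (pr_or _ _).trans (add_le_add ?_ q6)
        refine (pr_or _ _).trans (add_le_add ?_ q5)
        refine (pr_or _ _).trans (add_le_add ?_ q4)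
        refine (pr_or _ _).trans (add_le_add ?_ q3)
        exact (pr_or _ _).trans (add_le_add q1 q2)
    _ ≤ 1 / 20 := by norm_num

end H82.TQ
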