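import Pool.Agent.H82.TQ.K0
import Pool.Agent.H82.TQ.G0
import Pool.Agent.H82.TQ.G9
import Pool.Agent.H82.TQ.A0

/-!
# TQ K1: choice of the parameters, the core theorem
-/

set_option autoImplicit false

open Finset Classical

namespace H82.TQ

/-- windows with common parameters -/
noncomputable def Pw (ρ0 ℓ0 J L1 L3 L4 D B K : ℕ) (C0 al : ℝ) (i : ℕ) : Prm where
  ρ0 := ρ0
  ℓ := ℓ0 * 10 ^ (8 * i)
  r := 10 ^ 4 * (ℓ0 * 10 ^ (8 * i))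
  R := 10 ^ 8 * (ℓ0 * 10 ^ (8 * i))
  J := J
  L1 := L1
  L3 := L3
  L4 := L4
  D := D
  B := B
  K := K
  C0 := C0
  al := al

theorem exp_neg_le_inv {x : ℝ} (hx : 0 < x) : Real.exp (-x) ≤ 1 / x := by
  rw [Real.exp_neg, one_div]
  apply inv_anti₀ hx
  have := Real.add_one_le_exp x
  linarith

theorem params (ε : ℝ) (hε : 0 < ε) (hε1 : ε ≤ 1) (ρ0 k : ℕ) :
    ∃ (P : ℕ → Prm) (ε2 ε3 : ℝ) (n1 : ℕ),
      (∀ i, (P i).ρ0 = ρ0) ∧ (∀ i, 0 < (P i).D) ∧ (∀ i, (P i).ℓ ≤ (P i).R) ∧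
      (∀ i, (P i).R ≤ (P (i + 1)).ℓ) ∧
      (∀ i, i < k → 0 ≤ (P i).C0 ∧ 0 ≤ (P i).al ∧ (P i).r ≤ tau ((P i).J + 1)) ∧
      ∀ n : ℕ, n1 ≤ n → ∀ i, i < k →
        POK (P i) n ⌊ε2 * n⌋₊ ∧ 0 < ⌊ε2 * n⌋₊ ∧
        1800 * (P i).J * (⌊ε2 * n⌋₊ : ℝ) / n ≤ (1 : ℝ) / 1000 ∧
        1000 * (⌊ε2 * n⌋₊ : ℝ) * (P i).L3 / n ≤ (1 : ℝ) / 1000 ∧
        2000 * Real.exp (-((⌊ε3 * n⌋₊ : ℝ) * (P i).L3 / n)) ≤ (1 : ℝ) / 1000 ∧
        4 * (P i).r * Real.exp (-((⌊ε2 * n⌋₊ : ℝ) * (P i).D / n)) ≤ (1 : ℝ) / 1000 ∧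
        6 * (P i).R * (P i).J * (P i).L1 * n / ((⌊ε2 * n⌋₊ : ℝ) * (P i).D) ≤ (1 : ℝ) / 1000 ∧
        (⌊ε3 * n⌋₊ : ℝ) + (⌊ε2 * n⌋₊ : ℝ) *
          (1 + (P i).J * (((P i).L1 + 1) * ((P i).L1 + 3))) ≤ ε / 2 * n := by
  -- ε3, L3
  obtain ⟨ε3, hε3⟩ : ∃ ε3 : ℝ, ε3 = ε / 8 := ⟨_, rfl⟩
  have hε3p : 0 < ε3 := by rw [hε3]; positivity
  obtain ⟨L3, hL3⟩ : ∃ L3 : ℕ, 4 * 10 ^ 6 / ε3 ≤ (L3 : ℝ) := exists_nat_ge _
  obtain ⟨P', hP'⟩ : ∃ P' : ℕ, P' = ρ0 * L3 + ρ0 + 1 := ⟨_, rfl⟩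
  obtain ⟨ℓ0, hℓ0⟩ : ∃ ℓ0 : ℕ, ℓ0 = 1000 * P' := ⟨_, rfl⟩
  have hℓ0p : 1 ≤ ℓ0 := by omega
  have hℓ0ρ : 1000 * ρ0 ≤ ℓ0 := by omega
  have hℓ0L : ρ0 * L3 ≤ ℓ0 := by omega
  obtain ⟨Rm, hRm⟩ : ∃ Rm : ℕ, Rm = ℓ0 * 10 ^ (8 * k) := ⟨_, rfl⟩
  obtain ⟨J, hJ1, hJ⟩ := tau_unbounded Rm
  obtain ⟨τ, hτ⟩ : ∃ τ : ℕ, τ = tau (J + 1) := ⟨_, rfl⟩
  rw [← hτ] at hJ
  obtain ⟨L1, hL1⟩ : ∃ L1 : ℕ, L1 = J * τ := ⟨_, rfl⟩
  obtain ⟨L4, hL4⟩ : ∃ L4 : ℕ, L4 = L3 + Rm := ⟨_, rfl⟩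
  obtain ⟨X, hX⟩ : ∃ X : ℝ, X = (1 + J) * (L1 + 3) ^ 2 * (L3 + 1) * (Rm + 1) := ⟨_, rfl⟩
  have hJ0 : (0 : ℝ) ≤ J := Nat.cast_nonneg _
  have hL10 : (0 : ℝ) ≤ L1 := Nat.cast_nonneg _
  have hL30 : (0 : ℝ) ≤ L3 := Nat.cast_nonneg _
  have hRm0 : (0 : ℝ) ≤ Rm := Nat.cast_nonneg _
  have a1 : (1 : ℝ) ≤ (1 + J) := by linarith
  have a2 : (1 : ℝ) ≤ (L1 + 3) ^ 2 := by nlinarith
  have a3 : (1 : ℝ) ≤ (L3 + 1) := by linarith
  have a4 : (1 : ℝ) ≤ (Rm + 1) := by linarith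
  have b12 : (1 : ℝ) ≤ (1 + J) * (L1 + 3) ^ 2 := one_le_mul_of_one_le_of_one_le a1 a2
  have b123 : (1 : ℝ) ≤ (1 + J) * (L1 + 3) ^ 2 * (L3 + 1) := one_le_mul_of_one_le_of_one_le b12 a3
  have hX1 : (1 : ℝ) ≤ X := by rw [hX]; exact one_le_mul_of_one_le_of_one_le b123 a4
  have hX12 : (1 + J) * (L1 + 3) ^ 2 ≤ X := by
    have e1 : X = ((1 + J) * (L1 + 3) ^ 2) * ((L3 + 1) * (Rm + 1)) := by rw [hX]; ring
    rw [e1]
    exact le_mul_of_one_le_right (by linarith) (one_le_mul_of_one_le_of_one_le a3 a4)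
  have hXJ : (J : ℝ) ≤ X := by
    have e1 : (1 + J : ℝ) ≤ (1 + J) * (L1 + 3) ^ 2 := le_mul_of_one_le_right (by linarith) a2
    linarith
  have hXL3 : (L3 : ℝ) ≤ X := by
    have e1 : X = (L3 + 1 : ℝ) * (((1 + J) * (L1 + 3) ^ 2) * (Rm + 1)) := by rw [hX]; ring
    have e2 : (L3 + 1 : ℝ) ≤ (L3 + 1 : ℝ) * (((1 + J) * (L1 + 3) ^ 2) * (Rm + 1)) :=
      le_mul_of_one_le_right (by linarith) (one_le_mul_of_one_le_of_one_le b12 a4)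
    linarith
  have hXRm : (Rm : ℝ) ≤ X := by
    have e2 : (Rm + 1 : ℝ) ≤ ((1 + J) * (L1 + 3) ^ 2 * (L3 + 1)) * (Rm + 1) :=
      le_mul_of_one_le_left (by linarith) b123
    linarith
  obtain ⟨ε2, hε2⟩ : ∃ ε2 : ℝ, ε2 = ε / (8 * 10 ^ 6 * X) := ⟨_, rfl⟩
  have hXp : 0 < X := by linarith
  have hε2p : 0 < ε2 := by rw [hε2]; positivity
  have hε2X : ε2 * X = ε / (8 * 10 ^ 6) := by
    rw [hε2]; field_simp
  have hε2X' : ε2 * X ≤ 1 / (8 * 10 ^ 6) := by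
    rw [hε2X]; apply div_le_div_of_nonneg_right hε1; positivity
  obtain ⟨Y, hY⟩ : ∃ Y : ℝ, Y = (Rm + 1) * (J + 1) * (L1 + 1) := ⟨_, rfl⟩
  have hY1 : (1 : ℝ) ≤ Y := by
    rw [hY]
    have h1 : (1 : ℝ) ≤ J + 1 := by linarith
    have h2 : (1 : ℝ) ≤ L1 + 1 := by linarith
    exact one_le_mul_of_one_le_of_one_le (one_le_mul_of_one_le_of_one_le a4 h1) h2
  obtain ⟨D, hD⟩ : ∃ D : ℕ, 20000 * Y / ε2 ≤ (D : ℝ) := exists_nat_ge _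
  have hDp : 0 < D := by
    have h1 : (0 : ℝ) < 20000 * Y / ε2 := by positivity
    have h2 : (0 : ℝ) < D := lt_of_lt_of_le h1 hD
    exact_mod_cast h2
  obtain ⟨C0, hC0⟩ : ∃ C0 : ℝ, C0 = Rm * (L4 + 1) := ⟨_, rfl⟩
  have hC0p : 0 ≤ C0 := by rw [hC0]; positivity
  obtain ⟨G, hG⟩ : ∃ G : ℝ, G = ((τ : ℝ) + 2 * C0 * 2 ^ (((J + 1) * D + 1) ^ L4)) ^ 2 := ⟨_, rfl⟩
  have hτ4 : 4 ≤ τ := by rw [hτ]; exact tau_pos _
  have hτ4' : (4 : ℝ) ≤ τ := by exact_mod_cast hτ4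
  have hGp : 0 < G := by
    rw [hG]
    have : 0 < (τ : ℝ) + 2 * C0 * 2 ^ (((J + 1) * D + 1) ^ L4) := by positivity
    positivity
  obtain ⟨al, hal⟩ : ∃ al : ℝ, al = 2 / ((((J + 1) * D : ℕ) + 1 : ℝ) * G) := ⟨_, rfl⟩
  have hD1 : (0 : ℝ) < (((J + 1) * D : ℕ) + 1 : ℝ) := by positivity
  have halp : 0 < al := by rw [hal]; positivity
  obtain ⟨K, hK⟩ : ∃ K : ℕ, 5 / (2 * al) ≤ (K : ℝ) := exists_nat_ge _
  obtain ⟨n2, hn2⟩ : ∃ n2 : ℕ, 2 / ε2 ≤ (n2 : ℝ) := exists_nat_ge _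
  obtain ⟨n3, hn3⟩ : ∃ n3 : ℕ, 2 / ε3 ≤ (n3 : ℝ) := exists_nat_ge _
  refine ⟨Pw ρ0 ℓ0 J L1 L3 L4 D Rm K C0 al, ε2, ε3,
    n2 + n3 + L4 + 2 * L3 + ρ0 * (L3 + 1) + Rm + τ + 3, fun i => rfl, fun i => hDp, ?_, ?_, ?_, ?_⟩
  · intro i
    show ℓ0 * 10 ^ (8 * i) ≤ 10 ^ 8 * (ℓ0 * 10 ^ (8 * i))
    exact Nat.le_mul_of_pos_left _ (by norm_num)
  · intro i
    show 10 ^ 8 * (ℓ0 * 10 ^ (8 * i)) ≤ ℓ0 * 10 ^ (8 * (i + 1))
    rw [show 8 * (i + 1) = 8 * i + 8 by ring, pow_add]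
    apply le_of_eq; ring
  · intro i hi
    refine ⟨hC0p, halp.le, ?_⟩
    show 10 ^ 4 * (ℓ0 * 10 ^ (8 * i)) ≤ tau (J + 1)
    rw [← hτ]
    refine le_trans ?_ hJ
    rw [hRm]
    calc 10 ^ 4 * (ℓ0 * 10 ^ (8 * i)) ≤ 10 ^ 8 * (ℓ0 * 10 ^ (8 * i)) :=
          Nat.mul_le_mul_right _ (by norm_num)
      _ = ℓ0 * 10 ^ (8 * (i + 1)) := by
          rw [show 8 * (i + 1) = 8 * i + 8 by ring, pow_add]; ring
      _ ≤ ℓ0 * 10 ^ (8 * k) := Nat.mul_le_mul_left _ (Nat.pow_le_pow_right (by norm_num) (by omega))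
  · intro n hn i hi
    have hRi : 10 ^ 8 * (ℓ0 * 10 ^ (8 * i)) ≤ Rm := by
      rw [hRm]
      calc 10 ^ 8 * (ℓ0 * 10 ^ (8 * i)) = ℓ0 * 10 ^ (8 * (i + 1)) := by
            rw [show 8 * (i + 1) = 8 * i + 8 by ring, pow_add]; ring
        _ ≤ ℓ0 * 10 ^ (8 * k) := Nat.mul_le_mul_left _ (Nat.pow_le_pow_right (by norm_num) (by omega))
    have hℓi : ℓ0 * 10 ^ (8 * i) ≤ Rm :=
      le_trans (Nat.le_mul_of_pos_left _ (by norm_num)) hRi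
    have hri : 10 ^ 4 * (ℓ0 * 10 ^ (8 * i)) ≤ Rm :=
      le_trans (Nat.mul_le_mul_right _ (by norm_num)) hRi
    have hℓ0i : ℓ0 ≤ ℓ0 * 10 ^ (8 * i) := Nat.le_mul_of_pos_right _ (by positivity)
    have hnR : (0 : ℝ) < n := by
      have : 0 < n := by omega
      exact_mod_cast this
    have hn2' : 2 / ε2 ≤ (n : ℝ) := by
      refine hn2.trans ?_
      have : n2 ≤ n := by omega
      exact_mod_cast this
    have hn3' : 2 / ε3 ≤ (n : ℝ) := by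
      refine hn3.trans ?_
      have : n3 ≤ n := by omega
      exact_mod_cast this
    obtain ⟨M, hM⟩ : ∃ M : ℕ, M = ⌊ε2 * n⌋₊ := ⟨_, rfl⟩
    obtain ⟨M3, hM3⟩ : ∃ M3 : ℕ, M3 = ⌊ε3 * n⌋₊ := ⟨_, rfl⟩
    rw [← hM, ← hM3]
    have hMle : (M : ℝ) ≤ ε2 * n := by rw [hM]; exact Nat.floor_le (by positivity)
    have hM3le : (M3 : ℝ) ≤ ε3 * n := by rw [hM3]; exact Nat.floor_le (by positivity)
    have h2n : 2 ≤ ε2 * n := by
      rw [div_le_iff₀ hε2p] at hn2'; linarith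
    have h3n : 2 ≤ ε3 * n := by
      rw [div_le_iff₀ hε3p] at hn3'; linarith
    have hMge : ε2 * n / 2 ≤ M := by
      have := Nat.lt_floor_add_one (ε2 * n)
      rw [← hM] at this
      linarith
    have hM3ge : ε3 * n / 2 ≤ M3 := by
      have := Nat.lt_floor_add_one (ε3 * n)
      rw [← hM3] at this
      linarith
    have hMpos : (0 : ℝ) < M := by linarith
    have hMposN : 0 < M := by exact_mod_cast hMpos
    have hMX : (M : ℝ) * X ≤ n / (8 * 10 ^ 6) := by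
      calc (M : ℝ) * X ≤ ε2 * n * X := mul_le_mul_of_nonneg_right hMle hXp.le
        _ = ε2 * X * n := by ring
        _ ≤ 1 / (8 * 10 ^ 6) * n := mul_le_mul_of_nonneg_right hε2X' hnR.le
        _ = n / (8 * 10 ^ 6) := by ring
    have hMX' : (M : ℝ) * X ≤ ε * n / (8 * 10 ^ 6) := by
      calc (M : ℝ) * X ≤ ε2 * n * X := mul_le_mul_of_nonneg_right hMle hXp.le
        _ = ε2 * X * n := by ring
        _ = ε * n / (8 * 10 ^ 6) := by rw [hε2X]; ring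
    have hMDn : 10000 * Y ≤ (M : ℝ) * D / n := by
      rw [le_div_iff₀ hnR]
      have h1 : 20000 * Y ≤ D * ε2 := by rwa [div_le_iff₀ hε2p] at hD
      calc 10000 * Y * n = (20000 * Y) * (n / 2) := by ring
        _ ≤ (D * ε2) * (n / 2) := mul_le_mul_of_nonneg_right h1 (by positivity)
        _ = (ε2 * n / 2) * D := by ring
        _ ≤ M * D := mul_le_mul_of_nonneg_right hMge (Nat.cast_nonneg _)
    refine ⟨?_, hMposN, ?_, ?_, ?_, ?_, ?_, ?_⟩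
    · refine ⟨?_, ?_, ?_, ?_, ?_, ?_, ?_, ?_, ?_, ?_, ?_, ?_, ?_, ?_, ?_, ?_, ?_, ?_, ?_, ?_, ?_, ?_⟩
      · show ρ0 ≤ ℓ0 * 10 ^ (8 * i)
        refine le_trans ?_ hℓ0i
        omega
      · show 1 ≤ ℓ0 * 10 ^ (8 * i)
        exact le_trans hℓ0p hℓ0i
      · show 10 ^ 4 * (ℓ0 * 10 ^ (8 * i)) ≤ 10 ^ 4 * (ℓ0 * 10 ^ (8 * i))
        exact le_refl _
      · show 4000 * ρ0 * L3 ≤ 10 ^ 4 * (ℓ0 * 10 ^ (8 * i))
        refine le_trans ?_ (Nat.mul_le_mul_left _ hℓ0i)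
        rw [mul_assoc]
        exact Nat.mul_le_mul (by norm_num) hℓ0L
      · show 10 ^ 4 * (10 ^ 4 * (ℓ0 * 10 ^ (8 * i))) ≤ 10 ^ 8 * (ℓ0 * 10 ^ (8 * i))
        rw [← mul_assoc]
        exact Nat.mul_le_mul_right _ (by norm_num)
      · show 10 ^ 11 * ρ0 ≤ 10 ^ 8 * (ℓ0 * 10 ^ (8 * i))
        refine le_trans ?_ (Nat.mul_le_mul_left _ hℓ0i)
        calc 10 ^ 11 * ρ0 = 10 ^ 8 * (1000 * ρ0) := by ring
          _ ≤ 10 ^ 8 * ℓ0 := Nat.mul_le_mul_left _ hℓ0ρ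
      · show 10 ^ 8 * (ℓ0 * 10 ^ (8 * i)) ≤ tau (J + 1)
        rw [← hτ]; exact le_trans hRi hJ
      · exact hRi
      · show L3 ≤ L4
        omega
      · show ℓ0 * 10 ^ (8 * i) ≤ L4
        omega
      · show J * tau (J + 1) ≤ L1
        rw [← hτ, hL1]
      · show ((ℓ0 * 10 ^ (8 * i) : ℕ) : ℝ) * (L4 + 1) ≤ C0
        rw [hC0]
        apply mul_le_mul_of_nonneg_right _ (by positivity)
        exact_mod_cast hℓi
      · exact halp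
      · show al * ((((J + 1) * D : ℕ) + 1 : ℝ) *
          ((tau (J + 1) : ℝ) + 2 * C0 * 2 ^ (((J + 1) * D + 1) ^ L4)) ^ 2) ≤ 2
        rw [← hτ, ← hG, hal]
        rw [div_mul_cancel₀]
        positivity
      · show 5 ≤ 2 * al * K
        rw [div_le_iff₀ (by positivity)] at hK
        linarith
      · omega
      · show L4 < n
        omega
      · show 2 * L3 < n
        omega
      · show ρ0 * (L3 + 1) ≤ n
        omega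
      · show ℓ0 * 10 ^ (8 * i) ≤ n
        omega
      · show tau (J + 1) ≤ n
        rw [← hτ]; omega
      · show M * (ℓ0 * 10 ^ (8 * i)) ≤ n
        have h1 : (M : ℝ) * (ℓ0 * 10 ^ (8 * i) : ℕ) ≤ n := by
          calc (M : ℝ) * (ℓ0 * 10 ^ (8 * i) : ℕ) ≤ M * X := by
                apply mul_le_mul_of_nonneg_left _ hMpos.le
                refine le_trans ?_ hXRm
                exact_mod_cast hℓi
            _ ≤ n / (8 * 10 ^ 6) := hMX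
            _ ≤ n := by
                rw [div_le_iff₀ (by norm_num)]
                linarith
        exact_mod_cast h1
    · show 1800 * (J : ℝ) * M / n ≤ 1 / 1000
      rw [div_le_div_iff₀ hnR (by norm_num)]
      have : (M : ℝ) * J ≤ n / (8 * 10 ^ 6) :=
        (mul_le_mul_of_nonneg_left hXJ hMpos.le).trans hMX
      rw [le_div_iff₀ (by norm_num)] at this
      linarith
    · show 1000 * (M : ℝ) * L3 / n ≤ 1 / 1000
      rw [div_le_div_iff₀ hnR (by norm_num)]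
      have : (M : ℝ) * L3 ≤ n / (8 * 10 ^ 6) :=
        (mul_le_mul_of_nonneg_left hXL3 hMpos.le).trans hMX
      rw [le_div_iff₀ (by norm_num)] at this
      linarith
    · show 2000 * Real.exp (-((M3 : ℝ) * L3 / n)) ≤ 1 / 1000
      have h1 : 2 * 10 ^ 6 ≤ (M3 : ℝ) * L3 / n := by
        rw [le_div_iff₀ hnR]
        have h2 : 4 * 10 ^ 6 ≤ L3 * ε3 := by rwa [div_le_iff₀ hε3p] at hL3
        calc 2 * 10 ^ 6 * (n : ℝ) = (4 * 10 ^ 6) * (n / 2) := by ring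
          _ ≤ (L3 * ε3) * (n / 2) := mul_le_mul_of_nonneg_right h2 (by positivity)
          _ = (ε3 * n / 2) * L3 := by ring
          _ ≤ M3 * L3 := mul_le_mul_of_nonneg_right hM3ge (Nat.cast_nonneg _)
      have h2 : 0 < (M3 : ℝ) * L3 / n := by linarith
      have h3 := exp_neg_le_inv h2
      have h4 : 1 / ((M3 : ℝ) * L3 / n) ≤ 1 / (2 * 10 ^ 6) :=
        one_div_le_one_div_of_le (by norm_num) h1
      have h5 := h3.trans h4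
      linarith
    · show 4 * ((10 ^ 4 * (ℓ0 * 10 ^ (8 * i)) : ℕ) : ℝ) * Real.exp (-((M : ℝ) * D / n)) ≤ 1 / 1000
      have h0 : ((10 ^ 4 * (ℓ0 * 10 ^ (8 * i)) : ℕ) : ℝ) ≤ Rm := by exact_mod_cast hri
      have hYR : (Rm : ℝ) + 1 ≤ Y := by
        rw [hY, mul_assoc]
        have h1 : (1 : ℝ) ≤ J + 1 := by linarith
        have h2 : (1 : ℝ) ≤ L1 + 1 := by linarith
        have h3 := one_le_mul_of_one_le_of_one_le h1 h2
        exact le_mul_of_one_le_right (by linarith) h3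
      have h2 : 0 < (M : ℝ) * D / n := by linarith
      have h3 := exp_neg_le_inv h2
      have h4 : 1 / ((M : ℝ) * D / n) ≤ 1 / (10000 * Y) :=
        one_div_le_one_div_of_le (by linarith) hMDn
      have h5 := h3.trans h4
      calc 4 * ((10 ^ 4 * (ℓ0 * 10 ^ (8 * i)) : ℕ) : ℝ) * Real.exp (-((M : ℝ) * D / n)) ≤
            4 * Rm * (1 / (10000 * Y)) :=
            mul_le_mul (by linarith) h5 (Real.exp_pos _).le (by positivity)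
        _ ≤ 4 * Y * (1 / (10000 * Y)) := by
            apply mul_le_mul_of_nonneg_right (by linarith)
            positivity
        _ = 4 / 10000 := by field_simp
        _ ≤ 1 / 1000 := by norm_num
    · show 6 * ((10 ^ 8 * (ℓ0 * 10 ^ (8 * i)) : ℕ) : ℝ) * J * L1 * n / ((M : ℝ) * D) ≤ 1 / 1000
      have h0 : ((10 ^ 8 * (ℓ0 * 10 ^ (8 * i)) : ℕ) : ℝ) ≤ Rm := by exact_mod_cast hRi
      have hDR : (0 : ℝ) < D := by exact_mod_cast hDp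
      rw [div_le_div_iff₀ (by positivity) (by norm_num)]
      have h1 : 10000 * Y * n ≤ (M : ℝ) * D := by rwa [le_div_iff₀ hnR] at hMDn
      have h2 : ((10 ^ 8 * (ℓ0 * 10 ^ (8 * i)) : ℕ) : ℝ) * J * L1 ≤ Y := by
        rw [hY]
        apply mul_le_mul _ (by linarith) hL10 (by positivity)
        apply mul_le_mul (by linarith) (by linarith) hJ0 (by positivity)
      have h3 : ((10 ^ 8 * (ℓ0 * 10 ^ (8 * i)) : ℕ) : ℝ) * J * L1 * n ≤ Y * n :=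
        mul_le_mul_of_nonneg_right h2 hnR.le
      have h4 : 6 * ((10 ^ 8 * (ℓ0 * 10 ^ (8 * i)) : ℕ) : ℝ) * J * L1 * n * 1000 =
        6000 * (((10 ^ 8 * (ℓ0 * 10 ^ (8 * i)) : ℕ) : ℝ) * J * L1 * n) := by ring
      rw [h4]
      have h6 : 6000 * (((10 ^ 8 * (ℓ0 * 10 ^ (8 * i)) : ℕ) : ℝ) * J * L1 * n) ≤ 6000 * (Y * n) :=
        mul_le_mul_of_nonneg_left h3 (by norm_num)
      have h7 : 0 ≤ Y * n := by positivity
      linarith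
    · show (M3 : ℝ) + (M : ℝ) * (1 + J * ((L1 + 1) * (L1 + 3))) ≤ ε / 2 * n
      have h1 : (1 + J * ((L1 + 1) * (L1 + 3)) : ℝ) ≤ X := by
        refine le_trans ?_ hX12
        have e1 : ((L1 : ℝ) + 1) * (L1 + 3) ≤ (L1 + 3) ^ 2 := by
          rw [sq]
          exact mul_le_mul_of_nonneg_right (by linarith) (by linarith)
        have e2 : (J : ℝ) * ((L1 + 1) * (L1 + 3)) ≤ J * (L1 + 3) ^ 2 :=
          mul_le_mul_of_nonneg_left e1 hJ0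
        have e3 : (1 + J : ℝ) * (L1 + 3) ^ 2 = (L1 + 3) ^ 2 + J * (L1 + 3) ^ 2 := by ring
        rw [e3]
        exact add_le_add a2 e2
      have h2 : (M : ℝ) * (1 + J * ((L1 + 1) * (L1 + 3))) ≤ ε * n / (8 * 10 ^ 6) :=
        (mul_le_mul_of_nonneg_left h1 hMpos.le).trans hMX'
      have h3 : ε * n / (8 * 10 ^ 6) ≤ ε * n / 8 := by
        apply div_le_div_of_nonneg_left (by positivity) (by norm_num) (by norm_num)
      have h4 : (M3 : ℝ) ≤ ε * n / 8 := by rw [hε3] at hM3le; linarith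
      have h5 : 0 ≤ ε * n := by positivity
      linarith

end H82.TQ
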