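import Pool.Agent.H82.TQ.K1

/-!
# TQ K2: the core theorem
-/

set_option autoImplicit false

open Finset Classical

namespace H82.TQ

theorem core (ε : ℝ) (hε : 0 < ε) (hε1 : ε ≤ 1) (ρ0 : ℕ) :
    ∃ n0 : ℕ, ∀ n, n0 ≤ n → ∃ (Ω : Type) (_ : Fintype Ω) (_ : Nonempty Ω)
      (Out : Ω → Finset (Fin n) → (Fin n → Fin n → ℕ) → ℝ × Bool),
      (∀ ω N, Comp (NMet (V := Fin n)) (Out ω N) (2 * N.card + ⌊ε * n⌋₊)) ∧
      ∀ (d : Fin n → Fin n → ℕ), NMet d → ∀ (T : MTree d) (N : Finset (Fin n)),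
        (∀ v, ∃ a ∈ N, d v a ≤ ρ0) → (10 : ℝ) ^ 12 * n ≤ T.w →
        pr (fun ω : Ω => ¬ Good T (Out ω N d)) ≤ 1 / 3 := by
  obtain ⟨k, hk⟩ : ∃ k : ℕ, k = 6000 := ⟨_, rfl⟩
  obtain ⟨P, ε2, ε3, n1, hρ, hD, hℓR, hRℓ, hC, hpar⟩ := params ε hε hε1 ρ0 k
  choose Q hQ using fun i => comp_out (P i)
  have hsamp : ∀ i, ∃ m1 : ℕ, i < k → 0 < m1 ∧ ∀ m0, m1 ≤ m0 → ∀ n, 0 < n → ∀ (M : ℕ)
      (ω1 : Fin M → Fin n) (d : Fin n → Fin n → ℕ), NMet d →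
      pr (fun ω4 : Fin m0 → Fin n => ¬ SampOK (P i) ω1 ω4 d) ≤ 1 / 100 := by
    intro i
    by_cases hi : i < k
    · obtain ⟨h1, h2, h3⟩ := hC i hi
      obtain ⟨m1, hm1⟩ := sampling (P i) h1 h2 h3
      exact ⟨m1, fun _ => hm1⟩
    · exact ⟨0, fun h => absurd h hi⟩
  choose m1 hm1 using hsamp
  obtain ⟨m0, hm0⟩ : ∃ m0 : ℕ, m0 = ∑ i ∈ range k, m1 i := ⟨_, rfl⟩
  obtain ⟨Qm, hQm⟩ : ∃ Qm : ℕ, Qm = ∑ i ∈ range k, Q i := ⟨_, rfl⟩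
  have hm1le : ∀ i, i < k → m1 i ≤ m0 := by
    intro i hi
    rw [hm0]
    exact single_le_sum (f := m1) (fun _ _ => Nat.zero_le _) (mem_range.2 hi)
  have hQle : ∀ i, i < k → Q i ≤ Qm := by
    intro i hi
    rw [hQm]
    exact single_le_sum (f := Q) (fun _ _ => Nat.zero_le _) (mem_range.2 hi)
  obtain ⟨n4, hn4⟩ : ∃ n4 : ℕ, (m0 * Qm : ℝ) / (ε / 2) ≤ (n4 : ℝ) := exists_nat_ge _
  refine ⟨n1 + n4 + 1, fun n hn => ?_⟩
  have hn0 : 0 < n := by omega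
  have : Nonempty (Fin n) := ⟨⟨0, hn0⟩⟩
  have hk0 : 0 < k := by omega
  have : Nonempty (Fin k) := ⟨⟨0, hk0⟩⟩
  obtain ⟨M, hM⟩ : ∃ M : ℕ, M = ⌊ε2 * n⌋₊ := ⟨_, rfl⟩
  obtain ⟨M3, hM3⟩ : ∃ M3 : ℕ, M3 = ⌊ε3 * n⌋₊ := ⟨_, rfl⟩
  have hpar' := hpar n (by omega)
  rw [← hM, ← hM3] at hpar'
  refine ⟨Fin k × ((Fin M → Fin n) × ((Fin M3 → Fin n) × (Fin m0 → Fin n))), inferInstance,
    inferInstance, fun ω N d => out (P ω.1) ω.2.1 ω.2.2.1 ω.2.2.2 N d, ?_, ?_⟩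
  · rintro ⟨i, ω1, ω3, ω4⟩ N
    obtain ⟨-, -, -, -, -, -, -, hcost⟩ := hpar' i i.2
    refine comp_mono (hQ i n M M3 m0 ω1 ω3 ω4 N) ?_
    have h1 : (M3 + M * (1 + (P i).J * (((P i).L1 + 1) * ((P i).L1 + 3))) + m0 * Q i : ℕ) ≤ ⌊ε * n⌋₊ := by
      apply Nat.le_floor
      have h2 : (m0 : ℝ) * Q i ≤ ε / 2 * n := by
        have h3 : (Q i : ℝ) ≤ Qm := by exact_mod_cast hQle i i.2
        have h4 : (m0 * Qm : ℝ) ≤ n4 * (ε / 2) := by rwa [div_le_iff₀ (by positivity)] at hn4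
        have h5 : (n4 : ℝ) ≤ n := by
          have : n4 ≤ n := by omega
          exact_mod_cast this
        calc (m0 : ℝ) * Q i ≤ m0 * Qm := mul_le_mul_of_nonneg_left h3 (Nat.cast_nonneg _)
          _ ≤ n4 * (ε / 2) := h4
          _ ≤ n * (ε / 2) := mul_le_mul_of_nonneg_right h5 (by positivity)
          _ = ε / 2 * n := by ring
      push_cast
      linarith
    omega
  · intro d hd T N hN hw
    let bad : Fin k → Prop := fun i => (T.wle (P i).ℓ : ℝ) + 1 / 200 * T.w < T.wle (P i).R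
    have hbad : pr bad ≤ 1 / 30 := by
      have h1 := windows T k (fun i => (P i).ℓ) (fun i => (P i).R) hℓR hRℓ
      unfold pr
      rw [Fintype.card_fin, div_le_iff₀ (by exact_mod_cast hk0)]
      have h2 : (k : ℝ) = 6000 := by rw [hk]; norm_num
      rw [h2]
      refine h1.trans ?_
      norm_num
    have hfib : pr (fun ω : Fin k × ((Fin M → Fin n) × ((Fin M3 → Fin n) × (Fin m0 → Fin n))) =>
        ¬ bad ω.1 ∧ ¬ Good T (out (P ω.1) ω.2.1 ω.2.2.1 ω.2.2.2 N d)) ≤ 1 / 20 := by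
      apply pr_fiber (fun (i : Fin k) (x : (Fin M → Fin n) × ((Fin M3 → Fin n) × (Fin m0 → Fin n))) =>
        ¬ bad i ∧ ¬ Good T (out (P i) x.1 x.2.1 x.2.2 N d))
      · norm_num
      · intro i
        by_cases hb : bad i
        · have : pr (fun x : (Fin M → Fin n) × ((Fin M3 → Fin n) × (Fin m0 → Fin n)) =>
              ¬ bad i ∧ ¬ Good T (out (P i) x.1 x.2.1 x.2.2 N d)) ≤
              pr (fun _ : (Fin M → Fin n) × ((Fin M3 → Fin n) × (Fin m0 → Fin n)) => False) :=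
            pr_mono (fun x hx => hx.1 hb)
          rw [pr_false'] at this
          linarith
        · obtain ⟨hpok, hMp, e1, e2, e3, e4, e5, -⟩ := hpar' i i.2
          have hN' : ∀ v, ∃ a ∈ N, d v a ≤ (P i).ρ0 := by rw [hρ]; exact hN
          have := window_prob (P i) (M3 := M3) (m0 := m0) hpok hMp (hD i) hd T N hN' hw
            (fun ω1 => (hm1 i i.2).2 m0 (hm1le i i.2) n hn0 M ω1 d hd) e1 e2 e3 e4 e5 (not_lt.1 hb)
          exact (pr_mono (fun x hx => hx.2)).trans this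
    have hfst : pr (fun ω : Fin k × ((Fin M → Fin n) × ((Fin M3 → Fin n) × (Fin m0 → Fin n))) =>
        bad ω.1) ≤ 1 / 30 := by
      rw [pr_fst]; exact hbad
    have hall : ∀ ω : Fin k × ((Fin M → Fin n) × ((Fin M3 → Fin n) × (Fin m0 → Fin n))),
        ¬ Good T (out (P ω.1) ω.2.1 ω.2.2.1 ω.2.2.2 N d) →
        bad ω.1 ∨ (¬ bad ω.1 ∧ ¬ Good T (out (P ω.1) ω.2.1 ω.2.2.1 ω.2.2.2 N d)) := by
      intro ω hω
      by_cases hb : bad ω.1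
      · exact Or.inl hb
      · exact Or.inr ⟨hb, hω⟩
    calc pr (fun ω : Fin k × ((Fin M → Fin n) × ((Fin M3 → Fin n) × (Fin m0 → Fin n))) =>
          ¬ Good T (out (P ω.1) ω.2.1 ω.2.2.1 ω.2.2.2 N d)) ≤
        pr (fun ω : Fin k × ((Fin M → Fin n) × ((Fin M3 → Fin n) × (Fin m0 → Fin n))) =>
          bad ω.1 ∨ (¬ bad ω.1 ∧ ¬ Good T (out (P ω.1) ω.2.1 ω.2.2.1 ω.2.2.2 N d))) := pr_mono hall
      _ ≤ 1 / 30 + 1 / 20 := (pr_or _ _).trans (add_le_add hfst hfib)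
      _ ≤ 1 / 3 := by norm_num

end H82.TQ
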