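import Pool.Agent.H82.TQ.K2
import Pool.Agent.H82.TQ.A1
import Pool.Agent.H82.TQ.A3
import Pool.Agent.H82.TQ.B3
import Pool.Agent.H82.TQ.I1
import Pool.Agent.H82.TQ.J1

/-!
# TQ K3: from the core theorem to algorithms for real metrics
-/

set_option autoImplicit false

open Finset Classical

namespace H82.TQ

/-- final output from the estimate, the decision and the unit of length -/
noncomputable def fin (u0 : ℝ) (o : ℝ × Bool) : ℝ :=
  if o.2 then u0 * ((2 - 1 / 10 ^ 8) * o.1 / (1 - 1 / 10 ^ 10)) else u0 * (2 * o.1 / (1 - 1 / 10 ^ 10))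

theorem fin_good {n : ℕ} (d : Fin n → Fin n → ℝ) (hd : RMet d) (u0 : ℝ) (h0 : 0 < u0)
    (T : MTree (fun u v : Fin n => ⌈d u v / u0⌉₊)) (hw : (10 : ℝ) ^ 12 * n ≤ T.w) (o : ℝ × Bool)
    (ho : Good T o) : opt d ≤ fin u0 o ∧ fin u0 o ≤ (2 - 1 / 10 ^ 9) * opt d := by
  have hdm : NMet (fun u v : Fin n => ⌈d u v / u0⌉₊) := rnd_met d hd u0 h0
  have hub : ∀ nx : Equiv.Perm (Fin n), ∑ v, d v (nx v) ≤
      u0 * (tcost (fun u v : Fin n => ⌈d u v / u0⌉₊) nx : ℕ) := by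
    intro nx
    unfold tcost
    push_cast
    rw [mul_sum]
    exact sum_le_sum (fun v _ => (rnd_bounds d hd u0 h0 v (nx v)).1)
  have hlb : ∀ nx : Equiv.Perm (Fin n),
      u0 * (tcost (fun u v : Fin n => ⌈d u v / u0⌉₊) nx : ℕ) ≤ ∑ v, d v (nx v) + n * u0 := by
    intro nx
    unfold tcost
    push_cast
    rw [mul_sum]
    calc ∑ v, u0 * (⌈d v (nx v) / u0⌉₊ : ℝ) ≤ ∑ v, (d v (nx v) + u0) :=
          sum_le_sum (fun v _ => (rnd_bounds d hd u0 h0 v (nx v)).2)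
      _ = ∑ v, d v (nx v) + n * u0 := by
          rw [sum_add_distrib]
          simp
  obtain ⟨nx0, hnx0, hopt⟩ := opt_attained d
  have hwlb : u0 * T.w ≤ opt d + n * u0 := by
    have h1 : (T.w : ℝ) ≤ (tcost (fun u v : Fin n => ⌈d u v / u0⌉₊) nx0 : ℕ) := by
      exact_mod_cast w_le_tcost hdm T nx0 hnx0
    calc u0 * (T.w : ℝ) ≤ u0 * (tcost (fun u v : Fin n => ⌈d u v / u0⌉₊) nx0 : ℕ) :=
          mul_le_mul_of_nonneg_left h1 h0.le
      _ ≤ ∑ v, d v (nx0 v) + n * u0 := hlb nx0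
      _ = opt d + n * u0 := by rw [hopt]
  have hn : (n : ℝ) * u0 ≤ 1 / 10 ^ 12 * (u0 * T.w) := by
    have : (n : ℝ) ≤ 1 / 10 ^ 12 * T.w := by linarith
    calc (n : ℝ) * u0 ≤ (1 / 10 ^ 12 * T.w) * u0 := mul_le_mul_of_nonneg_right this h0.le
      _ = _ := by ring
  obtain ⟨h1, h2, h3⟩ := ho
  obtain ⟨W, hW⟩ : ∃ W : ℝ, W = u0 * T.w := ⟨_, rfl⟩
  have hW0 : 0 ≤ W := by rw [hW]; positivity
  obtain ⟨V, hV⟩ : ∃ V : ℝ, V = u0 * o.1 := ⟨_, rfl⟩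
  rw [abs_le] at h1
  have hV1 : (1 - 1 / 10 ^ 10) * W ≤ V := by
    rw [hW, hV]
    have : (1 - 1 / 10 ^ 10) * (T.w : ℝ) ≤ o.1 := by linarith [h1.1]
    calc (1 - 1 / 10 ^ 10) * (u0 * T.w) = u0 * ((1 - 1 / 10 ^ 10) * (T.w : ℝ)) := by ring
      _ ≤ u0 * o.1 := mul_le_mul_of_nonneg_left this h0.le
  have hV2 : V ≤ (1 + 1 / 10 ^ 10) * W := by
    rw [hW, hV]
    have : o.1 ≤ (1 + 1 / 10 ^ 10) * (T.w : ℝ) := by linarith [h1.2]
    calc u0 * o.1 ≤ u0 * ((1 + 1 / 10 ^ 10) * (T.w : ℝ)) := mul_le_mul_of_nonneg_left this h0.le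
      _ = (1 + 1 / 10 ^ 10) * (u0 * T.w) := by ring
  rw [← hW] at hwlb hn
  by_cases hb : o.2 = true
  · have hno : ¬ NOi T := by
      intro hno
      rw [h2 hno] at hb
      exact absurd hb (by decide)
    unfold NOi at hno
    push Not at hno
    obtain ⟨nx, hnx, hlt⟩ := hno
    have hle : opt d ≤ (2 - 1 / 10 ^ 8) * W := by
      calc opt d ≤ ∑ v, d v (nx v) := opt_le d nx hnx
        _ ≤ u0 * (tcost (fun u v : Fin n => ⌈d u v / u0⌉₊) nx : ℕ) := hub nx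
        _ ≤ u0 * ((2 - 1 / 10 ^ 8) * T.w) := mul_le_mul_of_nonneg_left hlt.le h0.le
        _ = (2 - 1 / 10 ^ 8) * W := by rw [hW]; ring
    have hfin : fin u0 o = (2 - 1 / 10 ^ 8) * V / (1 - 1 / 10 ^ 10) := by
      unfold fin
      rw [if_pos hb, hV]
      ring
    rw [hfin]
    constructor
    · rw [le_div_iff₀ (by norm_num)]
      nlinarith
    · rw [div_le_iff₀ (by norm_num)]
      nlinarith
  · have hb' : o.2 = false := by simpa using hb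
    have hyes : ¬ YESi T := by
      intro hyes
      exact hb (h3 hyes)
    unfold YESi at hyes
    push Not at hyes
    have hge : (1 + 1 / 10 ^ 4) * W ≤ opt d + n * u0 := by
      calc (1 + 1 / 10 ^ 4) * W = u0 * ((1 + 1 / 10 ^ 4) * T.w) := by rw [hW]; ring
        _ ≤ u0 * (tcost (fun u v : Fin n => ⌈d u v / u0⌉₊) nx0 : ℕ) :=
            mul_le_mul_of_nonneg_left (hyes nx0 hnx0).le h0.le
        _ ≤ ∑ v, d v (nx0 v) + n * u0 := hlb nx0
        _ = opt d + n * u0 := by rw [hopt]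
    obtain ⟨nx, hnx, hle2⟩ := exists_tour_two hdm T
    have hle : opt d ≤ 2 * W := by
      have h4 : ((tcost (fun u v : Fin n => ⌈d u v / u0⌉₊) nx : ℕ) : ℝ) ≤ 2 * T.w := by
        exact_mod_cast hle2
      calc opt d ≤ ∑ v, d v (nx v) := opt_le d nx hnx
        _ ≤ u0 * (tcost (fun u v : Fin n => ⌈d u v / u0⌉₊) nx : ℕ) := hub nx
        _ ≤ u0 * (2 * T.w) := mul_le_mul_of_nonneg_left h4 h0.le
        _ = 2 * W := by rw [hW]; ring
    have hfin : fin u0 o = 2 * V / (1 - 1 / 10 ^ 10) := by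
      unfold fin
      rw [hb', hV]
      simp only [Bool.false_eq_true, if_false]
      ring
    rw [hfin]
    constructor
    · rw [le_div_iff₀ (by norm_num)]
      nlinarith
    · rw [div_le_iff₀ (by norm_num)]
      nlinarith

theorem algs (ε : ℝ) (hε : 0 < ε) :
    ∃ n0 : ℕ, ∀ n, n0 ≤ n → ∃ q : ℕ, (q : ℝ) ≤ ε * (n : ℝ) ^ 2 ∧ Alg (1 / 10 ^ 9) n q := by
  obtain ⟨ε', hε', hε'1, hε'ε⟩ : ∃ ε' : ℝ, 0 < ε' ∧ ε' ≤ 1 ∧ ε' ≤ ε :=
    ⟨min ε 1, lt_min hε one_pos, min_le_right _ _, min_le_left _ _⟩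
  obtain ⟨p, hp⟩ : ∃ p : ℝ, p = ε' / 12 := ⟨_, rfl⟩
  have hpp : 0 < p := by rw [hp]; positivity
  obtain ⟨ρ0, hρ0⟩ : ∃ ρ0 : ℕ, 2 * 10 ^ 12 / p ≤ (ρ0 : ℝ) := exists_nat_ge _
  have hρ0p : (0 : ℝ) < ρ0 := lt_of_lt_of_le (by positivity) hρ0
  obtain ⟨n0, hcore⟩ := core (ε' / 4) (by positivity) (by linarith) ρ0
  obtain ⟨n1, hn1⟩ : ∃ n1 : ℕ, 6 / ε' ≤ (n1 : ℝ) := exists_nat_ge _
  obtain ⟨n2, hn2⟩ : ∃ n2 : ℕ, 1 / p ≤ (n2 : ℝ) := exists_nat_ge _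
  refine ⟨n0 + n1 + n2 + 3, fun n hn => ?_⟩
  have hnR : (3 : ℝ) ≤ n := by
    have : 3 ≤ n := by omega
    exact_mod_cast this
  have hn1' : 6 / ε' ≤ (n : ℝ) := by
    refine hn1.trans ?_
    have : n1 ≤ n := by omega
    exact_mod_cast this
  have hn2' : 1 / p < (n : ℝ) := by
    refine lt_of_le_of_lt hn2 ?_
    have : n2 < n := by omega
    exact_mod_cast this
  have hpn : 1 < p * n := by rw [div_lt_iff₀ hpp] at hn2'; linarith
  obtain ⟨N1, hN1⟩ : ∃ N1 : ℕ, N1 = ⌈p * n⌉₊ := ⟨_, rfl⟩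
  have hN1ge : p * n ≤ N1 := by rw [hN1]; exact Nat.le_ceil _
  have hN1le : (N1 : ℝ) < p * n + 1 := by rw [hN1]; exact Nat.ceil_lt_add_one (by positivity)
  have hN12 : 2 ≤ N1 := by
    have h1 : (1 : ℝ) < N1 := lt_of_lt_of_le hpn hN1ge
    have h2 : 1 < N1 := by exact_mod_cast h1
    omega
  have hp12 : p ≤ 1 / 12 := by rw [hp]; linarith
  have hN1n : N1 < n := by
    have h1 : (N1 : ℝ) < n := by nlinarith
    exact_mod_cast h1
  have : Nonempty (Fin n) := ⟨⟨0, by omega⟩⟩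
  obtain ⟨Ω, hΩ, hΩ', Out, hC, hOut⟩ := hcore n (by omega)
  obtain ⟨F, hF, hF'⟩ := net_exists n N1 (by omega) hN1n
  refine ⟨(3 * N1 + ⌊ε' / 4 * n⌋₊) * n, ?_, ?_⟩
  · have h1 : (⌊ε' / 4 * n⌋₊ : ℝ) ≤ ε' / 4 * n := Nat.floor_le (by positivity)
    have h2 : 6 ≤ ε' * n := by
      rw [div_le_iff₀ hε'] at hn1'; linarith
    have h3 : (3 * N1 + ⌊ε' / 4 * n⌋₊ : ℝ) ≤ ε * n := by
      have h4 : p * n = ε' * n / 12 := by rw [hp]; ring
      have h5 : ε' * n ≤ ε * n := mul_le_mul_of_nonneg_right hε'ε (by positivity)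
      nlinarith
    push_cast
    calc (3 * (N1 : ℝ) + ⌊ε' / 4 * n⌋₊) * n ≤ (ε * n) * n :=
          mul_le_mul_of_nonneg_right h3 (by positivity)
      _ = ε * (n : ℝ) ^ 2 := by ring
  · apply bridge n (3 * N1 + ⌊ε' / 4 * n⌋₊) Ω (1 / 10 ^ 9)
      (fun ω d => fin ((F d).2 / ρ0)
        (Out ω (F d).1 (fun u v => ⌈d u v / ((F d).2 / ρ0)⌉₊)))
    · intro ω
      have hb := comp_bind' (P := RMet (n := n))
        (G := fun (a : Finset (Fin n) × ℝ) (d : Fin n → Fin n → ℝ) =>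
          fin (a.2 / ρ0) (Out ω a.1 (fun u v => ⌈d u v / (a.2 / ρ0)⌉₊)))
        (Q := fun a => a.1.card = N1 ∧ 0 < a.2) hF
        (q' := 2 * N1 + ⌊ε' / 4 * n⌋₊)
        (fun d hd => ⟨(hF' d hd).1, (hF' d hd).2.1⟩) (by
          rintro ⟨N, ρ⟩ ⟨hN, hρ⟩
          simp only at hN hρ
          have hu : 0 < ρ / ρ0 := div_pos hρ hρ0p
          have h1 := comp_comap (P := RMet (n := n)) (P' := NMet (V := Fin n))
            (fun (v : Fin n) (row : Fin n → ℝ) (u : Fin n) => ⌈row u / (ρ / ρ0)⌉₊)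
            (hC ω N) (fun d hd => rnd_met d hd _ hu)
          rw [hN] at h1
          exact comp_map h1 (fun o => fin (ρ / ρ0) o))
      exact comp_mono hb (by omega)
    · intro d hd
      obtain ⟨hcard, hpos, hsep, hcov⟩ := hF' d hd
      obtain ⟨u0, hu0⟩ : ∃ u0 : ℝ, u0 = (F d).2 / ρ0 := ⟨_, rfl⟩
      have hu0p : 0 < u0 := by rw [hu0]; exact div_pos hpos hρ0p
      have hF2 : (F d).2 = u0 * ρ0 := by rw [hu0]; field_simp
      rw [← hu0]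
      have hdm : NMet (fun u v : Fin n => ⌈d u v / u0⌉₊) := rnd_met d hd u0 hu0p
      obtain ⟨T⟩ := exists_mtree (fun u v : Fin n => ⌈d u v / u0⌉₊) hdm.symm
      have hsep' : ∀ u ∈ (F d).1, ∀ v ∈ (F d).1, u ≠ v → ρ0 ≤ ⌈d u v / u0⌉₊ := by
        intro u hu v hv huv
        have h1 := hsep u hu v hv huv
        rw [hF2] at h1
        have h2 : (ρ0 : ℝ) ≤ d u v / u0 := by
          rw [le_div_iff₀ hu0p]; linarith
        have h3 : (ρ0 : ℝ) ≤ (⌈d u v / u0⌉₊ : ℝ) := h2.trans (Nat.le_ceil _)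
        exact_mod_cast h3
      have hcov' : ∀ v, ∃ a ∈ (F d).1, ⌈d v a / u0⌉₊ ≤ ρ0 := by
        intro v
        obtain ⟨a, ha, hva⟩ := hcov v
        refine ⟨a, ha, ?_⟩
        rw [hF2] at hva
        apply Nat.ceil_le.2
        rw [div_le_iff₀ hu0p]
        linarith
      have hw2 := sep_weight hdm T (F d).1 (by rw [hcard]; exact hN12) ρ0 hsep'
      rw [hcard] at hw2
      have hw : (10 : ℝ) ^ 12 * n ≤ T.w := by
        have h1 : (N1 : ℝ) * ρ0 ≤ 2 * T.w := by exact_mod_cast hw2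
        have h2 : 2 * 10 ^ 12 ≤ ρ0 * p := by rwa [div_le_iff₀ hpp] at hρ0
        have h3 : p * n * ρ0 ≤ N1 * ρ0 := mul_le_mul_of_nonneg_right hN1ge hρ0p.le
        nlinarith
      have hg := hOut (fun u v : Fin n => ⌈d u v / u0⌉₊) hdm T (F d).1 hcov' hw
      have hg2 := pr_good _ hg
      refine hg2.trans ?_
      apply Nat.mul_le_mul_left
      apply card_le_card
      intro ω hω
      rw [mem_filter] at hω ⊢
      exact ⟨mem_univ _, fin_good d hd u0 hu0p T hw _ hω.2⟩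

end H82.TQ
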